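import Pool.Agent.Helper34.CA.St

/-!
# Project CA (MP_87fff7_nt), module BadT

E6. `BadT`. A bad quadruple has `i ≠ j` with `t_i = t_j`, or a prime `p > w` dividing
`t_i - 1` and `t_j - 1`, or `t_i ∣ t_j - 1` (a prime `t_i` dividing `DD w t` divides some
`t_j - 1`, `j ≠ i`). Sums: `∑_{ℓ ≤ x} 1/ℓ ≤ 1+log x`; `∑_{ℓ>√x} 1/ℓ² ≤ 2/√x ≤ 2/w`;
`∑_{ℓ ≤ x, ℓ ≡ 1 mod p} 1/ℓ ≤ (1+log x)/p` and `∑_{p>w} 1/p² ≤ 2/w`. Total
`≤ (6·2 + 6·2 + 12·2)(1+log x)^4/w`.
-/

set_option autoImplicit false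

open Finset Filter Topology
open scoped ArithmeticFunction.vonMangoldt

namespace Pool.Agent.Helper34.CA

open Pool.Agent.Helper18.BV

namespace BadTAux

theorem sq_tail (z : ℝ) (hz : 0 < z) (S : Finset ℕ) (hS : ∀ a ∈ S, z < (a : ℝ)) :
    ∑ a ∈ S, 1 / (a : ℝ) ^ 2 ≤ 2 / z := by
  have hsub : S ⊆ Ioo ⌊z⌋₊ (S.sup id + 1) := by
    intro a ha
    rw [Finset.mem_Ioo]
    refine ⟨(Nat.floor_lt hz.le).2 (hS a ha), ?_⟩
    have := Finset.le_sup (f := id) ha
    simp only [id] at this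
    exact Nat.lt_succ_of_le this
  calc ∑ a ∈ S, 1 / (a : ℝ) ^ 2 ≤ ∑ a ∈ Ioo ⌊z⌋₊ (S.sup id + 1), 1 / (a : ℝ) ^ 2 :=
        Finset.sum_le_sum_of_subset_of_nonneg hsub (fun _ _ _ => by positivity)
    _ = ∑ a ∈ Ioo ⌊z⌋₊ (S.sup id + 1), ((a : ℝ) ^ 2)⁻¹ := by
        simp only [one_div]
    _ ≤ 2 / ((⌊z⌋₊ : ℝ) + 1) := sum_Ioo_inv_sq_le _ _
    _ ≤ 2 / z := by
        apply div_le_div_of_nonneg_left (by norm_num) hz
        exact (Nat.lt_floor_add_one z).le

theorem Hsum (x : ℝ) (hx : 1 ≤ x) :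
    ∑ k ∈ Icc 1 ⌊x⌋₊, 1 / (k : ℝ) ≤ 1 + Real.log x := by
  have h := harmonic_floor_le_one_add_log x hx
  rw [harmonic_eq_sum_Icc] at h
  push_cast at h
  simpa only [one_div] using h

theorem cong_sum (x : ℝ) (hx : 1 ≤ x) (p : ℕ) (hp : 1 ≤ p) (S : Finset ℕ)
    (hS : ∀ a ∈ S, (a : ℝ) ≤ x ∧ 2 ≤ a ∧ p ∣ a - 1) :
    ∑ a ∈ S, 1 / (a : ℝ) ≤ (1 + Real.log x) / p := by
  have hp' : (0 : ℝ) < p := by exact_mod_cast hp
  set g : ℕ → ℕ := fun a => (a - 1) / p with hg
  have key : ∀ a ∈ S, a = p * g a + 1 ∧ 1 ≤ g a := by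
    intro a ha
    obtain ⟨h1, h2, c, hc⟩ := hS a ha
    have hgc : g a = c := by
      simp only [hg, hc]
      exact Nat.mul_div_cancel_left c hp
    rw [hgc]
    refine ⟨by omega, ?_⟩
    rcases Nat.eq_zero_or_pos c with h | h
    · subst h; omega
    · exact h
  have hinj : Set.InjOn g S := by
    intro a ha b hb hab
    rw [(key a ha).1, (key b hb).1, hab]
  calc ∑ a ∈ S, 1 / (a : ℝ) ≤ ∑ a ∈ S, (1 / (p : ℝ)) * (1 / (g a : ℝ)) := by
        apply Finset.sum_le_sum
        intro a ha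
        have h1 := (key a ha).1
        have h2 : (1 : ℝ) ≤ g a := by exact_mod_cast (key a ha).2
        have h3 : (a : ℝ) = p * g a + 1 := by
          have := congrArg (fun n : ℕ => (n : ℝ)) h1
          push_cast at this
          exact this
        rw [one_div_mul_one_div]
        apply one_div_le_one_div_of_le
        · positivity
        · rw [h3]; linarith
    _ = ∑ k ∈ S.image g, (1 / (p : ℝ)) * (1 / (k : ℝ)) := by
        rw [Finset.sum_image hinj]
    _ ≤ ∑ k ∈ Icc 1 ⌊x⌋₊, (1 / (p : ℝ)) * (1 / (k : ℝ)) := by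
        apply Finset.sum_le_sum_of_subset_of_nonneg
        · intro k hk
          obtain ⟨a, ha, rfl⟩ := Finset.mem_image.1 hk
          rw [Finset.mem_Icc]
          refine ⟨(key a ha).2, ?_⟩
          apply Nat.le_floor
          have h0 : g a ≤ a := by
            have h1 := (key a ha).1
            have : g a ≤ p * g a := Nat.le_mul_of_pos_left _ hp
            omega
          have : (g a : ℝ) ≤ a := by exact_mod_cast h0
          exact this.trans (hS a ha).1
        · intro _ _ _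
          positivity
    _ = (1 / (p : ℝ)) * ∑ k ∈ Icc 1 ⌊x⌋₊, 1 / (k : ℝ) := by
        rw [Finset.mul_sum]
    _ ≤ (1 / (p : ℝ)) * (1 + Real.log x) := by
        apply mul_le_mul_of_nonneg_left (Hsum x hx)
        positivity
    _ = (1 + Real.log x) / p := by ring

theorem prod_ite (i j : Fin 4) (hij : i ≠ j) (A B H : ℝ) :
    ∏ k : Fin 4, (if k = i then A else if k = j then B else H) = A * B * H ^ 2 := by
  fin_cases i <;> fin_cases j <;> first | exact absurd rfl hij | (simp [Fin.prod_univ_four]; try ring)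

theorem pair_sum (i j : Fin 4) (hij : i ≠ j) (S : Finset ℕ) (L : ℝ)
    (hL : ∑ a ∈ S, 1 / (a : ℝ) ≤ L) (T : Finset (Fin 4 → ℕ)) (P : Finset (ℕ × ℕ))
    (hT : ∀ t ∈ T, (∀ k, t k ∈ S) ∧ (t i, t j) ∈ P) :
    ∑ t ∈ T, ∏ k, (1 / (t k : ℝ)) ≤ (∑ p ∈ P, (1 / (p.1 : ℝ)) * (1 / (p.2 : ℝ))) * L ^ 2 := by
  classical
  have h0 : 0 ≤ ∑ a ∈ S, 1 / (a : ℝ) := Finset.sum_nonneg (fun _ _ => by positivity)
  rw [← Finset.sum_fiberwise_of_maps_to (s := T) (t := P) (g := fun t => (t i, t j))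
    (fun t ht => (hT t ht).2), Finset.sum_mul]
  apply Finset.sum_le_sum
  intro p hp
  have hsub : T.filter (fun t => (t i, t j) = p) ⊆
      Fintype.piFinset (fun k : Fin 4 => if k = i then {p.1} else if k = j then {p.2} else S) := by
    intro t ht
    rw [Finset.mem_filter] at ht
    rw [Fintype.mem_piFinset]
    intro k
    obtain ⟨ht1, ht2⟩ := ht
    by_cases hki : k = i
    · subst hki
      simp [← ht2]
    · by_cases hkj : k = j
      · subst hkj
        simp [hki, ← ht2]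
      · simp only [hki, hkj, if_false]
        exact (hT t ht1).1 k
  calc ∑ t ∈ T.filter (fun t => (t i, t j) = p), ∏ k, (1 / (t k : ℝ))
      ≤ ∑ t ∈ Fintype.piFinset
          (fun k : Fin 4 => if k = i then {p.1} else if k = j then {p.2} else S),
          ∏ k, (1 / (t k : ℝ)) :=
        Finset.sum_le_sum_of_subset_of_nonneg hsub
          (fun _ _ _ => Finset.prod_nonneg (fun _ _ => by positivity))
    _ = ∏ k : Fin 4, ∑ a ∈ (if k = i then {p.1} else if k = j then {p.2} else S),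
          (1 / (a : ℝ)) := by
        rw [Finset.prod_univ_sum]
    _ = ∏ k : Fin 4, (if k = i then (1 / (p.1 : ℝ)) else if k = j then (1 / (p.2 : ℝ)) else
          ∑ a ∈ S, 1 / (a : ℝ)) := by
        apply Finset.prod_congr rfl
        intro k _
        by_cases hki : k = i
        · simp [hki]
        · by_cases hkj : k = j
          · subst hkj
            simp [hki]
          · simp [hki, hkj]
    _ = (1 / (p.1 : ℝ)) * (1 / (p.2 : ℝ)) * (∑ a ∈ S, 1 / (a : ℝ)) ^ 2 := prod_ite i j hij _ _ _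
    _ ≤ (1 / (p.1 : ℝ)) * (1 / (p.2 : ℝ)) * L ^ 2 := by
        apply mul_le_mul_of_nonneg_left
        · exact pow_le_pow_left₀ h0 hL 2
        · positivity

/-- the relation of the bad pairs -/
def Q (w : ℝ) (a b : ℕ) : Prop :=
  a = b ∨ (∃ p : ℕ, p.Prime ∧ w < p ∧ p ∣ a - 1 ∧ p ∣ b - 1) ∨ a ∣ b - 1

theorem bad_pair (x y w : ℝ) (M : ℕ) (t : Fin 4 → ℕ)
    (hN : ∀ i, NiceP x y w M (t i)) (hA : ¬ Adm w t) :
    ∃ i j : Fin 4, i ≠ j ∧ Q w (t i) (t j) := by
  classical
  have hdvd : ∀ (m p : ℕ), p.Prime → p ∣ rgh w m → p ∣ m ∧ w < (p : ℝ) := by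
    intro m p hp hd
    unfold rgh at hd
    rw [hp.prime.dvd_finsetProd_iff] at hd
    obtain ⟨q, hq, hqd⟩ := hd
    rw [Finset.mem_filter] at hq
    have hqp := Nat.prime_of_mem_primeFactors hq.1
    have : p = q := (Nat.prime_dvd_prime_iff_eq hp hqp).1 (hp.dvd_of_dvd_pow hqd)
    subst this
    exact ⟨Nat.dvd_of_mem_primeFactors hq.1, hq.2⟩
  unfold Adm at hA
  rw [not_and_or] at hA
  rcases hA with hA | hA
  · push Not at hA
    obtain ⟨i, j, hij, h⟩ := hA
    refine ⟨i, j, hij, ?_⟩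
    by_cases he : t i = t j
    · exact Or.inl he
    · have := h he
      obtain ⟨p, hp, h1, h2⟩ := Nat.Prime.not_coprime_iff_dvd.1 this
      exact Or.inr (Or.inl ⟨p, hp, (hdvd _ p hp h1).2, (hdvd _ p hp h1).1, (hdvd _ p hp h2).1⟩)
  · rw [Nat.Prime.not_coprime_iff_dvd] at hA
    obtain ⟨p, hp, h1, h2⟩ := hA
    rw [hp.prime.dvd_finsetProd_iff] at h1
    obtain ⟨i, -, hi⟩ := h1
    unfold DD at h2
    rw [hp.prime.dvd_finsetProd_iff] at h2
    obtain ⟨j, -, hj⟩ := h2
    have hpi : p = t i := (Nat.prime_dvd_prime_iff_eq hp (hN i).1).1 hi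
    have hpj := (hdvd _ p hp hj).1
    rw [hpi] at hpj
    refine ⟨i, j, ?_, Or.inr (Or.inr hpj)⟩
    rintro rfl
    have h3 := (hN i).1.two_le
    have := Nat.le_of_dvd (by omega) hpj
    omega

end BadTAux

open BadTAux

theorem badT : BadT := by
  classical
  intro x y w M hx hy hyw hwx hM T hT
  have hw1 : 1 < w := lt_of_le_of_lt hy hyw
  have hw0 : 0 < w := by linarith
  set z : ℝ := x ^ (1 / 2 : ℝ) with hz
  have hz0 : 0 < z := lt_of_lt_of_le hw0 hwx
  set L : ℝ := 1 + Real.log x with hLdef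
  have hL1 : 1 ≤ L := by
    have : 0 ≤ Real.log x := Real.log_nonneg (by linarith)
    linarith
  set S : Finset ℕ := (Icc 1 ⌊x⌋₊).filter (fun ℓ => z < (ℓ : ℝ)) with hSdef
  have hS : ∀ a ∈ S, 2 ≤ a ∧ (a : ℝ) ≤ x ∧ z < (a : ℝ) := by
    intro a ha
    rw [hSdef, Finset.mem_filter, Finset.mem_Icc] at ha
    refine ⟨?_, (Nat.le_floor_iff (by linarith)).1 ha.1.2, ha.2⟩
    have : (1 : ℝ) < a := by linarith [ha.2]
    have : 1 < a := by exact_mod_cast this
    omega
  have hSsum : ∑ a ∈ S, 1 / (a : ℝ) ≤ L :=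
    (Finset.sum_le_sum_of_subset_of_nonneg (Finset.filter_subset _ _)
      (fun _ _ _ => by positivity)).trans (Hsum x (by linarith))
  have hSsq : ∑ a ∈ S, 1 / (a : ℝ) ^ 2 ≤ 2 / w :=
    (sq_tail z hz0 S (fun a ha => (hS a ha).2.2)).trans
      (div_le_div_of_nonneg_left (by norm_num) hw0 hwx)
  have hcong : ∀ p : ℕ, 1 ≤ p → ∑ a ∈ S.filter (fun a => p ∣ a - 1), 1 / (a : ℝ) ≤ L / p := by
    intro p hp
    apply cong_sum x (by linarith) p hp
    intro a ha
    rw [Finset.mem_filter] at ha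
    exact ⟨(hS a ha.1).2.1, (hS a ha.1).1, ha.2⟩
  set f : ℕ × ℕ → ℝ := fun p => (1 / (p.1 : ℝ)) * (1 / (p.2 : ℝ)) with hf
  have hf0 : ∀ p, 0 ≤ f p := fun p => by simp only [hf]; positivity
  set P : Finset (ℕ × ℕ) := (S ×ˢ S).filter (fun p => Q w p.1 p.2) with hP
  -- the pair sum
  have hP1 : ∑ p ∈ (S ×ˢ S).filter (fun p => p.1 = p.2), f p ≤ 2 / w := by
    have : (S ×ˢ S).filter (fun p => p.1 = p.2) = S.image (fun a => (a, a)) := by
      ext ⟨a, b⟩
      simp only [Finset.mem_filter, Finset.mem_product, Finset.mem_image, Prod.mk.injEq]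
      constructor
      · rintro ⟨⟨h1, -⟩, h3⟩
        exact ⟨a, h1, rfl, h3⟩
      · rintro ⟨c, hc, rfl, rfl⟩
        exact ⟨⟨hc, hc⟩, rfl⟩
    rw [this, Finset.sum_image (by intro a _ b _ h; exact (Prod.mk.inj h).1)]
    refine le_trans (le_of_eq ?_) hSsq
    apply Finset.sum_congr rfl
    intro a _
    simp only [hf]
    rw [one_div_mul_one_div, sq]
  have hP3 : ∑ p ∈ (S ×ˢ S).filter (fun p => p.1 ∣ p.2 - 1), f p ≤ L * (2 / w) := by
    rw [Finset.sum_filter, Finset.sum_product]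
    calc ∑ a ∈ S, ∑ b ∈ S, (if a ∣ b - 1 then f (a, b) else 0)
        = ∑ a ∈ S, (1 / (a : ℝ)) * ∑ b ∈ S.filter (fun b => a ∣ b - 1), 1 / (b : ℝ) := by
          apply Finset.sum_congr rfl
          intro a _
          rw [← Finset.sum_filter, Finset.mul_sum]
      _ ≤ ∑ a ∈ S, (1 / (a : ℝ)) * (L / a) := by
          apply Finset.sum_le_sum
          intro a ha
          apply mul_le_mul_of_nonneg_left (hcong a (by have := (hS a ha).1; omega))
          positivity
      _ = L * ∑ a ∈ S, 1 / (a : ℝ) ^ 2 := by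
          rw [Finset.mul_sum]
          apply Finset.sum_congr rfl
          intro a _
          ring
      _ ≤ L * (2 / w) := mul_le_mul_of_nonneg_left hSsq (by linarith)
  have hP2 : ∑ p ∈ (S ×ˢ S).filter
      (fun p => ∃ q : ℕ, q.Prime ∧ w < q ∧ q ∣ p.1 - 1 ∧ q ∣ p.2 - 1), f p ≤ L ^ 2 * (2 / w) := by
    set Pr : Finset ℕ := (Icc 1 ⌊x⌋₊).filter (fun q => w < (q : ℝ)) with hPr
    calc ∑ p ∈ (S ×ˢ S).filter
          (fun p => ∃ q : ℕ, q.Prime ∧ w < q ∧ q ∣ p.1 - 1 ∧ q ∣ p.2 - 1), f p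
        ≤ ∑ p ∈ (S ×ˢ S), ∑ q ∈ Pr, (if q ∣ p.1 - 1 ∧ q ∣ p.2 - 1 then f p else 0) := by
          rw [Finset.sum_filter]
          apply Finset.sum_le_sum
          intro p hp
          rw [Finset.mem_product] at hp
          split_ifs with h
          · obtain ⟨q, hq, hwq, h1, h2⟩ := h
            have hqPr : q ∈ Pr := by
              rw [hPr, Finset.mem_filter, Finset.mem_Icc]
              refine ⟨⟨hq.one_lt.le, ?_⟩, hwq⟩
              have h3 := hS p.1 hp.1
              have h4 := Nat.le_of_dvd (by omega) h1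
              apply Nat.le_floor
              have h5 : q ≤ p.1 := by omega
              have : (q : ℝ) ≤ p.1 := by exact_mod_cast h5
              linarith
            calc f p = (if q ∣ p.1 - 1 ∧ q ∣ p.2 - 1 then f p else 0) := by
                  rw [if_pos ⟨h1, h2⟩]
              _ ≤ _ := Finset.single_le_sum
                  (f := fun q => if q ∣ p.1 - 1 ∧ q ∣ p.2 - 1 then f p else 0)
                  (fun q _ => by
                    show 0 ≤ (if q ∣ p.1 - 1 ∧ q ∣ p.2 - 1 then f p else 0)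
                    split_ifs
                    · exact hf0 p
                    · exact le_rfl) hqPr
          · apply Finset.sum_nonneg
            intro q _
            split_ifs
            · exact hf0 p
            · exact le_rfl
      _ = ∑ q ∈ Pr, (∑ a ∈ S.filter (fun a => q ∣ a - 1), 1 / (a : ℝ)) ^ 2 := by
          rw [Finset.sum_comm]
          apply Finset.sum_congr rfl
          intro q _
          have hfp : (S ×ˢ S).filter (fun p => q ∣ p.1 - 1 ∧ q ∣ p.2 - 1) =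
              S.filter (fun a => q ∣ a - 1) ×ˢ S.filter (fun a => q ∣ a - 1) := by
            ext p
            simp only [Finset.mem_filter, Finset.mem_product]
            tauto
          rw [← Finset.sum_filter, hfp, sq, Finset.sum_mul_sum, Finset.sum_product]
      _ ≤ ∑ q ∈ Pr, L ^ 2 * (1 / (q : ℝ) ^ 2) := by
          apply Finset.sum_le_sum
          intro q hq
          rw [hPr, Finset.mem_filter, Finset.mem_Icc] at hq
          have h1 := hcong q hq.1.1
          have h0 : 0 ≤ ∑ a ∈ S.filter (fun a => q ∣ a - 1), 1 / (a : ℝ) :=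
            Finset.sum_nonneg (fun _ _ => by positivity)
          calc (∑ a ∈ S.filter (fun a => q ∣ a - 1), 1 / (a : ℝ)) ^ 2 ≤ (L / q) ^ 2 :=
                pow_le_pow_left₀ h0 h1 2
            _ = L ^ 2 * (1 / (q : ℝ) ^ 2) := by ring
      _ = L ^ 2 * ∑ q ∈ Pr, 1 / (q : ℝ) ^ 2 := by rw [Finset.mul_sum]
      _ ≤ L ^ 2 * (2 / w) := by
          apply mul_le_mul_of_nonneg_left _ (by positivity)
          apply sq_tail w hw0
          intro a ha
          rw [hPr, Finset.mem_filter] at ha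
          exact ha.2
  have hPsum : ∑ p ∈ P, f p ≤ 6 * L ^ 2 / w := by
    have hsub : P ⊆ ((S ×ˢ S).filter (fun p => p.1 = p.2)) ∪
        (((S ×ˢ S).filter
          (fun p => ∃ q : ℕ, q.Prime ∧ w < q ∧ q ∣ p.1 - 1 ∧ q ∣ p.2 - 1)) ∪
        ((S ×ˢ S).filter (fun p => p.1 ∣ p.2 - 1))) := by
      intro p hp
      rw [hP, Finset.mem_filter] at hp
      rcases hp with ⟨h1, h2 | h2 | h2⟩
      · exact Finset.mem_union_left _ (Finset.mem_filter.2 ⟨h1, h2⟩)
      · exact Finset.mem_union_right _ (Finset.mem_union_left _ (Finset.mem_filter.2 ⟨h1, h2⟩))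
      · exact Finset.mem_union_right _ (Finset.mem_union_right _ (Finset.mem_filter.2 ⟨h1, h2⟩))
    have hun : ∀ A B : Finset (ℕ × ℕ), ∑ p ∈ A ∪ B, f p ≤ ∑ p ∈ A, f p + ∑ p ∈ B, f p := by
      intro A B
      rw [← Finset.sum_union_inter]
      have : 0 ≤ ∑ p ∈ A ∩ B, f p := Finset.sum_nonneg (fun p _ => hf0 p)
      linarith
    have h1 := Finset.sum_le_sum_of_subset_of_nonneg hsub (fun p _ _ => hf0 p)
    have h2 := h1.trans (hun _ _)
    have h3 := hun ((S ×ˢ S).filter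
          (fun p => ∃ q : ℕ, q.Prime ∧ w < q ∧ q ∣ p.1 - 1 ∧ q ∣ p.2 - 1))
        ((S ×ˢ S).filter (fun p => p.1 ∣ p.2 - 1))
    have h4 : 2 / w + (L ^ 2 * (2 / w) + L * (2 / w)) ≤ 6 * L ^ 2 / w := by
      have : 6 * L ^ 2 / w - (2 / w + (L ^ 2 * (2 / w) + L * (2 / w))) =
          (4 * L ^ 2 - 2 - 2 * L) / w := by
        field_simp
        ring
      have h5 : 0 ≤ (4 * L ^ 2 - 2 - 2 * L) / w := by
        apply div_nonneg _ hw0.le
        nlinarith
      linarith
    linarith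
  -- each pair of places
  have hpl : ∀ i j : Fin 4, i ≠ j →
      ∑ t ∈ T.filter (fun t => Q w (t i) (t j)), ∏ k, (1 / (t k : ℝ)) ≤ 6 * L ^ 4 / w := by
    intro i j hij
    have h1 := pair_sum i j hij S L hSsum (T.filter (fun t => Q w (t i) (t j))) P (by
      intro t ht
      rw [Finset.mem_filter] at ht
      have hk : ∀ k, t k ∈ S := by
        intro k
        obtain ⟨hpr, h1, h2, -⟩ := (hT t ht.1).1 k
        rw [hSdef, Finset.mem_filter, Finset.mem_Icc]
        exact ⟨⟨hpr.one_lt.le, Nat.le_floor h2⟩, h1⟩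
      refine ⟨hk, ?_⟩
      rw [hP, Finset.mem_filter, Finset.mem_product]
      exact ⟨⟨hk i, hk j⟩, ht.2⟩)
    refine h1.trans ?_
    calc (∑ p ∈ P, (1 / (p.1 : ℝ)) * (1 / (p.2 : ℝ))) * L ^ 2 ≤ (6 * L ^ 2 / w) * L ^ 2 :=
          mul_le_mul_of_nonneg_right hPsum (by positivity)
      _ = 6 * L ^ 4 / w := by ring
  have hg0 : ∀ t : Fin 4 → ℕ, 0 ≤ ∏ k, (1 / (t k : ℝ)) :=
    fun t => Finset.prod_nonneg (fun _ _ => by positivity)
  calc ∑ t ∈ T, ∏ i, (1 / (t i : ℝ))
      ≤ ∑ t ∈ T, ∑ p ∈ (univ : Finset (Fin 4)).offDiag,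
          (if Q w (t p.1) (t p.2) then ∏ i, (1 / (t i : ℝ)) else 0) := by
        apply Finset.sum_le_sum
        intro t ht
        obtain ⟨i, j, hij, hq⟩ := bad_pair x y w M t (hT t ht).1 (hT t ht).2
        calc ∏ i, (1 / (t i : ℝ)) =
              (if Q w (t (i, j).1) (t (i, j).2) then ∏ i, (1 / (t i : ℝ)) else 0) := by
              rw [if_pos hq]
          _ ≤ _ := Finset.single_le_sum
              (f := fun p : Fin 4 × Fin 4 =>
                if Q w (t p.1) (t p.2) then ∏ i, (1 / (t i : ℝ)) else 0)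
              (fun p _ => by
                show 0 ≤ (if Q w (t p.1) (t p.2) then ∏ i, (1 / (t i : ℝ)) else 0)
                split_ifs
                · exact hg0 t
                · exact le_rfl)
              (Finset.mem_offDiag.2 ⟨Finset.mem_univ _, Finset.mem_univ _, hij⟩)
    _ = ∑ p ∈ (univ : Finset (Fin 4)).offDiag,
          ∑ t ∈ T.filter (fun t => Q w (t p.1) (t p.2)), ∏ k, (1 / (t k : ℝ)) := by
        rw [Finset.sum_comm]
        apply Finset.sum_congr rfl
        intro p _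
        rw [Finset.sum_filter]
    _ ≤ ∑ p ∈ (univ : Finset (Fin 4)).offDiag, 6 * L ^ 4 / w := by
        apply Finset.sum_le_sum
        intro p hp
        exact hpl p.1 p.2 (Finset.mem_offDiag.1 hp).2.2
    _ = 12 * (6 * L ^ 4 / w) := by
        rw [Finset.sum_const, nsmul_eq_mul]
        norm_num [Finset.offDiag_card]
    _ ≤ 100 * L ^ 4 / w := by
        have : 100 * L ^ 4 / w - 12 * (6 * L ^ 4 / w) = 28 * L ^ 4 / w := by ring
        have h2 : 0 ≤ 28 * L ^ 4 / w := by positivity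
        linarith

end Pool.Agent.Helper34.CA
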