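import Pool.Agent.Helper34.CA.St

/-!
# Project CA (MP_87fff7_nt), module BrunPure

C1. `BrunPure`. Let `t` be the number of `p ∈ P` dividing `m`; the sum is
`∑_{j ≤ r} (-1)^j C(t,j)` (`∏_{p ∈ T} p ∣ m` iff all `p ∈ T` divide `m`), which is `1` for `t = 0`
and `(-1)^r C(t-1,r)` for `t ≥ 1` (`Int.alternating_sum_range_choose`-type lemma), and
`C(t-1,r) ≤ C(t,r+1)` if `r + 1 ≤ t`, else it is `0`.
-/

set_option autoImplicit false

open Finset Filter Topology
open scoped ArithmeticFunction.vonMangoldt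

namespace Pool.Agent.Helper34.CA

open Pool.Agent.Helper18.BV

namespace BrunPureAux

lemma prod_dvd_iff {P : Finset ℕ} (hP : ∀ p ∈ P, p.Prime) (m : ℕ) {T : Finset ℕ} (hT : T ⊆ P) :
    (∏ p ∈ T, p) ∣ m ↔ ∀ p ∈ T, p ∣ m := by
  constructor
  · intro h p hp
    exact (Finset.dvd_prod_of_mem (fun p => p) hp).trans h
  · intro h
    exact Finset.prod_primes_dvd m (fun p hp => (hP p (hT hp)).prime) h

lemma filter_eq {P : Finset ℕ} (hP : ∀ p ∈ P, p.Prime) (m : ℕ) (c : ℕ → Prop)
    [DecidablePred c] :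
    P.powerset.filter (fun T => c T.card ∧ (∏ p ∈ T, p) ∣ m) =
      (P.filter (fun p => p ∣ m)).powerset.filter (fun T => c T.card) := by
  ext T
  simp only [mem_filter, mem_powerset]
  constructor
  · rintro ⟨hT, hc, hd⟩
    refine ⟨fun p hp => ?_, hc⟩
    rw [mem_filter]
    exact ⟨hT hp, (prod_dvd_iff hP m hT).1 hd p hp⟩
  · rintro ⟨hT, hc⟩
    have hT' : T ⊆ P := hT.trans (filter_subset _ _)
    refine ⟨hT', hc, (prod_dvd_iff hP m hT').2 fun p hp => ?_⟩
    exact (mem_filter.1 (hT hp)).2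

lemma sum_eq (Q : Finset ℕ) (r : ℕ) :
    ∑ T ∈ Q.powerset.filter (fun T => T.card ≤ r), (-1 : ℝ) ^ T.card =
      ∑ j ∈ range (r + 1), (-1 : ℝ) ^ j * (Q.card.choose j : ℝ) := by
  rw [← Finset.sum_fiberwise_of_maps_to (s := Q.powerset.filter (fun T => T.card ≤ r))
    (t := range (r + 1)) (g := fun T => T.card)
    (fun T hT => by
      rw [mem_filter] at hT
      rw [mem_range]
      omega)]
  refine Finset.sum_congr rfl fun j hj => ?_
  rw [mem_range] at hj
  have h1 : (Q.powerset.filter (fun T => T.card ≤ r)).filter (fun T => T.card = j) =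
      Q.powersetCard j := by
    ext T
    simp only [mem_filter, mem_powerset, mem_powersetCard]
    constructor
    · rintro ⟨⟨h1, _⟩, h3⟩
      exact ⟨h1, h3⟩
    · rintro ⟨h1, h3⟩
      exact ⟨⟨h1, by omega⟩, h3⟩
  rw [h1, Finset.sum_congr rfl (g := fun _ => (-1 : ℝ) ^ j) (fun T hT => by
    rw [(mem_powersetCard.1 hT).2]), Finset.sum_const, card_powersetCard, nsmul_eq_mul]
  ring

lemma card_eq (Q : Finset ℕ) (r : ℕ) :
    (Q.powerset.filter (fun T => T.card = r)).card = Q.card.choose r := by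
  rw [← card_powersetCard, powersetCard_eq_filter]

end BrunPureAux

open BrunPureAux in
theorem brunPure : BrunPure := by
  intro P hP m r _
  have e1 : P.powerset.filter (fun T => T.card ≤ r ∧ (∏ p ∈ T, p) ∣ m) =
      (P.filter (fun p => p ∣ m)).powerset.filter (fun T => T.card ≤ r) :=
    filter_eq hP m (fun k => k ≤ r)
  have e2 : P.powerset.filter (fun T => T.card = r + 1 ∧ (∏ p ∈ T, p) ∣ m) =
      (P.filter (fun p => p ∣ m)).powerset.filter (fun T => T.card = r + 1) :=
    filter_eq hP m (fun k => k = r + 1)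
  rw [e1, e2, sum_eq, BrunPureAux.card_eq]
  rcases Nat.eq_zero_or_pos (P.filter (fun p => p ∣ m)).card with h0 | h0
  · have hE : P.filter (fun p => p ∣ m) = ∅ := Finset.card_eq_zero.1 h0
    have hall : ∀ p ∈ P, ¬ p ∣ m := by
      intro p hp hd
      have : p ∈ P.filter (fun p => p ∣ m) := mem_filter.2 ⟨hp, hd⟩
      rw [hE] at this
      exact absurd this (notMem_empty p)
    rw [if_pos hall, h0]
    have h1 : ∑ j ∈ range (r + 1), (-1 : ℝ) ^ j * ((0 : ℕ).choose j : ℝ) = 1 := by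
      rw [Finset.sum_range_succ']
      simp
    rw [h1]
    simp
  · obtain ⟨n, hn⟩ : ∃ n, (P.filter (fun p => p ∣ m)).card = n + 1 :=
      ⟨(P.filter (fun p => p ∣ m)).card - 1, by omega⟩
    have hnall : ¬ ∀ p ∈ P, ¬ p ∣ m := by
      intro hall
      obtain ⟨p, hp⟩ := Finset.card_pos.1 h0
      rw [mem_filter] at hp
      exact hall p hp.1 hp.2
    rw [if_neg hnall, hn]
    have h1 : ∑ j ∈ range (r + 1), (-1 : ℝ) ^ j * ((n + 1).choose j : ℝ) =
        (-1 : ℝ) ^ r * (n.choose r : ℝ) := by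
      have := Int.alternating_sum_range_choose_eq_choose (n := n) (m := r)
      exact_mod_cast this
    rw [h1, zero_sub, abs_neg, abs_mul, abs_pow, abs_neg, abs_one, one_pow, one_mul,
      Nat.abs_cast]
    exact_mod_cast (by rw [Nat.choose_succ_succ]; omega : n.choose r ≤ (n + 1).choose (r + 1))

end Pool.Agent.Helper34.CA
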