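import Pool.Agent.Helper34.CA.St
import Pool.Agent.Helper33.KSZ.ZetaNear
import Pool.Agent.Helper81.BV.Small

/-!
# Project CA (MP_87fff7_nt), module Combos

A2. `Combos`. For `Re s > 1`: `-L'/L(s,χ) = ∑ Λ(n) χ(n) n^{-s}`
(`DirichletCharacter.LSeries_twist_vonMangoldt_eq`, see also `Helper81/BV/Small.lean`, `lseries_co`
with `k = 0`), `-ζ'/ζ(s) = ∑ Λ(n) n^{-s}`. `zeta`: `VV_bound`, `deriv_zeta_div` in
`Helper33/KSZ/ZetaNear.lean`. `c341`: `3 + 4 Re(χ(n) n^{-iγ}) + Re(χ(n)^2 n^{-2iγ}) ≥ 0`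
(`2(1+cos θ)^2` if `n` is coprime to `q`, `3` otherwise). `one`: `1 + Re χ(n) ≥ 0`.
`two`: `(1 + χ₁(n))(1 + χ₂(n)) ≥ 0`, the values are `0, 1, -1`.
-/

set_option autoImplicit false

open Finset Filter Topology
open scoped ArithmeticFunction.vonMangoldt

namespace Pool.Agent.Helper34.CA

open Pool.Agent.Helper18.BV

namespace CombosAux

open Pool.Agent.Helper33.KSZ Pool.Agent.Helper81.BV

/-- `Λ(n) n^{-σ}` -/
noncomputable def w (σ : ℝ) (n : ℕ) : ℝ := ‖LSeries.term Lam (σ : ℂ) n‖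

/-- `n^{-iγ}` -/
noncomputable def u (γ : ℝ) (n : ℕ) : ℂ := Complex.exp (-((γ * Real.log n : ℝ) : ℂ) * Complex.I)

theorem w_nonneg (σ : ℝ) (n : ℕ) : 0 ≤ w σ n := norm_nonneg _

theorem w_summable {σ : ℝ} (hσ : 1 < σ) : Summable (w σ) :=
  summable_term (s := (σ : ℂ)) (by simpa using hσ)

theorem u_norm (γ : ℝ) (n : ℕ) : ‖u γ n‖ = 1 := by
  unfold u
  rw [← Complex.ofReal_neg, Complex.norm_exp_ofReal_mul_I]

theorem u_zero (n : ℕ) : u 0 n = 1 := by
  unfold u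
  simp

theorem u_two (γ : ℝ) (n : ℕ) : u (2 * γ) n = u γ n ^ 2 := by
  unfold u
  rw [← Complex.exp_nat_mul]
  congr 1
  push_cast
  ring

theorem term_co {q : ℕ} (χ : DirichletCharacter ℂ q) (σ γ : ℝ) (n : ℕ) :
    LSeries.term (co 0 χ) (σ + γ * Complex.I) n = (w σ n : ℂ) * (χ (n : ZMod q) * u γ n) := by
  rcases eq_or_ne n 0 with rfl | hn
  · simp [w]
  · have h0 : w σ n = Λ n * Real.exp (-(σ * Real.log n)) := by
      unfold w
      obtain ⟨l, hl⟩ : ∃ l : ℝ, l = Real.log n := ⟨_, rfl⟩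
      rw [term_val hn, ← hl, norm_mul, Complex.norm_exp, Complex.norm_real, Real.norm_eq_abs,
        abs_of_nonneg ArithmeticFunction.vonMangoldt_nonneg]
      congr 2
      simp
    rw [LSeries.term_of_ne_zero hn, Complex.cpow_def_of_ne_zero (by exact_mod_cast hn), h0,
      ← Complex.natCast_log, div_eq_mul_inv, ← Complex.exp_neg]
    unfold co u
    rw [pow_zero, one_mul]
    push_cast
    have h1 : Complex.exp (-(((Real.log n : ℝ) : ℂ) * ((σ : ℂ) + γ * Complex.I))) =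
        Complex.exp (-((σ : ℂ) * ((Real.log n : ℝ) : ℂ))) *
          Complex.exp (-((γ : ℂ) * ((Real.log n : ℝ) : ℂ)) * Complex.I) := by
      rw [← Complex.exp_add]
      congr 1
      ring
    push_cast at h1
    rw [h1]
    ring

theorem co_summable {q : ℕ} [NeZero q] (χ : DirichletCharacter ℂ q) {s : ℂ} (hs : 1 < s.re) :
    Summable (fun n => LSeries.term (co 0 χ) s n) := by
  have h := DirichletCharacter.LSeriesSummable_twist_vonMangoldt χ hs
  have e : co 0 χ = (fun n : ℕ => χ (n : ZMod q)) * (fun n : ℕ => ((Λ n : ℝ) : ℂ)) := by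
    ext n
    simp [co]
  rw [e]
  exact h

theorem re_val {q : ℕ} (χ : DirichletCharacter ℂ q) (σ γ : ℝ) (n : ℕ) :
    (LSeries.term (co 0 χ) (σ + γ * Complex.I) n).re =
      w σ n * (χ (n : ZMod q) * u γ n).re := by
  rw [term_co, Complex.re_ofReal_mul]

theorem re_summable {q : ℕ} [NeZero q] (χ : DirichletCharacter ℂ q) {σ : ℝ} (hσ : 1 < σ)
    (γ : ℝ) : Summable (fun n => w σ n * (χ (n : ZMod q) * u γ n).re) := by
  have hs : 1 < ((σ : ℂ) + γ * Complex.I).re := by simpa using hσ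
  have h := Complex.reCLM.summable (co_summable χ hs)
  refine h.congr fun n => ?_
  exact re_val χ σ γ n

theorem LD_eq {q : ℕ} [NeZero q] (χ : DirichletCharacter ℂ q) {σ : ℝ} (hσ : 1 < σ) (γ : ℝ) :
    LD χ (σ + γ * Complex.I) = ∑' n : ℕ, w σ n * (χ (n : ZMod q) * u γ n).re := by
  have hs : 1 < ((σ : ℂ) + γ * Complex.I).re := by simpa using hσ
  have h1 := lseries_co 0 χ hs
  rw [pow_zero, one_mul, iteratedDeriv_zero] at h1
  unfold LD
  rw [← Complex.neg_re, ← h1]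
  unfold LSeries
  rw [Complex.re_tsum (co_summable χ hs)]
  exact tsum_congr fun n => re_val χ σ γ n

theorem ZD_eq {σ : ℝ} (hσ : 1 < σ) : ZD (σ : ℂ) = ∑' n : ℕ, w σ n := by
  have hs : 1 < ((σ : ℝ) : ℂ).re := by simpa using hσ
  unfold ZD
  rw [deriv_zeta_div hs, Complex.neg_re, neg_neg, ← VV_eq hσ]
  rfl

theorem norm_z {q : ℕ} (χ : DirichletCharacter ℂ q) (γ : ℝ) (n : ℕ) :
    ‖χ (n : ZMod q) * u γ n‖ ≤ 1 := by
  rw [norm_mul, u_norm, mul_one]
  exact DirichletCharacter.norm_le_one χ _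

theorem three (z : ℂ) (hz : ‖z‖ ≤ 1) : 0 ≤ 3 + 4 * z.re + (z ^ 2).re := by
  have h1 : (z ^ 2).re = z.re * z.re - z.im * z.im := by
    rw [pow_two, Complex.mul_re]
  have h2 : z.re * z.re + z.im * z.im ≤ 1 := by
    have h3 := Complex.normSq_eq_norm_sq z
    rw [Complex.normSq_apply] at h3
    rw [h3]
    nlinarith [norm_nonneg z]
  rw [h1]
  nlinarith [sq_nonneg (1 + z.re)]

theorem real_val {q : ℕ} [NeZero q] (χ : DirichletCharacter ℂ q) (h : χ ^ 2 = 1) (n : ℕ) :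
    ∃ a : ℝ, χ (n : ZMod q) = (a : ℂ) ∧ -1 ≤ a := by
  by_cases hu : IsUnit (n : ZMod q)
  · have h1 : χ (n : ZMod q) ^ 2 = 1 := by
      rw [← MulChar.pow_apply' χ (by norm_num), h, MulChar.one_apply hu]
    have h2 : (χ (n : ZMod q) - 1) * (χ (n : ZMod q) + 1) = 0 := by
      linear_combination h1
    rcases mul_eq_zero.1 h2 with h3 | h3
    · exact ⟨1, by push_cast; linear_combination h3, by norm_num⟩
    · exact ⟨-1, by push_cast; linear_combination h3, by norm_num⟩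
  · exact ⟨0, by rw [MulChar.map_nonunit χ hu]; simp, by norm_num⟩

end CombosAux

open CombosAux

theorem combos : Combos := by
  refine ⟨?_, ?_, ?_, ?_⟩
  · obtain ⟨C, hC, h⟩ := Pool.Agent.Helper33.KSZ.VV_bound
    refine ⟨C, hC, fun δ h0 h1 => ?_⟩
    have h2 := h (1 + δ) (by linarith) (by linarith)
    rw [add_sub_cancel_left] at h2
    have h3 : (1 : ℂ) + (δ : ℂ) = ((1 + δ : ℝ) : ℂ) := by push_cast; ring
    rw [h3, ZD_eq (by linarith)]
    exact h2
  · intro q _ χ δ γ h0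
    have hσ : 1 < 1 + δ := by linarith
    have h3 : (1 : ℂ) + (δ : ℂ) = ((1 + δ : ℝ) : ℂ) := by push_cast; ring
    rw [h3, ZD_eq hσ, LD_eq χ hσ γ, LD_eq (χ ^ 2) hσ (2 * γ), ← tsum_mul_left, ← tsum_mul_left,
      ← ((w_summable hσ).mul_left 3).tsum_add ((re_summable χ hσ γ).mul_left 4),
      ← (((w_summable hσ).mul_left 3).add ((re_summable χ hσ γ).mul_left 4)).tsum_add
        (re_summable (χ ^ 2) hσ (2 * γ))]
    refine tsum_nonneg fun n => ?_
    have h4 : (χ ^ 2) (n : ZMod q) * u (2 * γ) n = (χ (n : ZMod q) * u γ n) ^ 2 := by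
      rw [MulChar.pow_apply' χ (by norm_num), u_two]
      ring
    have h5 := three (χ (n : ZMod q) * u γ n) (norm_z χ γ n)
    rw [h4]
    have h6 := mul_nonneg (w_nonneg (1 + δ) n) h5
    linarith
  · intro q _ χ δ h0 _
    have hσ : 1 < 1 + δ := by linarith
    have h3 : (1 : ℂ) + (δ : ℂ) = ((1 + δ : ℝ) : ℂ) := by push_cast; ring
    have h4 := LD_eq χ hσ 0
    rw [Complex.ofReal_zero, zero_mul, add_zero] at h4
    rw [h3, ZD_eq hσ, h4, ← (w_summable hσ).tsum_add (re_summable χ hσ 0)]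
    refine tsum_nonneg fun n => ?_
    have h5 := norm_z χ 0 n
    have h6 := (abs_le.1 ((Complex.abs_re_le_norm _).trans h5)).1
    have h7 := mul_nonneg (w_nonneg (1 + δ) n)
      (show 0 ≤ 1 + (χ (n : ZMod q) * u 0 n).re by linarith)
    linarith
  · intro q₁ q₂ q₃ _ _ _ χ₁ χ₂ χ₃ δ h0 hc1 hc2 h
    have hσ : 1 < 1 + δ := by linarith
    have h3 : (1 : ℂ) + (δ : ℂ) = ((1 + δ : ℝ) : ℂ) := by push_cast; ring
    have e1 := LD_eq χ₁ hσ 0
    have e2 := LD_eq χ₂ hσ 0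
    have e3 := LD_eq χ₃ hσ 0
    rw [Complex.ofReal_zero, zero_mul, add_zero] at e1 e2 e3
    rw [h3, ZD_eq hσ, e1, e2, e3, ← (w_summable hσ).tsum_add (re_summable χ₁ hσ 0),
      ← ((w_summable hσ).add (re_summable χ₁ hσ 0)).tsum_add (re_summable χ₂ hσ 0),
      ← (((w_summable hσ).add (re_summable χ₁ hσ 0)).add (re_summable χ₂ hσ 0)).tsum_add
        (re_summable χ₃ hσ 0)]
    refine tsum_nonneg fun n => ?_
    obtain ⟨a, ha, ha1⟩ := real_val χ₁ hc1 n
    obtain ⟨b, hb, hb1⟩ := real_val χ₂ hc2 n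
    rw [h n, ha, hb, u_zero, mul_one, mul_one, mul_one, ← Complex.ofReal_mul,
      Complex.ofReal_re, Complex.ofReal_re, Complex.ofReal_re]
    have h7 := mul_nonneg (w_nonneg (1 + δ) n)
      (mul_nonneg (show 0 ≤ 1 + a by linarith) (show 0 ≤ 1 + b by linarith))
    nlinarith

end Pool.Agent.Helper34.CA
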