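import Pool.Agent.Helper34.CA.St
import Pool.Agent.Helper61.CA.MLS

/-!
# Project CA (MP_87fff7_nt), module Conv4

C4a. `Conv4`. Fourier analysis on the unit group: with `fh χ = ∑_u f(u) χ(u)`,
`φ(M) ∑_{∏v = a} ∏ f(v_i) = ∑_χ χ(a)⁻¹ fh(χ)^4` (orthogonality, `f` is supported on units; if `a`
is a unit, and it is since `ξ a = 1`). `χ = 1`: `(∑ f)^4`. `χ = ξ ≠ 1`: `ξ(a)⁻¹ fh(ξ)^4 ≥ 0` since
`ξ` is real valued. The other `χ`: `∑ |fh|^4 ≤ η² ∑_χ |fh|² = η² φ(M) ∑ f² ≤ η² φ(M) B ∑ f`.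
-/

set_option autoImplicit false

open Finset Filter Topology
open scoped ArithmeticFunction.vonMangoldt ComplexConjugate

namespace Pool.Agent.Helper34.CA

open Pool.Agent.Helper18.BV

theorem Conv4_identity {M : ℕ} [NeZero M] (f : ZMod M → ℝ) {a : ZMod M} (ha : IsUnit a) :
    ∑ χ : DirichletCharacter ℂ M, χ a⁻¹ * (∑ u, (f u : ℂ) * χ u) ^ 4 =
      ((M.totient * ∑ v ∈ (univ : Finset (Fin 4 → ZMod M)).filter (fun v => ∏ i, v i = a),
        ∏ i, f (v i) : ℝ) : ℂ) := by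
  classical
  have h1 : ∀ χ : DirichletCharacter ℂ M, χ a⁻¹ * (∑ u, (f u : ℂ) * χ u) ^ 4 =
      ∑ v : Fin 4 → ZMod M, ((∏ i, f (v i) : ℝ) : ℂ) * (χ a⁻¹ * χ (∏ i, v i)) := by
    intro χ
    rw [Fintype.sum_pow, Finset.mul_sum]
    refine Finset.sum_congr rfl fun v _ => ?_
    rw [Finset.prod_mul_distrib, map_prod]
    push_cast
    ring
  rw [Finset.sum_congr rfl fun χ _ => h1 χ, Finset.sum_comm]
  have h2 : ∀ v : Fin 4 → ZMod M,
      ∑ χ : DirichletCharacter ℂ M, ((∏ i, f (v i) : ℝ) : ℂ) * (χ a⁻¹ * χ (∏ i, v i)) =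
        if ∏ i, v i = a then (((M.totient : ℝ) * ∏ i, f (v i) : ℝ) : ℂ) else 0 := by
    intro v
    rw [← Finset.mul_sum, DirichletCharacter.sum_char_inv_mul_char_eq ℂ ha]
    by_cases h : ∏ i, v i = a
    · rw [if_pos h, if_pos h.symm]
      push_cast
      ring
    · rw [if_neg h, if_neg (fun h' => h h'.symm), mul_zero]
  rw [Finset.sum_congr rfl fun v _ => h2 v, ← Finset.sum_filter, Finset.mul_sum]
  push_cast
  rfl

theorem conv4 : Conv4 := by
  classical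
  intro M _ f ξ a η B hf hfu hξ hξa hη hχ
  have ha : IsUnit a := by
    by_contra h
    rw [MulChar.map_nonunit ξ h] at hξa
    exact zero_ne_one hξa
  have hid := Conv4_identity f ha
  set fh : DirichletCharacter ℂ M → ℂ := fun χ => ∑ u, (f u : ℂ) * χ u with hfh
  set W : ℝ := M.totient * ∑ v ∈ (univ : Finset (Fin 4 → ZMod M)).filter (fun v => ∏ i, v i = a),
        ∏ i, f (v i) with hW
  have hre : W = ∑ χ : DirichletCharacter ℂ M, (χ a⁻¹ * fh χ ^ 4).re := by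
    have h1 := congrArg Complex.re hid
    rw [Complex.ofReal_re, Complex.re_sum] at h1
    exact h1.symm
  -- Parseval
  have hpar : ∑ χ : DirichletCharacter ℂ M, ‖fh χ‖ ^ 2 ≤ M.totient * (B * ∑ u, f u) := by
    have h1 := Pool.Agent.Helper61.CA.char_parseval (q := M) (fun u => (f u : ℂ))
    have h2 : ∀ χ : DirichletCharacter ℂ M, ‖fh χ‖ ^ 2 = ‖∑ u, χ u * (f u : ℂ)‖ ^ 2 := by
      intro χ
      rw [hfh]
      congr 2
      exact Finset.sum_congr rfl fun u _ => mul_comm _ _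
    rw [Finset.sum_congr rfl fun χ _ => h2 χ, h1, Finset.mul_sum, Finset.mul_sum]
    refine Finset.sum_le_sum fun u _ => ?_
    rw [Complex.norm_real, Real.norm_of_nonneg (hf u).1]
    have ht : (0 : ℝ) ≤ M.totient := Nat.cast_nonneg _
    by_cases hu : IsUnit u
    · rw [if_pos hu]
      refine mul_le_mul_of_nonneg_left ?_ ht
      rw [sq]
      exact mul_le_mul_of_nonneg_right (hf u).2 (hf u).1
    · rw [if_neg hu, hfu u hu]
      simp
  -- the trivial character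
  have h1a : (1 : DirichletCharacter ℂ M) a⁻¹ = 1 := by
    have : IsUnit (a⁻¹ : ZMod M) := by
      rw [← ha.unit_spec, ZMod.inv_coe_unit]
      exact Units.isUnit _
    exact MulChar.one_apply this
  have hf1 : fh 1 = ((∑ u, f u : ℝ) : ℂ) := by
    rw [hfh]
    push_cast
    refine Finset.sum_congr rfl fun u _ => ?_
    by_cases hu : IsUnit u
    · rw [MulChar.one_apply hu, mul_one]
    · rw [hfu u hu]
      simp
  have hterm1 : ((1 : DirichletCharacter ℂ M) a⁻¹ * fh 1 ^ 4).re = (∑ u, f u) ^ 4 := by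
    rw [h1a, one_mul, hf1, ← Complex.ofReal_pow, Complex.ofReal_re]
  -- the real character
  have hξa' : ξ a⁻¹ = 1 := by
    have h1 : ξ (a⁻¹) * ξ a = 1 := by
      rw [← map_mul, ZMod.inv_mul_of_unit a ha, map_one]
    rwa [hξa, mul_one] at h1
  have hξc : ∀ u : ZMod M, conj (ξ u) = ξ u := by
    intro u
    rw [Pool.Agent.Helper61.CA.conj_char]
    have : ξ⁻¹ = ξ := by
      rw [inv_eq_iff_mul_eq_one, ← sq]
      exact hξ
    rw [this]
  have hξre : 0 ≤ (ξ a⁻¹ * fh ξ ^ 4).re := by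
    have h1 : conj (fh ξ) = fh ξ := by
      rw [hfh]
      dsimp only
      rw [map_sum]
      refine Finset.sum_congr rfl fun u _ => ?_
      rw [map_mul, Complex.conj_ofReal, hξc]
    obtain ⟨t, ht⟩ := (Complex.conj_eq_iff_real).1 h1
    rw [hξa', one_mul, ht, ← Complex.ofReal_pow, Complex.ofReal_re]
    positivity
  -- the other characters
  have hother : ∀ χ : DirichletCharacter ℂ M, χ ≠ 1 → χ ≠ ξ →
      -(η ^ 2 * ‖fh χ‖ ^ 2) ≤ (χ a⁻¹ * fh χ ^ 4).re := by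
    intro χ h1 h2
    have h3 := hχ χ h1 h2
    have h4 : ‖χ a⁻¹ * fh χ ^ 4‖ ≤ η ^ 2 * ‖fh χ‖ ^ 2 := by
      rw [norm_mul, norm_pow]
      calc ‖χ a⁻¹‖ * ‖fh χ‖ ^ 4 ≤ 1 * ‖fh χ‖ ^ 4 :=
            mul_le_mul_of_nonneg_right (χ.norm_le_one _) (by positivity)
        _ = ‖fh χ‖ ^ 2 * ‖fh χ‖ ^ 2 := by ring
        _ ≤ η ^ 2 * ‖fh χ‖ ^ 2 := by
          refine mul_le_mul_of_nonneg_right ?_ (by positivity)
          exact pow_le_pow_left₀ (norm_nonneg _) h3 2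
    have h5 := Complex.abs_re_le_norm (χ a⁻¹ * fh χ ^ 4)
    have h6 := (abs_le.1 (h5.trans h4)).1
    exact h6
  have hall : ∀ χ : DirichletCharacter ℂ M,
      (if χ = 1 then (∑ u, f u) ^ 4 else 0) - η ^ 2 * ‖fh χ‖ ^ 2 ≤ (χ a⁻¹ * fh χ ^ 4).re := by
    intro χ
    have hn : 0 ≤ η ^ 2 * ‖fh χ‖ ^ 2 := by positivity
    by_cases h1 : χ = 1
    · subst h1
      rw [if_pos rfl, hterm1]
      linarith
    · rw [if_neg h1]
      by_cases h2 : χ = ξ
      · subst h2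
        linarith
      · linarith [hother χ h1 h2]
  have hsum : (∑ u, f u) ^ 4 - η ^ 2 * ∑ χ : DirichletCharacter ℂ M, ‖fh χ‖ ^ 2 ≤ W := by
    rw [hre]
    refine le_trans (le_of_eq ?_) (Finset.sum_le_sum fun χ _ => hall χ)
    rw [Finset.sum_sub_distrib, Finset.sum_ite_eq' univ (1 : DirichletCharacter ℂ M)
      (fun _ => (∑ u, f u) ^ 4), if_pos (Finset.mem_univ _), Finset.mul_sum]
  have h7 : η ^ 2 * ∑ χ : DirichletCharacter ℂ M, ‖fh χ‖ ^ 2 ≤
      η ^ 2 * (M.totient * (B * ∑ u, f u)) := mul_le_mul_of_nonneg_left hpar (by positivity)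
  calc (∑ u, f u) ^ 4 - η ^ 2 * M.totient * B * ∑ u, f u
      = (∑ u, f u) ^ 4 - η ^ 2 * (M.totient * (B * ∑ u, f u)) := by ring
    _ ≤ W := by linarith

end Pool.Agent.Helper34.CA
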