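import Pool.Agent.Helper34.CA.St
import Pool.Agent.Helper51.BV.Average

/-!
# Project CA (MP_87fff7_nt), module Equi

E4. `Equi`. Orthogonality of the characters mod `D`: the number is
`(1/φ(D)) ∑_χ χ(c)⁻¹ ∏_i ∑_{n∈A_i} χ(n)`. `χ = 1` gives the main term. For `χ ≠ 1` all `n` are
coprime to `D`, so `χ(n) = χ*(n)` with `χ*` primitive of conductor `q ∣ D`, `q > 1`; the map
`χ ↦ (q, χ*)` is injective (`sum_prim_le`, `prim_apply` in `Helper51/BV/Average.lean`).
-/

set_option autoImplicit false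

open Finset Filter Topology
open scoped ArithmeticFunction.vonMangoldt

namespace Pool.Agent.Helper34.CA

open Pool.Agent.Helper18.BV

/-- Orthogonality of the characters modulo `D` for products. -/
private theorem Equi_orth {J : ℕ} (A : Fin J → Finset ℕ) {D c : ℕ} [NeZero D]
    (hc : Nat.Coprime c D) :
    (D.totient : ℂ) *
        (((Fintype.piFinset A).filter (fun v => ∏ i, v i ≡ c [MOD D])).card : ℂ) =
      ∑ χ : DirichletCharacter ℂ D, χ ((c : ZMod D)⁻¹) * ∏ i, ∑ n ∈ A i, χ (n : ZMod D) := by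
  have hu : IsUnit ((c : ZMod D)) := (ZMod.isUnit_iff_coprime c D).mpr hc
  have h0 : ∀ χ : DirichletCharacter ℂ D,
      χ ((c : ZMod D)⁻¹) * ∏ i, ∑ n ∈ A i, χ (n : ZMod D) =
        ∑ v ∈ Fintype.piFinset A, χ ((c : ZMod D)⁻¹) * χ ((∏ i, v i : ℕ) : ZMod D) := by
    intro χ
    rw [Finset.prod_univ_sum, Finset.mul_sum]
    refine Finset.sum_congr rfl fun v _ => ?_
    rw [Nat.cast_prod, map_prod]
  simp_rw [h0]
  rw [Finset.sum_comm]
  have h1 : ∀ v ∈ Fintype.piFinset A, (∑ χ : DirichletCharacter ℂ D,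
      χ ((c : ZMod D)⁻¹) * χ ((∏ i, v i : ℕ) : ZMod D)) =
      if ∏ i, v i ≡ c [MOD D] then (D.totient : ℂ) else 0 := by
    intro v _
    rw [DirichletCharacter.sum_char_inv_mul_char_eq ℂ hu]
    have h3 : ((c : ZMod D) = ((∏ i, v i : ℕ) : ZMod D)) ↔ ∏ i, v i ≡ c [MOD D] := by
      rw [eq_comm, ZMod.natCast_eq_natCast_iff]
    simp only [h3]
  rw [Finset.sum_congr rfl h1, ← Finset.sum_filter, Finset.sum_const, nsmul_eq_mul, mul_comm]

theorem equi : Equi := by
  classical
  intro J A D c hD hc hne hcop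
  have : NeZero D := ⟨by omega⟩
  have ht : (0 : ℝ) < D.totient := by exact_mod_cast Nat.totient_pos.2 hD
  set N : ℕ := ((Fintype.piFinset A).filter (fun v => ∏ i, v i ≡ c [MOD D])).card with hN
  set P : ℝ := ∏ i, ((A i).card : ℝ) with hP
  have hcard : ∀ i, (0 : ℝ) < (A i).card := fun i => by
    exact_mod_cast Finset.card_pos.mpr (hne i)
  have hP0 : 0 < P := Finset.prod_pos fun i _ => hcard i
  have h1 := Equi_orth A (D := D) hc
  rw [← hN, ← Finset.sum_filter_add_sum_filter_not univ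
    (fun χ : DirichletCharacter ℂ D => χ ≠ 1)] at h1
  have h2 : (univ.filter (fun χ : DirichletCharacter ℂ D => ¬ χ ≠ 1)) = {1} := by
    ext χ; simp
  have hu : IsUnit ((c : ZMod D)⁻¹) := by
    have := (ZMod.isUnit_iff_coprime c D).mpr hc
    obtain ⟨u, hu⟩ := this
    rw [← hu, ZMod.inv_coe_unit]
    exact Units.isUnit _
  have hone : (∏ i, ∑ n ∈ A i, (1 : DirichletCharacter ℂ D) (n : ZMod D)) = (P : ℂ) := by
    rw [hP]
    push_cast
    refine Finset.prod_congr rfl fun i _ => ?_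
    rw [Finset.sum_congr rfl fun n hn => MulChar.one_apply
      ((ZMod.isUnit_iff_coprime n D).mpr (hcop i n hn)), Finset.sum_const, nsmul_eq_mul, mul_one]
  rw [h2, Finset.sum_singleton, MulChar.one_apply hu, one_mul, hone] at h1
  have h3 : ((D.totient * N - P : ℝ) : ℂ) =
      ∑ χ ∈ univ.filter (fun χ : DirichletCharacter ℂ D => χ ≠ 1),
        χ ((c : ZMod D)⁻¹) * ∏ i, ∑ n ∈ A i, χ (n : ZMod D) := by
    push_cast
    rw [h1]; ring
  have h4 : |D.totient * N - P| ≤
      ∑ χ ∈ univ.filter (fun χ : DirichletCharacter ℂ D => χ ≠ 1),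
        P * ∏ i, (‖∑ n ∈ A i, χ.primitiveCharacter (n : ZMod χ.conductor)‖ / (A i).card) := by
    rw [← Real.norm_eq_abs, ← Complex.norm_real, h3]
    refine (norm_sum_le _ _).trans (Finset.sum_le_sum fun χ _ => ?_)
    rw [norm_mul, norm_prod, hP, ← Finset.prod_mul_distrib]
    have h5 : ∏ i, ‖∑ n ∈ A i, χ (n : ZMod D)‖ =
        ∏ i, (((A i).card : ℝ) *
          (‖∑ n ∈ A i, χ.primitiveCharacter (n : ZMod χ.conductor)‖ / (A i).card)) := by
      refine Finset.prod_congr rfl fun i _ => ?_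
      rw [mul_div_cancel₀ _ (hcard i).ne']
      congr 1
      exact Finset.sum_congr rfl fun n hn =>
        (Pool.Agent.Helper51.BV.prim_apply χ (hcop i n hn)).symm
    rw [← h5]
    exact mul_le_of_le_one_left (Finset.prod_nonneg fun i _ => norm_nonneg _)
      (DirichletCharacter.norm_le_one χ _)
  have h6 := Pool.Agent.Helper51.BV.sum_prim_le (d := D)
    (fun p => ∏ i, (‖∑ n ∈ A i, p.2 (n : ZMod p.1)‖ / (A i).card))
    (fun p => Finset.prod_nonneg fun i _ => by positivity)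
  have h7 : (N : ℝ) - P / D.totient = (D.totient * N - P) / D.totient := by
    field_simp
  rw [h7, abs_div, abs_of_pos ht, div_mul_eq_mul_div]
  refine div_le_div_of_nonneg_right (h4.trans ?_) ht.le
  rw [← Finset.mul_sum]
  refine mul_le_mul_of_nonneg_left ?_ hP0.le
  exact h6

end Pool.Agent.Helper34.CA
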