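import Pool.Agent.Helper34.CA.St
import Pool.Agent.Helper51.BV.Average

/-!
# Project CA (MP_87fff7_nt), module Exc

A6. `Exc`. Take `c` from `Page`, `R = exp (l^κ)`, `log R = l^κ`. For `χ₀` mod `M`, `ψ` mod `f`,
`gcd(f,M) = 1`, the product `θ = changeLevel χ₀ * changeLevel ψ` mod `M f` satisfies
`θ(n) = χ₀(n) ψ(n)` for all `n` and `θ ≠ 1` if `χ₀ ≠ 1` (take `n ≡ a mod M`, `n ≡ 1 mod f`).
So `SSt χ₀ g x ψ = SS LaC g x θ`. If no `(χ₀, f, ψ)` (with `χ₀ ≠ 1`, `M f ≤ R`) has a zero of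
`L(s,θ)` with `‖s-1‖ ≤ c / log R`, take `ξ = 1`. Otherwise let `ξ` be the `χ₀` of one such
triple; by `Page` (applied to the pair `θ, θ`) `θ^2 = 1`, so `ξ^2 = 1`, and if `(χ₀', f', ψ')` is
another one, `χ₀' = ξ`: for a unit `a` mod `M` take `n ≡ a mod M`, `n ≡ 1 mod f f'`. For all the
other triples `SmallP` applies.
-/

set_option autoImplicit false

open Finset Filter Topology
open scoped ArithmeticFunction.vonMangoldt

namespace Pool.Agent.Helper34.CA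

open Pool.Agent.Helper18.BV

namespace ExcAux

/-- the product of a character modulo `M` and a character modulo `f`, modulo `M f` -/
noncomputable def th {M f : ℕ} (χ₀ : DirichletCharacter ℂ M) (ψ : DirichletCharacter ℂ f) :
    DirichletCharacter ℂ (M * f) :=
  DirichletCharacter.changeLevel (Nat.dvd_mul_right M f) χ₀ *
    DirichletCharacter.changeLevel (Nat.dvd_mul_left f M) ψ

theorem cl_apply {a b : ℕ} (h : a ∣ b) (χ : DirichletCharacter ℂ a) {n : ℕ}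
    (hn : Nat.Coprime n b) : DirichletCharacter.changeLevel h χ (n : ZMod b) = χ (n : ZMod a) := by
  have h1 := DirichletCharacter.changeLevel_eq_cast_of_dvd χ h (ZMod.unitOfCoprime n hn)
  rw [ZMod.coe_unitOfCoprime] at h1
  rw [h1, ZMod.cast_natCast h]

theorem zero_apply {a : ℕ} (χ : DirichletCharacter ℂ a) {n : ℕ} (hn : ¬ Nat.Coprime n a) :
    χ (n : ZMod a) = 0 := by
  apply χ.map_nonunit
  rw [ZMod.isUnit_iff_coprime]
  exact hn

theorem th_apply {M f : ℕ} (χ₀ : DirichletCharacter ℂ M) (ψ : DirichletCharacter ℂ f) (n : ℕ) :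
    th χ₀ ψ (n : ZMod (M * f)) = χ₀ (n : ZMod M) * ψ (n : ZMod f) := by
  by_cases hn : Nat.Coprime n (M * f)
  · unfold th
    rw [MulChar.mul_apply, cl_apply _ _ hn, cl_apply _ _ hn]
  · rw [zero_apply _ hn]
    by_cases h1 : Nat.Coprime n M
    · have h2 : ¬ Nat.Coprime n f := fun h => hn (Nat.Coprime.mul_right h1 h)
      rw [zero_apply ψ h2, mul_zero]
    · rw [zero_apply χ₀ h1, zero_mul]

theorem SSt_eq {M f : ℕ} (χ₀ : DirichletCharacter ℂ M) (ψ : DirichletCharacter ℂ f)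
    (g : ℝ → ℝ) (x : ℝ) : SSt χ₀ g x ψ = SS LaC g x (th χ₀ ψ) := by
  unfold SSt SS
  refine Finset.sum_congr rfl fun n _ => ?_
  rw [th_apply]
  ring

/-- for a unit `a` modulo `M` and `f` coprime to `M` there is `n` congruent to `a` modulo `M` and
to `1` modulo `f` -/
theorem crt {M f : ℕ} (hf : Nat.Coprime f M) (hM : M ≠ 0) (a : (ZMod M)ˣ) :
    ∃ n : ℕ, (n : ZMod M) = (a : ZMod M) ∧ (n : ZMod f) = 1 ∧ Nat.Coprime n M ∧
      Nat.Coprime n f := by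
  haveI : NeZero M := ⟨hM⟩
  obtain ⟨n, h1, h2⟩ := Nat.chineseRemainder hf.symm (a : ZMod M).val 1
  have e1 : (n : ZMod M) = (a : ZMod M) := by
    rw [(ZMod.natCast_eq_natCast_iff _ _ _).2 h1, ZMod.natCast_zmod_val]
  have e2 : (n : ZMod f) = 1 := by
    have := (ZMod.natCast_eq_natCast_iff _ _ _).2 h2
    rw [this, Nat.cast_one]
  refine ⟨n, e1, e2, ?_, ?_⟩
  · rw [← ZMod.isUnit_iff_coprime, e1]
    exact a.isUnit
  · rw [← ZMod.isUnit_iff_coprime, e2]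
    exact isUnit_one

theorem ext' {M : ℕ} (χ χ' : DirichletCharacter ℂ M)
    (h : ∀ a : (ZMod M)ˣ, χ (a : ZMod M) = χ' (a : ZMod M)) : χ = χ' :=
  MulChar.ext h

theorem th_ne_one {M f : ℕ} (hM : M ≠ 0) (hf : Nat.Coprime f M) (χ₀ : DirichletCharacter ℂ M)
    (ψ : DirichletCharacter ℂ f) (h : χ₀ ≠ 1) : th χ₀ ψ ≠ 1 := by
  intro h1
  apply h
  apply ext'
  intro a
  obtain ⟨n, e1, e2, c1, c2⟩ := crt hf hM a
  have h2 := th_apply χ₀ ψ n
  have hc : Nat.Coprime n (M * f) := Nat.Coprime.mul_right c1 c2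
  have hu : IsUnit (n : ZMod (M * f)) := (ZMod.isUnit_iff_coprime _ _).2 hc
  rw [h1, MulChar.one_apply hu, e1, e2, map_one, mul_one] at h2
  rw [← h2, MulChar.one_apply a.isUnit]

/-- `χ₀` is exceptional -/
def Bad (c R : ℝ) {M : ℕ} [NeZero M] (χ₀ : DirichletCharacter ℂ M) : Prop :=
  χ₀ ≠ 1 ∧ ∃ (f : ℕ) (_ : NeZero f) (ψ : DirichletCharacter ℂ f), Nat.Coprime f M ∧
    ((M * f : ℕ) : ℝ) ≤ R ∧
    ∃ s : ℂ, ‖s - 1‖ ≤ c / Real.log R ∧ DirichletCharacter.LFunction (th χ₀ ψ) s = 0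

theorem bad_sq (hP : Page) : ∃ c : ℝ, 0 < c ∧ ∀ R : ℝ, 3 ≤ R → ∀ (M : ℕ) [NeZero M]
    (χ₀ χ₁ : DirichletCharacter ℂ M), Bad c R χ₀ → Bad c R χ₁ → χ₀ ^ 2 = 1 ∧ χ₀ = χ₁ := by
  obtain ⟨c, hc, hP⟩ := hP
  refine ⟨c, hc, fun R hR M _ χ₀ χ₁ h0 h1 => ?_⟩
  obtain ⟨n0, f0, _, ψ0, cf0, r0, s0⟩ := h0
  obtain ⟨n1, f1, _, ψ1, cf1, r1, s1⟩ := h1
  have hM : M ≠ 0 := NeZero.ne M
  obtain ⟨g1, g2⟩ := hP R hR (M * f0) (M * f1) (th χ₀ ψ0) (th χ₁ ψ1) r0 r1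
    (th_ne_one hM cf0 χ₀ ψ0 n0) (th_ne_one hM cf1 χ₁ ψ1 n1) s0 s1
  refine ⟨?_, ?_⟩
  · apply ext'
    intro a
    obtain ⟨n, e1, e2, c1, c2⟩ := crt cf0 hM a
    have h2 := th_apply χ₀ ψ0 n
    have hc : Nat.Coprime n (M * f0) := Nat.Coprime.mul_right c1 c2
    have hu : IsUnit (n : ZMod (M * f0)) := (ZMod.isUnit_iff_coprime _ _).2 hc
    have h3 : (th χ₀ ψ0 ^ 2) (n : ZMod (M * f0)) = 1 := by
      rw [g1, MulChar.one_apply hu]
    rw [MulChar.pow_apply' _ (by norm_num), h2, e1, e2, map_one, mul_one] at h3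
    rw [MulChar.pow_apply' _ (by norm_num), h3, MulChar.one_apply a.isUnit]
  · apply ext'
    intro a
    obtain ⟨n, e1, e2, c1, c2⟩ := crt (Nat.Coprime.mul_left cf0 cf1) hM a
    have d0 : Nat.Coprime n f0 := Nat.Coprime.coprime_mul_right_right c2
    have d1 : Nat.Coprime n f1 := Nat.Coprime.coprime_mul_left_right c2
    have e3 : (n : ZMod f0) = 1 := by
      have h5 : (n : ZMod (f0 * f1)) = ((1 : ℕ) : ZMod (f0 * f1)) := by rw [e2, Nat.cast_one]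
      have h4 : n ≡ 1 [MOD f0 * f1] := (ZMod.natCast_eq_natCast_iff _ _ _).1 h5
      have h6 : n ≡ 1 [MOD f0] := h4.of_dvd (Nat.dvd_mul_right _ _)
      have := (ZMod.natCast_eq_natCast_iff _ _ _).2 h6
      rw [this, Nat.cast_one]
    have e4 : (n : ZMod f1) = 1 := by
      have h5 : (n : ZMod (f0 * f1)) = ((1 : ℕ) : ZMod (f0 * f1)) := by rw [e2, Nat.cast_one]
      have h4 : n ≡ 1 [MOD f0 * f1] := (ZMod.natCast_eq_natCast_iff _ _ _).1 h5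
      have h6 : n ≡ 1 [MOD f1] := h4.of_dvd (Nat.dvd_mul_left _ _)
      have := (ZMod.natCast_eq_natCast_iff _ _ _).2 h6
      rw [this, Nat.cast_one]
    have h2 := g2 n (Nat.Coprime.mul_right (Nat.Coprime.mul_right c1 d0)
      (Nat.Coprime.mul_right c1 d1))
    rw [th_apply, th_apply, e1, e3, e4, map_one, map_one, mul_one, mul_one] at h2
    exact h2

end ExcAux

open ExcAux in
theorem exc (h1 : Page) (h2 : SmallP) : Exc := by
  classical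
  intro κ hκ0 hκ1 g hg A hA
  obtain ⟨c, hc, hB⟩ := bad_sq h1
  obtain ⟨C, X0, hC, hX0, hS⟩ := h2 κ c hκ0 hκ1 hc g hg A hA
  refine ⟨C, max X0 (Real.exp (2 ^ (1 / κ))), hC, le_trans hX0 (le_max_left _ _), ?_⟩
  intro x hx M _
  have hx1 : X0 ≤ x := le_trans (le_max_left _ _) hx
  have hx2 : Real.exp (2 ^ (1 / κ)) ≤ x := le_trans (le_max_right _ _) hx
  have hx0 : 0 < x := lt_of_lt_of_le (Real.exp_pos _) hx2
  have hl : (2 : ℝ) ^ (1 / κ) ≤ Real.log x := by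
    rw [Real.le_log_iff_exp_le hx0]
    exact hx2
  have hl2 : (2 : ℝ) ≤ Real.log x ^ κ := by
    have h3 : ((2 : ℝ) ^ (1 / κ)) ^ κ = 2 := by
      rw [← Real.rpow_mul (by norm_num), one_div, inv_mul_cancel₀ hκ0.ne', Real.rpow_one]
    calc (2 : ℝ) = ((2 : ℝ) ^ (1 / κ)) ^ κ := h3.symm
      _ ≤ Real.log x ^ κ := Real.rpow_le_rpow (by positivity) hl hκ0.le
  have hR : (3 : ℝ) ≤ Real.exp (Real.log x ^ κ) := by
    have := Real.add_one_le_exp (Real.log x ^ κ)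
    linarith
  have key : ∀ χ₀ : DirichletCharacter ℂ M, χ₀ ≠ 1 → ¬ Bad c (Real.exp (Real.log x ^ κ)) χ₀ →
      ∀ f : ℕ, 1 ≤ f → Nat.Coprime f M → ((M * f : ℕ) : ℝ) ≤ Real.exp (Real.log x ^ κ) →
      ∀ ψ ∈ prim f, ‖SSt χ₀ g x ψ‖ ≤ C / Real.log x ^ A := by
    intro χ₀ hχ hb f hf hcf hr ψ _
    haveI : NeZero f := ⟨by omega⟩
    rw [SSt_eq]
    refine hS x hx1 (M * f) (th χ₀ ψ) (th_ne_one (NeZero.ne M) hcf χ₀ ψ hχ) hr ?_
    intro s hs h0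
    apply hb
    refine ⟨hχ, f, ⟨by omega⟩, ψ, hcf, hr, s, ?_, h0⟩
    rw [Real.log_exp]
    exact hs
  by_cases hE : ∃ ξ : DirichletCharacter ℂ M, Bad c (Real.exp (Real.log x ^ κ)) ξ
  · obtain ⟨ξ, hξ⟩ := hE
    refine ⟨ξ, (hB _ hR M ξ ξ hξ hξ).1, ?_⟩
    intro χ₀ hχ hne
    refine key χ₀ hχ ?_
    intro hb
    exact hne (hB _ hR M χ₀ ξ hb hξ).2
  · refine ⟨1, one_pow 2, ?_⟩
    intro χ₀ hχ _
    exact key χ₀ hχ fun hb => hE ⟨χ₀, hb⟩

end Pool.Agent.Helper34.CA
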