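import Pool.Agent.Helper34.CA.St

/-!
# Project CA (MP_87fff7_nt), module Moment

E1. `Moment`. `(∑_{n∈A} χ(n))^j = ∑_m a_j(m) χ(m)`, `a_j(m) = #{v ∈ A^j : ∏v = m}`, `m ≤ X^j`.
The number of ordered factorisations of `m` in `j` factors is at most `j ^ Ω(m)` (induction on
`m`), and `Ω(m) = jh`. `∑ a_j(m)² ≤ j^{jh} ∑ a_j(m) = j^{jh} |A|^j`. `MLS` with
`N0 = 0`, `N = X^j` (drop `q/φ(q) ≥ 1`).
-/

set_option autoImplicit false

open Finset Filter Topology
open scoped ArithmeticFunction.vonMangoldt ArithmeticFunction.Omega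

namespace Pool.Agent.Helper34.CA

open Pool.Agent.Helper18.BV

/-- the ordered factorisations of `m` in `j` factors -/
private def Moment_fac (j m : ℕ) : Finset (Fin j → ℕ) :=
  (Fintype.piFinset (fun _ : Fin j => m.divisors)).filter (fun v => ∏ i, v i = m)

private theorem Moment_mem_fac {j m : ℕ} (hm : m ≠ 0) (v : Fin j → ℕ) :
    v ∈ Moment_fac j m ↔ ∏ i, v i = m := by
  unfold Moment_fac
  rw [mem_filter, Fintype.mem_piFinset]
  refine ⟨fun h => h.2, fun h => ⟨fun i => ?_, h⟩⟩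
  rw [Nat.mem_divisors]
  exact ⟨h ▸ Finset.dvd_prod_of_mem v (mem_univ i), hm⟩

private theorem Moment_card_fac (j : ℕ) (m : ℕ) : m ≠ 0 → (Moment_fac j m).card ≤ j ^ (Ω m) := by
  induction m using induction_on_primes with
  | zero => intro h; exact absurd rfl h
  | one =>
    intro _
    rw [ArithmeticFunction.cardFactors_one, pow_zero]
    refine Finset.card_le_one.2 fun v hv w hw => ?_
    have key : ∀ u ∈ Moment_fac j 1, u = fun _ => 1 := by
      intro u hu
      funext i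
      have h1 := (Finset.mem_filter.1 hu).1
      rw [Fintype.mem_piFinset] at h1
      have h2 := h1 i
      rw [Nat.divisors_one, Finset.mem_singleton] at h2
      exact h2
    rw [key v hv, key w hw]
  | prime_mul p a hp ih =>
    intro hpa
    have ha : a ≠ 0 := fun h => hpa (by rw [h, mul_zero])
    rw [ArithmeticFunction.cardFactors_mul hp.ne_zero ha,
      ArithmeticFunction.cardFactors_apply_prime hp, pow_add, pow_one]
    have hsub : Moment_fac j (p * a) ⊆ ((univ : Finset (Fin j)) ×ˢ Moment_fac j a).image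
        (fun x => Function.update x.2 x.1 (p * x.2 x.1)) := by
      intro v hv
      have hv' := (Moment_mem_fac hpa v).1 hv
      have hdvd : p ∣ ∏ i, v i := by rw [hv']; exact dvd_mul_right p a
      obtain ⟨i, -, hi⟩ := (Prime.dvd_finsetProd_iff hp.prime v).1 hdvd
      obtain ⟨c, hc⟩ := hi
      rw [Finset.mem_image]
      refine ⟨(i, Function.update v i c), ?_, ?_⟩
      · rw [Finset.mem_product]
        refine ⟨mem_univ _, (Moment_mem_fac ha _).2 ?_⟩
        apply Nat.eq_of_mul_eq_mul_left hp.pos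
        rw [← hv', Finset.prod_update_of_mem (mem_univ i), ← mul_assoc, ← hc,
          ← Finset.mul_prod_erase univ v (mem_univ i), Finset.sdiff_singleton_eq_erase]
      · simp only [Function.update_self, Function.update_idem]
        rw [← hc, Function.update_eq_self]
    calc (Moment_fac j (p * a)).card
        ≤ (((univ : Finset (Fin j)) ×ˢ Moment_fac j a).image
        (fun x => Function.update x.2 x.1 (p * x.2 x.1))).card := Finset.card_le_card hsub
      _ ≤ ((univ : Finset (Fin j)) ×ˢ Moment_fac j a).card := Finset.card_image_le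
      _ = j * (Moment_fac j a).card := by
          rw [Finset.card_product, Finset.card_univ, Fintype.card_fin]
      _ ≤ j * j ^ Ω a := Nat.mul_le_mul_left _ (ih ha)

private theorem Moment_cardFactors_prod {j : ℕ} (s : Finset (Fin j)) (v : Fin j → ℕ) (h : ℕ)
    (hv : ∀ i, v i ≠ 0 ∧ Ω (v i) = h) : Ω (∏ i ∈ s, v i) = s.card * h := by
  classical
  induction s using Finset.induction_on with
  | empty => simp
  | insert i s his ih =>
    rw [Finset.prod_insert his, ArithmeticFunction.cardFactors_mul (hv i).1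
      (Finset.prod_ne_zero_iff.2 fun k _ => (hv k).1), ih, (hv i).2,
      Finset.card_insert_of_notMem his]
    ring

private theorem Moment_omega {n h : ℕ} (hn : 1 ≤ n) (hs : Squarefree n)
    (hc : n.primeFactors.card = h) : Ω n = h := by
  rw [← (ArithmeticFunction.cardDistinctFactors_eq_cardFactors_iff_squarefree (by omega)).2 hs,
    ArithmeticFunction.cardDistinctFactors_apply, ← hc]
  rfl

/-- the coefficients `a_j(m)` -/
private def Moment_co (A : Finset ℕ) (j m : ℕ) : ℕ :=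
  ((Fintype.piFinset (fun _ : Fin j => A)).filter (fun v => ∏ i, v i = m)).card

private theorem Moment_co_le {h j X : ℕ} {A : Finset ℕ}
    (hA : ∀ n ∈ A, 1 ≤ n ∧ n ≤ X ∧ Squarefree n ∧ n.primeFactors.card = h) (m : ℕ) :
    Moment_co A j m ≤ j ^ (j * h) := by
  unfold Moment_co
  by_cases he : ((Fintype.piFinset (fun _ : Fin j => A)).filter (fun v => ∏ i, v i = m)).Nonempty
  · obtain ⟨v, hv⟩ := he
    have hv2 := (Finset.mem_filter.1 hv).2
    have hv1 := Fintype.mem_piFinset.1 (Finset.mem_filter.1 hv).1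
    have hm0 : m ≠ 0 := by
      rw [← hv2]
      exact Finset.prod_ne_zero_iff.2 fun i _ => by have := (hA _ (hv1 i)).1; omega
    have hOm : Ω m = j * h := by
      rw [← hv2, Moment_cardFactors_prod univ v h (fun i => ?_), Finset.card_univ,
        Fintype.card_fin]
      obtain ⟨h1, -, h3, h4⟩ := hA _ (hv1 i)
      exact ⟨by omega, Moment_omega h1 h3 h4⟩
    rw [← hOm]
    refine le_trans (Finset.card_le_card ?_) (Moment_card_fac j m hm0)
    intro w hw
    exact (Moment_mem_fac hm0 w).2 (Finset.mem_filter.1 hw).2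
  · rw [Finset.not_nonempty_iff_eq_empty.1 he, Finset.card_empty]
    exact Nat.zero_le _

private theorem Moment_prod_mem {h j X : ℕ} {A : Finset ℕ}
    (hA : ∀ n ∈ A, 1 ≤ n ∧ n ≤ X ∧ Squarefree n ∧ n.primeFactors.card = h) (v : Fin j → ℕ)
    (hv : v ∈ Fintype.piFinset (fun _ : Fin j => A)) :
    ∏ i, v i ∈ Ioc 0 (0 + X ^ j) := by
  have hv1 := Fintype.mem_piFinset.1 hv
  rw [Finset.mem_Ioc, zero_add]
  constructor
  · exact Finset.prod_pos fun i _ => (hA _ (hv1 i)).1
  · calc ∏ i, v i ≤ ∏ _i : Fin j, X := Finset.prod_le_prod' fun i _ => (hA _ (hv1 i)).2.1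
      _ = X ^ j := by rw [Finset.prod_const, Finset.card_univ, Fintype.card_fin]

private theorem Moment_sum_co {h j X : ℕ} {A : Finset ℕ}
    (hA : ∀ n ∈ A, 1 ≤ n ∧ n ≤ X ∧ Squarefree n ∧ n.primeFactors.card = h) :
    ∑ m ∈ Ioc 0 (0 + X ^ j), Moment_co A j m = A.card ^ j := by
  unfold Moment_co
  rw [← Finset.card_eq_sum_card_fiberwise (fun v hv => Moment_prod_mem hA v hv),
    Fintype.card_piFinset, Finset.prod_const, Finset.card_univ, Fintype.card_fin]

private theorem Moment_pow {h j X q : ℕ} {A : Finset ℕ}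
    (hA : ∀ n ∈ A, 1 ≤ n ∧ n ≤ X ∧ Squarefree n ∧ n.primeFactors.card = h)
    (χ : DirichletCharacter ℂ q) :
    (∑ n ∈ A, χ (n : ZMod q)) ^ j =
      ∑ m ∈ Ioc 0 (0 + X ^ j), (Moment_co A j m : ℂ) * χ (m : ZMod q) := by
  have h1 : (∑ n ∈ A, χ (n : ZMod q)) ^ j =
      ∑ v ∈ Fintype.piFinset (fun _ : Fin j => A), χ ((∏ i, v i : ℕ) : ZMod q) := by
    have h2 := Finset.prod_univ_sum (fun _ : Fin j => A) (fun _ n => χ (n : ZMod q))
    rw [Finset.prod_const, Finset.card_univ, Fintype.card_fin] at h2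
    rw [h2]
    refine Finset.sum_congr rfl fun v _ => ?_
    rw [Nat.cast_prod, map_prod]
  rw [h1, ← Finset.sum_fiberwise_of_maps_to (fun v hv => Moment_prod_mem hA v hv)]
  refine Finset.sum_congr rfl fun m _ => ?_
  unfold Moment_co
  rw [Finset.sum_congr rfl (fun v hv => by rw [(Finset.mem_filter.1 hv).2] :
    ∀ v ∈ (Fintype.piFinset (fun _ : Fin j => A)).filter (fun v => ∏ i, v i = m),
      χ ((∏ i, v i : ℕ) : ZMod q) = χ (m : ZMod q)), Finset.sum_const, nsmul_eq_mul]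

theorem moment (h : MLS) : Moment := by
  obtain ⟨C, hC, hM⟩ := h
  refine ⟨C, hC, ?_⟩
  intro h j X Q A hj hX hQ hA
  have hN : 1 ≤ X ^ j := Nat.one_le_pow _ _ hX
  have h1 := hM Q 0 (X ^ j) hQ hN (fun m => (Moment_co A j m : ℂ))
  have h2 : ∑ q ∈ Icc 1 Q, ∑ χ ∈ prim q, ‖∑ n ∈ A, χ (n : ZMod q)‖ ^ (2 * j) ≤
      ∑ q ∈ Icc 1 Q, ((q : ℝ) / q.totient) * ∑ χ ∈ prim q,
        ‖∑ n ∈ Ioc 0 (0 + X ^ j), (Moment_co A j n : ℂ) * χ (n : ZMod q)‖ ^ 2 := by
    refine Finset.sum_le_sum fun q hq => ?_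
    have hq1 : 1 ≤ q := (Finset.mem_Icc.1 hq).1
    have hphi : (0 : ℝ) < q.totient := by exact_mod_cast Nat.totient_pos.2 hq1
    have hone : 1 ≤ (q : ℝ) / q.totient := by
      rw [le_div_iff₀ hphi, one_mul]
      exact_mod_cast Nat.totient_le q
    have heq : ∀ χ ∈ prim q, ‖∑ n ∈ A, χ (n : ZMod q)‖ ^ (2 * j) =
        ‖∑ n ∈ Ioc 0 (0 + X ^ j), (Moment_co A j n : ℂ) * χ (n : ZMod q)‖ ^ 2 := by
      intro χ _
      rw [← Moment_pow hA χ, norm_pow, ← pow_mul, mul_comm j 2]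
    rw [Finset.sum_congr rfl heq]
    refine le_mul_of_one_le_left ?_ hone
    exact Finset.sum_nonneg fun χ _ => by positivity
  have h3 : ∑ n ∈ Ioc 0 (0 + X ^ j), ‖(Moment_co A j n : ℂ)‖ ^ 2 ≤
      (j : ℝ) ^ (j * h) * (A.card : ℝ) ^ j := by
    have h4 : ∀ n ∈ Ioc 0 (0 + X ^ j), ‖(Moment_co A j n : ℂ)‖ ^ 2 ≤
        (j : ℝ) ^ (j * h) * (Moment_co A j n : ℝ) := by
      intro n _
      rw [Complex.norm_natCast, pow_two]
      refine mul_le_mul_of_nonneg_right ?_ (Nat.cast_nonneg _)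
      exact_mod_cast Moment_co_le hA n
    refine le_trans (Finset.sum_le_sum h4) ?_
    rw [← Finset.mul_sum]
    refine mul_le_mul_of_nonneg_left ?_ (by positivity)
    have h5 := Moment_sum_co (j := j) hA
    rw [← Nat.cast_sum, h5]
    push_cast
    exact le_refl _
  calc ∑ q ∈ Icc 1 Q, ∑ χ ∈ prim q, ‖∑ n ∈ A, χ (n : ZMod q)‖ ^ (2 * j)
      ≤ C * (((X ^ j : ℕ) : ℝ) + (Q : ℝ) ^ 2) *
        ∑ n ∈ Ioc 0 (0 + X ^ j), ‖(Moment_co A j n : ℂ)‖ ^ 2 := le_trans h2 h1
    _ ≤ C * (((X ^ j : ℕ) : ℝ) + (Q : ℝ) ^ 2) * ((j : ℝ) ^ (j * h) * (A.card : ℝ) ^ j) := by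
        refine mul_le_mul_of_nonneg_left h3 (by positivity)
    _ = C * ((X : ℝ) ^ j + (Q : ℝ) ^ 2) * (j : ℝ) ^ (j * h) * (A.card : ℝ) ^ j := by
        push_cast
        ring

end Pool.Agent.Helper34.CA
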