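import Pool.Agent.Helper34.CA.St
import Pool.Agent.Helper33.KSZ.Landau
import Pool.Agent.Helper85.BV.LUpper

/-!
# Project CA (MP_87fff7_nt), module NearP

A4. `NearP`. `Pool.Agent.Helper33.KSZ.landau` with `s₀ = 1 + r/16`, `R = 15 r/16`: the ball
`ball s₀ R` lies in `‖s - 1‖ < r`, so there are no zeros (`S = ∅`), `‖F z‖ ≤ 2 q` there,
`‖F s₀‖ ≥ c₂ r / 16`. So
`‖L'/L(z)‖ ≤ 54 M / R` for `‖z - s₀‖ ≤ 15 r / 64`, `M ≤ C log (q / r)`. For `‖s - 1‖ ≤ r/8`,
`closedBall s (r/32) ⊆ closedBall s₀ (14 r/64)`; Cauchy's estimate for the `k`-th derivative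
(`Complex.norm_iteratedDeriv_le_of_forall_mem_sphere_norm_le`).
-/

set_option autoImplicit false

open Finset Filter Topology
open scoped ArithmeticFunction.vonMangoldt

namespace Pool.Agent.Helper34.CA

open Pool.Agent.Helper18.BV

namespace NearPAux

open Pool.Agent.Helper69.QRH

lemma lower : ∃ c : ℝ, 0 < c ∧ c ≤ 1 ∧ ∀ (q : ℕ) [NeZero q] (χ : DirichletCharacter ℂ q) (s : ℂ),
    1 < s.re → s.re ≤ 2 → c * (s.re - 1) ≤ ‖DirichletCharacter.LFunction χ s‖ := by
  have hcont : ContinuousOn (fun σ : ℝ => EZ (σ : ℂ)) (Set.Icc 1 2) :=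
    (EZ_differentiable.continuous.comp Complex.continuous_ofReal).continuousOn
  obtain ⟨C, hC⟩ := isCompact_Icc.exists_bound_of_continuousOn hcont
  have hCpos : 0 < |C| + 1 := by positivity
  refine ⟨1 / (|C| + 1), by positivity, ?_, fun q _ χ s h1 h2 => ?_⟩
  · rw [div_le_one hCpos]
    linarith [abs_nonneg C]
  have hs0 : 0 < s.re - 1 := by linarith
  set σ := s.re with hσ
  have hσ1 : 1 < ((σ : ℝ) : ℂ).re := by simpa using h1
  have hmul := DirichletCharacter.LSeries.mul_mu_eq_one χ h1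
  rw [← DirichletCharacter.LFunction_eq_LSeries χ h1] at hmul
  -- bound of the Moebius series
  have hmu : ‖LSeries ((fun n : ℕ => χ (n : ZMod q)) *
      (fun n : ℕ => ((ArithmeticFunction.moebius n : ℤ) : ℂ))) s‖ ≤ ‖riemannZeta (σ : ℂ)‖ := by
    have hsum : Summable (fun n : ℕ => ‖LSeries.term (fun n => ((ArithmeticFunction.zeta n : ℕ) : ℂ))
        (σ : ℂ) n‖) := (ArithmeticFunction.LSeriesSummable_zeta_iff.2 hσ1).norm
    have hz : ∑' n : ℕ, ‖LSeries.term (fun n => ((ArithmeticFunction.zeta n : ℕ) : ℂ)) (σ : ℂ) n‖ =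
        ‖riemannZeta (σ : ℂ)‖ := by
      have h3 : ∀ n : ℕ, LSeries.term (fun n => ((ArithmeticFunction.zeta n : ℕ) : ℂ)) (σ : ℂ) n =
          ((‖LSeries.term (fun n => ((ArithmeticFunction.zeta n : ℕ) : ℂ)) (σ : ℂ) n‖ : ℝ) : ℂ) := by
        intro n
        rcases eq_or_ne n 0 with rfl | hn
        · simp
        · rw [LSeries.norm_term_eq, LSeries.term_of_ne_zero hn, if_neg hn,
            ArithmeticFunction.zeta_apply_ne hn, Complex.ofReal_re]
          have h4 : ((n : ℂ)) = (((n : ℝ)) : ℂ) := by push_cast; rfl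
          rw [h4, ← Complex.ofReal_cpow (Nat.cast_nonneg n)]
          simp
      have h5 : riemannZeta (σ : ℂ) =
          ((∑' n : ℕ, ‖LSeries.term (fun n => ((ArithmeticFunction.zeta n : ℕ) : ℂ)) (σ : ℂ) n‖ : ℝ)
            : ℂ) := by
        rw [← ArithmeticFunction.LSeries_zeta_eq_riemannZeta hσ1, LSeries, Complex.ofReal_tsum]
        exact tsum_congr h3
      rw [h5, Complex.norm_real, Real.norm_eq_abs, abs_of_nonneg]
      exact tsum_nonneg fun n => norm_nonneg _
    rw [← hz, LSeries]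
    refine tsum_of_norm_bounded hsum.hasSum fun n => ?_
    rw [LSeries.norm_term_eq, LSeries.norm_term_eq]
    rcases eq_or_ne n 0 with rfl | hn
    · simp
    · rw [if_neg hn, if_neg hn, Complex.ofReal_re, ArithmeticFunction.zeta_apply_ne hn]
      have h6 : ‖((fun n : ℕ => χ (n : ZMod q)) *
          (fun n : ℕ => ((ArithmeticFunction.moebius n : ℤ) : ℂ))) n‖ ≤ 1 := by
        rw [Pi.mul_apply, norm_mul]
        have h8 : ‖(((ArithmeticFunction.moebius n : ℤ)) : ℂ)‖ ≤ 1 := by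
          rw [Complex.norm_intCast]
          exact_mod_cast ArithmeticFunction.abs_moebius_le_one
        exact mul_le_one₀ (DirichletCharacter.norm_le_one χ _) (norm_nonneg _) h8
      have h7 : ‖(((1 : ℕ)) : ℂ)‖ = 1 := by simp
      rw [h7]
      exact div_le_div_of_nonneg_right h6 (Real.rpow_nonneg (Nat.cast_nonneg n) _)
  have hEZ : ‖riemannZeta (σ : ℂ)‖ * (σ - 1) ≤ |C| + 1 := by
    have h3 : (σ : ℂ) ≠ 1 := by
      intro h
      have := congrArg Complex.re h
      rw [Complex.ofReal_re, Complex.one_re] at this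
      linarith
    have h4 := hC σ ⟨h1.le, h2⟩
    rw [EZ_eq h3, norm_mul] at h4
    have h5 : ‖(σ : ℂ) - 1‖ = σ - 1 := by
      have : (σ : ℂ) - 1 = ((σ - 1 : ℝ) : ℂ) := by push_cast; ring
      rw [this, Complex.norm_real, Real.norm_eq_abs, abs_of_pos hs0]
    rw [h5] at h4
    have := le_abs_self C
    linarith
  have h6 : 1 ≤ ‖DirichletCharacter.LFunction χ s‖ * ‖riemannZeta (σ : ℂ)‖ := by
    have h7 : ‖DirichletCharacter.LFunction χ s * LSeries ((fun n : ℕ => χ (n : ZMod q)) *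
        (fun n : ℕ => ((ArithmeticFunction.moebius n : ℤ) : ℂ))) s‖ = 1 := by
      rw [hmul, norm_one]
    rw [norm_mul] at h7
    rw [← h7]
    exact mul_le_mul_of_nonneg_left hmu (norm_nonneg _)
  rw [div_mul_eq_mul_div, one_mul, div_le_iff₀ hCpos]
  calc σ - 1 ≤ (σ - 1) * (‖DirichletCharacter.LFunction χ s‖ * ‖riemannZeta (σ : ℂ)‖) :=
        le_mul_of_one_le_right hs0.le h6
    _ = ‖DirichletCharacter.LFunction χ s‖ * (‖riemannZeta (σ : ℂ)‖ * (σ - 1)) := by ring
    _ ≤ ‖DirichletCharacter.LFunction χ s‖ * (|C| + 1) :=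
        mul_le_mul_of_nonneg_left hEZ (norm_nonneg _)

end NearPAux

theorem nearP : NearP := by
  intro k
  obtain ⟨c, hc, hc1, hlow⟩ := NearPAux.lower
  have hK1 : 1 < 32 / c := by
    rw [lt_div_iff₀ hc]
    linarith
  have hlK : 0 < Real.log (32 / c) := Real.log_pos hK1
  have hfac : (0 : ℝ) < k.factorial := by exact_mod_cast k.factorial_pos
  refine ⟨k.factorial * 58 * 32 ^ k * (1 + Real.log (32 / c)), by positivity, ?_⟩
  intro q _ χ hχ r hr hr4 hz s hs
  set F := DirichletCharacter.LFunction χ with hF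
  have hFd : Differentiable ℂ F := DirichletCharacter.differentiable_LFunction hχ
  have hq1 : (1 : ℝ) ≤ q := by exact_mod_cast Nat.pos_of_ne_zero (NeZero.ne q)
  have hq0 : (0 : ℝ) < q := by linarith
  set s₀ : ℂ := 1 + ((r / 16 : ℝ) : ℂ) with hs₀
  have hs₀1 : ‖s₀ - 1‖ = r / 16 := by
    rw [hs₀, add_sub_cancel_left, Complex.norm_real, Real.norm_eq_abs,
      abs_of_pos (by positivity)]
  have hs₀re : s₀.re = 1 + r / 16 := by
    rw [hs₀, Complex.add_re, Complex.one_re, Complex.ofReal_re]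
  have hlow0 : c * (r / 16) ≤ ‖F s₀‖ := by
    have h1 := hlow q χ s₀ (by rw [hs₀re]; linarith) (by rw [hs₀re]; linarith)
    rw [hs₀re, add_sub_cancel_left] at h1
    exact h1
  have hdist : ∀ z : ℂ, ‖z - 1‖ ≤ ‖z - s₀‖ + r / 16 := by
    intro z
    rw [← hs₀1]
    calc ‖z - 1‖ = ‖(z - s₀) + (s₀ - 1)‖ := by ring_nf
      _ ≤ _ := norm_add_le _ _
  have hqr : 4 ≤ q / r := by
    rw [le_div_iff₀ hr]
    linarith
  have hlqr : 1 ≤ Real.log (q / r) := by
    rw [Real.le_log_iff_exp_le (by positivity)]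
    linarith [Real.exp_one_lt_d9]
  set M : ℝ := Real.log (32 / c * (q / r)) with hM
  have hMeq : M = Real.log (32 / c) + Real.log (q / r) := by
    rw [hM, Real.log_mul (by positivity) (by positivity)]
  have hM0 : 0 < M := by rw [hMeq]; linarith
  have hMle : M ≤ (1 + Real.log (32 / c)) * Real.log (q / r) := by
    rw [hMeq]
    nlinarith
  have hR : 0 < 15 * r / 16 := by positivity
  have hne : F s₀ ≠ 0 := by
    intro h
    rw [h, norm_zero] at hlow0
    have : 0 < c * (r / 16) := by positivity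
    linarith
  have hb : ∀ z ∈ Metric.ball s₀ (15 * r / 16), ‖F z‖ ≤ Real.exp M * ‖F s₀‖ := by
    intro z hzb
    rw [Metric.mem_ball, dist_eq_norm] at hzb
    have hz1 : ‖z - 1‖ ≤ 1 / 4 := by
      have := hdist z
      linarith
    have hre : 3 / 4 ≤ z.re := by
      have h1 := Complex.abs_re_le_norm (z - 1)
      rw [Complex.sub_re, Complex.one_re] at h1
      have := (abs_le.1 h1).1
      linarith
    have hn : ‖z‖ ≤ 5 / 4 := by
      calc ‖z‖ = ‖(z - 1) + 1‖ := by ring_nf
        _ ≤ ‖z - 1‖ + ‖(1 : ℂ)‖ := norm_add_le _ _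
        _ ≤ 5 / 4 := by rw [norm_one]; linarith
    have h1 := Pool.Agent.Helper85.BV.lBound q χ hχ z (by linarith)
    have h2 : (q : ℝ) * ‖z‖ / z.re ≤ 2 * q := by
      rw [div_le_iff₀ (by linarith)]
      nlinarith
    have h3 : Real.exp M = 32 / c * (q / r) := by
      rw [hM, Real.exp_log (by positivity)]
    calc ‖F z‖ ≤ 2 * q := h1.trans h2
      _ = 32 / c * (q / r) * (c * (r / 16)) := by
        field_simp
        ring
      _ ≤ Real.exp M * ‖F s₀‖ := by
        rw [h3]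
        exact mul_le_mul_of_nonneg_left hlow0 (by positivity)
  obtain ⟨S, hS, -, hld⟩ := Pool.Agent.Helper33.KSZ.landau hR hM0 hFd.differentiableOn hne hb
  have hSe : S = ∅ := by
    rw [Finset.eq_empty_iff_forall_notMem]
    intro z hzS
    obtain ⟨h1, h2⟩ := (hS z).1 hzS
    rw [Metric.mem_closedBall, dist_eq_norm] at h1
    refine hz z ?_ h2
    have := hdist z
    linarith
  have hmain : ∀ z ∈ Metric.closedBall s (r / 32),
      F z ≠ 0 ∧ ‖deriv F z / F z‖ ≤ 54 * M / (15 * r / 16) := by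
    intro z hzs
    rw [Metric.mem_closedBall, dist_eq_norm] at hzs
    have h1 : ‖z - 1‖ ≤ r / 32 + r / 8 := by
      calc ‖z - 1‖ = ‖(z - s) + (s - 1)‖ := by ring_nf
        _ ≤ ‖z - s‖ + ‖s - 1‖ := norm_add_le _ _
        _ ≤ _ := by linarith
    have h2 : ‖z - s₀‖ ≤ r / 32 + r / 8 + r / 16 := by
      calc ‖z - s₀‖ = ‖(z - 1) - (s₀ - 1)‖ := by ring_nf
        _ ≤ ‖z - 1‖ + ‖s₀ - 1‖ := norm_sub_le _ _
        _ ≤ _ := by rw [hs₀1]; linarith
    have h3 : F z ≠ 0 := hz z (by linarith)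
    have h4 := hld z (by rw [Metric.mem_closedBall, dist_eq_norm]; linarith) h3
    rw [hSe, Finset.sum_empty, sub_zero] at h4
    exact ⟨h3, h4⟩
  have hd : DiffContOnCl ℂ (fun z => deriv F z / F z) (Metric.ball s (r / 32)) := by
    refine DifferentiableOn.diffContOnCl_ball (U := Metric.closedBall s (r / 32)) ?_ subset_rfl
    intro z hzs
    have h5 : DifferentiableAt ℂ (deriv F) z :=
      (hFd.differentiableOn.deriv isOpen_univ).differentiableAt (Filter.univ_mem)
    exact (h5.div (hFd z) (hmain z hzs).1).differentiableWithinAt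
  have hfin := Complex.norm_iteratedDeriv_le_of_forall_mem_sphere_norm_le k
    (by positivity : 0 < r / 32) hd
    (fun z hzs => (hmain z (Metric.sphere_subset_closedBall hzs)).2)
  refine hfin.trans ?_
  have h6 : (k.factorial : ℝ) * (54 * M / (15 * r / 16)) / (r / 32) ^ k =
      k.factorial * (288 / 5) * 32 ^ k * M / r ^ (k + 1) := by
    rw [div_pow, pow_succ]
    field_simp
    ring
  rw [h6]
  refine div_le_div_of_nonneg_right ?_ (by positivity)
  calc (k.factorial : ℝ) * (288 / 5) * 32 ^ k * M ≤ k.factorial * 58 * 32 ^ k * M := by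
        refine mul_le_mul_of_nonneg_right ?_ hM0.le
        refine mul_le_mul_of_nonneg_right ?_ (by positivity)
        refine mul_le_mul_of_nonneg_left (by norm_num) hfac.le
    _ ≤ k.factorial * 58 * 32 ^ k * ((1 + Real.log (32 / c)) * Real.log (q / r)) :=
        mul_le_mul_of_nonneg_left hMle (by positivity)
    _ = _ := by ring

end Pool.Agent.Helper34.CA
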