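import Pool.Agent.Helper34.CA.St

/-!
# Project CA (MP_87fff7_nt), module Page

A3. `Page`. Let `L = log R`, `δ = c₁ / L`, all zeros considered satisfy `‖ρ - 1‖ ≤ c / L` with
`c` much smaller than `c₁` much smaller than `1 / C`; `log (q/δ) ≤ C' (1 + log (1/c₁)) L` for
`q ≤ R^2`. Let `ρ = β + iγ` be a zero of `L(s,χ)` with `‖ρ - 1‖ ≤ c/L`.
(a) `χ^2 ≠ 1`: `c341` with this `γ`, `Z = {ρ}` for `χ` and `Z = ∅` for `χ^2`:
`0 ≤ 3/δ + 3C + 5 C log(..) - 4/(1+δ-β)`, and `1+δ-β ≤ δ (1 + c/c₁)`: contradiction.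
(b) `χ^2 = 1`, `γ ≠ 0`: then `conj ρ` is a zero too (`χ` is real: `L(conj s) = conj L(s)`), `one`
with `Z = {ρ, conj ρ}`: `0 ≤ 1/δ + C + C log(..) - 2 Re 1/(1+δ-ρ)` and
`Re 1/(1+δ-ρ) ≥ 0.8/δ`: contradiction. So `χ^2 = 1` and `ρ` is real.
(c) two characters `χ₁, χ₂` (real, real zeros): let `χ₃ = χ₁χ₂` modulo `q₁q₂` (`changeLevel`). If
`χ₃ ≠ 1`, `two` gives `0 ≤ 1/δ + C + 3C log(..) - 2 * 0.8/δ`: contradiction. If `χ₃ = 1` then
`χ₁(n) χ₂(n) = 1`, so `χ₁(n) = χ₂(n)`, for `n` coprime to `q₁q₂`.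
-/

set_option autoImplicit false

open Finset Filter Topology
open scoped ArithmeticFunction.vonMangoldt

namespace Pool.Agent.Helper34.CA

open Pool.Agent.Helper18.BV

namespace PageAux

lemma re_inv {w : ℂ} {δ : ℝ} (hδ : 0 < δ) (h : ‖w - δ‖ ≤ δ / 50) : 9 / 10 * (1 / δ) ≤ (1 / w).re := by
  have hre : |(w - δ).re| ≤ δ / 50 := (Complex.abs_re_le_norm _).trans h
  have hn : ‖w‖ ≤ δ + δ / 50 := by
    have h3 : ‖w‖ ≤ ‖w - δ‖ + ‖(δ : ℂ)‖ := by
      have := norm_add_le (w - δ) (δ : ℂ)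
      simpa using this
    rw [Complex.norm_real, Real.norm_eq_abs, abs_of_pos hδ] at h3
    linarith
  have hre2 : (w - δ).re = w.re - δ := by simp
  rw [hre2] at hre
  have hw : δ - δ / 50 ≤ w.re := by
    have := (abs_le.mp hre).1
    linarith
  have hwpos : 0 < w.re := by
    have : 0 < δ - δ / 50 := by linarith
    linarith
  have hns : Complex.normSq w ≤ (δ + δ / 50) ^ 2 := by
    rw [Complex.normSq_eq_norm_sq]
    exact pow_le_pow_left₀ (norm_nonneg _) hn 2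
  have hnpos : 0 < Complex.normSq w := by
    rw [Complex.normSq_pos]
    intro h0
    rw [h0] at hwpos
    simp at hwpos
  have e1 : (1 / w).re = w.re / Complex.normSq w := by
    rw [one_div, Complex.inv_re]
  rw [e1, le_div_iff₀ hnpos]
  have h4 : 9 / 10 * (1 / δ) * Complex.normSq w ≤ 9 / 10 * (1 / δ) * (δ + δ / 50) ^ 2 :=
    mul_le_mul_of_nonneg_left hns (by positivity)
  have h5 : 9 / 10 * (1 / δ) * (δ + δ / 50) ^ 2 = 9 / 10 * (51 / 50) ^ 2 * δ := by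
    field_simp
    ring
  rw [h5] at h4
  nlinarith

/-- The character `χ₁ χ₂` modulo `q₁ q₂`. -/
lemma exists_mul (q₁ q₂ : ℕ) [NeZero q₁] [NeZero q₂] (χ₁ : DirichletCharacter ℂ q₁)
    (χ₂ : DirichletCharacter ℂ q₂) : ∃ χ₃ : DirichletCharacter ℂ (q₁ * q₂),
      ∀ n : ℕ, χ₃ (n : ZMod (q₁ * q₂)) = χ₁ (n : ZMod q₁) * χ₂ (n : ZMod q₂) := by
  refine ⟨DirichletCharacter.changeLevel (Dvd.intro _ rfl) χ₁ *
    DirichletCharacter.changeLevel (Dvd.intro_left _ rfl) χ₂, fun n => ?_⟩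
  by_cases hn : Nat.Coprime n (q₁ * q₂)
  · have hu : IsUnit (n : ZMod (q₁ * q₂)) := (ZMod.isUnit_iff_coprime n (q₁ * q₂)).mpr hn
    rw [MulChar.mul_apply]
    have a1 : DirichletCharacter.changeLevel (Dvd.intro q₂ rfl : q₁ ∣ q₁ * q₂) χ₁
        (n : ZMod (q₁ * q₂)) = χ₁ (n : ZMod q₁) := by
      have := DirichletCharacter.changeLevel_eq_cast_of_dvd χ₁ (Dvd.intro q₂ rfl : q₁ ∣ q₁ * q₂)
        hu.unit
      simpa using this
    have a2 : DirichletCharacter.changeLevel (Dvd.intro_left q₁ rfl : q₂ ∣ q₁ * q₂) χ₂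
        (n : ZMod (q₁ * q₂)) = χ₂ (n : ZMod q₂) := by
      have := DirichletCharacter.changeLevel_eq_cast_of_dvd χ₂
        (Dvd.intro_left q₁ rfl : q₂ ∣ q₁ * q₂) hu.unit
      simpa using this
    rw [a1, a2]
  · have hu : ¬ IsUnit (n : ZMod (q₁ * q₂)) := fun h =>
      hn ((ZMod.isUnit_iff_coprime n (q₁ * q₂)).mp h)
    rw [MulChar.map_nonunit _ hu]
    rw [Nat.coprime_mul_iff_right] at hn
    by_cases h1 : Nat.Coprime n q₁
    · have h2 : ¬ Nat.Coprime n q₂ := fun h => hn ⟨h1, h⟩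
      have hu2 : ¬ IsUnit (n : ZMod q₂) := fun h => h2 ((ZMod.isUnit_iff_coprime n q₂).mp h)
      rw [MulChar.map_nonunit _ hu2, mul_zero]
    · have hu1 : ¬ IsUnit (n : ZMod q₁) := fun h => h1 ((ZMod.isUnit_iff_coprime n q₁).mp h)
      rw [MulChar.map_nonunit _ hu1, zero_mul]

end PageAux

theorem page (h1 : LDer) (h2 : Combos) : Page := by
  obtain ⟨C1, hC1, hL⟩ := h1
  obtain ⟨C2, hC2, hZ⟩ := h2.zeta
  obtain ⟨K, hK⟩ : ∃ K : ℝ, K = C1 + C2 + 1 := ⟨_, rfl⟩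
  have hK1 : 1 ≤ K := by linarith
  obtain ⟨e, he⟩ : ∃ e : ℝ, e = 1 / (1000 * K) := ⟨_, rfl⟩
  have he0 : 0 < e := by rw [he]; positivity
  have heK : e * K = 1 / 1000 := by
    rw [he]
    field_simp
  have he1 : e ≤ 1 / 1000 := by
    rw [he]
    apply one_div_le_one_div_of_le (by norm_num)
    linarith
  refine ⟨e ^ 2 / 100, by positivity, ?_⟩
  intro R hR q₁ q₂ _ _ χ₁ χ₂ hq₁ hq₂ hχ₁ hχ₂ hs₁ hs₂
  obtain ⟨ρ₁, hρ₁, hz₁⟩ := hs₁
  obtain ⟨ρ₂, hρ₂, hz₂⟩ := hs₂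
  obtain ⟨L, hLL⟩ : ∃ L : ℝ, L = Real.log R := ⟨_, rfl⟩
  have hL1 : 1 ≤ L := by
    rw [hLL, Real.le_log_iff_exp_le (by linarith)]
    have := Real.exp_one_lt_d9
    linarith
  rw [← hLL] at hρ₁ hρ₂
  obtain ⟨δ, hδ⟩ : ∃ δ : ℝ, δ = e ^ 2 / L := ⟨_, rfl⟩
  have hδ0 : 0 < δ := by rw [hδ]; positivity
  have hδe : δ ≤ e ^ 2 := by
    rw [hδ, div_le_iff₀ (by linarith)]
    nlinarith [sq_nonneg e]
  have hδ8 : δ ≤ 1 / 1000 := by
    have : e ^ 2 ≤ 1 / 1000 := by nlinarith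
    linarith
  have hc : e ^ 2 / 100 / L = δ / 100 := by
    rw [hδ]
    ring
  rw [hc] at hρ₁ hρ₂
  -- the logarithm
  have hlog : ∀ q : ℕ, 1 ≤ q → (q : ℝ) ≤ R ^ 2 → C1 * Real.log (q / δ) ≤ 5 / 1000 * (1 / δ) := by
    intro q hq hqR
    have hq0 : (0 : ℝ) < q := by exact_mod_cast hq
    have e1 : Real.log (q / δ) = Real.log q + Real.log L + 2 * Real.log (1 / e) := by
      have : (q : ℝ) / δ = q * L * (1 / e) ^ 2 := by
        rw [hδ]
        field_simp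
      rw [this, Real.log_mul (by positivity) (by positivity), Real.log_mul (by positivity)
        (by positivity), Real.log_pow]
      norm_num
    have e2 : Real.log q ≤ 2 * L := by
      rw [hLL]
      have := Real.log_le_log hq0 hqR
      rw [Real.log_pow] at this
      exact_mod_cast this
    have e3 : Real.log L ≤ L := by
      have := Real.log_le_sub_one_of_pos (by linarith : 0 < L)
      linarith
    have e4 : Real.log (1 / e) ≤ 1 / e := by
      have := Real.log_le_sub_one_of_pos (by positivity : 0 < 1 / e)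
      linarith
    have e5 : (1 : ℝ) ≤ 1 / e := by
      rw [le_div_iff₀ he0]
      linarith
    have e6 : Real.log (q / δ) ≤ 5 * (L * (1 / e)) := by
      rw [e1]
      have h7 : L ≤ L * (1 / e) := by nlinarith
      have h8 : 1 / e ≤ L * (1 / e) := by nlinarith
      linarith
    have e7 : 1 / δ = L * (1 / e) * (1 / e) := by
      rw [hδ]
      field_simp
    have e8 : (1 : ℝ) / e = 1000 * K := by
      rw [he]
      field_simp
    have e9 : C1 * Real.log (q / δ) ≤ C1 * (5 * (L * (1 / e))) :=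
      mul_le_mul_of_nonneg_left e6 hC1.le
    have e10 : C1 * (5 * (L * (1 / e))) ≤ K * (5 * (L * (1 / e))) := by
      apply mul_le_mul_of_nonneg_right (by linarith)
      positivity
    have e11 : 5 / 1000 * (1 / δ) = K * (5 * (L * (1 / e))) := by
      rw [e7]
      nth_rewrite 2 [e8]
      ring
    rw [e11]
    linarith
  have hC2' : C2 ≤ 1 / 1000 * (1 / δ) := by
    have e1 : 1 / e ^ 2 ≤ 1 / δ := one_div_le_one_div_of_le hδ0 hδe
    have e2 : 1 / e ^ 2 = (1000 * K) ^ 2 := by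
      rw [he]
      field_simp
    rw [e2] at e1
    nlinarith
  have hR2 : R ≤ R ^ 2 := by nlinarith
  -- one character
  have key : ∀ (q : ℕ) [NeZero q] (χ : DirichletCharacter ℂ q), (q : ℝ) ≤ R → χ ≠ 1 → ∀ ρ : ℂ,
      ‖ρ - 1‖ ≤ δ / 100 → DirichletCharacter.LFunction χ ρ = 0 → χ ^ 2 = 1 ∧
      LD χ (1 + δ) ≤ 5 / 1000 * (1 / δ) - 9 / 10 * (1 / δ) := by
    intro q _ χ hq hχ ρ hρ hz
    have hq1 : 1 ≤ q := Nat.one_le_iff_ne_zero.mpr (NeZero.ne q)
    have hZs : ∀ ρ' ∈ ({ρ} : Finset ℂ), DirichletCharacter.LFunction χ ρ' = 0 ∧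
        ‖ρ' - 1‖ ≤ 1 / 16 := by
      intro ρ' h
      rw [Finset.mem_singleton] at h
      rw [h]
      exact ⟨hz, by linarith⟩
    have hZe : ∀ ρ' ∈ (∅ : Finset ℂ), DirichletCharacter.LFunction (χ ^ 2) ρ' = 0 ∧
        ‖ρ' - 1‖ ≤ 1 / 16 := by
      intro ρ' h
      exact absurd h (Finset.notMem_empty _)
    have him : |ρ.im| ≤ δ / 100 := by
      have := (Complex.abs_im_le_norm (ρ - 1)).trans hρ
      simpa using this
    have hre : |ρ.re - 1| ≤ δ / 100 := by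
      have := (Complex.abs_re_le_norm (ρ - 1)).trans hρ
      simpa using this
    constructor
    · by_contra hne
      have a1 := h2.c341 q χ δ ρ.im hδ0
      have a2 := hL q χ hχ δ ρ.im hδ0 (by linarith) (by linarith) {ρ} hZs
      have h2γ : |2 * ρ.im| ≤ 1 / 8 := by
        rw [abs_mul, abs_of_pos (by norm_num : (0 : ℝ) < 2)]
        linarith
      have a3 := hL q (χ ^ 2) hne δ (2 * ρ.im) hδ0 (by linarith) h2γ ∅ hZe
      have a4 := hZ δ hδ0 (by linarith)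
      rw [Finset.sum_singleton] at a2
      rw [Finset.sum_empty, sub_zero] at a3
      have a5 := hlog q hq1 (hq.trans hR2)
      have a6 : 9 / 10 * (1 / δ) ≤ (1 / (1 + (δ : ℂ) + ρ.im * Complex.I - ρ)).re := by
        apply PageAux.re_inv hδ0
        have : (1 + (δ : ℂ) + ρ.im * Complex.I - ρ) - δ = ((1 - ρ.re : ℝ) : ℂ) := by
          apply Complex.ext
          · simp
            ring
          · simp
        rw [this, Complex.norm_real, Real.norm_eq_abs, abs_sub_comm]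
        linarith
      have hd : 0 < 1 / δ := by positivity
      linarith
    · have a2 := hL q χ hχ δ 0 hδ0 (by linarith) (by norm_num) {ρ} hZs
      rw [Finset.sum_singleton] at a2
      have a5 := hlog q hq1 (hq.trans hR2)
      have b1 : (1 + (δ : ℂ) + ((0 : ℝ) : ℂ) * Complex.I) = 1 + δ := by simp
      rw [b1] at a2
      have a6 : 9 / 10 * (1 / δ) ≤ (1 / (1 + (δ : ℂ) - ρ)).re := by
        apply PageAux.re_inv hδ0
        have : (1 + (δ : ℂ) - ρ) - δ = 1 - ρ := by ring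
        rw [this, norm_sub_rev]
        linarith
      linarith
  obtain ⟨hr₁, hb₁⟩ := key q₁ χ₁ hq₁ hχ₁ ρ₁ hρ₁ hz₁
  obtain ⟨hr₂, hb₂⟩ := key q₂ χ₂ hq₂ hχ₂ ρ₂ hρ₂ hz₂
  refine ⟨hr₁, ?_⟩
  obtain ⟨χ₃, h₃⟩ := PageAux.exists_mul q₁ q₂ χ₁ χ₂
  have hne₁ : q₁ ≠ 0 := NeZero.ne q₁
  have hne₂ : q₂ ≠ 0 := NeZero.ne q₂
  have hnz : NeZero (q₁ * q₂) := ⟨mul_ne_zero hne₁ hne₂⟩
  have h₃1 : χ₃ = 1 := by
    by_contra hne
    have a1 := h2.two q₁ q₂ (q₁ * q₂) χ₁ χ₂ χ₃ δ hδ0 hr₁ hr₂ h₃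
    have a3 := hL (q₁ * q₂) χ₃ hne δ 0 hδ0 (by linarith) (by norm_num) ∅
      (fun ρ' h => absurd h (Finset.notMem_empty _))
    rw [Finset.sum_empty, sub_zero] at a3
    have b1 : (1 + (δ : ℂ) + ((0 : ℝ) : ℂ) * Complex.I) = 1 + δ := by simp
    rw [b1] at a3
    have a4 := hZ δ hδ0 (by linarith)
    have a5 := hlog (q₁ * q₂) (Nat.one_le_iff_ne_zero.mpr (mul_ne_zero hne₁ hne₂)) (by
      push_cast
      have : (q₁ : ℝ) * q₂ ≤ R * R := mul_le_mul hq₁ hq₂ (by positivity) (by linarith)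
      nlinarith)
    have hd : 0 < 1 / δ := by positivity
    linarith
  intro n hn
  have hu : IsUnit (n : ZMod (q₁ * q₂)) := (ZMod.isUnit_iff_coprime n (q₁ * q₂)).mpr hn
  have b1 := h₃ n
  rw [h₃1, MulChar.one_apply hu] at b1
  have hu₁ : IsUnit (n : ZMod q₁) :=
    (ZMod.isUnit_iff_coprime n q₁).mpr (Nat.coprime_mul_iff_right.mp hn).1
  have b2 : χ₁ (n : ZMod q₁) * χ₁ (n : ZMod q₁) = 1 := by
    have := congrArg (fun f : DirichletCharacter ℂ q₁ => f (n : ZMod q₁)) hr₁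
    simp only [MulChar.one_apply hu₁, sq, MulChar.mul_apply] at this
    exact this
  have b3 : χ₁ (n : ZMod q₁) ≠ 0 := by
    intro h
    rw [h, zero_mul] at b2
    exact zero_ne_one b2
  have b4 : χ₁ (n : ZMod q₁) * χ₁ (n : ZMod q₁) = χ₁ (n : ZMod q₁) * χ₂ (n : ZMod q₂) := by
    rw [b2, ← b1]
  exact mul_left_cancel₀ b3 b4

end Pool.Agent.Helper34.CA
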