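import Pool.Agent.Helper34.CA.St

/-!
# Project CA (MP_87fff7_nt), module Pop

F1. `Pop`. `s = |P|/J ≥ h`. Choose disjoint `P_i ⊆ P` with `|P_i| = s`; the products of the
`h`-subsets of `P_i` are distinct squarefree numbers `≤ z^h` coprime to `M`, their number is
`C(s,h) ≥ (s/h)^h` (`Nat.pow_le_choose`-type bound). Pigeonhole over the residue classes mod `M`.
-/

set_option autoImplicit false

open Finset Filter Topology
open scoped ArithmeticFunction.vonMangoldt

namespace Pool.Agent.Helper34.CA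

open Pool.Agent.Helper18.BV

/-- `(s / h) ^ h ≤ C(s, h)` -/
theorem Pop_choose (h s : ℕ) (h1 : 1 ≤ h) (hs : h ≤ s) :
    ((s : ℝ) / h) ^ h ≤ (s.choose h : ℝ) := by
  induction h, h1 using Nat.le_induction generalizing s with
  | base => simp
  | succ h h1 ih =>
    obtain ⟨t, rfl⟩ : ∃ t, s = t + 1 := ⟨s - 1, by omega⟩
    have hht : h ≤ t := by omega
    have hh0 : (0 : ℝ) < h := by exact_mod_cast h1
    have hht' : (h : ℝ) ≤ t := by exact_mod_cast hht
    have h2 := ih t hht
    have h3 : ((t + 1 : ℕ) : ℝ) / ((h + 1 : ℕ) : ℝ) ≤ (t : ℝ) / h := by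
      rw [div_le_div_iff₀ (by positivity) hh0]
      push_cast
      nlinarith
    have h4 : ((t + 1).choose (h + 1) : ℝ) =
        ((t + 1 : ℕ) : ℝ) / ((h + 1 : ℕ) : ℝ) * (t.choose h : ℝ) := by
      have := Nat.add_one_mul_choose_eq t h
      have h5 : ((t + 1 : ℕ) : ℝ) * (t.choose h : ℝ) =
          ((t + 1).choose (h + 1) : ℝ) * ((h + 1 : ℕ) : ℝ) := by exact_mod_cast this
      have h6 : ((h + 1 : ℕ) : ℝ) ≠ 0 := by positivity
      field_simp
      linarith
    rw [h4, pow_succ']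
    apply mul_le_mul_of_nonneg_left _ (by positivity)
    calc (((t + 1 : ℕ) : ℝ) / ((h + 1 : ℕ) : ℝ)) ^ h ≤ ((t : ℝ) / h) ^ h :=
          pow_le_pow_left₀ (by positivity) h3 h
      _ ≤ _ := h2

/-- products of distinct primes are squarefree -/
theorem Pop_sqf (T : Finset ℕ) (hT : ∀ p ∈ T, p.Prime) : Squarefree (∏ p ∈ T, p) := by
  induction T using Finset.induction_on with
  | empty => simp
  | insert a T ha ih =>
    rw [Finset.prod_insert ha]
    have h1 : ∀ p ∈ T, p.Prime := fun p hp => hT p (Finset.mem_insert_of_mem hp)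
    have h2 : a.Prime := hT a (Finset.mem_insert_self a T)
    have h3 : Nat.Coprime a (∏ p ∈ T, p) := by
      apply Nat.Coprime.prod_right
      intro p hp
      exact (Nat.coprime_primes h2 (h1 p hp)).2 (fun e => ha (e ▸ hp))
    exact (Nat.squarefree_mul h3).2 ⟨h2.squarefree, ih h1⟩

/-- pigeonhole for one set of primes -/
theorem Pop_one (Q : Finset ℕ) (h M z : ℕ) (h1 : 1 ≤ h) (hs : h ≤ Q.card) (hM : 0 < M)
    (hQ : ∀ p ∈ Q, p.Prime ∧ p ≤ z ∧ Nat.Coprime p M) :
    ∃ (A : Finset ℕ) (r : ℕ),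
      (∀ n ∈ A, 1 ≤ n ∧ n ≤ z ^ h ∧ Squarefree n ∧ n.primeFactors.card = h ∧
        n.primeFactors ⊆ Q ∧ n ≡ r [MOD M]) ∧ Nat.Coprime r M ∧
      ((Q.card : ℝ) / h) ^ h / M ≤ A.card := by
  classical
  have hM' : (0 : ℝ) < M := by exact_mod_cast hM
  have hh' : (0 : ℝ) < h := by exact_mod_cast h1
  have hQ' : (0 : ℝ) < Q.card := by
    have : 0 < Q.card := by omega
    exact_mod_cast this
  set B : Finset ℕ := (Q.powersetCard h).image (fun T => ∏ p ∈ T, p) with hB
  have hpr : ∀ T ∈ Q.powersetCard h, ∀ p ∈ T, p.Prime ∧ p ≤ z ∧ Nat.Coprime p M := by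
    intro T hT p hp
    exact hQ p ((Finset.mem_powersetCard.1 hT).1 hp)
  have hcard : (B.card : ℝ) = (Q.card.choose h : ℝ) := by
    rw [hB, Finset.card_image_of_injOn, Finset.card_powersetCard]
    intro T hT T' hT' hTT
    have e1 := Nat.primeFactors_prod (fun p hp => (hpr T hT p hp).1)
    have e2 := Nat.primeFactors_prod (fun p hp => (hpr T' hT' p hp).1)
    simp only at hTT
    rw [← e1, ← e2, hTT]
  have hmem : ∀ n ∈ B, 1 ≤ n ∧ n ≤ z ^ h ∧ Squarefree n ∧ n.primeFactors.card = h ∧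
        n.primeFactors ⊆ Q ∧ Nat.Coprime n M := by
    intro n hn
    obtain ⟨T, hT, rfl⟩ := Finset.mem_image.1 hn
    have hT' := Finset.mem_powersetCard.1 hT
    have e1 := Nat.primeFactors_prod (fun p hp => (hpr T hT p hp).1)
    refine ⟨?_, ?_, Pop_sqf T (fun p hp => (hpr T hT p hp).1), ?_, ?_, ?_⟩
    · exact Finset.prod_pos (fun p hp => (hpr T hT p hp).1.pos)
    · rw [← hT'.2]
      exact Finset.prod_le_pow_card T (fun p => p) z (fun p hp => (hpr T hT p hp).2.1)
    · rw [e1, hT'.2]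
    · rw [e1]; exact hT'.1
    · exact Nat.Coprime.prod_left (fun p hp => (hpr T hT p hp).2.2)
  have hb : ((range M).card) • (((Q.card : ℝ) / h) ^ h / M) ≤ (B.card : ℝ) := by
    rw [card_range, nsmul_eq_mul, mul_div_cancel₀ _ hM'.ne', hcard]
    exact Pop_choose h Q.card h1 hs
  obtain ⟨r, hr, hr2⟩ := Finset.exists_le_card_fiber_of_nsmul_le_card_of_maps_to
    (s := B) (t := range M) (f := fun n => n % M)
    (fun n _ => mem_range.2 (Nat.mod_lt n hM)) ⟨0, mem_range.2 hM⟩ hb
  have hpos : (0 : ℝ) < ((Q.card : ℝ) / h) ^ h / M := by positivity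
  refine ⟨B.filter (fun n => n % M = r), r, ?_, ?_, hr2⟩
  · intro n hn
    obtain ⟨hn1, hn2⟩ := Finset.mem_filter.1 hn
    obtain ⟨a1, a2, a3, a4, a5, _⟩ := hmem n hn1
    refine ⟨a1, a2, a3, a4, a5, ?_⟩
    rw [Nat.ModEq, hn2, Nat.mod_eq_of_lt (mem_range.1 hr)]
  · have hne : (B.filter (fun n => n % M = r)).Nonempty := by
      rw [← Finset.card_pos]
      have := hpos.trans_le hr2
      exact_mod_cast this
    obtain ⟨n, hn⟩ := hne
    obtain ⟨hn1, hn2⟩ := Finset.mem_filter.1 hn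
    have h7 := (hmem n hn1).2.2.2.2.2
    rw [← hn2]
    rw [Nat.coprime_iff_gcd_eq_one] at h7 ⊢
    rw [← Nat.gcd_rec M n, Nat.gcd_comm] 
    exact h7

theorem pop : Pop := by
  classical
  intro P J h M z hJ hh hcard hM hP
  set s : ℕ := P.card / J with hs
  have hsh : h ≤ s := by
    rw [hs, Nat.le_div_iff_mul_le (by omega)]
    rw [mul_comm]; exact hcard
  have hJs : J * s ≤ P.card := Nat.mul_div_le _ _
  let e : Fin J × Fin s → ℕ := fun u =>
    (P.orderEmbOfFin rfl (Fin.castLE hJs (finProdFinEquiv u)) : ℕ)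
  have heinj : Function.Injective e := by
    intro u v huv
    have h1 := (P.orderEmbOfFin rfl).injective huv
    exact finProdFinEquiv.injective (Fin.castLE_injective hJs h1)
  have hemem : ∀ u, e u ∈ P := fun u => P.orderEmbOfFin_mem rfl _
  let Q : Fin J → Finset ℕ := fun i => univ.image (fun k : Fin s => e (i, k))
  have hQc : ∀ i, (Q i).card = s := by
    intro i
    show (univ.image (fun k : Fin s => e (i, k))).card = s
    rw [Finset.card_image_of_injective, Finset.card_univ, Fintype.card_fin]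
    intro k k' hk
    have := heinj hk
    simpa using this
  have hQP : ∀ i, Q i ⊆ P := by
    intro i p hp
    obtain ⟨k, _, rfl⟩ := Finset.mem_image.1 hp
    exact hemem _
  have hQd : ∀ i j, i ≠ j → Disjoint (Q i) (Q j) := by
    intro i j hij
    rw [Finset.disjoint_left]
    intro p hp hp'
    obtain ⟨k, _, rfl⟩ := Finset.mem_image.1 hp
    obtain ⟨k', _, hk'⟩ := Finset.mem_image.1 hp'
    have := heinj hk'
    exact hij (congrArg Prod.fst this).symm
  have key : ∀ i : Fin J, ∃ (A : Finset ℕ) (r : ℕ),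
      (∀ n ∈ A, 1 ≤ n ∧ n ≤ z ^ h ∧ Squarefree n ∧ n.primeFactors.card = h ∧
        n.primeFactors ⊆ Q i ∧ n ≡ r [MOD M]) ∧ Nat.Coprime r M ∧
      ((s : ℝ) / h) ^ h / M ≤ A.card := by
    intro i
    have := Pop_one (Q i) h M z hh (by rw [hQc]; exact hsh) hM (fun p hp => hP p (hQP i hp))
    rw [hQc] at this
    exact this
  choose A r hA hr hc using key
  refine ⟨A, r, ?_, ?_, hr, hc⟩
  · intro i n hn
    obtain ⟨a1, a2, a3, a4, a5, a6⟩ := hA i n hn
    exact ⟨a1, a2, a3, a4, a5.trans (hQP i), a6⟩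
  · intro i j hij n hn n' hn'
    obtain ⟨a1, a2, a3, a4, a5, a6⟩ := hA i n hn
    obtain ⟨b1, b2, b3, b4, b5, b6⟩ := hA j n' hn'
    rw [← Nat.disjoint_primeFactors (by omega) (by omega)]
    exact Finset.disjoint_of_subset_left a5 (Finset.disjoint_of_subset_right b5 (hQd i j hij))

end Pool.Agent.Helper34.CA
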