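import Pool.Agent.Helper34.CA.St

/-!
# Project CA (MP_87fff7_nt), module ProdBound

E2. `ProdBound`. All factors `s_i(χ) = ‖∑‖/|A_i|` are in `[0,1]`. Keep the first `2j` of them and
use AM-GM: `∏_{i<2j} s_i ≤ (1/(2j)) ∑_{i<2j} s_i^{2j}`; for each `i`, `Moment` gives
`∑ s_i^{2j} ≤ C (X^j + Q²) j^{jh} |A_i|^j/|A_i|^{2j} ≤ C (X^j+Q²) j^{jh}/a^j`.
-/

set_option autoImplicit false

open Finset Filter Topology
open scoped ArithmeticFunction.vonMangoldt

namespace Pool.Agent.Helper34.CA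

open Pool.Agent.Helper18.BV

namespace ProdBoundAux

/-- a product of numbers of `[0,1]` is at most the mean of the `n`-th powers of any `n` of them. -/
theorem prod_le_mean {J n : ℕ} (hn : 1 ≤ n) (hJ : n ≤ J) (s : Fin J → ℝ)
    (h0 : ∀ i, 0 ≤ s i) (h1 : ∀ i, s i ≤ 1) :
    ∏ i, s i ≤ ∑ i : Fin n, (n : ℝ)⁻¹ * s (Fin.castLE hJ i) ^ n := by
  have hn0 : n ≠ 0 := by omega
  have hnR : (n : ℝ) ≠ 0 := by exact_mod_cast hn0
  have hinj : Function.Injective (Fin.castLE hJ : Fin n → Fin J) := Fin.castLE_injective hJ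
  have hstep : ∏ i, s i ≤ ∏ i : Fin n, s (Fin.castLE hJ i) := by
    have himg : ∏ i : Fin n, s (Fin.castLE hJ i) =
        ∏ i ∈ (Finset.univ : Finset (Fin n)).map ⟨Fin.castLE hJ, hinj⟩, s i := by
      rw [Finset.prod_map]
      rfl
    rw [himg, ← Finset.prod_mul_prod_compl
      ((Finset.univ : Finset (Fin n)).map ⟨Fin.castLE hJ, hinj⟩) s]
    refine mul_le_of_le_one_right (Finset.prod_nonneg fun i _ => h0 i) ?_
    exact Finset.prod_le_one (fun i _ => h0 i) (fun i _ => h1 i)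
  refine hstep.trans ?_
  have hag := Real.geom_mean_le_arith_mean_weighted (Finset.univ : Finset (Fin n))
    (fun _ => (n : ℝ)⁻¹) (fun i => s (Fin.castLE hJ i) ^ n) (fun _ _ => by positivity)
    (by rw [Finset.sum_const, Finset.card_univ, Fintype.card_fin, nsmul_eq_mul,
      mul_inv_cancel₀ hnR]) (fun i _ => pow_nonneg (h0 _) n)
  calc ∏ i : Fin n, s (Fin.castLE hJ i)
      = ∏ i : Fin n, (s (Fin.castLE hJ i) ^ n) ^ ((n : ℝ)⁻¹) := by
        refine Finset.prod_congr rfl fun i _ => ?_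
        rw [Real.pow_rpow_inv_natCast (h0 _) hn0]
    _ ≤ _ := hag

theorem cancel_pow (B c : ℝ) (j : ℕ) (hc : 0 < c) : B * c ^ j / c ^ (2 * j) = B / c ^ j := by
  rw [two_mul, pow_add]
  field_simp

end ProdBoundAux

open ProdBoundAux in
theorem prodBound (h : Moment) : ProdBound := by
  obtain ⟨C, hC, hM⟩ := h
  refine ⟨C, hC, ?_⟩
  intro h j X Q J A a hj hJ hX hQ ha hcard hA
  have hcpos : ∀ i, (0 : ℝ) < ((A i).card : ℝ) := fun i => lt_of_lt_of_le ha (hcard i)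
  have hn : 1 ≤ 2 * j := by omega
  have hnorm : ∀ (q : ℕ) (χ : DirichletCharacter ℂ q) (i : Fin J),
      ‖∑ n ∈ A i, χ (n : ZMod q)‖ ≤ ((A i).card : ℝ) := by
    intro q χ i
    calc ‖∑ n ∈ A i, χ (n : ZMod q)‖ ≤ ∑ n ∈ A i, ‖χ (n : ZMod q)‖ := norm_sum_le _ _
      _ ≤ ∑ n ∈ A i, (1 : ℝ) := Finset.sum_le_sum fun n _ => DirichletCharacter.norm_le_one χ _
      _ = _ := by simp
  -- pointwise bound
  have hpt : ∀ q : ℕ, Phi A q ≤ ∑ χ ∈ prim q, ∑ i : Fin (2 * j),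
      ((2 * j : ℕ) : ℝ)⁻¹ * (‖∑ n ∈ A (Fin.castLE hJ i), χ (n : ZMod q)‖ /
        ((A (Fin.castLE hJ i)).card : ℝ)) ^ (2 * j) := by
    intro q
    unfold Phi
    refine Finset.sum_le_sum fun χ _ => ?_
    refine prod_le_mean hn hJ (fun i => ‖∑ n ∈ A i, χ (n : ZMod q)‖ / ((A i).card : ℝ)) ?_ ?_
    · intro i
      positivity
    · intro i
      exact (div_le_one (hcpos i)).mpr (hnorm q χ i)
  calc ∑ q ∈ Icc 1 Q, Phi A q
      ≤ ∑ q ∈ Icc 1 Q, ∑ χ ∈ prim q, ∑ i : Fin (2 * j),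
        ((2 * j : ℕ) : ℝ)⁻¹ * (‖∑ n ∈ A (Fin.castLE hJ i), χ (n : ZMod q)‖ /
          ((A (Fin.castLE hJ i)).card : ℝ)) ^ (2 * j) := Finset.sum_le_sum fun q _ => hpt q
    _ = ∑ i : Fin (2 * j), ((2 * j : ℕ) : ℝ)⁻¹ * ((∑ q ∈ Icc 1 Q, ∑ χ ∈ prim q,
          ‖∑ n ∈ A (Fin.castLE hJ i), χ (n : ZMod q)‖ ^ (2 * j)) /
            ((A (Fin.castLE hJ i)).card : ℝ) ^ (2 * j)) := by
        have h1 : ∀ q ∈ Icc 1 Q, ∑ χ ∈ prim q, ∑ i : Fin (2 * j),
            ((2 * j : ℕ) : ℝ)⁻¹ * (‖∑ n ∈ A (Fin.castLE hJ i), χ (n : ZMod q)‖ /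
              ((A (Fin.castLE hJ i)).card : ℝ)) ^ (2 * j) =
            ∑ i : Fin (2 * j), ∑ χ ∈ prim q, ((2 * j : ℕ) : ℝ)⁻¹ *
              (‖∑ n ∈ A (Fin.castLE hJ i), χ (n : ZMod q)‖ /
              ((A (Fin.castLE hJ i)).card : ℝ)) ^ (2 * j) := fun q _ => Finset.sum_comm
        rw [Finset.sum_congr rfl h1, Finset.sum_comm]
        refine Finset.sum_congr rfl fun i _ => ?_
        rw [Finset.sum_div, Finset.mul_sum]
        refine Finset.sum_congr rfl fun q _ => ?_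
        rw [Finset.sum_div, Finset.mul_sum]
        refine Finset.sum_congr rfl fun χ _ => ?_
        rw [div_pow]
    _ ≤ ∑ i : Fin (2 * j), ((2 * j : ℕ) : ℝ)⁻¹ *
          (C * ((X : ℝ) ^ j + (Q : ℝ) ^ 2) * (j : ℝ) ^ (j * h) / a ^ j) := by
        refine Finset.sum_le_sum fun i _ => ?_
        refine mul_le_mul_of_nonneg_left ?_ (by positivity)
        have hm := hM h j X Q (A (Fin.castLE hJ i)) hj hX hQ (hA _)
        have hcp := hcpos (Fin.castLE hJ i)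
        have hB : (0 : ℝ) ≤ C * ((X : ℝ) ^ j + (Q : ℝ) ^ 2) * (j : ℝ) ^ (j * h) := by positivity
        calc (∑ q ∈ Icc 1 Q, ∑ χ ∈ prim q,
              ‖∑ n ∈ A (Fin.castLE hJ i), χ (n : ZMod q)‖ ^ (2 * j)) /
                ((A (Fin.castLE hJ i)).card : ℝ) ^ (2 * j)
            ≤ (C * ((X : ℝ) ^ j + (Q : ℝ) ^ 2) * (j : ℝ) ^ (j * h) *
                ((A (Fin.castLE hJ i)).card : ℝ) ^ j) /
                ((A (Fin.castLE hJ i)).card : ℝ) ^ (2 * j) :=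
              div_le_div_of_nonneg_right hm (by positivity)
          _ = C * ((X : ℝ) ^ j + (Q : ℝ) ^ 2) * (j : ℝ) ^ (j * h) /
                ((A (Fin.castLE hJ i)).card : ℝ) ^ j := by
              exact cancel_pow _ _ j hcp
          _ ≤ _ := by
              refine div_le_div_of_nonneg_left hB (by positivity) ?_
              exact pow_le_pow_left₀ ha.le (hcard _) j
    _ = C * ((X : ℝ) ^ j + (Q : ℝ) ^ 2) * (j : ℝ) ^ (j * h) / a ^ j := by
        rw [Finset.sum_const, Finset.card_univ, Fintype.card_fin, nsmul_eq_mul, ← mul_assoc,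
          mul_inv_cancel₀ (by positivity), one_mul]

end Pool.Agent.Helper34.CA
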