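import Pool.Agent.Helper34.CA.St
import Pool.Agent.Helper18.CA.BVmain
import Pool.Agent.Helper61.CA.MLS

/-!
# Project CA: the large sieve and the Bombieri-Vinogradov theorem in the form needed here
-/

set_option autoImplicit false

open Finset

namespace Pool.Agent.Helper34.CA

open Pool.Agent.Helper18.BV

theorem mls_red : MLS := by
  obtain ⟨C, hC, h⟩ := Pool.Agent.Helper61.CA.mls
  refine ⟨C, hC, fun Q N0 N hQ hN a => ?_⟩
  have e : Ioc N0 (N0 + N) = Ico (N0 + 1) (N0 + 1 + N) := by
    ext n
    rw [mem_Ioc, mem_Ico]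
    omega
  rw [e]
  exact h Q (N0 + 1) N hQ hN a

theorem bvs_red : BVs := by
  intro ε hε hε' g hg A hA
  refine Pool.Agent.Helper18.CA.bvMain ε hε (by linarith) g (hg.isWt (by linarith)) ?_ A hA
  intro v hv
  by_contra hne
  have h1 : v ∈ tsupport g := subset_tsupport g hne
  exact absurd (hg.supp h1).1 (not_lt.2 hv)

end Pool.Agent.Helper34.CA
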