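import Pool.Agent.Helper34.CA.St
import Pool.Agent.Helper81.BV.Small

/-!
# Project CA (MP_87fff7_nt), module SmallP

A5. `SmallP`. Same proof as `small` in `Pool/Agent/Helper81/BV/Small.lean` (use its lemmas
`identity`, `lseries_co`, `norm_lseries_le`, `gk_smooth`, ...), with `NearP` in place of `NearOne`:
`l = log x`, `r = min (c / l^κ) (1/4)`, for `|t| ≤ l^{(1-κ)/2}` (and `x` large) the point
`st l t` satisfies `‖st l t - 1‖ ≤ r/8`, so the `k`-th derivative is `≤ C l^{κ(k+2)+1}`; the factor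
`l^{-k}` wins for `k` large. For `|t| > l^{(1-κ)/2}` use the decay of `h`.
-/

set_option autoImplicit false

open Finset Filter Topology MeasureTheory
open scoped ArithmeticFunction.vonMangoldt

namespace Pool.Agent.Helper34.CA

open Pool.Agent.Helper18.BV Pool.Agent.Helper81.BV

private lemma SmallP_norm_st (l t : ℝ) (hl : 0 < l) : ‖st l t - 1‖ ≤ (1 + |t|) / l := by
  have h1 : st l t - 1 = (1 - t * Complex.I) / l := by
    unfold st
    ring
  have h2 : ‖(1 : ℂ) - t * Complex.I‖ ≤ 1 + |t| := by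
    refine (norm_sub_le _ _).trans ?_
    simp
  rw [h1, norm_div, Complex.norm_real, Real.norm_of_nonneg hl.le]
  exact div_le_div_of_nonneg_right h2 hl.le

private lemma SmallP_st_le {κ c l t : ℝ} (hκ1 : κ < 1) (hc : 0 < c) (hl : 1 ≤ l)
    (h : 16 / c ≤ l ^ ((1 - κ) / 2)) (ht : |t| ≤ l ^ ((1 - κ) / 2)) :
    ‖st l t - 1‖ ≤ c / l ^ κ / 8 := by
  have hl0 : 0 < l := by linarith
  have hp : 1 ≤ l ^ ((1 - κ) / 2) := Real.one_le_rpow hl (by linarith)
  refine (SmallP_norm_st l t hl0).trans ?_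
  rw [div_div, div_le_div_iff₀ hl0 (by positivity)]
  have h1 : l = l ^ κ * (l ^ ((1 - κ) / 2) * l ^ ((1 - κ) / 2)) := by
    rw [← Real.rpow_add hl0, ← Real.rpow_add hl0]
    have : κ + ((1 - κ) / 2 + (1 - κ) / 2) = 1 := by ring
    rw [this, Real.rpow_one]
  set P := l ^ ((1 - κ) / 2) with hP
  have hK : 0 < l ^ κ := Real.rpow_pos_of_pos hl0 _
  have h2 : 16 ≤ c * P := by
    rw [div_le_iff₀ hc] at h
    linarith
  calc (1 + |t|) * (l ^ κ * 8) ≤ (2 * P) * (l ^ κ * 8) :=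
        mul_le_mul_of_nonneg_right (by linarith) (by positivity)
    _ = 16 * (P * l ^ κ) := by ring
    _ ≤ (c * P) * (P * l ^ κ) := mul_le_mul_of_nonneg_right h2 (by positivity)
    _ = c * (l ^ κ * (P * P)) := by ring
    _ = c * l := by rw [← h1]

private lemma SmallP_log_le {κ c l : ℝ} (hκ : 0 < κ) (hκ1 : κ < 1) (hc : 0 < c) (hl : 1 ≤ l)
    {q : ℕ} (hq : 0 < q) (hqe : (q : ℝ) ≤ Real.exp (l ^ κ)) (k : ℕ) :
    Real.log (q / (c / l ^ κ)) / (c / l ^ κ) ^ (k + 1) ≤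
      (1 + 1 / c) / c ^ (k + 1) * l ^ (κ * (k + 2)) := by
  have hl0 : 0 < l := by linarith
  have hq0 : (0 : ℝ) < q := by exact_mod_cast hq
  have hK : 0 < l ^ κ := Real.rpow_pos_of_pos hl0 _
  have h1 : Real.log (q / (c / l ^ κ)) ≤ (1 + 1 / c) * l ^ κ := by
    have e1 : (q : ℝ) / (c / l ^ κ) = q * (l ^ κ / c) := by
      field_simp
    rw [e1, Real.log_mul hq0.ne' (by positivity)]
    have e2 : Real.log q ≤ l ^ κ := by
      rw [Real.log_le_iff_le_exp hq0]
      exact hqe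
    have e3 : Real.log (l ^ κ / c) ≤ l ^ κ / c := Real.log_le_self (by positivity)
    have e4 : (1 + 1 / c) * l ^ κ = l ^ κ + l ^ κ / c := by ring
    linarith
  have h2 : (l ^ κ) * (l ^ κ) ^ (k + 1) = l ^ (κ * (k + 2)) := by
    rw [← Real.rpow_natCast (l ^ κ) (k + 1), ← Real.rpow_mul hl0.le, ← Real.rpow_add hl0]
    congr 1
    push_cast
    ring
  calc Real.log (q / (c / l ^ κ)) / (c / l ^ κ) ^ (k + 1) ≤
      ((1 + 1 / c) * l ^ κ) / (c / l ^ κ) ^ (k + 1) :=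
        div_le_div_of_nonneg_right h1 (by positivity)
    _ = (1 + 1 / c) / c ^ (k + 1) * ((l ^ κ) * (l ^ κ) ^ (k + 1)) := by
        rw [div_pow]
        field_simp
    _ = _ := by rw [h2]

theorem smallP (h1 : NearP) (h2 : FourierRep) : SmallP := by
  intro κ c hκ hκ1 hc g hg A hA
  set k : ℕ := ⌈(A + 2) / (1 - κ)⌉₊ with hk
  have hkA : A + 2 ≤ k * (1 - κ) := by
    have := Nat.le_ceil ((A + 2) / (1 - κ))
    rwa [div_le_iff₀ (by linarith)] at this
  set M : ℕ := ⌈A + 2⌉₊ with hM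
  have hMA : A + 2 ≤ M := Nat.le_ceil _
  set δ : ℝ := (1 - κ) / 2 with hδ
  have hδ0 : 0 < δ := by rw [hδ]; linarith
  set D : ℕ := ⌈1 / δ⌉₊ with hD
  have hDδ : 1 ≤ δ * D := by
    have := Nat.le_ceil (1 / δ)
    rw [div_le_iff₀ hδ0] at this
    linarith
  obtain ⟨C1, hC1, hno⟩ := h1 k
  obtain ⟨h, hcont, hint, hrep⟩ := h2 (gk g k) (gk_smooth hg k) (gk_compact hg k)
  have hi : Integrable (fun t : ℝ => ‖h t‖) := by
    simpa using hint 0
  set I0 : ℝ := ∫ t, ‖h t‖ with hI0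
  set IN : ℝ := ∫ t, (1 + |t|) ^ (D * M) * ‖h t‖ with hIN
  have hI0' : 0 ≤ I0 := integral_nonneg fun t => norm_nonneg _
  have hIN' : 0 ≤ IN := integral_nonneg fun t => by positivity
  set Ck : ℝ := (k + 1).factorial * 2 ^ (k + 1) * 3 with hCk
  have hCk' : 0 ≤ Ck := by positivity
  set C2 : ℝ := C1 * ((1 + 1 / c) / c ^ (k + 1)) with hC2
  have hC2' : 0 ≤ C2 := by positivity
  set L0 : ℝ := max 16 (max ((16 / c) ^ (1 / δ)) ((4 * c) ^ (1 / κ))) with hL0
  have hX3 : (3 : ℝ) ≤ Real.exp L0 := by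
    have : (16 : ℝ) ≤ L0 := le_max_left _ _
    have := Real.add_one_le_exp L0
    linarith
  refine ⟨C2 * I0 + Ck * IN + 1, Real.exp L0, by positivity, hX3,
    fun x hx q _ χ hχ hqe hzf => ?_⟩
  have hx0 : 0 < x := (Real.exp_pos _).trans_le hx
  set l := Real.log x with hl
  have hlL : L0 ≤ l := by
    rw [hl, Real.le_log_iff_exp_le hx0]
    exact hx
  have hl16 : 16 ≤ l := (le_max_left _ _).trans hlL
  have hl0 : 0 < l := by linarith
  have hl1 : 1 ≤ l := by linarith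
  have hx1 : 1 < x := by linarith
  have hlδ : 16 / c ≤ l ^ δ := by
    have e1 : (16 / c) ^ (1 / δ) ≤ l :=
      (le_max_left _ _).trans ((le_max_right _ _).trans hlL)
    have e2 : ((16 / c) ^ (1 / δ)) ^ δ ≤ l ^ δ :=
      Real.rpow_le_rpow (by positivity) e1 hδ0.le
    rwa [← Real.rpow_mul (by positivity), one_div_mul_cancel hδ0.ne', Real.rpow_one] at e2
  have hlκ : 4 * c ≤ l ^ κ := by
    have e1 : (4 * c) ^ (1 / κ) ≤ l :=
      (le_max_right _ _).trans ((le_max_right _ _).trans hlL)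
    have e2 : ((4 * c) ^ (1 / κ)) ^ κ ≤ l ^ κ :=
      Real.rpow_le_rpow (by positivity) e1 hκ.le
    rwa [← Real.rpow_mul (by positivity), one_div_mul_cancel hκ.ne', Real.rpow_one] at e2
  have hK : 0 < l ^ κ := Real.rpow_pos_of_pos hl0 _
  have hr4 : c / l ^ κ ≤ 1 / 4 := by
    rw [div_le_div_iff₀ hK (by norm_num)]
    linarith
  rw [identity hg hcont hi k hrep x hx1 hl1 χ, ← hl]
  have hpt : ∀ t : ℝ, ‖h t * LSeries (co k χ) (st l t)‖ ≤
      C2 * l ^ (κ * (k + 2)) * ‖h t‖ +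
        Ck * l ^ (k + 2) / l ^ M * ((1 + |t|) ^ (D * M) * ‖h t‖) := by
    intro t
    rw [norm_mul]
    rcases le_or_gt |t| (l ^ δ) with ht | ht
    · have h3 := hno q χ hχ (c / l ^ κ) (by positivity) hr4 hzf (st l t)
        (SmallP_st_le hκ1 hc hl1 hlδ ht)
      have h4 : ‖LSeries (co k χ) (st l t)‖ ≤ C2 * l ^ (κ * (k + 2)) := by
        rw [lseries_co k χ (by rw [st_re]; have : 0 < 1 / l := by positivity
                               linarith), norm_neg, norm_mul, norm_pow, norm_neg, norm_one,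
          one_pow, one_mul]
        refine h3.trans ?_
        rw [mul_div_assoc, hC2, mul_assoc]
        exact mul_le_mul_of_nonneg_left
          (SmallP_log_le hκ hκ1 hc hl1 (Nat.pos_of_ne_zero (NeZero.ne q)) hqe k) hC1.le
      have h5 : 0 ≤ Ck * l ^ (k + 2) / l ^ M * ((1 + |t|) ^ (D * M) * ‖h t‖) := by positivity
      nlinarith [mul_le_mul_of_nonneg_left h4 (norm_nonneg (h t))]
    · have h3 := norm_lseries_le k χ l t hl1
      have h4 : l ^ M ≤ (1 + |t|) ^ (D * M) := by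
        have h5 : l ≤ (l ^ δ) ^ D := by
          rw [← Real.rpow_natCast, ← Real.rpow_mul hl0.le]
          nth_rewrite 1 [← Real.rpow_one l]
          exact Real.rpow_le_rpow_of_exponent_le hl1 hDδ
        calc l ^ M ≤ ((l ^ δ) ^ D) ^ M := pow_le_pow_left₀ hl0.le h5 _
          _ = (l ^ δ) ^ (D * M) := by rw [pow_mul]
          _ ≤ (1 + |t|) ^ (D * M) := by
            refine pow_le_pow_left₀ (by positivity) ?_ _
            linarith
      have h5 : 1 ≤ (1 + |t|) ^ (D * M) / l ^ M := by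
        rw [one_le_div (by positivity)]
        exact h4
      have h6 : 0 ≤ C2 * l ^ (κ * (k + 2)) * ‖h t‖ := by positivity
      have h7 : ‖h t‖ * ‖LSeries (co k χ) (st l t)‖ ≤ ‖h t‖ * (Ck * l ^ (k + 2)) :=
        mul_le_mul_of_nonneg_left h3 (norm_nonneg _)
      have h8 : ‖h t‖ * (Ck * l ^ (k + 2)) * 1 ≤
          ‖h t‖ * (Ck * l ^ (k + 2)) * ((1 + |t|) ^ (D * M) / l ^ M) :=
        mul_le_mul_of_nonneg_left h5 (by positivity)
      have h9 : ‖h t‖ * (Ck * l ^ (k + 2)) * ((1 + |t|) ^ (D * M) / l ^ M) =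
          Ck * l ^ (k + 2) / l ^ M * ((1 + |t|) ^ (D * M) * ‖h t‖) := by
        ring
      linarith
  have hbound : ‖∫ t, h t * LSeries (co k χ) (st l t)‖ ≤
      C2 * l ^ (κ * (k + 2)) * I0 + Ck * l ^ (k + 2) / l ^ M * IN := by
    have hi1 : Integrable fun t : ℝ => C2 * l ^ (κ * (k + 2)) * ‖h t‖ := hi.const_mul _
    have hi2 : Integrable fun t : ℝ =>
        Ck * l ^ (k + 2) / l ^ M * ((1 + |t|) ^ (D * M) * ‖h t‖) := (hint (D * M)).const_mul _
    refine (norm_integral_le_of_norm_le (hi1.add hi2) (Eventually.of_forall hpt)).trans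
      (le_of_eq ?_)
    simp only [Pi.add_apply]
    rw [integral_add hi1 hi2, integral_const_mul, integral_const_mul]
  rw [norm_mul, norm_pow, norm_inv, Complex.norm_real, Real.norm_of_nonneg hl0.le]
  have hA1 : (l⁻¹) ^ k * l ^ (κ * (k + 2)) ≤ l ^ (-A) := by
    rw [← Real.rpow_natCast, Real.inv_rpow hl0.le, ← Real.rpow_neg hl0.le, ← Real.rpow_add hl0]
    refine Real.rpow_le_rpow_of_exponent_le hl1 ?_
    nlinarith
  have hA2 : (l⁻¹) ^ k * (l ^ (k + 2) / l ^ M) ≤ l ^ (-A) := by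
    have : (l⁻¹) ^ k * (l ^ (k + 2) / l ^ M) = l ^ ((2 : ℝ) - M) := by
      rw [Real.rpow_sub hl0, Real.rpow_natCast, inv_pow, pow_add]
      norm_cast
      field_simp
    rw [this]
    exact Real.rpow_le_rpow_of_exponent_le hl1 (by linarith)
  have hlA : 0 < l ^ (-A) := Real.rpow_pos_of_pos hl0 _
  calc (l⁻¹) ^ k * ‖∫ t, h t * LSeries (co k χ) (st l t)‖ ≤
      (l⁻¹) ^ k * (C2 * l ^ (κ * (k + 2)) * I0 + Ck * l ^ (k + 2) / l ^ M * IN) :=
        mul_le_mul_of_nonneg_left hbound (by positivity)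
    _ = C2 * I0 * ((l⁻¹) ^ k * l ^ (κ * (k + 2))) +
        Ck * IN * ((l⁻¹) ^ k * (l ^ (k + 2) / l ^ M)) := by ring
    _ ≤ C2 * I0 * l ^ (-A) + Ck * IN * l ^ (-A) :=
        add_le_add (mul_le_mul_of_nonneg_left hA1 (by positivity))
          (mul_le_mul_of_nonneg_left hA2 (by positivity))
    _ ≤ (C2 * I0 + Ck * IN + 1) * l ^ (-A) := by nlinarith
    _ = (C2 * I0 + Ck * IN + 1) / l ^ A := by
        rw [Real.rpow_neg hl0.le, div_eq_mul_inv]

end Pool.Agent.Helper34.CA
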