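import Pool.Agent.Helper34.CA.St

/-!
# Project CA (MP_87fff7_nt), module SwapT

E5. `SwapT`. Let `L = log x/log w`. For `t ∈ T`, `D_i = rgh w (t_i - 1) ≤ x`, pairwise coprime,
with at most `L` prime factors (with multiplicity), so `1/φ(D_i) ≤ 2^L/D_i` and
`1/φ(DD w t) ≤ 16^L ∏ 1/D_i`. Swap: for `q ∣ DD w t`, `q > 1`: all primes of `q` are `> w`, so
`q > w`, `q ≤ x^4`; `q = ∏ q_i`, `q_i = gcd(q, D_i)`. So the sum over `t` with `q ∣ DD w t` is
`≤ 16^L ∑_{(q_i) : ∏q_i = q} ∏_i ∑_{ℓ NiceP, q_i ∣ rgh w (ℓ-1)} 1/rgh w (ℓ-1)`, the number of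
`(q_i)` is `≤ 4^{Ω(q)} ≤ 4^{4L}` and the inner sum is `≤ τ(M) (1+log x)/q_i`: the map
`ℓ ↦ (g, D)`, `ℓ - 1 = g D`, `D = rgh w (ℓ-1)`, `g ∣ M` (prime powers of primes `≤ y`), is
injective, and `∑_{D ≤ x, q_i ∣ D} 1/D ≤ (1+log x)/q_i`. `4096 ≤ 65536`.
-/

set_option autoImplicit false

open Finset Filter Topology
open scoped ArithmeticFunction.vonMangoldt

namespace Pool.Agent.Helper34.CA

open Pool.Agent.Helper18.BV

namespace SwapTAux

theorem prod_pf (m : ℕ) (hm : m ≠ 0) : ∏ p ∈ m.primeFactors, p ^ m.factorization p = m := by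
  have h := Nat.prod_factorization_pow_eq_self hm
  rw [Finsupp.prod, Nat.support_factorization] at h
  exact h

/-- the smooth part -/
noncomputable def smo (w : ℝ) (m : ℕ) : ℕ := by
  classical
  exact ∏ p ∈ m.primeFactors.filter (fun p : ℕ => ¬ w < (p : ℝ)), p ^ m.factorization p

theorem smo_mul_rgh (w : ℝ) {m : ℕ} (hm : m ≠ 0) : smo w m * rgh w m = m := by
  classical
  unfold smo rgh
  rw [mul_comm, Finset.prod_filter_mul_prod_filter_not]
  exact prod_pf m hm

theorem rgh_pos (w : ℝ) (m : ℕ) : 0 < rgh w m := by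
  classical
  unfold rgh
  exact Finset.prod_pos (fun p hp =>
    pow_pos (Nat.pos_of_mem_primeFactors (Finset.mem_of_mem_filter p hp)) _)

theorem rgh_prime (w : ℝ) (m p : ℕ) (hp : p.Prime) (h : p ∣ rgh w m) : w < p := by
  classical
  unfold rgh at h
  obtain ⟨q, hq, hd⟩ := (Prime.dvd_finsetProd_iff hp.prime _).1 h
  have hqp : q.Prime := Nat.prime_of_mem_primeFactors (Finset.mem_filter.1 hq).1
  have := (Nat.prime_dvd_prime_iff_eq hp hqp).1 (hp.dvd_of_dvd_pow hd)
  rw [this]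
  exact (Finset.mem_filter.1 hq).2

theorem omega_le {x w : ℝ} (hw : 1 < w) {n : ℕ} (hn : n ≠ 0) (hnx : (n : ℝ) ≤ x ^ 4)
    (hp : ∀ p : ℕ, p.Prime → p ∣ n → w < p) :
    (n.primeFactors.card : ℝ) ≤ 4 * (Real.log x / Real.log w) := by
  have h1 : w ^ n.primeFactors.card ≤ (n : ℝ) := by
    calc w ^ n.primeFactors.card = ∏ p ∈ n.primeFactors, w := by rw [Finset.prod_const]
      _ ≤ ∏ p ∈ n.primeFactors, (p : ℝ) :=
          Finset.prod_le_prod (fun p hp => by linarith)
            (fun p h => (hp p (Nat.prime_of_mem_primeFactors h) (Nat.dvd_of_mem_primeFactors h)).le)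
      _ = ((∏ p ∈ n.primeFactors, p : ℕ) : ℝ) := by push_cast; rfl
      _ ≤ n := by exact_mod_cast Nat.le_of_dvd (Nat.pos_of_ne_zero hn) (Nat.prod_primeFactors_dvd n)
  have h2 := Real.log_le_log (by positivity) (h1.trans hnx)
  rw [Real.log_pow, Real.log_pow] at h2
  have hlw : 0 < Real.log w := Real.log_pos hw
  rw [← mul_div_assoc, le_div_iff₀ hlw]
  exact_mod_cast h2

theorem tot_ge {n : ℕ} : n ≤ 2 ^ n.primeFactors.card * n.totient := by
  have h := Nat.totient_mul_prod_primeFactors n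
  have hP : 0 < ∏ p ∈ n.primeFactors, p :=
    Finset.prod_pos (fun p hp => Nat.pos_of_mem_primeFactors hp)
  have h2 : ∏ p ∈ n.primeFactors, p ≤ 2 ^ n.primeFactors.card * ∏ p ∈ n.primeFactors, (p - 1) := by
    rw [← Finset.prod_const, ← Finset.prod_mul_distrib]
    refine Finset.prod_le_prod' (fun p hp => ?_)
    have := (Nat.prime_of_mem_primeFactors hp).two_le
    omega
  refine le_of_mul_le_mul_right ?_ hP
  calc n * ∏ p ∈ n.primeFactors, p
      ≤ n * (2 ^ n.primeFactors.card * ∏ p ∈ n.primeFactors, (p - 1)) := Nat.mul_le_mul_left _ h2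
    _ = 2 ^ n.primeFactors.card * (n * ∏ p ∈ n.primeFactors, (p - 1)) := by ring
    _ = 2 ^ n.primeFactors.card * n.totient * ∏ p ∈ n.primeFactors, p := by
        rw [← h, mul_assoc]

theorem smo_dvd {x y w : ℝ} {M ℓ : ℕ} (hℓ : NiceP x y w M ℓ) : smo w (ℓ - 1) ∣ M := by
  classical
  obtain ⟨hp, -, -, h1, h2⟩ := hℓ
  unfold smo
  refine Finset.prod_dvd_of_isRelPrime ?_ ?_
  · intro p hp q hq hpq
    rw [Function.onFun, ← Nat.coprime_iff_isRelPrime]
    have hp' : p.Prime := Nat.prime_of_mem_primeFactors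
      (Finset.mem_filter.1 (Finset.mem_coe.1 hp)).1
    have hq' : q.Prime := Nat.prime_of_mem_primeFactors
      (Finset.mem_filter.1 (Finset.mem_coe.1 hq)).1
    exact Nat.Coprime.pow _ _ ((Nat.coprime_primes hp' hq').2 hpq)
  · intro p hp
    obtain ⟨hpm, hpw⟩ := Finset.mem_filter.1 hp
    have hp' : p.Prime := Nat.prime_of_mem_primeFactors hpm
    rcases h1 p hp' (Nat.dvd_of_mem_primeFactors hpm) with h | h
    · exact h2 p _ hp' h (Nat.ordProj_dvd _ _)
    · exact absurd h hpw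

theorem harm_le {x : ℝ} (hx : 1 ≤ x) : ∑ d ∈ Icc 1 ⌊x⌋₊, (1 / (d : ℝ)) ≤ 1 + Real.log x := by
  have h := harmonic_floor_le_one_add_log x hx
  rw [harmonic_eq_sum_Icc] at h
  push_cast at h
  simpa [one_div] using h

/-- The sum over one variable. -/
theorem one_sum {x y w : ℝ} {M : ℕ} (hx : 3 ≤ x) (hM : 0 < M) (S : Finset ℕ) (r : ℕ) (hr : 0 < r)
    (hS : ∀ ℓ ∈ S, NiceP x y w M ℓ ∧ r ∣ rgh w (ℓ - 1)) :
    ∑ ℓ ∈ S, (1 / (rgh w (ℓ - 1) : ℝ)) ≤ M.divisors.card * (1 + Real.log x) / r := by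
  classical
  have hrR : (0 : ℝ) < r := by exact_mod_cast hr
  have key : ∀ ℓ ∈ S, ℓ - 1 ≠ 0 ∧ rgh w (ℓ - 1) = r * (rgh w (ℓ - 1) / r) ∧
      0 < rgh w (ℓ - 1) / r ∧ ℓ - 1 = smo w (ℓ - 1) * rgh w (ℓ - 1) := by
    intro ℓ hℓ
    obtain ⟨hn, hd⟩ := hS ℓ hℓ
    have hm : ℓ - 1 ≠ 0 := by
      have := hn.1.two_le
      omega
    have hpos := rgh_pos w (ℓ - 1)
    exact ⟨hm, (Nat.mul_div_cancel' hd).symm, Nat.div_pos (Nat.le_of_dvd hpos hd) hr,
      (smo_mul_rgh w hm).symm⟩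
  have hinj : Set.InjOn (fun ℓ => (smo w (ℓ - 1), rgh w (ℓ - 1) / r)) (S : Set ℕ) := by
    intro ℓ hℓ ℓ' hℓ' h
    have h1 := key ℓ hℓ
    have h2 := key ℓ' hℓ'
    simp only [Prod.mk.injEq] at h
    have e1 : rgh w (ℓ - 1) = rgh w (ℓ' - 1) := by rw [h1.2.1, h2.2.1, h.2]
    have e2 : ℓ - 1 = ℓ' - 1 := by rw [h1.2.2.2, h2.2.2.2, h.1, e1]
    have := h1.1
    have := h2.1
    omega
  have hsub : S.image (fun ℓ => (smo w (ℓ - 1), rgh w (ℓ - 1) / r)) ⊆
      M.divisors ×ˢ Icc 1 ⌊x⌋₊ := by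
    intro u hu
    obtain ⟨ℓ, hℓ, rfl⟩ := Finset.mem_image.1 hu
    obtain ⟨k1, k2, k3, k4⟩ := key ℓ hℓ
    rw [Finset.mem_product, Nat.mem_divisors, Finset.mem_Icc]
    refine ⟨⟨smo_dvd (hS ℓ hℓ).1, hM.ne'⟩, k3, ?_⟩
    refine Nat.le_floor ?_
    have h1 : rgh w (ℓ - 1) / r ≤ ℓ := by
      calc rgh w (ℓ - 1) / r ≤ rgh w (ℓ - 1) := Nat.div_le_self _ _
        _ ≤ ℓ - 1 := Nat.le_of_dvd (Nat.pos_of_ne_zero k1) (Dvd.intro_left _ k4.symm)
        _ ≤ ℓ := Nat.sub_le _ _
    have h2 : ((rgh w (ℓ - 1) / r : ℕ) : ℝ) ≤ ℓ := by exact_mod_cast h1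
    exact h2.trans (hS ℓ hℓ).1.2.2.1
  calc ∑ ℓ ∈ S, (1 / (rgh w (ℓ - 1) : ℝ))
      = ∑ ℓ ∈ S, (1 / (r : ℝ)) * (1 / ((rgh w (ℓ - 1) / r : ℕ) : ℝ)) := by
        refine Finset.sum_congr rfl (fun ℓ hℓ => ?_)
        have k2 := (key ℓ hℓ).2.1
        have k3 : (rgh w (ℓ - 1) : ℝ) = r * ((rgh w (ℓ - 1) / r : ℕ) : ℝ) := by
          exact_mod_cast k2
        rw [k3, one_div_mul_one_div]
    _ = ∑ u ∈ S.image (fun ℓ => (smo w (ℓ - 1), rgh w (ℓ - 1) / r)),
          (1 / (r : ℝ)) * (1 / (u.2 : ℝ)) := by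
        rw [Finset.sum_image hinj]
    _ ≤ ∑ u ∈ M.divisors ×ˢ Icc 1 ⌊x⌋₊, (1 / (r : ℝ)) * (1 / (u.2 : ℝ)) := by
        refine Finset.sum_le_sum_of_subset_of_nonneg hsub (fun u _ _ => by positivity)
    _ = ∑ g ∈ M.divisors, (1 / (r : ℝ)) * ∑ d ∈ Icc 1 ⌊x⌋₊, (1 / (d : ℝ)) := by
        rw [Finset.sum_product]
        simp only [← Finset.mul_sum]
    _ = M.divisors.card * ((1 / (r : ℝ)) * ∑ d ∈ Icc 1 ⌊x⌋₊, (1 / (d : ℝ))) := by
        rw [Finset.sum_const, nsmul_eq_mul]
    _ ≤ M.divisors.card * ((1 / (r : ℝ)) * (1 + Real.log x)) := by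
        have := harm_le (x := x) (by linarith)
        gcongr
    _ = M.divisors.card * (1 + Real.log x) / r := by ring

/-- The component of `q` at the index `i`. -/
noncomputable def comp (q : ℕ) (f : q.primeFactors → Fin 4) (i : Fin 4) : ℕ :=
  ∏ p : q.primeFactors with f p = i, (p : ℕ) ^ q.factorization p

theorem comp_pos (q : ℕ) (f : q.primeFactors → Fin 4) (i : Fin 4) : 0 < comp q f i :=
  Finset.prod_pos (fun p _ => pow_pos (Nat.pos_of_mem_primeFactors p.2) _)

theorem prod_comp (q : ℕ) (hq : q ≠ 0) (f : q.primeFactors → Fin 4) : ∏ i, comp q f i = q := by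
  unfold comp
  rw [Finset.prod_fiberwise Finset.univ f (fun p : q.primeFactors => (p : ℕ) ^ q.factorization p)]
  rw [Finset.prod_coe_sort q.primeFactors (fun p => p ^ q.factorization p)]
  exact prod_pf q hq

theorem exists_comp (q : ℕ) (D : Fin 4 → ℕ)
    (hco : ∀ i j, i ≠ j → Nat.Coprime (D i) (D j)) (hd : q ∣ ∏ i, D i) :
    ∃ f : q.primeFactors → Fin 4, ∀ i, comp q f i ∣ D i := by
  classical
  have h1 : ∀ p : q.primeFactors, ∃ i, (p : ℕ) ∣ D i := by
    intro p
    have hp : (p : ℕ).Prime := Nat.prime_of_mem_primeFactors p.2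
    have h2 : (p : ℕ) ∣ ∏ i, D i := (Nat.dvd_of_mem_primeFactors p.2).trans hd
    obtain ⟨i, -, hi⟩ := (Prime.dvd_finsetProd_iff hp.prime _).1 h2
    exact ⟨i, hi⟩
  choose f hf using h1
  refine ⟨f, fun i => ?_⟩
  unfold comp
  refine Finset.prod_dvd_of_isRelPrime ?_ ?_
  · intro p hp p' hp' hpp
    rw [Function.onFun, ← Nat.coprime_iff_isRelPrime]
    have h1 : (p : ℕ).Prime := Nat.prime_of_mem_primeFactors p.2
    have h2 : (p' : ℕ).Prime := Nat.prime_of_mem_primeFactors p'.2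
    exact Nat.Coprime.pow _ _ ((Nat.coprime_primes h1 h2).2 (fun h => hpp (Subtype.ext h)))
  · intro p hp
    have hfp : f p = i := (Finset.mem_filter.1 hp).2
    have h1 : (p : ℕ).Prime := Nat.prime_of_mem_primeFactors p.2
    have h2 : (p : ℕ) ^ q.factorization p ∣ D i * ∏ j ∈ Finset.univ.erase i, D j := by
      rw [Finset.mul_prod_erase _ _ (Finset.mem_univ i)]
      exact (Nat.ordProj_dvd _ _).trans hd
    refine Nat.Coprime.dvd_of_dvd_mul_right ?_ h2
    refine Nat.Coprime.prod_right (fun j hj => ?_)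
    refine Nat.Coprime.pow_left _ ?_
    have hji : i ≠ j := (Finset.ne_of_mem_erase hj).symm
    exact Nat.Coprime.coprime_dvd_left (hfp ▸ hf p) (hco i j hji)

end SwapTAux

open SwapTAux in
theorem swapT : SwapT := by
  classical
  intro x y w M hx hy hyw hM T hT Φ hΦ
  have hw : 1 < w := by linarith
  set L : ℝ := Real.log x / Real.log w with hL
  have hlx : 0 ≤ Real.log x := Real.log_nonneg (by linarith)
  have hlw : 0 < Real.log w := Real.log_pos hw
  have hL0 : 0 ≤ L := div_nonneg hlx hlw.le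
  have hD0 : ∀ t, DD w t ≠ 0 := fun t => (Finset.prod_pos (fun i _ => rgh_pos w _)).ne'
  have hDx : ∀ t ∈ T, (DD w t : ℝ) ≤ x ^ 4 := by
    intro t ht
    unfold DD
    push_cast
    calc ∏ i : Fin 4, (rgh w (t i - 1) : ℝ) ≤ ∏ i : Fin 4, x := by
          refine Finset.prod_le_prod (fun i _ => by positivity) (fun i _ => ?_)
          have hn := (hT t ht).1 i
          have hm : t i - 1 ≠ 0 := by
            have := hn.1.two_le
            omega
          have h1 : rgh w (t i - 1) ≤ t i :=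
            (Nat.le_of_dvd (Nat.pos_of_ne_zero hm)
              (Dvd.intro_left _ (smo_mul_rgh w hm))).trans (Nat.sub_le _ _)
          have h2 : (rgh w (t i - 1) : ℝ) ≤ t i := by exact_mod_cast h1
          exact h2.trans hn.2.2.1
      _ = x ^ 4 := by simp
  have hDp : ∀ t, ∀ p : ℕ, p.Prime → p ∣ DD w t → w < p := by
    intro t p hp hd
    unfold DD at hd
    obtain ⟨i, -, hi⟩ := (Prime.dvd_finsetProd_iff hp.prime _).1 hd
    exact rgh_prime w _ p hp hi
  have htot : ∀ t ∈ T, (1 / ((DD w t).totient : ℝ)) ≤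
      (16 : ℝ) ^ L * ∏ i, (1 / (rgh w (t i - 1) : ℝ)) := by
    intro t ht
    have h1 := omega_le hw (hD0 t) (hDx t ht) (hDp t)
    have h2 : (DD w t : ℝ) ≤ 2 ^ (DD w t).primeFactors.card * (DD w t).totient := by
      exact_mod_cast tot_ge (n := DD w t)
    have h3 : (2 : ℝ) ^ (DD w t).primeFactors.card ≤ (16 : ℝ) ^ L := by
      have h16 : (16 : ℝ) ^ L = (2 : ℝ) ^ (4 * L) := by
        rw [Real.rpow_mul (by norm_num)]
        norm_num
      rw [h16, ← Real.rpow_natCast]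
      exact Real.rpow_le_rpow_of_exponent_le (by norm_num) h1
    have hφ : (0 : ℝ) < (DD w t).totient := by
      exact_mod_cast Nat.totient_pos.2 (Nat.pos_of_ne_zero (hD0 t))
    have hDpos : (0 : ℝ) < DD w t := by exact_mod_cast Nat.pos_of_ne_zero (hD0 t)
    have h4 : ∏ i, (1 / (rgh w (t i - 1) : ℝ)) = 1 / (DD w t : ℝ) := by
      unfold DD
      push_cast
      simp [one_div, Finset.prod_inv_distrib]
    rw [h4, mul_one_div, div_le_div_iff₀ hφ hDpos, one_mul]
    exact h2.trans (mul_le_mul_of_nonneg_right h3 hφ.le)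
  -- swap
  have hcore : ∀ q : ℕ, 1 < q → ∑ t ∈ T.filter (fun t => q ∣ DD w t), (1 / ((DD w t).totient : ℝ)) ≤
      (M.divisors.card * (1 + Real.log x)) ^ 4 * (65536 : ℝ) ^ L / q := by
    intro q hq
    have hq0 : q ≠ 0 := by omega
    have hqR : (0 : ℝ) < q := by exact_mod_cast Nat.pos_of_ne_zero hq0
    rcases (T.filter (fun t => q ∣ DD w t)).eq_empty_or_nonempty with he | ⟨t0, ht0⟩
    · rw [he, Finset.sum_empty]
      positivity
    obtain ⟨ht0T, ht0q⟩ := Finset.mem_filter.1 ht0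
    have hcard : (4 : ℝ) ^ q.primeFactors.card ≤ (256 : ℝ) ^ L := by
      have h1 : (q.primeFactors.card : ℝ) ≤ 4 * L := by
        refine omega_le hw hq0 ?_ (fun p hp hd => hDp t0 p hp (hd.trans ht0q))
        have h2 : (q : ℝ) ≤ DD w t0 := by
          exact_mod_cast Nat.le_of_dvd (Nat.pos_of_ne_zero (hD0 t0)) ht0q
        exact h2.trans (hDx t0 ht0T)
      have h256 : (256 : ℝ) ^ L = (4 : ℝ) ^ (4 * L) := by
        rw [Real.rpow_mul (by norm_num)]
        norm_num
      rw [h256, ← Real.rpow_natCast]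
      exact Real.rpow_le_rpow_of_exponent_le (by norm_num) h1
    set P : Finset ℕ := (range (⌊x⌋₊ + 1)).filter (fun ℓ => NiceP x y w M ℓ) with hP
    have hTP : ∀ t ∈ T, ∀ i, t i ∈ P := by
      intro t ht i
      have hn := (hT t ht).1 i
      rw [hP, Finset.mem_filter, Finset.mem_range]
      exact ⟨Nat.lt_succ_of_le (Nat.le_floor hn.2.2.1), hn⟩
    set F : (Fin 4 → ℕ) → ℝ := fun t => ∏ i, (1 / (rgh w (t i - 1) : ℝ)) with hF
    have hF0 : ∀ t, 0 ≤ F t := fun t => Finset.prod_nonneg (fun i _ => by positivity)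
    have hf : ∀ f : q.primeFactors → Fin 4,
        ∑ t ∈ T.filter (fun t => ∀ i, comp q f i ∣ rgh w (t i - 1)), F t ≤
          (M.divisors.card * (1 + Real.log x)) ^ 4 / q := by
      intro f
      calc ∑ t ∈ T.filter (fun t => ∀ i, comp q f i ∣ rgh w (t i - 1)), F t
          ≤ ∑ t ∈ Fintype.piFinset (fun i => P.filter (fun ℓ => comp q f i ∣ rgh w (ℓ - 1))),
              F t := by
            refine Finset.sum_le_sum_of_subset_of_nonneg ?_ (fun t _ _ => hF0 t)
            intro t ht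
            obtain ⟨h1, h2⟩ := Finset.mem_filter.1 ht
            rw [Fintype.mem_piFinset]
            exact fun i => Finset.mem_filter.2 ⟨hTP t h1 i, h2 i⟩
        _ = ∏ i, ∑ ℓ ∈ P.filter (fun ℓ => comp q f i ∣ rgh w (ℓ - 1)),
              (1 / (rgh w (ℓ - 1) : ℝ)) := by
            rw [Finset.prod_univ_sum]
        _ ≤ ∏ i, (M.divisors.card * (1 + Real.log x) / (comp q f i : ℝ)) := by
            refine Finset.prod_le_prod (fun i _ => Finset.sum_nonneg (fun _ _ => by positivity))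
              (fun i _ => ?_)
            refine one_sum (y := y) hx hM _ _ (comp_pos q f i) (fun ℓ hℓ => ?_)
            obtain ⟨h1, h2⟩ := Finset.mem_filter.1 hℓ
            exact ⟨(Finset.mem_filter.1 h1).2, h2⟩
        _ = (M.divisors.card * (1 + Real.log x)) ^ 4 / q := by
            rw [Finset.prod_div_distrib, Finset.prod_const, Finset.card_univ, Fintype.card_fin]
            congr 1
            exact_mod_cast prod_comp q hq0 f
    calc ∑ t ∈ T.filter (fun t => q ∣ DD w t), (1 / ((DD w t).totient : ℝ))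
        ≤ ∑ t ∈ T.filter (fun t => q ∣ DD w t), (16 : ℝ) ^ L *
            ∑ f : q.primeFactors → Fin 4,
              if ∀ i, comp q f i ∣ rgh w (t i - 1) then F t else 0 := by
          refine Finset.sum_le_sum (fun t ht => ?_)
          obtain ⟨htT, htq⟩ := Finset.mem_filter.1 ht
          refine (htot t htT).trans ?_
          refine mul_le_mul_of_nonneg_left ?_ (by positivity)
          obtain ⟨f, hf'⟩ := exists_comp q (fun i => rgh w (t i - 1))
            (fun i j hij => ((hT t htT).2.1 i j hij).2) htq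
          have h1 := Finset.single_le_sum (f := fun f : q.primeFactors → Fin 4 =>
            if ∀ i, comp q f i ∣ rgh w (t i - 1) then F t else 0)
            (fun f _ => by
              show (0 : ℝ) ≤ if ∀ i, comp q f i ∣ rgh w (t i - 1) then F t else 0
              split_ifs
              · exact hF0 t
              · exact le_rfl) (Finset.mem_univ f)
          have h2 : (if ∀ i, comp q f i ∣ rgh w (t i - 1) then F t else 0) = F t := if_pos hf'
          calc ∏ i, (1 / (rgh w (t i - 1) : ℝ)) = F t := rfl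
            _ = _ := h2.symm
            _ ≤ _ := h1
      _ = (16 : ℝ) ^ L * ∑ f : q.primeFactors → Fin 4, ∑ t ∈ T.filter (fun t => q ∣ DD w t),
              (if ∀ i, comp q f i ∣ rgh w (t i - 1) then F t else 0) := by
          rw [← Finset.mul_sum, Finset.sum_comm]
      _ ≤ (16 : ℝ) ^ L * ∑ f : q.primeFactors → Fin 4,
            (M.divisors.card * (1 + Real.log x)) ^ 4 / q := by
          refine mul_le_mul_of_nonneg_left (Finset.sum_le_sum (fun f _ => ?_)) (by positivity)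
          refine le_trans ?_ (hf f)
          rw [← Finset.sum_filter]
          refine Finset.sum_le_sum_of_subset_of_nonneg ?_ (fun t _ _ => hF0 t)
          intro t ht
          obtain ⟨h1, h2⟩ := Finset.mem_filter.1 ht
          exact Finset.mem_filter.2 ⟨(Finset.mem_filter.1 h1).1, h2⟩
      _ = (16 : ℝ) ^ L * ((4 : ℝ) ^ q.primeFactors.card *
            ((M.divisors.card * (1 + Real.log x)) ^ 4 / q)) := by
          rw [Finset.sum_const, nsmul_eq_mul, Finset.card_univ, Fintype.card_fun,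
            Fintype.card_fin, Fintype.card_coe]
          push_cast
          rfl
      _ ≤ (16 : ℝ) ^ L * ((256 : ℝ) ^ L *
            ((M.divisors.card * (1 + Real.log x)) ^ 4 / q)) := by
          gcongr
      _ = (4096 : ℝ) ^ L * ((M.divisors.card * (1 + Real.log x)) ^ 4 / q) := by
          rw [← mul_assoc, ← Real.mul_rpow (by norm_num) (by norm_num)]
          norm_num
      _ ≤ (65536 : ℝ) ^ L * ((M.divisors.card * (1 + Real.log x)) ^ 4 / q) := by
          refine mul_le_mul_of_nonneg_right ?_ (by positivity)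
          exact Real.rpow_le_rpow (by norm_num) (by norm_num) hL0
      _ = (M.divisors.card * (1 + Real.log x)) ^ 4 * (65536 : ℝ) ^ L / q := by ring
  calc ∑ t ∈ T, (1 / ((DD w t).totient : ℝ)) *
        ∑ q ∈ (DD w t).divisors.filter (fun q => 1 < q), Φ q
      ≤ ∑ t ∈ T, ∑ q ∈ Ioc ⌊w⌋₊ ⌊x ^ 4⌋₊,
          (if q ∣ DD w t then (1 / ((DD w t).totient : ℝ)) * Φ q else 0) := by
        refine Finset.sum_le_sum (fun t ht => ?_)
        rw [← Finset.sum_filter, ← Finset.mul_sum]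
        refine mul_le_mul_of_nonneg_left ?_ (by positivity)
        refine Finset.sum_le_sum_of_subset_of_nonneg ?_ (fun q _ _ => hΦ q)
        intro q hq
        obtain ⟨h1, h2⟩ := Finset.mem_filter.1 hq
        obtain ⟨h3, h4⟩ := Nat.mem_divisors.1 h1
        refine Finset.mem_filter.2 ⟨Finset.mem_Ioc.2 ⟨?_, ?_⟩, h3⟩
        · rw [Nat.floor_lt (by linarith)]
          obtain ⟨p, hp, hpq⟩ := Nat.exists_prime_and_dvd (n := q) (by omega)
          have h5 := hDp t p hp (hpq.trans h3)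
          have h6 : (p : ℝ) ≤ q := by exact_mod_cast Nat.le_of_dvd (by omega) hpq
          linarith
        · refine Nat.le_floor ?_
          have h5 : (q : ℝ) ≤ DD w t := by
            exact_mod_cast Nat.le_of_dvd (Nat.pos_of_ne_zero h4) h3
          exact h5.trans (hDx t ht)
    _ = ∑ q ∈ Ioc ⌊w⌋₊ ⌊x ^ 4⌋₊, (∑ t ∈ T.filter (fun t => q ∣ DD w t),
          (1 / ((DD w t).totient : ℝ))) * Φ q := by
        rw [Finset.sum_comm]
        refine Finset.sum_congr rfl (fun q _ => ?_)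
        rw [← Finset.sum_filter, Finset.sum_mul]
    _ ≤ ∑ q ∈ Ioc ⌊w⌋₊ ⌊x ^ 4⌋₊,
          ((M.divisors.card * (1 + Real.log x)) ^ 4 * (65536 : ℝ) ^ L / q) * Φ q := by
        refine Finset.sum_le_sum (fun q hq => ?_)
        have h1 := (Finset.mem_Ioc.1 hq).1
        rw [Nat.floor_lt (by linarith)] at h1
        have h2 : (1 : ℝ) < q := by linarith
        exact mul_le_mul_of_nonneg_right (hcore q (by exact_mod_cast h2)) (hΦ q)
    _ = (M.divisors.card * (1 + Real.log x)) ^ 4 * (65536 : ℝ) ^ L *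
          ∑ q ∈ Ioc ⌊w⌋₊ ⌊x ^ 4⌋₊, Φ q / q := by
        rw [Finset.mul_sum]
        refine Finset.sum_congr rfl (fun q _ => ?_)
        ring

end Pool.Agent.Helper34.CA
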