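import Pool.Agent.Helper34.CA.St
import Pool.Agent.Helper51.BV.Average

/-!
# Project CA (MP_87fff7_nt), module TwAv

B7. `TwAv`. As in `Pool/Agent/Helper51/BV/Average.lean`: orthogonality of the characters `χ` mod
`d` (`d` coprime to `M`), `χ` induced by the primitive `ψ` mod `f`, `f ∣ d`, `|SSt χ₀ g x χ -
SSt χ₀ g x ψ| ≤ EE g x d` (prime powers not coprime to `d`), `EE_le`. Then
`∑_{d ∈ S} (1/φ(d)) ∑_{f ∣ d} ∑*_ψ |SSt ψ| ≤ (∑_{f, f ∣ some d ∈ S} (1/φ(f)) ∑*_ψ |SSt ψ|)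
(∑_{m ≤ x^{1/40}} 1/φ(m))`, the last factor is `≤ 4 l²`; here `f = 1` (`prim 1 = {1}`) is
included. `f ≤ l^B`: each term `≤ η`, in total `≤ l^B η`; `f > l^B`: `TwLarge` with `A + 2`.
-/

set_option autoImplicit false

open Finset Filter Topology
open scoped ArithmeticFunction.vonMangoldt

namespace Pool.Agent.Helper34.CA

open Pool.Agent.Helper18.BV

namespace TwAvAux

open Pool.Agent.Helper51.BV

variable {M : ℕ}

theorem norm_term_le {g : ℝ → ℝ} (hg : IsWt g) (x : ℝ) (χ₀ : DirichletCharacter ℂ M) {q : ℕ}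
    (χ : DirichletCharacter ℂ q) (n : ℕ) :
    ‖LaC n * χ₀ (n : ZMod M) * χ (n : ZMod q) * (wt g x n : ℂ)‖ ≤ Λ n * wt g x n := by
  rw [norm_mul, norm_mul, norm_mul, LaC_apply, Complex.norm_real, Complex.norm_real,
    Real.norm_of_nonneg ArithmeticFunction.vonMangoldt_nonneg,
    Real.norm_of_nonneg (wt_nonneg hg _ _)]
  have h1 : ‖χ (n : ZMod q)‖ ≤ 1 := DirichletCharacter.norm_le_one χ _
  have h1' : ‖χ₀ (n : ZMod M)‖ ≤ 1 := DirichletCharacter.norm_le_one χ₀ _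
  have h2 : 0 ≤ Λ n := ArithmeticFunction.vonMangoldt_nonneg
  have h3 := wt_nonneg hg x n
  have h4 : Λ n * ‖χ₀ (n : ZMod M)‖ ≤ Λ n := mul_le_of_le_one_right h2 h1'
  have h5 : Λ n * ‖χ₀ (n : ZMod M)‖ * ‖χ (n : ZMod q)‖ ≤ Λ n * ‖χ₀ (n : ZMod M)‖ :=
    mul_le_of_le_one_right (mul_nonneg h2 (norm_nonneg _)) h1
  exact mul_le_mul_of_nonneg_right (h5.trans h4) h3

theorem SSt_sub_restr {g : ℝ → ℝ} (hg : IsWt g) (x : ℝ) (χ₀ : DirichletCharacter ℂ M) {q : ℕ}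
    (χ : DirichletCharacter ℂ q) (d : ℕ) :
    ‖SSt χ₀ g x χ - ∑ n ∈ (Icc 1 ⌊x⌋₊).filter (fun n => Nat.Coprime n d),
      LaC n * χ₀ (n : ZMod M) * χ (n : ZMod q) * (wt g x n : ℂ)‖ ≤ EE g x d := by
  unfold SSt EE
  rw [← Finset.sum_filter_add_sum_filter_not (Icc 1 ⌊x⌋₊) (fun n => Nat.Coprime n d),
    add_sub_cancel_left]
  exact (norm_sum_le _ _).trans (Finset.sum_le_sum fun n _ => norm_term_le hg x χ₀ χ n)

theorem SSt_full {g : ℝ → ℝ} (x : ℝ) (χ₀ : DirichletCharacter ℂ M) {d : ℕ}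
    (χ : DirichletCharacter ℂ d) :
    SSt χ₀ g x χ = ∑ n ∈ (Icc 1 ⌊x⌋₊).filter (fun n => Nat.Coprime n d),
      LaC n * χ₀ (n : ZMod M) * χ (n : ZMod d) * (wt g x n : ℂ) := by
  unfold SSt
  symm
  refine Finset.sum_subset (Finset.filter_subset _ _) ?_
  intro n hn hn'
  have h : ¬ IsUnit ((n : ZMod d)) := by
    rw [ZMod.isUnit_iff_coprime]
    exact fun h => hn' (Finset.mem_filter.mpr ⟨hn, h⟩)
  rw [χ.map_nonunit h, mul_zero, zero_mul]

theorem SSt_prim {g : ℝ → ℝ} (hg : IsWt g) (x : ℝ) (χ₀ : DirichletCharacter ℂ M) {d : ℕ}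
    (χ : DirichletCharacter ℂ d) :
    ‖SSt χ₀ g x χ‖ ≤ ‖SSt χ₀ g x χ.primitiveCharacter‖ + EE g x d := by
  have h1 := SSt_sub_restr hg x χ₀ χ.primitiveCharacter d
  have h2 : (∑ n ∈ (Icc 1 ⌊x⌋₊).filter (fun n => Nat.Coprime n d),
      LaC n * χ₀ (n : ZMod M) * χ.primitiveCharacter (n : ZMod χ.conductor) *
        (wt g x n : ℂ)) = SSt χ₀ g x χ := by
    rw [SSt_full x χ₀ χ]
    refine Finset.sum_congr rfl fun n hn => ?_
    rw [prim_apply χ (Finset.mem_filter.mp hn).2]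
  rw [h2] at h1
  have h3 := norm_sub_norm_le (SSt χ₀ g x χ) (SSt χ₀ g x χ.primitiveCharacter)
  rw [norm_sub_rev] at h1
  linarith

theorem orth {g : ℝ → ℝ} (x : ℝ) (χ₀ : DirichletCharacter ℂ M) {d : ℕ} [NeZero d] {c : ℕ}
    (hc : Nat.Coprime c d) :
    (d.totient : ℂ) * (∑ n ∈ (Icc 1 ⌊x⌋₊).filter (fun n => n ≡ c [MOD d]),
      LaC n * χ₀ (n : ZMod M) * (wt g x n : ℂ)) =
      ∑ χ : DirichletCharacter ℂ d, χ ((c : ZMod d)⁻¹) * SSt χ₀ g x χ := by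
  have hu : IsUnit ((c : ZMod d)) := (ZMod.isUnit_iff_coprime c d).mpr hc
  unfold SSt
  simp_rw [Finset.mul_sum]
  rw [Finset.sum_comm]
  have h1 : ∀ n ∈ Icc 1 ⌊x⌋₊, (∑ χ : DirichletCharacter ℂ d, χ ((c : ZMod d)⁻¹) *
      (LaC n * χ₀ (n : ZMod M) * χ (n : ZMod d) * (wt g x n : ℂ))) =
      if n ≡ c [MOD d] then (d.totient : ℂ) *
        (LaC n * χ₀ (n : ZMod M) * (wt g x n : ℂ)) else 0 := by
    intro n _
    have h2 : (∑ χ : DirichletCharacter ℂ d, χ ((c : ZMod d)⁻¹) *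
      (LaC n * χ₀ (n : ZMod M) * χ (n : ZMod d) * (wt g x n : ℂ))) =
      (∑ χ : DirichletCharacter ℂ d, χ ((c : ZMod d)⁻¹) * χ (n : ZMod d)) *
        (LaC n * χ₀ (n : ZMod M) * (wt g x n : ℂ)) := by
      rw [Finset.sum_mul]
      refine Finset.sum_congr rfl fun χ _ => ?_
      ring
    rw [h2, DirichletCharacter.sum_char_inv_mul_char_eq ℂ hu]
    have h3 : ((c : ZMod d) = (n : ZMod d)) ↔ n ≡ c [MOD d] := by
      rw [eq_comm, ZMod.natCast_eq_natCast_iff]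
    simp only [h3]
    split_ifs
    · rfl
    · rw [zero_mul]
  rw [Finset.sum_congr rfl h1, ← Finset.sum_filter]

/-- The primitive characters inducing the characters modulo `d`. -/
theorem sum_prim_all {d : ℕ} [NeZero d] (F : (Σ q : ℕ, DirichletCharacter ℂ q) → ℝ)
    (hF : ∀ p, 0 ≤ F p) :
    ∑ χ : DirichletCharacter ℂ d, F ⟨χ.conductor, χ.primitiveCharacter⟩ ≤
      ∑ q ∈ d.divisors, ∑ ψ ∈ prim q, F ⟨q, ψ⟩ := by
  classical
  have hrec : ∀ (p p' : Σ q : ℕ, DirichletCharacter ℂ q) (h : p.1 ∣ d) (h' : p'.1 ∣ d), p = p' →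
      DirichletCharacter.changeLevel h p.2 = DirichletCharacter.changeLevel h' p'.2 := by
    rintro p _ h h' rfl; rfl
  have hinj : Set.InjOn (fun χ : DirichletCharacter ℂ d =>
      (⟨χ.conductor, χ.primitiveCharacter⟩ : Σ q : ℕ, DirichletCharacter ℂ q))
      (univ : Finset (DirichletCharacter ℂ d)) := by
    intro χ _ χ' _ he
    have := hrec _ _ χ.conductor_dvd_level χ'.conductor_dvd_level he
    rwa [χ.changeLevel_primitiveCharacter, χ'.changeLevel_primitiveCharacter] at this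
  have h1 : ∑ χ : DirichletCharacter ℂ d, F ⟨χ.conductor, χ.primitiveCharacter⟩ =
      ∑ p ∈ (univ : Finset (DirichletCharacter ℂ d)).image (fun χ : DirichletCharacter ℂ d =>
        (⟨χ.conductor, χ.primitiveCharacter⟩ : Σ q : ℕ, DirichletCharacter ℂ q)), F p := by
    rw [Finset.sum_image hinj]
  rw [h1, Finset.sum_sigma']
  refine Finset.sum_le_sum_of_subset_of_nonneg ?_ (fun p _ _ => hF _)
  intro p hp
  obtain ⟨χ, _, rfl⟩ := Finset.mem_image.mp hp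
  rw [Finset.mem_sigma, Nat.mem_divisors]
  exact ⟨⟨χ.conductor_dvd_level, NeZero.ne d⟩, mem_prim.mpr χ.primitiveCharacter_isPrimitive⟩

/-- The sum over one residue class modulo `d`. -/
theorem one_modulus {g : ℝ → ℝ} (hg : IsWt g) (x : ℝ) (χ₀ : DirichletCharacter ℂ M) {d : ℕ}
    (hd : 0 < d) {c : ℕ} (hc : Nat.Coprime c d) :
    ‖∑ n ∈ (Icc 1 ⌊x⌋₊).filter (fun n => n ≡ c [MOD d]),
        LaC n * χ₀ (n : ZMod M) * (wt g x n : ℂ)‖ ≤
      (1 / (d.totient : ℝ)) * ∑ q ∈ d.divisors, ∑ ψ ∈ prim q, ‖SSt χ₀ g x ψ‖ + EE g x d := by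
  classical
  have : NeZero d := ⟨hd.ne'⟩
  have ht : (0 : ℝ) < d.totient := by exact_mod_cast Nat.totient_pos.2 hd
  set S1 : ℂ := ∑ n ∈ (Icc 1 ⌊x⌋₊).filter (fun n => n ≡ c [MOD d]),
    LaC n * χ₀ (n : ZMod M) * (wt g x n : ℂ) with hS1
  have h1 := orth (g := g) x χ₀ hc
  rw [← hS1] at h1
  have h2 : (d.totient : ℝ) * ‖S1‖ ≤ ∑ χ : DirichletCharacter ℂ d,
      (‖SSt χ₀ g x χ.primitiveCharacter‖ + EE g x d) := by
    have h3 : (d.totient : ℝ) * ‖S1‖ = ‖(d.totient : ℂ) * S1‖ := by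
      rw [norm_mul, Complex.norm_natCast]
    rw [h3, h1]
    refine (norm_sum_le _ _).trans (Finset.sum_le_sum fun χ _ => ?_)
    rw [norm_mul]
    calc ‖χ ((c : ZMod d)⁻¹)‖ * ‖SSt χ₀ g x χ‖ ≤ 1 * ‖SSt χ₀ g x χ‖ :=
          mul_le_mul_of_nonneg_right (DirichletCharacter.norm_le_one χ _) (norm_nonneg _)
      _ ≤ _ := by rw [one_mul]; exact SSt_prim hg x χ₀ χ
  rw [Finset.sum_add_distrib, Finset.sum_const, nsmul_eq_mul, card_char d] at h2
  have h5 := sum_prim_all (d := d) (fun p => ‖SSt χ₀ g x p.2‖) (fun p => norm_nonneg _)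
  simp only at h5
  have h9 : ((1 / (d.totient : ℝ)) * ∑ q ∈ d.divisors,
        ∑ ψ ∈ prim q, ‖SSt χ₀ g x ψ‖ + EE g x d) * d.totient =
        (∑ q ∈ d.divisors, ∑ ψ ∈ prim q, ‖SSt χ₀ g x ψ‖) + d.totient * EE g x d := by
    field_simp
  have h10 : ‖S1‖ * (d.totient : ℝ) ≤ ((1 / (d.totient : ℝ)) * ∑ q ∈ d.divisors,
        ∑ ψ ∈ prim q, ‖SSt χ₀ g x ψ‖ + EE g x d) * d.totient := by
    rw [h9, mul_comm]
    linarith
  exact le_of_mul_le_mul_right h10 ht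

theorem swapS (T : ℕ → ℝ) (hT0 : ∀ q, 0 ≤ T q) (D : ℕ) (S : Finset ℕ) (hS : S ⊆ Icc 1 D)
    (P : ℕ → Prop) [DecidablePred P] (hP : ∀ d ∈ S, ∀ q, q ∣ d → P q) :
    ∑ d ∈ S, (1 / (d.totient : ℝ)) * ∑ q ∈ d.divisors, T q ≤
      (∑ q ∈ (Icc 1 D).filter P, (1 / (q.totient : ℝ)) * T q) *
        ∑ m ∈ Icc 1 D, (1 : ℝ) / m.totient := by
  set u : ℕ → ℝ := fun q => if P q then (1 / (q.totient : ℝ)) * T q else 0 with hu
  have hu0 : ∀ q, 0 ≤ u q := by
    intro q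
    simp only [hu]
    split_ifs
    · exact mul_nonneg (by positivity) (hT0 q)
    · exact le_rfl
  have h1 := sum_div_le D u (fun m => (1 : ℝ) / m.totient) hu0 (fun m => by positivity)
  have h2 : ∑ q ∈ Icc 1 D, u q = ∑ q ∈ (Icc 1 D).filter P, (1 / (q.totient : ℝ)) * T q := by
    rw [Finset.sum_filter]
  rw [h2] at h1
  refine le_trans ?_ h1
  refine le_trans ?_ (Finset.sum_le_sum_of_subset_of_nonneg hS (fun d _ _ =>
    Finset.sum_nonneg fun q _ => mul_nonneg (hu0 q) (by positivity)))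
  refine Finset.sum_le_sum fun d hd => ?_
  have hd1 := hS hd
  rw [Finset.mem_Icc] at hd1
  rw [Finset.mul_sum]
  refine Finset.sum_le_sum fun q hq => ?_
  have hq0 : 0 < q := Nat.pos_of_mem_divisors hq
  have hdvd := Nat.dvd_of_mem_divisors hq
  have hdq : 0 < d / q := Nat.div_pos (Nat.le_of_dvd hd1.1 hdvd) hq0
  have e : q * (d / q) = d := Nat.mul_div_cancel' hdvd
  have h4 : q.totient * (d / q).totient ≤ d.totient := by
    have := Nat.totient_super_multiplicative q (d / q)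
    rwa [e] at this
  have h5 : (q.totient : ℝ) * (d / q).totient ≤ d.totient := by exact_mod_cast h4
  have p1 : (0 : ℝ) < q.totient := by exact_mod_cast Nat.totient_pos.2 hq0
  have p2 : (0 : ℝ) < (d / q).totient := by exact_mod_cast Nat.totient_pos.2 hdq
  have h6 : 1 / (d.totient : ℝ) ≤ 1 / ((q.totient : ℝ) * (d / q).totient) :=
    one_div_le_one_div_of_le (by positivity) h5
  have h7 : u q = (1 / (q.totient : ℝ)) * T q := by
    simp only [hu]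
    rw [if_pos (hP d hd q hdvd)]
  calc 1 / (d.totient : ℝ) * T q ≤ 1 / ((q.totient : ℝ) * (d / q).totient) * T q :=
        mul_le_mul_of_nonneg_right h6 (hT0 q)
    _ = u q * (1 / ((d / q).totient : ℝ)) := by
        rw [h7]
        field_simp

end TwAvAux

open TwAvAux in
theorem twAv (h : TwLarge) : TwAv := by
  classical
  intro g hg A hA
  obtain ⟨G, hG0, hG⟩ := hg.exists_bound
  obtain ⟨B, C1, X1, hB, hC1, hX1, hL⟩ := h g hg (A + 2) (by linarith)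
  have hev : ∀ᶠ x : ℝ in atTop, ‖Real.log x ^ (A + 2)‖ ≤ 1 * ‖x ^ (9 / 20 : ℝ)‖ :=
    (isLittleO_log_rpow_rpow_atTop (A + 2) (by norm_num : (0 : ℝ) < 9 / 20)).bound one_pos
  obtain ⟨X3, hX3⟩ := Filter.eventually_atTop.mp hev
  refine ⟨B, 4 * C1 + 2 * G + 4, max X1 X3, hB, by positivity, hX1.trans (le_max_left _ _), ?_⟩
  intro x hx M _ χ₀ hM S hS η hη hsm c hc
  have hx1 : X1 ≤ x := (le_max_left _ _).trans hx
  have hx3 : X3 ≤ x := (le_max_right _ _).trans hx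
  have h3x : 3 ≤ x := hX1.trans hx1
  have hx0 : 0 < x := by linarith
  set l : ℝ := Real.log x with hl
  have hl1 : 1 ≤ l := by
    rw [hl, Real.le_log_iff_exp_le hx0]
    linarith [Real.exp_one_lt_d9]
  have hl0 : 0 < l := by linarith
  set D : ℕ := ⌊x ^ (1 / 40 : ℝ)⌋₊ with hD
  have hDx : (D : ℝ) ≤ x ^ (1 / 40 : ℝ) := Nat.floor_le (Real.rpow_nonneg hx0.le _)
  have hSD : S ⊆ Icc 1 D := by
    intro d hd
    obtain ⟨h1, h2, _⟩ := hS d hd
    exact Finset.mem_Icc.mpr ⟨h1, Nat.le_floor h2⟩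
  -- the large conductors
  have hLx := hL x hx1 M χ₀ hM
  set T : ℕ → ℝ := fun q => ∑ ψ ∈ prim q, ‖SSt χ₀ g x ψ‖ with hT
  have hT0 : ∀ q, 0 ≤ T q := fun q => Finset.sum_nonneg fun _ _ => norm_nonneg _
  set P : ℕ → Prop := fun f => ∃ d ∈ S, f ∣ d with hP
  have hPS : ∀ d ∈ S, ∀ q, q ∣ d → P q := fun d hd q hq => ⟨d, hd, hq⟩
  have hlB0 : 0 ≤ l ^ B := Real.rpow_nonneg hl0.le _
  -- the small conductors
  have hSx : ∑ q ∈ (Icc 1 ⌊l ^ B⌋₊).filter P, (1 / (q.totient : ℝ)) * T q ≤ l ^ B * η := by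
    have hterm : ∀ q ∈ (Icc 1 ⌊l ^ B⌋₊).filter P, (1 / (q.totient : ℝ)) * T q ≤ η := by
      intro q hq
      obtain ⟨hq1, d, hd, hqd⟩ := Finset.mem_filter.mp hq
      rw [Finset.mem_Icc] at hq1
      have hq0 : 0 < q := by omega
      have hqB : (q : ℝ) ≤ l ^ B := (Nat.cast_le.mpr hq1.2).trans (Nat.floor_le hlB0)
      have p1 : (0 : ℝ) < q.totient := by exact_mod_cast Nat.totient_pos.2 hq0
      have h4 : T q ≤ (prim q).card • η :=
        Finset.sum_le_card_nsmul _ _ _ fun ψ hψ => hsm d hd q hqd hqB ψ hψ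
      rw [nsmul_eq_mul] at h4
      have h5 : T q ≤ q.totient * η :=
        h4.trans (mul_le_mul_of_nonneg_right (Pool.Agent.Helper51.BV.card_prim_le q hq0) hη)
      calc 1 / (q.totient : ℝ) * T q ≤ 1 / (q.totient : ℝ) * (q.totient * η) :=
            mul_le_mul_of_nonneg_left h5 (by positivity)
        _ = η := by field_simp
    refine (Finset.sum_le_card_nsmul _ _ _ hterm).trans ?_
    rw [nsmul_eq_mul]
    refine mul_le_mul_of_nonneg_right ?_ hη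
    have h6 : (((Icc 1 ⌊l ^ B⌋₊).filter P).card : ℝ) ≤ (⌊l ^ B⌋₊ : ℕ) := by
      have h7 := Finset.card_filter_le (Icc 1 ⌊l ^ B⌋₊) P
      rw [Nat.card_Icc, Nat.add_sub_cancel] at h7
      exact_mod_cast h7
    exact h6.trans (Nat.floor_le hlB0)
  have hall : ∑ q ∈ (Icc 1 D).filter P, (1 / (q.totient : ℝ)) * T q ≤
      l ^ B * η + C1 / l ^ (A + 2) := by
    have hsub : (Icc 1 D).filter P ⊆ (Icc 1 ⌊l ^ B⌋₊).filter P ∪
        (Ioc ⌊l ^ B⌋₊ D).filter (fun q => Nat.Coprime q M) := by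
      intro q hq
      obtain ⟨hq1, d, hd, hqd⟩ := Finset.mem_filter.mp hq
      rw [Finset.mem_Icc] at hq1
      rw [Finset.mem_union, Finset.mem_filter, Finset.mem_Icc, Finset.mem_filter, Finset.mem_Ioc]
      by_cases h : q ≤ ⌊l ^ B⌋₊
      · exact Or.inl ⟨⟨hq1.1, h⟩, d, hd, hqd⟩
      · exact Or.inr ⟨⟨by omega, hq1.2⟩, Nat.Coprime.coprime_dvd_left hqd (hS d hd).2.2⟩
    have hnn : ∀ q, 0 ≤ (1 / (q.totient : ℝ)) * T q := fun q => mul_nonneg (by positivity) (hT0 q)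
    calc ∑ q ∈ (Icc 1 D).filter P, (1 / (q.totient : ℝ)) * T q
        ≤ ∑ q ∈ (Icc 1 ⌊l ^ B⌋₊).filter P ∪ (Ioc ⌊l ^ B⌋₊ D).filter (fun q => Nat.Coprime q M),
            (1 / (q.totient : ℝ)) * T q :=
          Finset.sum_le_sum_of_subset_of_nonneg hsub fun q _ _ => hnn q
      _ ≤ (∑ q ∈ (Icc 1 ⌊l ^ B⌋₊).filter P, (1 / (q.totient : ℝ)) * T q) +
          ∑ q ∈ (Ioc ⌊l ^ B⌋₊ D).filter (fun q => Nat.Coprime q M),
            (1 / (q.totient : ℝ)) * T q := by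
          rw [← Finset.sum_union_inter]
          exact le_add_of_nonneg_right (Finset.sum_nonneg fun q _ => hnn q)
      _ ≤ l ^ B * η + C1 / l ^ (A + 2) := add_le_add hSx hLx
  -- the sum of 1 / φ
  have hphi : ∑ m ∈ Icc 1 D, (1 : ℝ) / m.totient ≤ 4 * l ^ 2 := by
    refine (Pool.Agent.Helper51.BV.sum_inv_totient_le D).trans ?_
    have h7 : Real.log D ≤ l := by
      rcases Nat.eq_zero_or_pos D with h0 | h0
      · rw [h0]; simp; exact hl0.le
      · have h8 : (D : ℝ) ≤ x := by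
          refine hDx.trans ?_
          calc x ^ (1 / 40 : ℝ) ≤ x ^ (1 : ℝ) :=
                Real.rpow_le_rpow_of_exponent_le (by linarith) (by norm_num)
            _ = x := Real.rpow_one x
        exact Real.log_le_log (by exact_mod_cast h0) h8
    have h9 : 0 ≤ Real.log D := Real.log_natCast_nonneg D
    nlinarith
  -- the integers not coprime to the modulus
  have hEE : ∑ d ∈ S, Pool.Agent.Helper51.BV.EE g x d ≤ 2 * G / l ^ A := by
    refine (Finset.sum_le_sum_of_subset_of_nonneg hSD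
      (fun d _ _ => Pool.Agent.Helper51.BV.EE_nonneg hg x d)).trans ?_
    have h7 : ∀ d ∈ Icc 1 D, Pool.Agent.Helper51.BV.EE g x d ≤
        D * (2 * l) * (l * (G / x ^ (1 / 2 : ℝ))) := by
      intro d hd
      rw [Finset.mem_Icc] at hd
      refine (Pool.Agent.Helper51.BV.EE_le hg hG hG0 h3x d hd.1).trans ?_
      have : (d : ℝ) ≤ D := by exact_mod_cast hd.2
      have hxs : 0 < x ^ (1 / 2 : ℝ) := Real.rpow_pos_of_pos hx0 _
      gcongr
    refine (Finset.sum_le_card_nsmul _ _ _ h7).trans ?_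
    rw [nsmul_eq_mul, Nat.card_Icc, Nat.add_sub_cancel]
    have hxs : 0 < x ^ (1 / 2 : ℝ) := Real.rpow_pos_of_pos hx0 _
    have h8 : (D : ℝ) * D ≤ x ^ (1 / 20 : ℝ) := by
      calc (D : ℝ) * D ≤ x ^ (1 / 40 : ℝ) * x ^ (1 / 40 : ℝ) :=
            mul_le_mul hDx hDx (Nat.cast_nonneg _) (Real.rpow_nonneg hx0.le _)
        _ = x ^ (1 / 20 : ℝ) := by rw [← Real.rpow_add hx0]; norm_num
    have h9 := hX3 x hx3
    rw [one_mul, Real.norm_of_nonneg (Real.rpow_nonneg hl0.le _),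
      Real.norm_of_nonneg (Real.rpow_nonneg hx0.le _)] at h9
    have h10 : x ^ (1 / 20 : ℝ) * x ^ (9 / 20 : ℝ) = x ^ (1 / 2 : ℝ) := by
      rw [← Real.rpow_add hx0]; norm_num
    have hlA : 0 < l ^ A := Real.rpow_pos_of_pos hl0 _
    have h11 : l ^ (A + 2) = l ^ A * l ^ 2 := by
      rw [Real.rpow_add hl0]; norm_num
    have h12 : (D : ℝ) * D * l ^ (A + 2) ≤ x ^ (1 / 2 : ℝ) := by
      rw [← h10]
      exact mul_le_mul h8 h9 (Real.rpow_nonneg hl0.le _) (Real.rpow_nonneg hx0.le _)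
    rw [h11] at h12
    rw [le_div_iff₀ hlA]
    have h13 : (D : ℝ) * (D * (2 * l) * (l * (G / x ^ (1 / 2 : ℝ)))) * l ^ A =
        2 * G * ((D : ℝ) * D * (l ^ A * l ^ 2)) / x ^ (1 / 2 : ℝ) := by
      field_simp
    rw [h13, div_le_iff₀ hxs]
    exact mul_le_mul_of_nonneg_left h12 (by positivity)
  -- conclusion
  have hlA : 0 < l ^ A := Real.rpow_pos_of_pos hl0 _
  have h11 : l ^ (A + 2) = l ^ A * l ^ 2 := by
    rw [Real.rpow_add hl0]; norm_num
  have h12 : l ^ B * l ^ 2 ≤ l ^ (B + 3) := by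
    have e : l ^ (B + 2) = l ^ B * l ^ 2 := by
      rw [Real.rpow_add hl0]; norm_num
    rw [← e]
    exact Real.rpow_le_rpow_of_exponent_le hl1 (by linarith)
  have h13 : 0 ≤ l ^ (B + 3) := Real.rpow_nonneg hl0.le _
  calc ∑ d ∈ S, ‖∑ n ∈ (Icc 1 ⌊x⌋₊).filter (fun n => n ≡ c d [MOD d]),
        LaC n * χ₀ (n : ZMod M) * (wt g x n : ℂ)‖
      ≤ ∑ d ∈ S, ((1 / (d.totient : ℝ)) * ∑ q ∈ d.divisors, T q +
          Pool.Agent.Helper51.BV.EE g x d) := by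
        refine Finset.sum_le_sum fun d hd => ?_
        exact one_modulus hg x χ₀ (hS d hd).1 (hc d hd)
    _ = (∑ d ∈ S, (1 / (d.totient : ℝ)) * ∑ q ∈ d.divisors, T q) +
          ∑ d ∈ S, Pool.Agent.Helper51.BV.EE g x d := Finset.sum_add_distrib
    _ ≤ (l ^ B * η + C1 / l ^ (A + 2)) * (4 * l ^ 2) + 2 * G / l ^ A := by
        refine add_le_add ((swapS T hT0 D S hSD P hPS).trans ?_) hEE
        refine mul_le_mul hall hphi (Finset.sum_nonneg fun m _ => by positivity) (by positivity)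
    _ = 4 * η * (l ^ B * l ^ 2) + (4 * C1 + 2 * G) / l ^ A := by
        rw [h11]
        field_simp
        ring
    _ ≤ 4 * η * l ^ (B + 3) + (4 * C1 + 2 * G) / l ^ A := by
        have := mul_le_mul_of_nonneg_left h12 (by positivity : (0 : ℝ) ≤ 4 * η)
        linarith
    _ ≤ (4 * C1 + 2 * G + 4) / l ^ A + (4 * C1 + 2 * G + 4) * η * l ^ (B + 3) := by
        have e1 : (4 * C1 + 2 * G) / l ^ A ≤ (4 * C1 + 2 * G + 4) / l ^ A :=
          div_le_div_of_nonneg_right (by linarith) hlA.le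
        have e2 : 0 ≤ (4 * C1 + 2 * G) * (η * l ^ (B + 3)) := by positivity
        nlinarith

end Pool.Agent.Helper34.CA
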