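import Pool.Agent.Helper34.CA.St
import Pool.Agent.Helper96.BV.Large

/-!
# Project CA (MP_87fff7_nt), module TwLarge

B6. `TwLarge`. Follow `Pool/Agent/Helper96/BV/Large.lean`. For `q` coprime to `M` let
`θ = changeLevel χ₀ * changeLevel ψ` mod `M q`: `θ(n) = χ₀(n) ψ(n)` for all `n`, `θ ≠ 1` since
`ψ` is primitive of conductor `q > 1` (take `n ≡ 1 mod M`). So `SSt χ₀ g x ψ = SS LaC g x θ`;
Vaughan's identity and `TypeOne` for `θ` (modulus `M q ≤ x^{1/100+1/40}`). For the Type II part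
`SS (a*b) g x θ = SS (a' * b') g x ψ` with `a' = a χ₀`, `b' = b χ₀` (complete multiplicativity of
`χ₀`, `‖a'‖ ≤ ‖a‖`), and `TypeTwo` applies to `a', b'`: no loss in `M`.
-/

set_option autoImplicit false

open Finset Filter Topology
open scoped ArithmeticFunction.vonMangoldt

namespace Pool.Agent.Helper34.CA

open Pool.Agent.Helper18.BV

namespace TwLargeAux

open Pool.Agent.Helper96.BV

theorem exists_theta {M q : ℕ} [NeZero M] (hq : 1 < q) (hc : Nat.Coprime q M)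
    (χ₀ : DirichletCharacter ℂ M) (ψ : DirichletCharacter ℂ q) (hψ : ψ ≠ 1) :
    ∃ θ : DirichletCharacter ℂ (M * q), θ ≠ 1 ∧
      ∀ n : ℕ, θ (n : ZMod (M * q)) = χ₀ (n : ZMod M) * ψ (n : ZMod q) := by
  haveI : NeZero q := ⟨by omega⟩
  haveI : NeZero (M * q) := ⟨mul_ne_zero (NeZero.ne M) (by omega)⟩
  set θ : DirichletCharacter ℂ (M * q) :=
    DirichletCharacter.changeLevel (dvd_mul_right M q) χ₀ *
      DirichletCharacter.changeLevel (dvd_mul_left q M) ψ with hθ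
  have key : ∀ n : ℕ, θ (n : ZMod (M * q)) = χ₀ (n : ZMod M) * ψ (n : ZMod q) := by
    intro n
    by_cases hn : IsUnit (n : ZMod (M * q))
    · obtain ⟨u, hu⟩ := hn
      rw [hθ, MulChar.mul_apply, ← hu,
        DirichletCharacter.changeLevel_eq_cast_of_dvd χ₀ (dvd_mul_right M q) u,
        DirichletCharacter.changeLevel_eq_cast_of_dvd ψ (dvd_mul_left q M) u, hu,
        ZMod.cast_natCast (dvd_mul_right M q), ZMod.cast_natCast (dvd_mul_left q M)]
    · rw [MulChar.map_nonunit θ hn]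
      have h1 : ¬ (Nat.Coprime n M ∧ Nat.Coprime n q) := by
        rintro ⟨h2, h3⟩
        exact hn ((ZMod.isUnit_iff_coprime n (M * q)).2 (Nat.Coprime.mul_right h2 h3))
      by_cases h2 : Nat.Coprime n M
      · have h3 : ¬ Nat.Coprime n q := fun h => h1 ⟨h2, h⟩
        have h4 : ψ (n : ZMod q) = 0 :=
          MulChar.map_nonunit ψ (fun h => h3 ((ZMod.isUnit_iff_coprime n q).1 h))
        rw [h4, mul_zero]
      · have h4 : χ₀ (n : ZMod M) = 0 :=
          MulChar.map_nonunit χ₀ (fun h => h2 ((ZMod.isUnit_iff_coprime n M).1 h))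
        rw [h4, zero_mul]
  refine ⟨θ, ?_, key⟩
  intro h1
  apply hψ
  ext u
  obtain ⟨n, hn1, hn2⟩ := Nat.chineseRemainder hc.symm 1 (u : ZMod q).val
  have e1 : ((n : ℕ) : ZMod M) = 1 := by
    have := (ZMod.natCast_eq_natCast_iff n 1 M).2 hn1
    simpa using this
  have e2 : ((n : ℕ) : ZMod q) = (u : ZMod q) := by
    have := (ZMod.natCast_eq_natCast_iff n (u : ZMod q).val q).2 hn2
    rw [this, ZMod.natCast_zmod_val]
  have e3 := key n
  rw [e1, e2, map_one, one_mul, h1] at e3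
  rw [← e3]
  have hu : IsUnit ((n : ℕ) : ZMod (M * q)) := by
    apply (ZMod.isUnit_iff_coprime n (M * q)).2
    apply Nat.Coprime.mul_right
    · rw [← ZMod.isUnit_iff_coprime, e1]; exact isUnit_one
    · rw [← ZMod.isUnit_iff_coprime, e2]; exact u.isUnit
  rw [MulChar.one_apply hu, MulChar.one_apply_coe]

/-- The function `f(n) χ₀(n)`. -/
noncomputable def tw {M : ℕ} (χ₀ : DirichletCharacter ℂ M) (f : ArithmeticFunction ℂ) :
    ArithmeticFunction ℂ :=
  ⟨fun n => f n * χ₀ (n : ZMod M), by simp⟩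

theorem tw_apply {M : ℕ} (χ₀ : DirichletCharacter ℂ M) (f : ArithmeticFunction ℂ) (n : ℕ) :
    tw χ₀ f n = f n * χ₀ (n : ZMod M) := rfl

theorem tw_mul {M : ℕ} (χ₀ : DirichletCharacter ℂ M) (a b : ArithmeticFunction ℂ) (n : ℕ) :
    (tw χ₀ a * tw χ₀ b : ArithmeticFunction ℂ) n =
      (a * b : ArithmeticFunction ℂ) n * χ₀ (n : ZMod M) := by
  rw [ArithmeticFunction.mul_apply, ArithmeticFunction.mul_apply, Finset.sum_mul]
  refine Finset.sum_congr rfl (fun p hp => ?_)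
  have h1 := (Nat.mem_divisorsAntidiagonal.1 hp).1
  rw [tw_apply, tw_apply, ← h1, Nat.cast_mul, map_mul]
  ring

theorem norm_tw_le {M : ℕ} (χ₀ : DirichletCharacter ℂ M) (f : ArithmeticFunction ℂ) (n : ℕ) :
    ‖tw χ₀ f n‖ ≤ ‖f n‖ := by
  rw [tw_apply, norm_mul]
  have h := DirichletCharacter.norm_le_one χ₀ (n : ZMod M)
  nlinarith [norm_nonneg (f n)]

theorem SS_theta {M q : ℕ} {χ₀ : DirichletCharacter ℂ M} {ψ : DirichletCharacter ℂ q}
    {θ : DirichletCharacter ℂ (M * q)}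
    (h : ∀ n : ℕ, θ (n : ZMod (M * q)) = χ₀ (n : ZMod M) * ψ (n : ZMod q))
    (a b : ArithmeticFunction ℂ) (g : ℝ → ℝ) (x : ℝ) :
    SS (a * b : ArithmeticFunction ℂ) g x θ =
      SS (tw χ₀ a * tw χ₀ b : ArithmeticFunction ℂ) g x ψ := by
  unfold SS
  refine Finset.sum_congr rfl (fun n _ => ?_)
  rw [tw_mul, h n]
  ring

theorem SSt_eq {M q : ℕ} {χ₀ : DirichletCharacter ℂ M} {ψ : DirichletCharacter ℂ q}
    {θ : DirichletCharacter ℂ (M * q)}
    (h : ∀ n : ℕ, θ (n : ZMod (M * q)) = χ₀ (n : ZMod M) * ψ (n : ZMod q))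
    (g : ℝ → ℝ) (x : ℝ) : SSt χ₀ g x ψ = SS LaC g x θ := by
  unfold SS SSt
  refine Finset.sum_congr rfl (fun n _ => ?_)
  rw [h n]
  ring

end TwLargeAux

open TwLargeAux Pool.Agent.Helper96.BV

theorem twLarge (h1 : VaughanId) (h2 : CoefFacts) (h3 : TypeOne) (h4 : TypeTwo) : TwLarge := by
  intro g hg A hA
  obtain ⟨C3, hC3, h3'⟩ := h3 g hg
  obtain ⟨C4, hC4, h4'⟩ := h4 g hg
  -- choice of X0
  have hev : ∀ᶠ x : ℝ in Filter.atTop, Real.log x ^ (A + 2) ≤ x ^ (6 / 25 : ℝ) := by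
    have h := isLittleO_log_rpow_rpow_atTop (A + 2) (by norm_num : (0 : ℝ) < 6 / 25)
    have h' := h.bound (by norm_num : (0 : ℝ) < 1)
    filter_upwards [h', Filter.eventually_ge_atTop (1 : ℝ)] with x hx hx1
    rw [one_mul, Real.norm_of_nonneg (Real.rpow_nonneg (Real.log_nonneg hx1) _),
      Real.norm_of_nonneg (Real.rpow_nonneg (by linarith) _)] at hx
    exact hx
  obtain ⟨X1, hX1⟩ := Filter.eventually_atTop.1 hev
  refine ⟨2 * (A + 3), 2 * C3 + 2 * C4, max 3 X1, by positivity, by positivity,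
    le_max_left _ _, ?_⟩
  intro x hx M hM0 χ₀ hMx
  have hx3 : 3 ≤ x := (le_max_left _ _).trans hx
  have hxe := hX1 x ((le_max_right _ _).trans hx)
  set l := Real.log x with hl
  have hx0 : 0 < x := by linarith
  have hl1 : 1 ≤ l := by
    rw [hl, Real.le_log_iff_exp_le (by linarith)]
    have := Real.exp_one_lt_d9
    linarith
  have hl0 : 0 < l := by linarith
  set Q := ⌊x ^ (1 / 40 : ℝ)⌋₊ with hQ
  have hx40 : 1 ≤ x ^ (1 / 40 : ℝ) := Real.one_le_rpow (by linarith) (by norm_num)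
  have hQ1 : 1 ≤ Q := Nat.le_floor (by simpa using hx40)
  have hQx : (Q : ℝ) ≤ x ^ (1 / 40 : ℝ) := Nat.floor_le (by positivity)
  have hQ0 : (0 : ℝ) ≤ Q := Nat.cast_nonneg _
  set U := Q ^ 4 with hU
  have hUx : (U : ℝ) ≤ x ^ (1 / 10 : ℝ) := by
    rw [hU]
    push_cast
    calc (Q : ℝ) ^ 4 ≤ (x ^ (1 / 40 : ℝ)) ^ 4 := pow_le_pow_left₀ hQ0 hQx 4
      _ = x ^ (1 / 10 : ℝ) := by
        rw [← Real.rpow_natCast, ← Real.rpow_mul hx0.le]; norm_num
  have hU0 : (0 : ℝ) ≤ U := Nat.cast_nonneg _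
  have hU1 : 1 ≤ U := Nat.one_le_pow _ _ hQ1
  have hUUx : (U : ℝ) * U ≤ x ^ (1 / 5 : ℝ) := by
    calc (U : ℝ) * U ≤ x ^ (1 / 10 : ℝ) * x ^ (1 / 10 : ℝ) :=
          mul_le_mul hUx hUx hU0 (by positivity)
      _ = x ^ (1 / 5 : ℝ) := by rw [← Real.rpow_add hx0]; norm_num
  have hUU1 : (1 : ℝ) ≤ (U : ℝ) * U := by
    have : (1 : ℝ) ≤ U := by exact_mod_cast hU1
    nlinarith
  have hUle : (U : ℝ) ≤ (U : ℝ) * U := by
    have : (1 : ℝ) ≤ U := by exact_mod_cast hU1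
    nlinarith
  -- Vaughan
  have hV := h1 U U zeC muC LaC h2.inv h2.log
  set b : ArithmeticFunction ℂ := hi U LaC * zeC with hb
  set a : ArithmeticFunction ℂ := hi U muC with ha
  have hT2 := h4' x hx3 Q U U hQ1 le_rfl le_rfl (tw χ₀ a) (tw χ₀ b)
    (by intro n hn; rw [tw_apply, ha, hi_apply, if_pos hn, zero_mul])
    (by
      intro n hn
      rw [tw_apply, hb, h2.hi_mul_zero U n hn, zero_mul])
    (by
      intro n
      refine (norm_tw_le χ₀ a n).trans ?_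
      rw [ha, hi_apply]
      split_ifs
      · simp
      · exact h2.mu_le n)
    (by
      intro n hn
      refine (norm_tw_le χ₀ b n).trans ?_
      refine (h2.hi_mul_le U n).trans ?_
      rcases Nat.eq_zero_or_pos n with h0 | h0
      · subst h0; simp; linarith
      · exact Real.log_le_log (by exact_mod_cast h0) hn)
  -- pointwise estimate
  have hM0' : (0 : ℝ) ≤ M := Nat.cast_nonneg _
  have hpt : ∀ q : ℕ, 1 < q → Nat.Coprime q M → ∀ ψ ∈ prim q, ‖SSt χ₀ g x ψ‖ ≤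
      2 * (C3 * (M * q) * (x ^ (1 / 5 : ℝ)) * l ^ 2 * x ^ (-(1 / 2) : ℝ)) +
        ‖SS (tw χ₀ a * tw χ₀ b : ArithmeticFunction ℂ) g x ψ‖ := by
    intro q hq hqM ψ hψ
    have hq0 : NeZero q := ⟨by omega⟩
    have hMq0 : NeZero (M * q) := ⟨mul_ne_zero (NeZero.ne M) (by omega)⟩
    obtain ⟨χ, hne, hχ⟩ := exists_theta hq hqM χ₀ ψ (ne_one_of_prim hq hψ)
    rw [SSt_eq hχ, ← SS_theta hχ]
    have hq0' : (0 : ℝ) ≤ q := Nat.cast_nonneg _
    have hxh : 0 ≤ x ^ (-(1 / 2) : ℝ) := by positivity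
    have hcast : (((M * q : ℕ) : ℕ) : ℝ) = M * q := by push_cast; ring
    have e1 : ‖SS (lo U muC * D zeC : ArithmeticFunction ℂ) g x χ‖ ≤
        C3 * (M * q) * (x ^ (1 / 5 : ℝ)) * l ^ 2 * x ^ (-(1 / 2) : ℝ) := by
      have h5 := (h3' x hx3 (M * q) χ hne U (lo U muC) 1 (by
        intro m hm
        rw [lo_apply, if_pos hm]
        exact h2.mu_le m) (by
        intro m hm
        rw [lo_apply, if_neg (by omega)])).2
      rw [hcast] at h5
      refine h5.trans ?_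
      apply mul_le_mul_of_nonneg_right _ hxh
      have h6 : (U : ℝ) * 1 * l ≤ x ^ (1 / 5 : ℝ) * l ^ 2 := by
        calc (U : ℝ) * 1 * l ≤ x ^ (1 / 5 : ℝ) * l := by
              rw [mul_one]
              exact mul_le_mul_of_nonneg_right (hUle.trans hUUx) hl0.le
          _ ≤ x ^ (1 / 5 : ℝ) * l ^ 2 := by
              apply mul_le_mul_of_nonneg_left _ (by positivity)
              nlinarith
      calc C3 * (M * q) * U * 1 * l = C3 * (M * q) * (U * 1 * l) := by ring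
        _ ≤ C3 * (M * q) * (x ^ (1 / 5 : ℝ) * l ^ 2) :=
            mul_le_mul_of_nonneg_left h6 (by positivity)
        _ = _ := by ring
    have e2 : ‖SS (lo U muC * lo U LaC * zeC : ArithmeticFunction ℂ) g x χ‖ ≤
        C3 * (M * q) * (x ^ (1 / 5 : ℝ)) * l ^ 2 * x ^ (-(1 / 2) : ℝ) := by
      have h5 := (h3' x hx3 (M * q) χ hne (U * U) (lo U muC * lo U LaC) l (by
        intro m hm
        refine (h2.lo_mul_lo_le U U m).trans ?_
        rcases Nat.eq_zero_or_pos m with h0 | h0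
        · subst h0; simp; linarith
        · apply Real.log_le_log (by exact_mod_cast h0)
          have h6 : (m : ℝ) ≤ (U : ℝ) * U := by exact_mod_cast hm
          refine h6.trans (hUUx.trans ?_)
          calc x ^ (1 / 5 : ℝ) ≤ x ^ (1 : ℝ) :=
                Real.rpow_le_rpow_of_exponent_le (by linarith) (by norm_num)
            _ = x := Real.rpow_one x) (by
        intro m hm
        exact h2.lo_mul_lo_zero U U m hm)).1
      rw [hcast] at h5
      refine h5.trans ?_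
      apply mul_le_mul_of_nonneg_right _ hxh
      push_cast
      calc C3 * (M * q) * (U * U) * l * l = C3 * (M * q) * ((U * U) * l ^ 2) := by ring
        _ ≤ C3 * (M * q) * (x ^ (1 / 5 : ℝ) * l ^ 2) := by
            apply mul_le_mul_of_nonneg_left _ (by positivity)
            exact mul_le_mul_of_nonneg_right hUUx (by positivity)
        _ = _ := by ring
    have e3 : SS LaC g x χ = SS (lo U muC * D zeC : ArithmeticFunction ℂ) g x χ -
        SS (lo U muC * lo U LaC * zeC : ArithmeticFunction ℂ) g x χ +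
        SS (a * b : ArithmeticFunction ℂ) g x χ := by
      conv_lhs => rw [hV]
      rw [SS_add, SS_sub, SS_add, SS_lo hg hx3 hUx, zero_add]
    rw [e3]
    calc _ ≤ ‖SS (lo U muC * D zeC : ArithmeticFunction ℂ) g x χ -
          SS (lo U muC * lo U LaC * zeC : ArithmeticFunction ℂ) g x χ‖ +
          ‖SS (a * b : ArithmeticFunction ℂ) g x χ‖ := norm_add_le _ _
      _ ≤ _ := by
          have := norm_sub_le (SS (lo U muC * D zeC : ArithmeticFunction ℂ) g x χ)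
            (SS (lo U muC * lo U LaC * zeC : ArithmeticFunction ℂ) g x χ)
          linarith
  -- sum over q
  have hlB1 : 1 ≤ l ^ (2 * (A + 3)) := Real.one_le_rpow hl1 (by positivity)
  set R : Finset ℕ := (Ioc ⌊l ^ (2 * (A + 3))⌋₊ Q).filter (fun q => Nat.Coprime q M) with hR
  have hq_facts : ∀ q ∈ R, 1 < q ∧ q ≤ Q ∧
      l ^ (2 * (A + 3)) < q ∧ Nat.Coprime q M := by
    intro q hq
    rw [hR, Finset.mem_filter, Finset.mem_Ioc] at hq
    have h5 : 1 ≤ ⌊l ^ (2 * (A + 3))⌋₊ := Nat.le_floor (by simpa using hlB1)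
    exact ⟨by omega, hq.1.2, Nat.lt_of_floor_lt hq.1.1, hq.2⟩
  have hterm : ∀ q ∈ R,
      (1 / (q.totient : ℝ)) * ∑ ψ ∈ prim q, ‖SSt χ₀ g x ψ‖ ≤
      2 * (C3 * (x ^ (1 / 100 : ℝ) * x ^ (1 / 40 : ℝ)) * (x ^ (1 / 5 : ℝ)) * l ^ 2 *
        x ^ (-(1 / 2) : ℝ)) +
        2 * l ^ (-(A + 3)) *
          ∑ ψ ∈ prim q, ‖SS (tw χ₀ a * tw χ₀ b : ArithmeticFunction ℂ) g x ψ‖ := by
    intro q hq
    obtain ⟨hq1, hqQ, hqB, hqM⟩ := hq_facts q hq
    have hq0 : NeZero q := ⟨by omega⟩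
    have hφ : (0 : ℝ) < q.totient := by exact_mod_cast Nat.totient_pos.2 (by omega : 0 < q)
    set E : ℝ := 2 * (C3 * (M * q) * (x ^ (1 / 5 : ℝ)) * l ^ 2 * x ^ (-(1 / 2) : ℝ)) with hE
    have hE0 : 0 ≤ E := by positivity
    have h5 : ∑ ψ ∈ prim q, ‖SSt χ₀ g x ψ‖ ≤ q.totient * E +
        ∑ ψ ∈ prim q, ‖SS (tw χ₀ a * tw χ₀ b : ArithmeticFunction ℂ) g x ψ‖ := by
      calc ∑ ψ ∈ prim q, ‖SSt χ₀ g x ψ‖
          ≤ ∑ ψ ∈ prim q, (E + ‖SS (tw χ₀ a * tw χ₀ b : ArithmeticFunction ℂ) g x ψ‖) :=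
            Finset.sum_le_sum (fun ψ hψ => hpt q hq1 hqM ψ hψ)
        _ = (prim q).card * E +
            ∑ ψ ∈ prim q, ‖SS (tw χ₀ a * tw χ₀ b : ArithmeticFunction ℂ) g x ψ‖ := by
            rw [Finset.sum_add_distrib]; simp
        _ ≤ _ := by
            have : ((prim q).card : ℝ) ≤ q.totient := by exact_mod_cast card_prim_le q
            have := mul_le_mul_of_nonneg_right this hE0
            linarith
    have hsum0 : 0 ≤ ∑ ψ ∈ prim q, ‖SS (tw χ₀ a * tw χ₀ b : ArithmeticFunction ℂ) g x ψ‖ :=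
      Finset.sum_nonneg (fun _ _ => norm_nonneg _)
    have h6 : 1 / (q.totient : ℝ) ≤ 2 * l ^ (-(A + 3)) := by
      refine (inv_totient_le (by omega : 0 < q)).trans ?_
      have h7 : l ^ (A + 3) ≤ Real.sqrt q := by
        rw [Real.le_sqrt (by positivity) (by positivity), ← Real.rpow_natCast,
          ← Real.rpow_mul hl0.le]
        have : (A + 3) * ((2 : ℕ) : ℝ) = 2 * (A + 3) := by push_cast; ring
        rw [this]
        exact hqB.le
      rw [Real.rpow_neg hl0.le, ← div_eq_mul_inv]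
      exact div_le_div_of_nonneg_left (by norm_num) (by positivity) h7
    calc (1 / (q.totient : ℝ)) * ∑ ψ ∈ prim q, ‖SSt χ₀ g x ψ‖
        ≤ (1 / (q.totient : ℝ)) * (q.totient * E +
          ∑ ψ ∈ prim q, ‖SS (tw χ₀ a * tw χ₀ b : ArithmeticFunction ℂ) g x ψ‖) :=
          mul_le_mul_of_nonneg_left h5 (by positivity)
      _ = E + (1 / (q.totient : ℝ)) *
          ∑ ψ ∈ prim q, ‖SS (tw χ₀ a * tw χ₀ b : ArithmeticFunction ℂ) g x ψ‖ := by
          field_simp
      _ ≤ _ := by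
          apply add_le_add
          · rw [hE]
            have h8 : (q : ℝ) ≤ x ^ (1 / 40 : ℝ) := le_trans (by exact_mod_cast hqQ) hQx
            have h8' : (M : ℝ) * q ≤ x ^ (1 / 100 : ℝ) * x ^ (1 / 40 : ℝ) :=
              mul_le_mul hMx h8 (Nat.cast_nonneg _) (by positivity)
            have h9 : C3 * ((M : ℝ) * q) ≤ C3 * (x ^ (1 / 100 : ℝ) * x ^ (1 / 40 : ℝ)) :=
              mul_le_mul_of_nonneg_left h8' hC3.le
            have h10 : 0 ≤ (x ^ (1 / 5 : ℝ)) * l ^ 2 * x ^ (-(1 / 2) : ℝ) := by positivity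
            have := mul_le_mul_of_nonneg_right h9 h10
            nlinarith
          · exact mul_le_mul_of_nonneg_right h6 hsum0
  have hsub : R ⊆ Icc 1 Q := by
    intro q hq
    obtain ⟨hq1, hqQ, -, -⟩ := hq_facts q hq
    exact Finset.mem_Icc.2 ⟨by omega, hqQ⟩
  set E' : ℝ := 2 * (C3 * (x ^ (1 / 100 : ℝ) * x ^ (1 / 40 : ℝ)) * (x ^ (1 / 5 : ℝ)) * l ^ 2 *
    x ^ (-(1 / 2) : ℝ)) with hE'
  have hE'0 : 0 ≤ E' := by positivity
  clear_value E'
  calc ∑ q ∈ R, (1 / (q.totient : ℝ)) * ∑ ψ ∈ prim q, ‖SSt χ₀ g x ψ‖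
      ≤ ∑ q ∈ R, (E' +
        2 * l ^ (-(A + 3)) *
          ∑ ψ ∈ prim q, ‖SS (tw χ₀ a * tw χ₀ b : ArithmeticFunction ℂ) g x ψ‖) :=
        Finset.sum_le_sum hterm
    _ ≤ ∑ q ∈ Icc 1 Q, (E' +
        2 * l ^ (-(A + 3)) *
          ∑ ψ ∈ prim q, ‖SS (tw χ₀ a * tw χ₀ b : ArithmeticFunction ℂ) g x ψ‖) := by
        refine Finset.sum_le_sum_of_subset_of_nonneg hsub (fun q _ _ => ?_)
        have : 0 ≤ ∑ ψ ∈ prim q, ‖SS (tw χ₀ a * tw χ₀ b : ArithmeticFunction ℂ) g x ψ‖ :=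
          Finset.sum_nonneg (fun _ _ => norm_nonneg _)
        positivity
    _ = Q * E' + 2 * l ^ (-(A + 3)) *
        ∑ q ∈ Icc 1 Q, ∑ ψ ∈ prim q,
          ‖SS (tw χ₀ a * tw χ₀ b : ArithmeticFunction ℂ) g x ψ‖ := by
        rw [Finset.sum_add_distrib, ← Finset.mul_sum, Finset.sum_const, Nat.card_Icc,
          nsmul_eq_mul]
        norm_num
    _ ≤ x ^ (1 / 40 : ℝ) * E' + 2 * l ^ (-(A + 3)) * (C4 * l ^ 3) := by
        apply add_le_add
        · exact mul_le_mul_of_nonneg_right hQx hE'0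
        · exact mul_le_mul_of_nonneg_left hT2 (by positivity)
    _ ≤ 2 * C3 * l ^ (-A) + 2 * C4 * l ^ (-A) := by
        apply add_le_add
        · have h5 : x ^ (1 / 40 : ℝ) * E' = 2 * C3 * (x ^ (-(6 / 25) : ℝ) * l ^ 2) := by
            rw [hE']
            have h6 : x ^ (-(6 / 25) : ℝ) = x ^ (1 / 40 : ℝ) * (x ^ (1 / 100 : ℝ) *
                x ^ (1 / 40 : ℝ)) * x ^ (1 / 5 : ℝ) * x ^ (-(1 / 2) : ℝ) := by
              rw [← Real.rpow_add hx0, ← Real.rpow_add hx0, ← Real.rpow_add hx0,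
                ← Real.rpow_add hx0]
              norm_num
            rw [h6]; ring
          rw [h5]
          apply mul_le_mul_of_nonneg_left _ (by positivity)
          rw [Real.rpow_neg hx0.le, Real.rpow_neg hl0.le]
          have h7 : 0 < x ^ (6 / 25 : ℝ) := by positivity
          have h8 : 0 < l ^ A := by positivity
          rw [inv_mul_le_iff₀ h7, ← div_eq_mul_inv, le_div_iff₀ h8]
          calc l ^ 2 * l ^ A = l ^ (A + 2) := by
                rw [Real.rpow_add hl0, mul_comm]; norm_num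
            _ ≤ _ := hxe
        · have h5 : l ^ (-(A + 3)) * l ^ 3 = l ^ (-A) := by
            rw [← Real.rpow_natCast l 3, ← Real.rpow_add hl0]
            congr 1; push_cast; ring
          have h6 : 2 * l ^ (-(A + 3)) * (C4 * l ^ 3) = 2 * C4 * (l ^ (-(A + 3)) * l ^ 3) := by ring
          rw [h6, h5]
    _ = (2 * C3 + 2 * C4) / l ^ A := by
        rw [Real.rpow_neg hl0.le]; ring

end Pool.Agent.Helper34.CA
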