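import Pool.Agent.Helper34.CA.St

/-!
# Project CA: general order functions
-/

set_option autoImplicit false

open Finset Filter Topology

namespace Pool.Agent.Helper34.CA

/-- `n` is composite and squarefree, all its prime factors `p` are `> y` and satisfy
`f p ∣ n - 1`. -/
def IsG (f : ℕ → ℕ) (y : ℝ) (n : ℕ) : Prop :=
  1 < n ∧ ¬ n.Prime ∧ Squarefree n ∧ ∀ p : ℕ, p.Prime → p ∣ n → f p ∣ n - 1 ∧ y < (p : ℝ)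

/-- The products are numbers `n` with `f p ∣ n - 1` for all primes `p ∣ n`. -/
def CountG : Prop :=
  ∀ (f : ℕ → ℕ), (∀ p : ℕ, p.Prime → f p ∣ p - 1) →
  ∀ (x y w : ℝ) (M J X : ℕ) (A : Fin J → Finset ℕ) (r : Fin J → ℕ) (a : ℕ)
    (T : Finset (Fin 4 → ℕ)) (c : (Fin 4 → ℕ) → ℕ), 3 ≤ x → 1 ≤ y → y < w →
    y ≤ x ^ (1 / 2 : ℝ) → 0 < M →
    (∀ i, ∀ n ∈ A i, 1 ≤ n ∧ n ≤ X ∧ Squarefree n ∧ n ≡ r i [MOD M] ∧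
      ∀ p : ℕ, p.Prime → p ∣ n → f p ∣ M ∧ y < (p : ℝ) ∧ (p : ℝ) ≤ x ^ (1 / 2 : ℝ)) →
    (∀ i j, i ≠ j → ∀ n ∈ A i, ∀ n' ∈ A j, Nat.Coprime n n') →
    (∏ i, r i) * a ≡ 1 [MOD M] →
    (∀ t ∈ T, (∀ i, NiceP x y w M (t i)) ∧ ∏ i, t i ≡ a [MOD M] ∧ Adm w t ∧
      c t * ∏ i, t i ≡ 1 [MOD DD w t]) →
    ∀ S : Finset ℕ, (∀ n, n ∈ S ↔ IsG f y n ∧ (n : ℝ) ≤ (X : ℝ) ^ J * x ^ 4) →
    ((∑ t ∈ T, ((Fintype.piFinset A).filter (fun v => ∏ i, v i ≡ c t [MOD DD w t])).card : ℕ) : ℝ)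
      ≤ 24 * S.card

end Pool.Agent.Helper34.CA
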