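import Pool.Agent.Helper34.CA.St

/-!
# Project CA (MP_87fff7_nt), module Kors

F2. `Kors` (Korselt). For `b` coprime to `n` and every prime `p ∣ n`: `b^{p-1} ≡ 1 mod p`, so
`b^{n-1} ≡ 1 mod p`; `n` squarefree, so the congruence holds mod `n = ∏ p`.
-/

set_option autoImplicit false

open Finset Filter Topology
open scoped ArithmeticFunction.vonMangoldt

namespace Pool.Agent.Helper34.CA

open Pool.Agent.Helper18.BV

theorem kors : Kors := by
  intro n hn hnp hsq hp
  refine ⟨hn, hnp, ?_⟩
  intro b hb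
  have hb0 : b ≠ 0 := by
    rintro rfl
    rw [Nat.coprime_zero_left] at hb
    omega
  have hb1 : 1 ≤ b ^ (n - 1) := Nat.one_le_pow _ _ (Nat.pos_of_ne_zero hb0)
  refine Nat.ModEq.symm ((Nat.modEq_iff_dvd' hb1).2 ?_)
  have hprod : ∏ p ∈ n.primeFactors, p = n := Nat.prod_primeFactors_of_squarefree hsq
  have key : ∏ p ∈ n.primeFactors, p ∣ b ^ (n - 1) - 1 := by
    refine Finset.prod_primes_dvd _ ?_ ?_
    · intro p hpn
      exact (Nat.prime_of_mem_primeFactors hpn).prime
    · intro p hpn
      have hpp : p.Prime := Nat.prime_of_mem_primeFactors hpn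
      have hpd : p ∣ n := Nat.dvd_of_mem_primeFactors hpn
      obtain ⟨k, hk⟩ := hp p hpp hpd
      have hcop : Nat.Coprime b p := Nat.Coprime.coprime_dvd_right hpd hb
      have h1 : b ^ (p - 1) ≡ 1 [MOD p] := by
        have := Nat.ModEq.pow_totient hcop
        rwa [Nat.totient_prime hpp] at this
      have h2 : b ^ (n - 1) ≡ 1 [MOD p] := by
        rw [hk, pow_mul]
        have := h1.pow k
        rwa [one_pow] at this
      exact (Nat.modEq_iff_dvd' hb1).1 h2.symm
  rwa [hprod] at key

end Pool.Agent.Helper34.CA
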