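import Pool.Agent.Helper18.BV.St

/-!
# Project CA (MP_87fff7_nt): statements of the modules

Target: if a positive proportion (or `z ^ (1 - o(1))`) of the primes `p ≤ z` have `z ^ θ`-smooth
`p - 1`, `θ < 1/2`, then the number of Carmichael numbers up to `N` is at least `N ^ (1 - θ - ε)`;
with `θ = 0.4095` this gives `N ^ 0.59`.
Every module proves one of the propositions below, taking other propositions as hypotheses.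
-/

set_option autoImplicit false

open Finset Filter Topology
open scoped ArithmeticFunction.vonMangoldt

namespace Pool.Agent.Helper34.CA

open Pool.Agent.Helper18.BV

/-- Admissible weights supported inside `(σ, 1)`. -/
structure IsWtS (σ : ℝ) (g : ℝ → ℝ) : Prop where
  smooth : ContDiff ℝ (⊤ : ℕ∞) g
  supp : tsupport g ⊆ Set.Ioo σ 1
  nonneg : ∀ v, 0 ≤ g v

theorem IsWtS.isWt {σ : ℝ} {g : ℝ → ℝ} (h : IsWtS σ g) (hσ : 1 / 2 ≤ σ) : IsWt g :=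
  ⟨h.smooth, h.supp.trans (Set.Ioo_subset_Ioo_left hσ), h.nonneg⟩

/-! ### Part A: zeros of `L(s, χ)` near `s = 1` -/

/-- `-Re (L'/L)(s, χ)` -/
noncomputable def LD {q : ℕ} [NeZero q] (χ : DirichletCharacter ℂ q) (s : ℂ) : ℝ :=
  -(deriv (DirichletCharacter.LFunction χ) s / DirichletCharacter.LFunction χ s).re

/-- `-Re (ζ'/ζ)(s)` -/
noncomputable def ZD (s : ℂ) : ℝ := -(deriv riemannZeta s / riemannZeta s).re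

/-- A1: the local lemma (from `Pool.Agent.Helper33.KSZ.landau`). -/
def LDer : Prop :=
  ∃ C : ℝ, 0 < C ∧ ∀ (q : ℕ) [NeZero q] (χ : DirichletCharacter ℂ q), χ ≠ 1 →
    ∀ (δ γ : ℝ), 0 < δ → δ ≤ 1 / 8 → |γ| ≤ 1 / 8 → ∀ Z : Finset ℂ,
    (∀ ρ ∈ Z, DirichletCharacter.LFunction χ ρ = 0 ∧ ‖ρ - 1‖ ≤ 1 / 16) →
    LD χ (1 + δ + γ * Complex.I) ≤
      C * Real.log (q / δ) - ∑ ρ ∈ Z, (1 / (1 + (δ : ℂ) + γ * Complex.I - ρ)).re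

/-- A2: nonnegative combinations. -/
structure Combos : Prop where
  zeta : ∃ C : ℝ, 0 < C ∧ ∀ δ : ℝ, 0 < δ → δ ≤ 1 → ZD (1 + δ) ≤ 1 / δ + C
  c341 : ∀ (q : ℕ) [NeZero q] (χ : DirichletCharacter ℂ q) (δ γ : ℝ), 0 < δ →
    0 ≤ 3 * ZD (1 + δ) + 4 * LD χ (1 + δ + γ * Complex.I) +
      LD (χ ^ 2) (1 + δ + (2 * γ : ℝ) * Complex.I)
  one : ∀ (q : ℕ) [NeZero q] (χ : DirichletCharacter ℂ q) (δ : ℝ), 0 < δ → χ ^ 2 = 1 →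
    0 ≤ ZD (1 + δ) + LD χ (1 + δ)
  two : ∀ (q₁ q₂ q₃ : ℕ) [NeZero q₁] [NeZero q₂] [NeZero q₃] (χ₁ : DirichletCharacter ℂ q₁)
    (χ₂ : DirichletCharacter ℂ q₂) (χ₃ : DirichletCharacter ℂ q₃) (δ : ℝ), 0 < δ →
    χ₁ ^ 2 = 1 → χ₂ ^ 2 = 1 →
    (∀ n : ℕ, χ₃ (n : ZMod q₃) = χ₁ (n : ZMod q₁) * χ₂ (n : ZMod q₂)) →
    0 ≤ ZD (1 + δ) + LD χ₁ (1 + δ) + LD χ₂ (1 + δ) + LD χ₃ (1 + δ)

/-- A3: zeros very close to `1` come from one real character (Landau-Page). -/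
def Page : Prop :=
  ∃ c : ℝ, 0 < c ∧ ∀ R : ℝ, 3 ≤ R → ∀ (q₁ q₂ : ℕ) [NeZero q₁] [NeZero q₂]
    (χ₁ : DirichletCharacter ℂ q₁) (χ₂ : DirichletCharacter ℂ q₂),
    (q₁ : ℝ) ≤ R → (q₂ : ℝ) ≤ R → χ₁ ≠ 1 → χ₂ ≠ 1 →
    (∃ s : ℂ, ‖s - 1‖ ≤ c / Real.log R ∧ DirichletCharacter.LFunction χ₁ s = 0) →
    (∃ s : ℂ, ‖s - 1‖ ≤ c / Real.log R ∧ DirichletCharacter.LFunction χ₂ s = 0) →
    χ₁ ^ 2 = 1 ∧ ∀ n : ℕ, Nat.Coprime n (q₁ * q₂) → χ₁ (n : ZMod q₁) = χ₂ (n : ZMod q₂)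

/-- A4: derivatives of `L'/L` in a zero-free disc. -/
def NearP : Prop :=
  ∀ k : ℕ, ∃ C : ℝ, 0 < C ∧ ∀ (q : ℕ) [NeZero q] (χ : DirichletCharacter ℂ q), χ ≠ 1 →
    ∀ r : ℝ, 0 < r → r ≤ 1 / 4 →
    (∀ s : ℂ, ‖s - 1‖ ≤ r → DirichletCharacter.LFunction χ s ≠ 0) →
    ∀ s : ℂ, ‖s - 1‖ ≤ r / 8 →
    ‖iteratedDeriv k (fun z => deriv (DirichletCharacter.LFunction χ) z /
        DirichletCharacter.LFunction χ z) s‖ ≤ C * Real.log (q / r) / r ^ (k + 1)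

/-- A5: prime number theorem for characters of modulus up to `exp ((log x) ^ κ)`. -/
def SmallP : Prop :=
  ∀ κ c : ℝ, 0 < κ → κ < 1 → 0 < c → ∀ g : ℝ → ℝ, IsWt g → ∀ A : ℝ, 0 < A →
    ∃ C X0 : ℝ, 0 < C ∧ 3 ≤ X0 ∧ ∀ x : ℝ, X0 ≤ x →
      ∀ (q : ℕ) [NeZero q] (χ : DirichletCharacter ℂ q), χ ≠ 1 →
      (q : ℝ) ≤ Real.exp (Real.log x ^ κ) →
      (∀ s : ℂ, ‖s - 1‖ ≤ c / Real.log x ^ κ → DirichletCharacter.LFunction χ s ≠ 0) →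
      ‖SS LaC g x χ‖ ≤ C / Real.log x ^ A

/-- The weighted sum over the von Mangoldt function, twisted by a fixed character `χ₀`. -/
noncomputable def SSt {M : ℕ} (χ₀ : DirichletCharacter ℂ M) (g : ℝ → ℝ) (x : ℝ) {q : ℕ}
    (ψ : DirichletCharacter ℂ q) : ℂ :=
  ∑ n ∈ Icc 1 ⌊x⌋₊, LaC n * χ₀ (n : ZMod M) * ψ (n : ZMod q) * (wt g x n : ℂ)

/-- A6: the twisted sums for small moduli `f`, with at most one exceptional `ξ` modulo `M`. -/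
def Exc : Prop :=
  ∀ κ : ℝ, 0 < κ → κ < 1 → ∀ g : ℝ → ℝ, IsWt g → ∀ A : ℝ, 0 < A →
    ∃ C X0 : ℝ, 0 < C ∧ 3 ≤ X0 ∧ ∀ x : ℝ, X0 ≤ x → ∀ (M : ℕ) [NeZero M],
      ∃ ξ : DirichletCharacter ℂ M, ξ ^ 2 = 1 ∧
      ∀ χ₀ : DirichletCharacter ℂ M, χ₀ ≠ 1 → χ₀ ≠ ξ →
        ∀ f : ℕ, 1 ≤ f → Nat.Coprime f M → ((M * f : ℕ) : ℝ) ≤ Real.exp (Real.log x ^ κ) →
        ∀ ψ ∈ prim f, ‖SSt χ₀ g x ψ‖ ≤ C / Real.log x ^ A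

/-! ### Part B: the large sieve and the Bombieri-Vinogradov theorem -/

/-- B1: the multiplicative large sieve. -/
def MLS : Prop :=
  ∃ C : ℝ, 0 < C ∧ ∀ (Q N0 N : ℕ), 1 ≤ Q → 1 ≤ N → ∀ a : ℕ → ℂ,
    ∑ q ∈ Icc 1 Q, ((q : ℝ) / q.totient) *
      ∑ χ ∈ prim q, ‖∑ n ∈ Ioc N0 (N0 + N), a n * χ (n : ZMod q)‖ ^ 2 ≤
      C * (N + (Q : ℝ) ^ 2) * ∑ n ∈ Ioc N0 (N0 + N), ‖a n‖ ^ 2

/-- B2: Type I sums, weights supported in `(σ, 1)`. -/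
def TypeOneS : Prop :=
  ∀ σ : ℝ, 1 / 2 ≤ σ → σ < 1 → ∀ g : ℝ → ℝ, IsWtS σ g → ∃ C : ℝ, 0 < C ∧ ∀ x : ℝ, 3 ≤ x →
    ∀ (q : ℕ) [NeZero q] (χ : DirichletCharacter ℂ q), χ ≠ 1 →
    ∀ (M : ℕ) (c : ArithmeticFunction ℂ) (Kc : ℝ), (∀ m ≤ M, ‖c m‖ ≤ Kc) →
      (∀ m, M < m → c m = 0) →
      ‖SS (c * zeC : ArithmeticFunction ℂ) g x χ‖ ≤
        C * q * M * Kc * Real.log x * x ^ (-σ) ∧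
      ‖SS (c * D zeC : ArithmeticFunction ℂ) g x χ‖ ≤
        C * q * M * Kc * Real.log x * x ^ (-σ)

/-- B3: Type II sums on average over the primitive characters of moduli in `(Q, 2Q]`. -/
def TypeTwoS : Prop :=
  ∀ σ : ℝ, 1 / 2 ≤ σ → σ < 1 → ∀ g : ℝ → ℝ, IsWtS σ g → ∃ C : ℝ, 0 < C ∧ ∀ x : ℝ, 3 ≤ x →
    ∀ Q U V : ℕ, 1 ≤ Q → 1 ≤ U → 1 ≤ V →
    ∀ a b : ArithmeticFunction ℂ, (∀ n ≤ U, a n = 0) → (∀ n ≤ V, b n = 0) →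
      (∀ n, ‖a n‖ ≤ 1) → (∀ n : ℕ, (n : ℝ) ≤ x → ‖b n‖ ≤ Real.log x) →
      ∑ q ∈ Ioc Q (2 * Q), (1 / (q.totient : ℝ)) *
        ∑ χ ∈ prim q, ‖SS (a * b : ArithmeticFunction ℂ) g x χ‖ ≤
        C * Real.log x ^ 4 * (1 / (Q : ℝ) + 1 / Real.sqrt U + 1 / Real.sqrt V +
          Q * x ^ (-σ / 2))

/-- B4: primitive characters of conductor up to `x ^ (1/2 - ε)` on average. -/
def LargeS : Prop :=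
  ∀ ε : ℝ, 0 < ε → ε ≤ 1 / 4 → ∀ g : ℝ → ℝ, IsWtS (1 - ε) g → ∀ A : ℝ, 0 < A →
    ∃ B C X0 : ℝ, 0 < B ∧ 0 < C ∧ 3 ≤ X0 ∧ ∀ x : ℝ, X0 ≤ x →
      ∑ q ∈ Ioc ⌊Real.log x ^ B⌋₊ ⌊x ^ (1 / 2 - ε)⌋₊,
        (1 / (q.totient : ℝ)) * ∑ χ ∈ prim q, ‖SS LaC g x χ‖ ≤ C / Real.log x ^ A

/-- B5: Bombieri-Vinogradov up to `x ^ (1/2 - ε)`. -/
def BVs : Prop :=
  ∀ ε : ℝ, 0 < ε → ε ≤ 1 / 4 → ∀ g : ℝ → ℝ, IsWtS (1 - ε) g → ∀ A : ℝ, 0 < A →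
    ∃ C X0 : ℝ, 0 < C ∧ 3 ≤ X0 ∧ ∀ x : ℝ, X0 ≤ x → ∀ c : ℕ → ℕ, (∀ d, Nat.Coprime (c d) d) →
      ∑ d ∈ Icc 1 ⌊x ^ (1 / 2 - ε)⌋₊,
        |∑ n ∈ (Icc 1 ⌊x⌋₊).filter (fun n => n ≡ c d [MOD d]), Λ n * wt g x n -
          (1 / (d.totient : ℝ)) * ∑ n ∈ Icc 1 ⌊x⌋₊, Λ n * wt g x n| ≤ C / Real.log x ^ A

/-- B6: large conductors on average, twisted by a fixed character. -/
def TwLarge : Prop :=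
  ∀ g : ℝ → ℝ, IsWt g → ∀ A : ℝ, 0 < A → ∃ B C X0 : ℝ, 0 < B ∧ 0 < C ∧ 3 ≤ X0 ∧
    ∀ x : ℝ, X0 ≤ x → ∀ (M : ℕ) [NeZero M] (χ₀ : DirichletCharacter ℂ M),
      (M : ℝ) ≤ x ^ (1 / 100 : ℝ) →
      ∑ q ∈ (Ioc ⌊Real.log x ^ B⌋₊ ⌊x ^ (1 / 40 : ℝ)⌋₊).filter (fun q => Nat.Coprime q M),
        (1 / (q.totient : ℝ)) * ∑ ψ ∈ prim q, ‖SSt χ₀ g x ψ‖ ≤ C / Real.log x ^ A

/-- B7: twisted sums over residue classes on average. -/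
def TwAv : Prop :=
  ∀ g : ℝ → ℝ, IsWt g → ∀ A : ℝ, 0 < A → ∃ B C X0 : ℝ, 0 < B ∧ 0 < C ∧ 3 ≤ X0 ∧
    ∀ x : ℝ, X0 ≤ x → ∀ (M : ℕ) [NeZero M] (χ₀ : DirichletCharacter ℂ M),
      (M : ℝ) ≤ x ^ (1 / 100 : ℝ) →
      ∀ S : Finset ℕ, (∀ d ∈ S, 1 ≤ d ∧ (d : ℝ) ≤ x ^ (1 / 40 : ℝ) ∧ Nat.Coprime d M) →
      ∀ η : ℝ, 0 ≤ η → (∀ d ∈ S, ∀ f : ℕ, f ∣ d → (f : ℝ) ≤ Real.log x ^ B →
        ∀ ψ ∈ prim f, ‖SSt χ₀ g x ψ‖ ≤ η) →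
      ∀ c : ℕ → ℕ, (∀ d ∈ S, Nat.Coprime (c d) d) →
      ∑ d ∈ S, ‖∑ n ∈ (Icc 1 ⌊x⌋₊).filter (fun n => n ≡ c d [MOD d]),
        LaC n * χ₀ (n : ZMod M) * (wt g x n : ℂ)‖ ≤
        C / Real.log x ^ A + C * η * Real.log x ^ (B + 3)

/-! ### Part C: nice primes -/

/-- primes `ℓ ≤ x` such that `ℓ - 1` has no prime factor in `(y, w]` -/
noncomputable def nz (x y w : ℝ) : Finset ℕ := by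
  classical
  exact (Icc 1 ⌊x⌋₊).filter (fun ℓ => ℓ.Prime ∧ ∀ q : ℕ, q.Prime → q ∣ ℓ - 1 →
    (q : ℝ) ≤ y ∨ w < q)

/-- C1: Brun's pure sieve. -/
def BrunPure : Prop :=
  ∀ (P : Finset ℕ), (∀ p ∈ P, p.Prime) → ∀ (m r : ℕ), 1 ≤ m →
    |(if ∀ p ∈ P, ¬ p ∣ m then (1 : ℝ) else 0) -
      ∑ T ∈ P.powerset.filter (fun T => T.card ≤ r ∧ (∏ p ∈ T, p) ∣ m), (-1 : ℝ) ^ T.card| ≤
      (((P.powerset.filter (fun T => T.card = r + 1 ∧ (∏ p ∈ T, p) ∣ m)).card : ℕ) : ℝ)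

/-- C2a: the sieve expansion for nice primes (Brun's pure sieve, Mertens). -/
def NiceApprox : Prop :=
  ∀ κ κ₂ : ℝ, 0 < κ → κ < κ₂ → κ₂ < 1 → ∀ g : ℝ → ℝ, IsWt g → ∃ C0 : ℝ, 0 < C0 ∧
    ∀ A : ℝ, 0 < A → ∃ X0 : ℝ, 3 ≤ X0 ∧ ∀ x : ℝ, X0 ≤ x → ∃ 𝒯 : Finset (Finset ℕ),
      (∀ T ∈ 𝒯, (∀ p ∈ T, p.Prime ∧ Real.log x ^ κ < p ∧
        (p : ℝ) ≤ Real.exp (Real.log x ^ κ₂)) ∧ ((∏ p ∈ T, p : ℕ) : ℝ) ≤ x ^ (1 / 80 : ℝ)) ∧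
      Real.log x ^ (-C0) ≤ ∑ T ∈ 𝒯, (-1 : ℝ) ^ T.card / ((∏ p ∈ T, p : ℕ).totient : ℝ) ∧
      ∀ b : ℕ → ℂ, (∀ n, ‖b n‖ ≤ 1) →
        ‖∑ ℓ ∈ nz x (Real.log x ^ κ) (Real.exp (Real.log x ^ κ₂)),
            (Real.log ℓ : ℂ) * b ℓ * (wt g x ℓ : ℂ) -
          ∑ T ∈ 𝒯, (-1 : ℂ) ^ T.card *
            ∑ n ∈ (Icc 1 ⌊x⌋₊).filter (fun n => n ≡ 1 [MOD ∏ p ∈ T, p]),
              LaC n * b n * (wt g x n : ℂ)‖ ≤ 1 / Real.log x ^ A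

/-- C2: the character sums over nice primes. -/
def NiceHat : Prop :=
  ∀ κ κ₁ κ₂ : ℝ, 0 < κ → κ < κ₁ → κ₁ < κ₂ → κ₂ < 1 → ∀ g : ℝ → ℝ, IsWt g →
    ∀ A : ℝ, 0 < A → ∃ X0 : ℝ, 3 ≤ X0 ∧ ∀ x : ℝ, X0 ≤ x →
      ∀ (M : ℕ) [NeZero M], (M : ℝ) ≤ Real.exp (Real.log x ^ κ₁) →
        (∀ q : ℕ, q.Prime → q ∣ M → (q : ℝ) ≤ Real.log x ^ κ) →
        ∃ ξ : DirichletCharacter ℂ M, ξ ^ 2 = 1 ∧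
        ∀ χ : DirichletCharacter ℂ M, χ ≠ 1 → χ ≠ ξ →
          ‖∑ ℓ ∈ nz x (Real.log x ^ κ) (Real.exp (Real.log x ^ κ₂)),
            (Real.log ℓ : ℂ) * χ (ℓ : ZMod M) * (wt g x ℓ : ℂ)‖ ≤ 1 / Real.log x ^ A

/-- C3: the mass of the nice primes. -/
def NiceMass : Prop :=
  ∀ κ κ₂ : ℝ, 0 < κ → κ < κ₂ → κ₂ < 1 → ∀ g : ℝ → ℝ, IsWt g → (∃ v, g v ≠ 0) →
    ∃ C X0 : ℝ, 0 < C ∧ 3 ≤ X0 ∧ ∀ x : ℝ, X0 ≤ x →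
      Real.log x ^ (-C) ≤ ∑ ℓ ∈ nz x (Real.log x ^ κ) (Real.exp (Real.log x ^ κ₂)),
        Real.log ℓ * wt g x ℓ

/-- nice primes: `ℓ ∈ (√x, x]` is prime, every prime factor of `ℓ - 1` is `≤ y` or `> w`, and
the powers of primes `≤ y` dividing `ℓ - 1` divide `M` -/
def NiceP (x y w : ℝ) (M ℓ : ℕ) : Prop :=
  ℓ.Prime ∧ x ^ (1 / 2 : ℝ) < ℓ ∧ (ℓ : ℝ) ≤ x ∧
    (∀ q : ℕ, q.Prime → q ∣ ℓ - 1 → (q : ℝ) ≤ y ∨ w < q) ∧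
    ∀ q j : ℕ, q.Prime → (q : ℝ) ≤ y → q ^ j ∣ ℓ - 1 → q ^ j ∣ M

/-- C4a: fourfold convolutions on `(ZMod M)ˣ` with one exceptional real character. -/
def Conv4 : Prop :=
  ∀ (M : ℕ) [NeZero M] (f : ZMod M → ℝ) (ξ : DirichletCharacter ℂ M) (a : ZMod M) (η B : ℝ),
    (∀ u, 0 ≤ f u ∧ f u ≤ B) → (∀ u, ¬ IsUnit u → f u = 0) → ξ ^ 2 = 1 → ξ a = 1 → 0 ≤ η →
    (∀ χ : DirichletCharacter ℂ M, χ ≠ 1 → χ ≠ ξ → ‖∑ u, (f u : ℂ) * χ u‖ ≤ η) →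
    (∑ u, f u) ^ 4 - η ^ 2 * M.totient * B * ∑ u, f u ≤
      M.totient * ∑ v ∈ (univ : Finset (Fin 4 → ZMod M)).filter (fun v => ∏ i, v i = a),
        ∏ i, f (v i)

/-- C4: products of four nice primes in the residue classes `a` modulo `M` with `ξ(a) = 1`. -/
def QuadLB : Prop :=
  ∀ κ κ₁ κ₂ : ℝ, 0 < κ → κ < κ₁ → κ₁ < κ₂ → κ₂ < 1 →
    ∃ (b0 : ℕ) (X0 : ℝ), 3 ≤ X0 ∧ ∀ x : ℝ, X0 ≤ x →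
      ∀ M : ℕ, 0 < M → (M : ℝ) ≤ Real.exp (Real.log x ^ κ₁) →
        (∀ q : ℕ, q.Prime → q ∣ M → (q : ℝ) ≤ Real.log x ^ κ) →
        (∀ q : ℕ, q.Prime → (q : ℝ) ≤ Real.log x ^ κ →
          Real.log x ^ b0 ≤ (q : ℝ) ^ (M.factorization q + 1)) →
        ∃ ξ : DirichletCharacter ℂ M, ξ ^ 2 = 1 ∧
        ∀ a : ℕ, ξ (a : ZMod M) = 1 → ∀ T : Finset (Fin 4 → ℕ),
          (∀ t, t ∈ T ↔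
            (∀ i, NiceP x (Real.log x ^ κ) (Real.exp (Real.log x ^ κ₂)) M (t i)) ∧
            ∏ i, t i ≡ a [MOD M]) →
          Real.exp (-(2 * Real.log x ^ κ₁)) ≤ ∑ t ∈ T, ∏ i, (1 / (t i : ℝ))

/-! ### Part D: smooth shifted primes -/

/-- `z ^ (1 - o(1))` primes `p ≤ z` have `z ^ θ`-smooth `p - 1` -/
def Smooth (θ : ℝ) : Prop :=
  ∀ η : ℝ, 0 < η → ∃ z0 : ℝ, ∀ z : ℝ, z0 ≤ z → ∀ P : Finset ℕ,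
    (∀ p, p ∈ P ↔ (p.Prime ∧ (p : ℝ) ≤ z ∧ ∀ q : ℕ, q.Prime → q ∣ p - 1 → (q : ℝ) ≤ z ^ θ)) →
    z ^ (1 - η) ≤ (P.card : ℝ)

/-- D1: Selberg's upper bound for primes `p ≡ 1 mod n` in an interval (constant `2`). -/
def BT : Prop :=
  ∀ ε : ℝ, 0 < ε → ∃ X0 : ℝ, 3 ≤ X0 ∧ ∀ (n : ℕ) (t h : ℝ), 1 ≤ n → 0 ≤ t → X0 * n ≤ h →
    ((((Ioc ⌊t⌋₊ ⌊t + h⌋₊).filter (fun p => p.Prime ∧ p ≡ 1 [MOD n])).card : ℕ) : ℝ) ≤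
      (2 + ε) * h / (n.totient * Real.log (h / n))

/-- D2: the same with logarithmic weights. -/
def BTw : Prop :=
  ∃ K : ℝ, 0 < K ∧ ∀ ε : ℝ, 0 < ε → ε ≤ 1 / 100 → ∃ z0 : ℝ, 3 ≤ z0 ∧ ∀ z : ℝ, z0 ≤ z →
    ∀ (n : ℕ) (a b : ℝ), 1 ≤ n → (n : ℝ) ≤ z ^ (1 / 2 + 2 * ε) → z ^ (1 - ε) ≤ a → a ≤ b →
      b ≤ z →
      ∑ p ∈ (Ioc ⌊a⌋₊ ⌊b⌋₊).filter (fun p => p.Prime ∧ p ≡ 1 [MOD n]), Real.log p / p ≤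
        (4 + K * ε) * (Real.log (b / a) + 1) / n.totient

/-- the constant `ζ(2)ζ(3)/ζ(6)` -/
noncomputable def kap : ℝ :=
  ∑' d : ℕ, if Squarefree d then (1 : ℝ) / (d * d.totient) else 0

/-- D3: sums of `1 / φ(n)`. -/
structure PhiSums : Prop where
  pos : 1 ≤ kap
  upper : ∃ C : ℝ, 0 < C ∧ ∀ a b : ℝ, 0 < a → a ≤ b →
    ∑ n ∈ Ioc ⌊a⌋₊ ⌊b⌋₊, (1 : ℝ) / n.totient ≤ kap * Real.log (b / a) + C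
  lower : ∃ C : ℝ, 0 < C ∧ ∀ a b : ℝ, 1 ≤ a → a ≤ b →
    kap * Real.log (b / a) - C * (1 + Real.log b / Real.sqrt a) ≤
      ∑ n ∈ Ioc ⌊a⌋₊ ⌊b⌋₊, (1 : ℝ) / n.totient
  big : ∃ C : ℝ, 0 < C ∧ ∀ (a b P₁ P₂ : ℝ), 0 < a → a ≤ b → 2 ≤ P₁ → P₁ ≤ P₂ →
    ∀ S : Finset ℕ,
      (∀ n ∈ S, a < n ∧ (n : ℝ) ≤ b ∧ ∃ q : ℕ, q.Prime ∧ P₁ < q ∧ (q : ℝ) ≤ P₂ ∧ q ∣ n) →
      ∑ n ∈ S, (1 : ℝ) / n.totient ≤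
        (Real.log (Real.log P₂ / Real.log P₁) + C / Real.log P₁) *
          (kap * Real.log (b / a) + C)

/-- D4: weights close to the indicator function of `(1 - ε, 1)`. -/
def GoodWt : Prop :=
  ∀ ε ρ : ℝ, 0 < ε → ε ≤ 1 / 4 → 0 < ρ → ρ < 1 → ∃ g : ℝ → ℝ, IsWtS (1 - ε) g ∧
    (∀ v, g v ≤ 1) ∧ ∃ X0 : ℝ, 3 ≤ X0 ∧ ∀ x : ℝ, X0 ≤ x →
      (1 - ρ) * ε * Real.log x ≤ ∑ n ∈ Icc 1 ⌊x⌋₊, Λ n * wt g x n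

/-- D5a: pairs `(m, p)`, `m ∣ p - 1`, with `m` smooth (`θ = 0.4095`). -/
def PairA : Prop :=
  ∀ ρ : ℝ, 0 < ρ → ∃ ε₀ : ℝ, 0 < ε₀ ∧ ∀ ε : ℝ, 0 < ε → ε ≤ ε₀ → ∀ ε' : ℝ, 0 < ε' →
    ε' ≤ ε ^ 2 → ∀ g : ℝ → ℝ, IsWtS (1 - ε') g → (∀ v, g v ≤ 1) → ∃ z0 : ℝ, 3 ≤ z0 ∧
    ∀ z : ℝ, z0 ≤ z → ∀ S : Finset ℕ,
      (∀ m, m ∈ S ↔ (z ^ (1 / 2 - 2 * ε) < m ∧ (m : ℝ) ≤ z ^ (1 / 2 - ε) ∧
        ∀ q : ℕ, q.Prime → q ∣ m → (q : ℝ) ≤ z ^ (4095 / 10000 : ℝ))) →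
      (1 - Real.log (5000 / 4095) - ρ) * kap * ε * Real.log z *
        (∑ n ∈ Icc 1 ⌊z⌋₊, Λ n * wt g z n) - 1 ≤
        ∑ m ∈ S, ∑ n ∈ (Icc 1 ⌊z⌋₊).filter (fun n => n ≡ 1 [MOD m]), Λ n * wt g z n

/-- D5b: pairs `(m, p)`, `m ∣ p - 1`, with `(p - 1) / m` not smooth (`θ = 0.4095`). -/
def PairB : Prop :=
  ∀ ρ : ℝ, 0 < ρ → ∃ ε₀ : ℝ, 0 < ε₀ ∧ ∀ ε : ℝ, 0 < ε → ε ≤ ε₀ → ∀ ε' : ℝ, 0 < ε' →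
    ε' ≤ ε ^ 2 → ∀ g : ℝ → ℝ, IsWtS (1 - ε') g → (∀ v, g v ≤ 1) → ∃ z0 : ℝ, 3 ≤ z0 ∧
    ∀ z : ℝ, z0 ≤ z → ∀ S : Finset (ℕ × ℕ),
      (∀ s ∈ S, s.2.Prime ∧ (s.2 : ℝ) ≤ z ∧ z ^ (1 / 2 - 2 * ε) < s.1 ∧
        (s.1 : ℝ) ≤ z ^ (1 / 2 - ε) ∧ ∃ q : ℕ, q.Prime ∧ z ^ (4095 / 10000 : ℝ) < q ∧
          q * s.1 ∣ s.2 - 1) →
      ∑ s ∈ S, Real.log s.2 * wt g z s.2 ≤
        (4 * Real.log (5000 / 4095) + ρ) * kap * ε * Real.log z * (ε' * Real.log z)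

/-- D5: many pairs `(m, p)` such that `m` and `(p - 1) / m` are `z ^ θ`-smooth, `θ = 0.4095`. -/
def PairsLB : Prop :=
  ∃ ε : ℝ, 0 < ε ∧ ε ≤ 1 / 100 ∧ ∀ ε' : ℝ, 0 < ε' → ε' ≤ ε ^ 2 → ∃ z0 : ℝ, 3 ≤ z0 ∧
    ∀ z : ℝ, z0 ≤ z → ∀ S : Finset (ℕ × ℕ),
      (∀ s, s ∈ S ↔ (s.2.Prime ∧ z ^ (1 - ε') < s.2 ∧ (s.2 : ℝ) ≤ z ∧ s.1 ∣ s.2 - 1 ∧
        ∀ q : ℕ, q.Prime → q ∣ s.2 - 1 → (q : ℝ) ≤ z ^ (4095 / 10000 : ℝ))) →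
      1 ≤ ∑ s ∈ S, Real.log s.2 / s.2

/-- D6: smooth shifted primes beyond the square root. -/
def SmoothShift : Prop := Smooth (4095 / 10000)

/-! ### Part E: sparse product sets in residue classes -/

/-- E1: moments of character sums over products of `h` distinct primes. -/
def Moment : Prop :=
  ∃ C : ℝ, 0 < C ∧ ∀ (h j X Q : ℕ) (A : Finset ℕ), 1 ≤ j → 1 ≤ X → 1 ≤ Q →
    (∀ n ∈ A, 1 ≤ n ∧ n ≤ X ∧ Squarefree n ∧ n.primeFactors.card = h) →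
    ∑ q ∈ Icc 1 Q, ∑ χ ∈ prim q, ‖∑ n ∈ A, χ (n : ZMod q)‖ ^ (2 * j) ≤
      C * ((X : ℝ) ^ j + (Q : ℝ) ^ 2) * (j : ℝ) ^ (j * h) * (A.card : ℝ) ^ j

/-- the sum over the primitive characters modulo `q` of the product of the normalised sums -/
noncomputable def Phi {J : ℕ} (A : Fin J → Finset ℕ) (q : ℕ) : ℝ :=
  ∑ χ ∈ prim q, ∏ i, (‖∑ n ∈ A i, χ (n : ZMod q)‖ / (A i).card)

/-- E2: products of normalised character sums. -/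
def ProdBound : Prop :=
  ∃ C : ℝ, 0 < C ∧ ∀ (h j X Q J : ℕ) (A : Fin J → Finset ℕ) (a : ℝ), 1 ≤ j → 2 * j ≤ J →
    1 ≤ X → 1 ≤ Q → 0 < a → (∀ i, a ≤ (A i).card) →
    (∀ i, ∀ n ∈ A i, 1 ≤ n ∧ n ≤ X ∧ Squarefree n ∧ n.primeFactors.card = h) →
    ∑ q ∈ Icc 1 Q, Phi A q ≤
      C * ((X : ℝ) ^ j + (Q : ℝ) ^ 2) * (j : ℝ) ^ (j * h) / a ^ j

/-- E3: the tail of `∑ Phi A q / q`. -/
def PhiTail : Prop :=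
  ∃ C : ℝ, 0 < C ∧ ∀ (δ x w a : ℝ) (h X J : ℕ) (A : Fin J → Finset ℕ), 0 < δ → δ ≤ 1 / 8 →
    3 ≤ x → 1 < w → 2 ≤ X → (X : ℝ) ≤ w ^ δ → (J : ℝ) ^ h ≤ (X : ℝ) ^ δ →
    x ^ 8 ≤ (X : ℝ) ^ (J / 2) → (X : ℝ) ^ (1 / 2 + 3 * δ) ≤ a → (∀ i, a ≤ (A i).card) →
    (∀ i, ∀ n ∈ A i, 1 ≤ n ∧ n ≤ X ∧ Squarefree n ∧ n.primeFactors.card = h) →
    ∑ q ∈ Ioc ⌊w⌋₊ ⌊x ^ 4⌋₊, Phi A q / q ≤ C * Real.log x * w ^ (-(3 * δ))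

/-- E4: the number of products in a residue class. -/
def Equi : Prop :=
  ∀ (J : ℕ) (A : Fin J → Finset ℕ) (D c : ℕ), 1 ≤ D → Nat.Coprime c D →
    (∀ i, (A i).Nonempty) → (∀ i, ∀ n ∈ A i, Nat.Coprime n D) →
    |((((Fintype.piFinset A).filter (fun v => ∏ i, v i ≡ c [MOD D])).card : ℕ) : ℝ) -
      (∏ i, ((A i).card : ℝ)) / D.totient| ≤
      (∏ i, ((A i).card : ℝ)) / D.totient * ∑ q ∈ D.divisors.filter (fun q => 1 < q), Phi A q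

/-- the part of `m` composed of primes `> w` -/
noncomputable def rgh (w : ℝ) (m : ℕ) : ℕ := by
  classical
  exact ∏ p ∈ m.primeFactors.filter (fun p : ℕ => w < (p : ℝ)), p ^ m.factorization p

/-- `D(t)` for a quadruple `t` of primes -/
noncomputable def DD (w : ℝ) (t : Fin 4 → ℕ) : ℕ := ∏ i, rgh w (t i - 1)

/-- admissible quadruples -/
def Adm (w : ℝ) (t : Fin 4 → ℕ) : Prop :=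
  (∀ i j, i ≠ j → t i ≠ t j ∧ Nat.Coprime (rgh w (t i - 1)) (rgh w (t j - 1))) ∧
    Nat.Coprime (∏ i, t i) (DD w t)

/-- E5: summation over quadruples. -/
def SwapT : Prop :=
  ∀ (x y w : ℝ) (M : ℕ), 3 ≤ x → 1 ≤ y → y < w → 0 < M → ∀ T : Finset (Fin 4 → ℕ),
    (∀ t ∈ T, (∀ i, NiceP x y w M (t i)) ∧ Adm w t) →
    ∀ Φ : ℕ → ℝ, (∀ q, 0 ≤ Φ q) →
    ∑ t ∈ T, (1 / ((DD w t).totient : ℝ)) * ∑ q ∈ (DD w t).divisors.filter (fun q => 1 < q), Φ q ≤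
      (M.divisors.card * (1 + Real.log x)) ^ 4 *
        (65536 : ℝ) ^ (Real.log x / Real.log w) * ∑ q ∈ Ioc ⌊w⌋₊ ⌊x ^ 4⌋₊, Φ q / q

/-- E6: quadruples which are not admissible. -/
def BadT : Prop :=
  ∀ (x y w : ℝ) (M : ℕ), 3 ≤ x → 1 ≤ y → y < w → w ≤ x ^ (1 / 2 : ℝ) → 0 < M →
    ∀ T : Finset (Fin 4 → ℕ), (∀ t ∈ T, (∀ i, NiceP x y w M (t i)) ∧ ¬ Adm w t) →
    ∑ t ∈ T, ∏ i, (1 / (t i : ℝ)) ≤ 100 * (1 + Real.log x) ^ 4 / w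

/-! ### Part F: Carmichael numbers -/

/-- Carmichael numbers -/
def IsCarm (n : ℕ) : Prop :=
  1 < n ∧ ¬ n.Prime ∧ ∀ b : ℕ, Nat.Coprime b n → b ^ (n - 1) ≡ 1 [MOD n]

/-- F1: many products in one residue class modulo `M`. -/
def Pop : Prop :=
  ∀ (P : Finset ℕ) (J h M z : ℕ), 1 ≤ J → 1 ≤ h → J * h ≤ P.card → 0 < M →
    (∀ p ∈ P, p.Prime ∧ p ≤ z ∧ Nat.Coprime p M) →
    ∃ (A : Fin J → Finset ℕ) (r : Fin J → ℕ),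
      (∀ i, ∀ n ∈ A i, 1 ≤ n ∧ n ≤ z ^ h ∧ Squarefree n ∧ n.primeFactors.card = h ∧
        n.primeFactors ⊆ P ∧ n ≡ r i [MOD M]) ∧
      (∀ i j, i ≠ j → ∀ n ∈ A i, ∀ n' ∈ A j, Nat.Coprime n n') ∧
      (∀ i, Nat.Coprime (r i) M) ∧
      ∀ i, (((P.card / J : ℕ) : ℝ) / h) ^ h / M ≤ (A i).card

/-- F2: Korselt's criterion. -/
def Kors : Prop :=
  ∀ n : ℕ, 1 < n → ¬ n.Prime → Squarefree n → (∀ p : ℕ, p.Prime → p ∣ n → p - 1 ∣ n - 1) →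
    IsCarm n

/-- F3: the products are Carmichael numbers. -/
def CountC : Prop :=
  ∀ (x y w : ℝ) (M J X : ℕ) (A : Fin J → Finset ℕ) (r : Fin J → ℕ) (a : ℕ)
    (T : Finset (Fin 4 → ℕ)) (c : (Fin 4 → ℕ) → ℕ), 3 ≤ x → 1 ≤ y → y < w → 0 < M →
    (∀ i, ∀ n ∈ A i, 1 ≤ n ∧ n ≤ X ∧ Squarefree n ∧ n ≡ r i [MOD M] ∧
      ∀ p : ℕ, p.Prime → p ∣ n → p - 1 ∣ M ∧ (p : ℝ) ≤ x ^ (1 / 2 : ℝ)) →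
    (∀ i j, i ≠ j → ∀ n ∈ A i, ∀ n' ∈ A j, Nat.Coprime n n') →
    (∏ i, r i) * a ≡ 1 [MOD M] →
    (∀ t ∈ T, (∀ i, NiceP x y w M (t i)) ∧ ∏ i, t i ≡ a [MOD M] ∧ Adm w t ∧
      c t * ∏ i, t i ≡ 1 [MOD DD w t]) →
    ∀ S : Finset ℕ, (∀ n, n ∈ S ↔ IsCarm n ∧ (n : ℝ) ≤ (X : ℝ) ^ J * x ^ 4) →
    ((∑ t ∈ T, ((Fintype.piFinset A).filter (fun v => ∏ i, v i ≡ c t [MOD DD w t])).card : ℕ) : ℝ)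
      ≤ 24 * S.card

/-- F4: the main theorem for a given `θ`. -/
def MainAt (θ : ℝ) : Prop :=
  ∀ ε : ℝ, 0 < ε → ∃ N0 : ℕ, ∀ N : ℕ, N0 ≤ N → ∀ S : Finset ℕ,
    (∀ n, n ∈ S ↔ IsCarm n ∧ n ≤ N) → (N : ℝ) ^ (1 - θ - ε) ≤ S.card

/-- F5: the main theorem. -/
def Main : Prop := ∀ θ : ℝ, 0 < θ → θ < 1 / 2 → Smooth θ → MainAt θ

end Pool.Agent.Helper34.CA
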