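import Pool.Agent.Helper34.CA.St
import Pool.Agent.Helper53.AV.SelW

/-!
# Project CA (MP_87fff7_nt), module BT

D1. `BT` (Brun-Titchmarsh with the constant `2 + ε`), by Selberg's sieve. Write `p = 1 + n m`,
`m` in an interval with `≤ h/n + 1` integers. With `R = (h/n)^{1/2-ε'}`, let `λ_d` (`d ≤ R`
squarefree coprime to `n`, `λ_1 = 1`) be Selberg's weights, `|λ_d| ≤ 1`. For primes `p > R`,
`1 ≤ (∑_{d ∣ 1+nm} λ_d)²`; for `d` coprime to `n`, `d ∣ 1 + n m` is one residue class for `m`.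
So the number of primes is `≤ R + (h/n)/G + R²`, `G = ∑_{d ≤ R, (d,n)=1} μ²(d)/φ(d) ≥
(φ(n)/n) log R` (classical: `(n/φ(n)) G ≥ ∑_{d ≤ R} μ²(d)/φ(d) ≥ ∑_{m ≤ R} 1/m ≥ log R`). There is
a Selberg sieve for intervals in the library (grep SelbergP in Pool/Agent, project AV; also
`Pool/Agent/Helper84/NX2/RoughSum.lean` for sums `1/φ`), use whatever is convenient.
-/

set_option autoImplicit false

open Finset Filter Topology
open scoped ArithmeticFunction.vonMangoldt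

namespace Pool.Agent.Helper34.CA.BTAux

open Pool.Agent.Helper69.EK (AA mem_AA lamW GG GG_pos GG_lower)

/-- the number of elements of a residue class in an interval -/
theorem card_class (y l q r : ℕ) (hq : 0 < q) :
    |((((Finset.Ico y (y + l)).filter fun n => n ≡ r [MOD q]).card : ℕ) : ℝ) - (l : ℝ) / q| ≤ 1 := by
  have hq' : (0 : ℚ) < q := by exact_mod_cast hq
  have h1 := Nat.Ico_filter_modEq_card y (y + l) hq r
  have hle : ⌈((y : ℚ) - r) / (q : ℚ)⌉ ≤ ⌈(((y + l : ℕ) : ℚ) - r) / (q : ℚ)⌉ := by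
    apply Int.ceil_mono
    apply div_le_div_of_nonneg_right _ hq'.le
    push_cast
    have : (0 : ℚ) ≤ l := Nat.cast_nonneg _
    linarith
  rw [max_eq_left (sub_nonneg.2 hle)] at h1
  set N := ((Finset.Ico y (y + l)).filter fun n => n ≡ r [MOD q]).card with hN
  have h2 : (N : ℚ) = (⌈(((y + l : ℕ) : ℚ) - r) / (q : ℚ)⌉ : ℚ) - (⌈((y : ℚ) - r) / (q : ℚ)⌉ : ℚ) := by
    exact_mod_cast h1
  have a1 := Int.le_ceil ((((y + l : ℕ) : ℚ) - r) / (q : ℚ))
  have a2 := Int.ceil_lt_add_one ((((y + l : ℕ) : ℚ) - r) / (q : ℚ))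
  have a3 := Int.le_ceil (((y : ℚ) - r) / (q : ℚ))
  have a4 := Int.ceil_lt_add_one (((y : ℚ) - r) / (q : ℚ))
  have a5 : (((y + l : ℕ) : ℚ) - r) / (q : ℚ) = ((y : ℚ) - r) / q + (l : ℚ) / q := by
    push_cast; rw [← add_div]; congr 1; ring
  have h3 : |(N : ℚ) - (l : ℚ) / q| ≤ 1 := by
    rw [abs_le]
    rw [a5] at a1 a2
    constructor
    · rw [h2, a5]; linarith
    · rw [h2, a5]; linarith
  have h4 : ((|(N : ℚ) - (l : ℚ) / q| : ℚ) : ℝ) ≤ ((1 : ℚ) : ℝ) := Rat.cast_le.2 h3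
  push_cast at h4
  exact h4

theorem card_class_dvd (y l M c d : ℕ) (hM : 0 < M) (hd : 0 < d) (hcop : Nat.Coprime M d) :
    |((((Finset.Ico y (y + l)).filter fun n => n ≡ c [MOD M] ∧ d ∣ n).card : ℕ) : ℝ) -
      (l : ℝ) / M * (1 / d)| ≤ 1 := by
  obtain ⟨r, hr1, hr2⟩ := Nat.chineseRemainder hcop c 0
  have h0 : ((Finset.Ico y (y + l)).filter fun n => n ≡ c [MOD M] ∧ d ∣ n) =
      (Finset.Ico y (y + l)).filter fun n => n ≡ r [MOD (M * d)] := by
    apply Finset.filter_congr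
    intro n _
    rw [← Nat.modEq_and_modEq_iff_modEq_mul hcop]
    constructor
    · rintro ⟨h1, h2⟩
      exact ⟨h1.trans hr1.symm, ((Nat.modEq_zero_iff_dvd).2 h2).trans hr2.symm⟩
    · rintro ⟨h1, h2⟩
      exact ⟨h1.trans hr1, (Nat.modEq_zero_iff_dvd).1 (h2.trans hr2)⟩
  rw [h0]
  have h1 := card_class y l (M * d) r (Nat.mul_pos hM hd)
  have h2 : (l : ℝ) / M * (1 / d) = (l : ℝ) / ((M * d : ℕ) : ℝ) := by
    push_cast
    field_simp
  rw [h2]
  exact h1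

/-- Selberg's weights with `|λ_d| ≤ 1`. -/
theorem weights {D : ℕ} (hD : 0 < D) {R : ℕ} (hR : 2 ≤ R) : ∃ lam : ℕ → ℝ, lam 1 = 1 ∧
    (∀ d, lam d ≠ 0 → 1 ≤ d ∧ d ≤ R ∧ Nat.Coprime d D) ∧ (∀ d, |lam d| ≤ 1) ∧
    ∑ d₁ ∈ Finset.Icc 1 R, ∑ d₂ ∈ Finset.Icc 1 R, lam d₁ * lam d₂ / (Nat.lcm d₁ d₂ : ℝ) ≤
      (D : ℝ) / (D.totient * Real.log R) := by
  classical
  have hG := GG_pos D R (by omega)
  refine ⟨lamW D R, ?_, ?_, fun d => Helper53AV.abs_lamW_le D R d (by omega), ?_⟩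
  · unfold lamW
    rw [if_pos (mem_AA.2 ⟨⟨le_refl _, by omega⟩, squarefree_one, Nat.coprime_one_left D⟩)]
    have : ∑ m ∈ (AA D R).filter (fun m => 1 ∣ m), (1 : ℝ) / m.totient = GG D R := by
      unfold GG
      apply Finset.sum_congr _ (fun _ _ => rfl)
      simp
    rw [this]
    simp only [ArithmeticFunction.moebius_apply_one, Nat.cast_one, mul_one]
    push_cast
    field_simp
  · intro d hd
    unfold lamW at hd
    by_cases h : d ∈ AA D R
    · have := mem_AA.1 h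
      exact ⟨this.1.1, this.1.2, this.2.2⟩
    · rw [if_neg h] at hd
      exact absurd rfl hd
  · rw [Helper53AV.quad D R (by omega)]
    have hlow := GG_lower D R hD
    have hlog : 0 < Real.log R := Real.log_pos (by exact_mod_cast hR)
    have hphi : (0 : ℝ) < D.totient := by exact_mod_cast Nat.totient_pos.2 hD
    have hDR : (0 : ℝ) < D := by exact_mod_cast hD
    rw [div_le_div_iff₀ hG (by positivity), one_mul]
    rw [div_mul_eq_mul_div, le_div_iff₀ hphi] at hlow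
    linarith

theorem sieve_class (a N M c R : ℕ) (hM : 1 ≤ M) (hR : 2 ≤ R) :
    (((Ico a (a + N)).filter
      (fun p => p.Prime ∧ Nat.Coprime p M ∧ p ≡ c [MOD M])).card : ℝ) ≤
      R + (N : ℝ) / (M.totient * Real.log R) + (R : ℝ) ^ 2 := by
  classical
  obtain ⟨lam, hl1, hlc, hlb, hq⟩ := weights hM hR
  set S := (Ico a (a + N)).filter (fun n => n ≡ c [MOD M]) with hS
  have hM0 : (0 : ℝ) < M := by exact_mod_cast hM
  -- small primes
  have h1 : (((Ico a (a + N)).filter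
      (fun p => p.Prime ∧ Nat.Coprime p M ∧ p ≡ c [MOD M])).card : ℝ) ≤
      R + ∑ n ∈ S, (∑ d ∈ (Icc 1 R).filter (fun d => d ∣ n), lam d) ^ 2 := by
    set T := (Ico a (a + N)).filter
      (fun p => p.Prime ∧ Nat.Coprime p M ∧ p ≡ c [MOD M]) with hT
    have h2 : T.card = (T.filter (fun p => p ≤ R)).card + (T.filter (fun p => ¬ p ≤ R)).card :=
      (Finset.card_filter_add_card_filter_not (fun p => p ≤ R)).symm
    have h3 : (T.filter (fun p => p ≤ R)).card ≤ R := by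
      have h4 : T.filter (fun p => p ≤ R) ⊆ Icc 1 R := by
        intro p hp
        rw [Finset.mem_filter, hT, Finset.mem_filter] at hp
        rw [Finset.mem_Icc]
        exact ⟨hp.1.2.1.one_le, hp.2⟩
      have h5 := Finset.card_le_card h4
      rwa [Nat.card_Icc, Nat.add_sub_cancel] at h5
    have h6 : ((T.filter (fun p => ¬ p ≤ R)).card : ℝ) ≤
        ∑ n ∈ S, (∑ d ∈ (Icc 1 R).filter (fun d => d ∣ n), lam d) ^ 2 := by
      have hsub : T.filter (fun p => ¬ p ≤ R) ⊆ S := by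
        intro p hp
        rw [Finset.mem_filter, hT, Finset.mem_filter] at hp
        rw [hS, Finset.mem_filter]
        exact ⟨hp.1.1, hp.1.2.2.2⟩
      rw [Finset.card_eq_sum_ones, Nat.cast_sum]
      refine le_trans (Finset.sum_le_sum ?_) (Finset.sum_le_sum_of_subset_of_nonneg hsub
        (fun _ _ _ => sq_nonneg _))
      intro p hp
      rw [Finset.mem_filter, hT, Finset.mem_filter] at hp
      have h7 : ∑ d ∈ (Icc 1 R).filter (fun d => d ∣ p), lam d = 1 := by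
        rw [Finset.sum_eq_single 1]
        · exact hl1
        · intro d hd hd1
          rw [Finset.mem_filter, Finset.mem_Icc] at hd
          rcases (Nat.dvd_prime hp.1.2.1).1 hd.2 with h | h
          · exact absurd h hd1
          · exact absurd (h ▸ hd.1.2) hp.2
        · intro h
          refine absurd ?_ h
          rw [Finset.mem_filter, Finset.mem_Icc]
          exact ⟨⟨le_refl _, by omega⟩, one_dvd _⟩
      rw [h7]
      norm_num
    rw [h2]
    push_cast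
    have h3' : ((T.filter (fun p => p ≤ R)).card : ℝ) ≤ R := by exact_mod_cast h3
    linarith
  -- expansion
  have h2 : ∑ n ∈ S, (∑ d ∈ (Icc 1 R).filter (fun d => d ∣ n), lam d) ^ 2 =
      ∑ d₁ ∈ Icc 1 R, ∑ d₂ ∈ Icc 1 R, lam d₁ * lam d₂ *
        (((Finset.Ico a (a + N)).filter fun n => n ≡ c [MOD M] ∧ Nat.lcm d₁ d₂ ∣ n).card : ℝ) := by
    have h3 : ∀ n ∈ S, (∑ d ∈ (Icc 1 R).filter (fun d => d ∣ n), lam d) ^ 2 =
        ∑ d₁ ∈ Icc 1 R, ∑ d₂ ∈ Icc 1 R, lam d₁ * lam d₂ *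
          (if Nat.lcm d₁ d₂ ∣ n then 1 else 0) := by
      intro n hn
      rw [Finset.sum_filter, sq, Finset.sum_mul_sum]
      apply Finset.sum_congr rfl
      intro d₁ _
      apply Finset.sum_congr rfl
      intro d₂ _
      have h4 : Nat.lcm d₁ d₂ ∣ n ↔ d₁ ∣ n ∧ d₂ ∣ n := Nat.lcm_dvd_iff
      by_cases c1 : d₁ ∣ n
      · by_cases c2 : d₂ ∣ n
        · rw [if_pos c1, if_pos c2, if_pos (h4.2 ⟨c1, c2⟩), mul_one]
        · rw [if_neg c2, if_neg (fun h => c2 (h4.1 h).2), mul_zero, mul_zero]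
      · rw [if_neg c1, if_neg (fun h => c1 (h4.1 h).1), mul_zero, zero_mul]
    rw [Finset.sum_congr rfl h3, Finset.sum_comm]
    apply Finset.sum_congr rfl
    intro d₁ _
    rw [Finset.sum_comm]
    apply Finset.sum_congr rfl
    intro d₂ _
    rw [← Finset.mul_sum]
    congr 1
    rw [← Finset.sum_filter, Finset.card_eq_sum_ones, Nat.cast_sum, hS, Finset.filter_filter]
    simp only [Nat.cast_one]
  have h5 : ∀ d₁ ∈ Icc 1 R, ∀ d₂ ∈ Icc 1 R, lam d₁ * lam d₂ *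
        (((Finset.Ico a (a + N)).filter fun n => n ≡ c [MOD M] ∧ Nat.lcm d₁ d₂ ∣ n).card : ℝ) ≤
      (N : ℝ) / M * (lam d₁ * lam d₂ / (Nat.lcm d₁ d₂ : ℝ)) + 1 := by
    intro d₁ h₁ d₂ h₂
    rw [Finset.mem_Icc] at h₁ h₂
    by_cases hz : lam d₁ * lam d₂ = 0
    · rw [hz]
      simp only [zero_mul, zero_div, mul_zero, zero_add]
      norm_num
    have hz1 : lam d₁ ≠ 0 := left_ne_zero_of_mul hz
    have hz2 : lam d₂ ≠ 0 := right_ne_zero_of_mul hz
    have hl0 : 0 < Nat.lcm d₁ d₂ := Nat.lcm_pos h₁.1 h₂.1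
    have hcop : Nat.Coprime M (Nat.lcm d₁ d₂) := by
      have e1 := (hlc d₁ hz1).2.2
      have e2 := (hlc d₂ hz2).2.2
      have e3 : Nat.Coprime (d₁ * d₂) M := Nat.Coprime.mul_left e1 e2
      exact (Nat.Coprime.coprime_dvd_left (Nat.lcm_dvd_mul d₁ d₂) e3).symm
    have h6 := card_class_dvd a N M c (Nat.lcm d₁ d₂) hM hl0 hcop
    set X := (((Finset.Ico a (a + N)).filter
      fun n => n ≡ c [MOD M] ∧ Nat.lcm d₁ d₂ ∣ n).card : ℝ) with hX
    have h7 : |lam d₁ * lam d₂| ≤ 1 := by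
      rw [abs_mul]
      exact mul_le_one₀ (hlb d₁) (abs_nonneg _) (hlb d₂)
    have h8 : lam d₁ * lam d₂ * (X - (N : ℝ) / M * (1 / (Nat.lcm d₁ d₂ : ℝ))) ≤ 1 := by
      refine (le_abs_self _).trans ?_
      rw [abs_mul]
      exact mul_le_one₀ h7 (abs_nonneg _) h6
    have h9 : (N : ℝ) / M * (lam d₁ * lam d₂ / (Nat.lcm d₁ d₂ : ℝ)) =
        lam d₁ * lam d₂ * ((N : ℝ) / M * (1 / (Nat.lcm d₁ d₂ : ℝ))) := by ring
    rw [h9]
    nlinarith
  have h6 : ∑ n ∈ S, (∑ d ∈ (Icc 1 R).filter (fun d => d ∣ n), lam d) ^ 2 ≤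
      (N : ℝ) / (M.totient * Real.log R) + (R : ℝ) ^ 2 := by
    rw [h2]
    refine (Finset.sum_le_sum fun d₁ h₁ => Finset.sum_le_sum fun d₂ h₂ => h5 d₁ h₁ d₂ h₂).trans ?_
    simp only [Finset.sum_add_distrib, ← Finset.mul_sum, Finset.sum_const, Nat.card_Icc,
      Nat.add_sub_cancel, nsmul_eq_mul]
    have hphi : (0 : ℝ) < M.totient := by exact_mod_cast Nat.totient_pos.2 hM
    have hlog : 0 < Real.log R := Real.log_pos (by exact_mod_cast hR)
    have h7 : (N : ℝ) / M * ∑ d₁ ∈ Icc 1 R, ∑ d₂ ∈ Icc 1 R,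
        lam d₁ * lam d₂ / (Nat.lcm d₁ d₂ : ℝ) ≤
        (N : ℝ) / M * ((M : ℝ) / (M.totient * Real.log R)) :=
      mul_le_mul_of_nonneg_left hq (by positivity)
    have h8 : (N : ℝ) / M * ((M : ℝ) / (M.totient * Real.log R)) =
        (N : ℝ) / (M.totient * Real.log R) := by
      field_simp
    rw [h8] at h7
    have h9 : (R : ℝ) * (R * 1) = (R : ℝ) ^ 2 := by ring
    rw [h9]
    linarith
  linarith

/-- the conditions on `H = h / n` -/
theorem large (e : ℝ) (he : 0 < e) (he1 : e ≤ 1) : ∃ X0 : ℝ, 3 ≤ X0 ∧ ∀ H : ℝ, X0 ≤ H →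
    7 / e ≤ H ∧ 2 ≤ H ^ (e / 32) ∧ 2 ≤ H ^ (1 / 2 - e / 16) ∧
      Real.log H ≤ e / 6 * H ^ (e / 16) := by
  have h1 : Tendsto (fun H : ℝ => H ^ (e / 32)) atTop atTop := tendsto_rpow_atTop (by linarith)
  have h2 : Tendsto (fun H : ℝ => H ^ (1 / 2 - e / 16)) atTop atTop :=
    tendsto_rpow_atTop (by linarith)
  have h3 := (isLittleO_log_rpow_atTop (r := e / 16) (by linarith)).bound
    (show (0 : ℝ) < e / 6 by linarith)
  have h4 : ∀ᶠ H : ℝ in atTop, 7 / e ≤ H ∧ 2 ≤ H ^ (e / 32) ∧ 2 ≤ H ^ (1 / 2 - e / 16) ∧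
      Real.log H ≤ e / 6 * H ^ (e / 16) := by
    filter_upwards [eventually_ge_atTop (7 / e), h1.eventually_ge_atTop 2,
      h2.eventually_ge_atTop 2, h3, eventually_ge_atTop (1 : ℝ)] with H a1 a2 a3 a4 a5
    refine ⟨a1, a2, a3, ?_⟩
    rw [Real.norm_of_nonneg (Real.log_nonneg a5),
      Real.norm_of_nonneg (Real.rpow_nonneg (by linarith) _)] at a4
    exact a4
  obtain ⟨X, hX⟩ := eventually_atTop.1 h4
  exact ⟨max X 3, le_max_right _ _, fun H hH => hX H ((le_max_left _ _).trans hH)⟩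

theorem bt1 (e : ℝ) (he : 0 < e) (he1 : e ≤ 1) : ∃ X0 : ℝ, 3 ≤ X0 ∧ ∀ (n : ℕ) (t h : ℝ),
    1 ≤ n → 0 ≤ t → X0 * n ≤ h →
    ((((Ioc ⌊t⌋₊ ⌊t + h⌋₊).filter (fun p => p.Prime ∧ p ≡ 1 [MOD n])).card : ℕ) : ℝ) ≤
      (2 + e) * h / (n.totient * Real.log (h / n)) := by
  classical
  obtain ⟨X0, hX3, hX⟩ := large e he he1
  refine ⟨X0, hX3, ?_⟩
  intro n t h hn ht hh
  have hn0 : (0 : ℝ) < n := by exact_mod_cast hn
  have hn1 : (1 : ℝ) ≤ n := by exact_mod_cast hn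
  have hphi : (0 : ℝ) < n.totient := by exact_mod_cast Nat.totient_pos.2 hn
  have hphin : (n.totient : ℝ) ≤ n := by exact_mod_cast Nat.totient_le n
  obtain ⟨H, hH⟩ : ∃ H : ℝ, H = h / n := ⟨_, rfl⟩
  have hHh : h = H * n := by rw [hH]; field_simp
  have hHX : X0 ≤ H := by rw [hH, le_div_iff₀ hn0]; exact hh
  obtain ⟨a1, a2, a3, a4⟩ := hX H hHX
  have hH3 : (3 : ℝ) ≤ H := hX3.trans hHX
  have hH0 : (0 : ℝ) < H := by linarith
  have hH1 : (1 : ℝ) ≤ H := by linarith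
  have hh0 : 0 < h := by rw [hHh]; positivity
  have hlogH : 0 < Real.log H := Real.log_pos (by linarith)
  rw [← hH]
  -- the level
  obtain ⟨R, hR⟩ : ∃ R : ℕ, R = ⌊H ^ (1 / 2 - e / 32)⌋₊ := ⟨_, rfl⟩
  have hRle : (R : ℝ) ≤ H ^ (1 / 2 - e / 32) := by
    rw [hR]; exact Nat.floor_le (by positivity)
  have hsplit : H ^ (1 / 2 - e / 32) = H ^ (1 / 2 - e / 16) * H ^ (e / 32) := by
    rw [← Real.rpow_add hH0]; congr 1; ring
  have hRge : H ^ (1 / 2 - e / 16) ≤ (R : ℝ) := by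
    have h1 := (Nat.sub_one_lt_floor (H ^ (1 / 2 - e / 32))).le
    rw [← hR] at h1
    have h2 : 0 < H ^ (1 / 2 - e / 16) := by positivity
    nlinarith
  have hR2 : 2 ≤ R := by
    have : (2 : ℝ) ≤ R := a3.trans hRge
    exact_mod_cast this
  have hR1 : (1 : ℝ) ≤ R := by exact_mod_cast (by omega : 1 ≤ R)
  have hlogR : (1 / 2 - e / 16) * Real.log H ≤ Real.log R := by
    rw [← Real.log_rpow hH0]
    exact Real.log_le_log (by positivity) hRge
  have hlogR0 : 0 < Real.log R := by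
    refine lt_of_lt_of_le ?_ hlogR
    have : 0 < 1 / 2 - e / 16 := by linarith
    positivity
  -- the interval
  obtain ⟨N, hN⟩ : ∃ N : ℕ, N = ⌊t + h⌋₊ - ⌊t⌋₊ := ⟨_, rfl⟩
  have hfl : ⌊t⌋₊ ≤ ⌊t + h⌋₊ := Nat.floor_le_floor (by linarith)
  have hNle : (N : ℝ) ≤ h + 1 := by
    rw [hN, Nat.cast_sub hfl]
    have h1 := Nat.floor_le (show 0 ≤ t + h by linarith)
    have h2 := Nat.lt_floor_add_one t
    linarith
  have hcount : (((Ioc ⌊t⌋₊ ⌊t + h⌋₊).filter (fun p => p.Prime ∧ p ≡ 1 [MOD n])).card : ℝ) ≤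
      R + (N : ℝ) / (n.totient * Real.log R) + (R : ℝ) ^ 2 := by
    refine le_trans ?_ (sieve_class (⌊t⌋₊ + 1) N n 1 R hn hR2)
    have hsub : (Ioc ⌊t⌋₊ ⌊t + h⌋₊).filter (fun p => p.Prime ∧ p ≡ 1 [MOD n]) ⊆
        (Ico (⌊t⌋₊ + 1) (⌊t⌋₊ + 1 + N)).filter
          (fun p => p.Prime ∧ Nat.Coprime p n ∧ p ≡ 1 [MOD n]) := by
      intro p hp
      rw [Finset.mem_filter, Finset.mem_Ioc] at hp
      rw [Finset.mem_filter, Finset.mem_Ico]
      refine ⟨⟨by omega, by omega⟩, hp.2.1, ?_, hp.2.2⟩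
      have := hp.2.2.gcd_eq
      rw [Nat.gcd_one_left] at this
      rw [Nat.coprime_iff_gcd_eq_one]
      exact this
    exact_mod_cast Finset.card_le_card hsub
  -- numerical estimates
  have hRsq : (R : ℝ) ^ 2 * H ^ (e / 16) ≤ H := by
    have h1 : (R : ℝ) ^ 2 ≤ (H ^ (1 / 2 - e / 32)) ^ 2 :=
      pow_le_pow_left₀ (by positivity) hRle 2
    have h2 : (H ^ (1 / 2 - e / 32)) ^ 2 * H ^ (e / 16) = H := by
      rw [← Real.rpow_natCast, ← Real.rpow_mul hH0.le, ← Real.rpow_add hH0]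
      conv_rhs => rw [← Real.rpow_one H]
      congr 1
      push_cast
      ring
    calc (R : ℝ) ^ 2 * H ^ (e / 16) ≤ (H ^ (1 / 2 - e / 32)) ^ 2 * H ^ (e / 16) :=
          mul_le_mul_of_nonneg_right h1 (by positivity)
      _ = H := h2
  have hmain : (N : ℝ) / (n.totient * Real.log R) * (n.totient * Real.log H) ≤
      (2 + 2 * e / 3) * h := by
    have h1 : (N : ℝ) / (n.totient * Real.log R) * (n.totient * Real.log H) =
        N * (Real.log H / Real.log R) := by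
      field_simp
    have h2 : Real.log H / Real.log R ≤ 2 + e / 3 := by
      rw [div_le_iff₀ hlogR0]
      have h3 : (2 + e / 3) * ((1 / 2 - e / 16) * Real.log H) ≤ (2 + e / 3) * Real.log R :=
        mul_le_mul_of_nonneg_left hlogR (by positivity)
      have h4 : 1 * Real.log H ≤ (2 + e / 3) * (1 / 2 - e / 16) * Real.log H := by
        refine mul_le_mul_of_nonneg_right ?_ hlogH.le
        nlinarith
      linarith
    have h5 : (N : ℝ) * (Real.log H / Real.log R) ≤ (h + 1) * (2 + e / 3) :=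
      mul_le_mul hNle h2 (by positivity) (by positivity)
    have h6 : 7 / e ≤ h := by
      rw [hHh]
      nlinarith
    have h7 : 7 ≤ e * h := by
      rw [div_le_iff₀ he] at h6
      linarith
    rw [h1]
    nlinarith
  have herr : ((R : ℝ) + (R : ℝ) ^ 2) * (n.totient * Real.log H) ≤ e / 3 * h := by
    have h1 : (R : ℝ) + (R : ℝ) ^ 2 ≤ 2 * (R : ℝ) ^ 2 := by nlinarith
    have h2 : (n.totient : ℝ) * Real.log H ≤ n * (e / 6 * H ^ (e / 16)) :=
      mul_le_mul hphin a4 hlogH.le hn0.le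
    calc ((R : ℝ) + (R : ℝ) ^ 2) * (n.totient * Real.log H)
        ≤ (2 * (R : ℝ) ^ 2) * (n * (e / 6 * H ^ (e / 16))) :=
          mul_le_mul h1 h2 (by positivity) (by positivity)
      _ = e / 3 * n * ((R : ℝ) ^ 2 * H ^ (e / 16)) := by ring
      _ ≤ e / 3 * n * H := mul_le_mul_of_nonneg_left hRsq (by positivity)
      _ = e / 3 * h := by rw [hHh]; ring
  rw [le_div_iff₀ (by positivity)]
  calc ((((Ioc ⌊t⌋₊ ⌊t + h⌋₊).filter (fun p => p.Prime ∧ p ≡ 1 [MOD n])).card : ℕ) : ℝ) *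
        (n.totient * Real.log H)
      ≤ (R + (N : ℝ) / (n.totient * Real.log R) + (R : ℝ) ^ 2) * (n.totient * Real.log H) :=
        mul_le_mul_of_nonneg_right hcount (by positivity)
    _ = (N : ℝ) / (n.totient * Real.log R) * (n.totient * Real.log H) +
        ((R : ℝ) + (R : ℝ) ^ 2) * (n.totient * Real.log H) := by ring
    _ ≤ (2 + 2 * e / 3) * h + e / 3 * h := add_le_add hmain herr
    _ = (2 + e) * h := by ring

end Pool.Agent.Helper34.CA.BTAux

namespace Pool.Agent.Helper34.CA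

open Pool.Agent.Helper18.BV

theorem bt : BT := by
  intro ε hε
  obtain ⟨X0, hX, h⟩ := BTAux.bt1 (min ε 1) (lt_min hε one_pos) (min_le_right _ _)
  refine ⟨X0, hX, fun n t s hn ht hs => (h n t s hn ht hs).trans ?_⟩
  have hn0 : (0 : ℝ) < n := by exact_mod_cast hn
  have hphi : (0 : ℝ) < n.totient := by exact_mod_cast Nat.totient_pos.2 hn
  have h1 : (3 : ℝ) ≤ s / n := by
    rw [le_div_iff₀ hn0]
    exact (mul_le_mul_of_nonneg_right hX hn0.le).trans hs
  have hs0 : 0 ≤ s := by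
    have := (mul_nonneg (by linarith : (0 : ℝ) ≤ X0) hn0.le).trans hs
    exact this
  have hlog : 0 < Real.log (s / n) := Real.log_pos (by linarith)
  refine div_le_div_of_nonneg_right ?_ (by positivity)
  exact mul_le_mul_of_nonneg_right (by linarith [min_le_left ε 1]) hs0

end Pool.Agent.Helper34.CA
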