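import Pool.Agent.Helper34.CA.St

/-!
# Project CA (MP_87fff7_nt), module BTw

D2. `BTw`. Cut `(a, b]` into blocks `(t, (1+ε)t]`, `t = a (1+ε)^i` (at most
`log(b/a)/log(1+ε) + 1` blocks); `BT` with `ε` and `h = ε t ≥ X0 n` (`z` large): in a block
`∑ log p/p ≤ (log z/t)(2+ε) ε t/(φ(n) log(ε t/n))` and `log(ε t/n) ≥ (1/2 - 4ε) log z` for
`z ≥ z0(ε)`, so a block contributes `≤ (2+ε)/(1/2-4ε) · ε/φ(n)`. Total
`≤ (2+ε)/(1/2-4ε) · (ε/log(1+ε)) (log(b/a) + 1)/φ(n) ≤ (4+Kε)(log(b/a)+1)/φ(n)` (`ε ≤ log(1+ε)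
(1+ε)`; the extra `+1` block is fine since `log (1+ε) ≤ 1`).
-/

set_option autoImplicit false

open Finset Filter Topology
open scoped ArithmeticFunction.vonMangoldt

namespace Pool.Agent.Helper34.CA

open Pool.Agent.Helper18.BV

theorem btw (h : BT) : BTw := by
  sorry

end Pool.Agent.Helper34.CA
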