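import Pool.Agent.Helper34.CA.St
import Pool.Agent.Helper51.BV.Average

/-!
# Project CA (MP_87fff7_nt), module BVs

B5. `BVs`. Follow `bvav` in `Pool/Agent/Helper51/BV/Average.lean` (`one_modulus`, `swap`,
`card_prim_le`, `sum_inv_totient_le` are general). Only the terms `EE g x d` need a better bound
than `EE_le`: the number of prime powers `≤ x` not coprime to `d` is
`≤ ω(d) (2 log x) ≤ (2 log x)²`, so `EE g x d ≤ 4 G l³ / x^{1/2}` and the sum over
`d ≤ x^{1/2-ε}` is `≤ 4 G l³ x^{-ε}`.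
-/

set_option autoImplicit false

open Finset Filter Topology
open scoped ArithmeticFunction.vonMangoldt

namespace Pool.Agent.Helper34.CA

open Pool.Agent.Helper18.BV

namespace BVsAux

open Pool.Agent.Helper51.BV

theorem card_primeFactors_le_log {d : ℕ} (hd : 0 < d) :
    (d.primeFactors.card : ℝ) ≤ 2 * Real.log d := by
  have h1 : (2 : ℕ) ^ d.primeFactors.card ≤ d := by
    calc (2 : ℕ) ^ d.primeFactors.card = ∏ _p ∈ d.primeFactors, 2 := by
          rw [Finset.prod_const]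
      _ ≤ ∏ p ∈ d.primeFactors, p := by
          refine Finset.prod_le_prod' fun p hp => ?_
          exact (Nat.prime_of_mem_primeFactors hp).two_le
      _ ≤ d := Nat.le_of_dvd hd (Nat.prod_primeFactors_dvd d)
  have h2 : ((2 : ℝ)) ^ d.primeFactors.card ≤ d := by exact_mod_cast h1
  have h3 := Real.log_le_log (by positivity) h2
  rw [Real.log_pow] at h3
  have h4 : (1 / 2 : ℝ) ≤ Real.log 2 := by
    have := Real.log_two_gt_d9; linarith
  have h5 : (0 : ℝ) ≤ d.primeFactors.card := Nat.cast_nonneg _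
  nlinarith

theorem EE_le' {g : ℝ → ℝ} (hg : IsWt g) {G : ℝ} (hG : ∀ v, g v ≤ G) (hG0 : 0 < G) {x : ℝ}
    (hx : 3 ≤ x) (d : ℕ) (hd : 0 < d) (hdx : (d : ℝ) ≤ x) :
    EE g x d ≤ 4 * G * Real.log x ^ 3 / x ^ (1 / 2 : ℝ) := by
  have hx1 : 1 < x := by linarith
  have hlog : 0 < Real.log x := Real.log_pos hx1
  have hxs : 0 < x ^ (1 / 2 : ℝ) := Real.rpow_pos_of_pos (by linarith) _
  set T := (Icc 1 ⌊x⌋₊).filter (fun n => ¬ Nat.Coprime n d ∧ IsPrimePow n) with hT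
  have h1 : EE g x d = ∑ n ∈ T, Λ n * wt g x n := by
    unfold EE
    symm
    refine Finset.sum_subset ?_ ?_
    · intro n hn
      rw [hT, Finset.mem_filter] at hn
      exact Finset.mem_filter.mpr ⟨hn.1, hn.2.1⟩
    · intro n hn hn'
      rw [Finset.mem_filter] at hn
      have h2 : ¬ IsPrimePow n := fun h => hn' (by
        rw [hT]; exact Finset.mem_filter.mpr ⟨hn.1, hn.2, h⟩)
      rw [ArithmeticFunction.vonMangoldt_eq_zero_iff.mpr h2, zero_mul]
  have h2 : ∀ n ∈ T, Λ n * wt g x n ≤ Real.log x * (G / x ^ (1 / 2 : ℝ)) := by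
    intro n hn
    rw [hT, Finset.mem_filter, Finset.mem_Icc] at hn
    have hn1 : (1 : ℝ) ≤ n := by exact_mod_cast hn.1.1
    have hnx : (n : ℝ) ≤ x := (Nat.cast_le.mpr hn.1.2).trans (Nat.floor_le (by linarith))
    have hL : Λ n ≤ Real.log x := by
      refine (ArithmeticFunction.vonMangoldt_le_log (n := n)).trans ?_
      exact Real.log_le_log (by linarith) hnx
    have hw : wt g x n ≤ G / x ^ (1 / 2 : ℝ) := by
      by_cases h : (n : ℝ) ≤ x ^ (1 / 2 : ℝ)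
      · rw [wt_zero hg hx1 h]; positivity
      · rw [not_le] at h
        unfold wt
        exact div_le_div₀ hG0.le (hG _) hxs h.le
    exact mul_le_mul hL hw (wt_nonneg hg _ _) hlog.le
  rw [h1]
  refine (Finset.sum_le_sum h2).trans ?_
  rw [Finset.sum_const, nsmul_eq_mul]
  have h3 : (T.card : ℝ) ≤ d.primeFactors.card * (Nat.log 2 ⌊x⌋₊ : ℕ) := by
    exact_mod_cast card_primePow_le ⌊x⌋₊ d hd
  have h4 : (d.primeFactors.card : ℝ) ≤ 2 * Real.log x := by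
    refine (card_primeFactors_le_log hd).trans ?_
    have : Real.log d ≤ Real.log x := Real.log_le_log (by exact_mod_cast hd) hdx
    linarith
  have h5 : (T.card : ℝ) ≤ (2 * Real.log x) * (2 * Real.log x) :=
    h3.trans (mul_le_mul h4 (natlog_le hx) (Nat.cast_nonneg _) (by positivity))
  calc (T.card : ℝ) * (Real.log x * (G / x ^ (1 / 2 : ℝ)))
      ≤ ((2 * Real.log x) * (2 * Real.log x)) * (Real.log x * (G / x ^ (1 / 2 : ℝ))) :=
        mul_le_mul_of_nonneg_right h5 (by positivity)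
    _ = 4 * G * Real.log x ^ 3 / x ^ (1 / 2 : ℝ) := by ring

end BVsAux

open Pool.Agent.Helper51.BV in
theorem bvs (h1 : Small) (h2 : LargeS) : BVs := by
  intro ε hε0 hε4 g hgS A hA
  have hg : IsWt g := hgS.isWt (by linarith)
  obtain ⟨G, hG0, hG⟩ := hg.exists_bound
  obtain ⟨B, C1, X1, hB, hC1, hX1, hL⟩ := h2 ε hε0 hε4 g hgS (A + 2) (by linarith)
  obtain ⟨C2, X2, hC2, hX2, hS⟩ := h1 g hg (A + 2 + B) B (by linarith) hB
  have hev : ∀ᶠ x : ℝ in atTop, ‖Real.log x ^ (A + 3)‖ ≤ 1 * ‖x ^ ε‖ :=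
    (isLittleO_log_rpow_rpow_atTop (A + 3) hε0).bound one_pos
  obtain ⟨X3, hX3⟩ := Filter.eventually_atTop.mp hev
  refine ⟨4 * (C1 + C2) + 4 * G, max (max X1 X2) X3, by positivity,
    hX1.trans ((le_max_left _ _).trans (le_max_left _ _)), ?_⟩
  intro x hx c hc
  have hx1 : X1 ≤ x := ((le_max_left _ _).trans (le_max_left _ _)).trans hx
  have hx2 : X2 ≤ x := ((le_max_right _ _).trans (le_max_left _ _)).trans hx
  have hx3 : X3 ≤ x := (le_max_right _ _).trans hx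
  have h3x : 3 ≤ x := hX1.trans hx1
  have hx0 : 0 < x := by linarith
  set l : ℝ := Real.log x with hl
  have hl1 : 1 ≤ l := by
    rw [hl, Real.le_log_iff_exp_le hx0]
    linarith [Real.exp_one_lt_d9]
  have hl0 : 0 < l := by linarith
  set D : ℕ := ⌊x ^ (1 / 2 - ε)⌋₊ with hD
  have hDx : (D : ℝ) ≤ x ^ (1 / 2 - ε) := Nat.floor_le (Real.rpow_nonneg hx0.le _)
  have hDx' : (D : ℝ) ≤ x := by
    refine hDx.trans ?_
    calc x ^ (1 / 2 - ε) ≤ x ^ (1 : ℝ) :=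
          Real.rpow_le_rpow_of_exponent_le (by linarith) (by linarith)
      _ = x := Real.rpow_one x
  -- the large conductors
  have hLx := hL x hx1
  -- the small conductors
  set T : ℕ → ℝ := fun q => ∑ ψ ∈ prim q, ‖SS LaC g x ψ‖ with hT
  have hT0 : ∀ q, 0 ≤ T q := fun q => Finset.sum_nonneg fun _ _ => norm_nonneg _
  have hSx : ∑ q ∈ Ioc 1 ⌊l ^ B⌋₊, (1 / (q.totient : ℝ)) * T q ≤ C2 / l ^ (A + 2) := by
    have hterm : ∀ q ∈ Ioc 1 ⌊l ^ B⌋₊, (1 / (q.totient : ℝ)) * T q ≤ C2 / l ^ (A + 2 + B) := by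
      intro q hq
      rw [Finset.mem_Ioc] at hq
      have hq0 : 0 < q := by omega
      have hqB : (q : ℝ) ≤ l ^ B :=
        (Nat.cast_le.mpr hq.2).trans (Nat.floor_le (Real.rpow_nonneg hl0.le _))
      have p1 : (0 : ℝ) < q.totient := by exact_mod_cast Nat.totient_pos.2 hq0
      have h4 : T q ≤ (prim q).card • (C2 / l ^ (A + 2 + B)) :=
        Finset.sum_le_card_nsmul _ _ _ fun ψ hψ => hS x hx2 q hq.1 hqB ψ hψ
      rw [nsmul_eq_mul] at h4
      have h5 : T q ≤ q.totient * (C2 / l ^ (A + 2 + B)) :=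
        h4.trans (mul_le_mul_of_nonneg_right (card_prim_le q hq0) (by positivity))
      calc 1 / (q.totient : ℝ) * T q ≤ 1 / (q.totient : ℝ) * (q.totient * (C2 / l ^ (A + 2 + B))) :=
            mul_le_mul_of_nonneg_left h5 (by positivity)
        _ = C2 / l ^ (A + 2 + B) := by field_simp
    refine (Finset.sum_le_card_nsmul _ _ _ hterm).trans ?_
    rw [nsmul_eq_mul, Nat.card_Ioc]
    have h6 : ((⌊l ^ B⌋₊ - 1 : ℕ) : ℝ) ≤ l ^ B := by
      have h7 : ((⌊l ^ B⌋₊ - 1 : ℕ) : ℝ) ≤ (⌊l ^ B⌋₊ : ℕ) := by exact_mod_cast Nat.sub_le _ _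
      exact h7.trans (Nat.floor_le (Real.rpow_nonneg hl0.le _))
    calc ((⌊l ^ B⌋₊ - 1 : ℕ) : ℝ) * (C2 / l ^ (A + 2 + B)) ≤ l ^ B * (C2 / l ^ (A + 2 + B)) :=
          mul_le_mul_of_nonneg_right h6 (by positivity)
      _ = C2 / l ^ (A + 2) := by
          rw [Real.rpow_add hl0 (A + 2) B]
          have : 0 < l ^ B := Real.rpow_pos_of_pos hl0 _
          have : 0 < l ^ (A + 2) := Real.rpow_pos_of_pos hl0 _
          field_simp
  have hall : ∑ q ∈ Ioc 1 D, (1 / (q.totient : ℝ)) * T q ≤ (C1 + C2) / l ^ (A + 2) := by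
    have hsub : Ioc 1 D ⊆ Ioc 1 ⌊l ^ B⌋₊ ∪ Ioc ⌊l ^ B⌋₊ D := by
      intro q hq
      rw [Finset.mem_Ioc] at hq
      rw [Finset.mem_union, Finset.mem_Ioc, Finset.mem_Ioc]
      by_cases h : q ≤ ⌊l ^ B⌋₊
      · exact Or.inl ⟨hq.1, h⟩
      · exact Or.inr ⟨by omega, hq.2⟩
    have hnn : ∀ q, 0 ≤ (1 / (q.totient : ℝ)) * T q := fun q => mul_nonneg (by positivity) (hT0 q)
    calc ∑ q ∈ Ioc 1 D, (1 / (q.totient : ℝ)) * T q
        ≤ ∑ q ∈ Ioc 1 ⌊l ^ B⌋₊ ∪ Ioc ⌊l ^ B⌋₊ D, (1 / (q.totient : ℝ)) * T q :=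
          Finset.sum_le_sum_of_subset_of_nonneg hsub fun q _ _ => hnn q
      _ ≤ (∑ q ∈ Ioc 1 ⌊l ^ B⌋₊, (1 / (q.totient : ℝ)) * T q) +
          ∑ q ∈ Ioc ⌊l ^ B⌋₊ D, (1 / (q.totient : ℝ)) * T q := by
          rw [← Finset.sum_union_inter]
          exact le_add_of_nonneg_right (Finset.sum_nonneg fun q _ => hnn q)
      _ ≤ C2 / l ^ (A + 2) + C1 / l ^ (A + 2) := add_le_add hSx hLx
      _ = (C1 + C2) / l ^ (A + 2) := by ring
  -- the sum of 1 / φ
  have hphi : ∑ m ∈ Icc 1 D, (1 : ℝ) / m.totient ≤ 4 * l ^ 2 := by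
    refine (sum_inv_totient_le D).trans ?_
    have h7 : Real.log D ≤ l := by
      rcases Nat.eq_zero_or_pos D with h0 | h0
      · rw [h0]; simp; exact hl0.le
      · exact Real.log_le_log (by exact_mod_cast h0) hDx'
    have h9 : 0 ≤ Real.log D := Real.log_natCast_nonneg D
    nlinarith
  -- the integers not coprime to the modulus
  have hlA : 0 < l ^ A := Real.rpow_pos_of_pos hl0 _
  have hEE : ∑ d ∈ Icc 1 D, EE g x d ≤ 4 * G / l ^ A := by
    have h7 : ∀ d ∈ Icc 1 D, EE g x d ≤ 4 * G * l ^ 3 / x ^ (1 / 2 : ℝ) := by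
      intro d hd
      rw [Finset.mem_Icc] at hd
      refine BVsAux.EE_le' hg hG hG0 h3x d hd.1 ?_
      exact le_trans (by exact_mod_cast hd.2) hDx'
    refine (Finset.sum_le_card_nsmul _ _ _ h7).trans ?_
    rw [nsmul_eq_mul, Nat.card_Icc, Nat.add_sub_cancel]
    have hxs : 0 < x ^ (1 / 2 : ℝ) := Real.rpow_pos_of_pos hx0 _
    have h9 := hX3 x hx3
    rw [one_mul, Real.norm_of_nonneg (Real.rpow_nonneg hl0.le _),
      Real.norm_of_nonneg (Real.rpow_nonneg hx0.le _)] at h9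
    have h10 : x ^ (1 / 2 - ε) * x ^ ε = x ^ (1 / 2 : ℝ) := by
      rw [← Real.rpow_add hx0]; congr 1; ring
    have h11 : l ^ (A + 3) = l ^ A * l ^ 3 := by
      rw [Real.rpow_add hl0]; norm_num
    have h12 : (D : ℝ) * (l ^ A * l ^ 3) ≤ x ^ (1 / 2 : ℝ) := by
      rw [← h10, ← h11]
      exact mul_le_mul hDx h9 (Real.rpow_nonneg hl0.le _) (Real.rpow_nonneg hx0.le _)
    rw [le_div_iff₀ hlA]
    have h13 : (D : ℝ) * (4 * G * l ^ 3 / x ^ (1 / 2 : ℝ)) * l ^ A =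
        4 * G * ((D : ℝ) * (l ^ A * l ^ 3)) / x ^ (1 / 2 : ℝ) := by
      ring
    rw [h13, div_le_iff₀ hxs]
    exact mul_le_mul_of_nonneg_left h12 (by positivity)
  -- conclusion
  have h11 : l ^ (A + 2) = l ^ A * l ^ 2 := by
    rw [Real.rpow_add hl0]; norm_num
  calc ∑ d ∈ Icc 1 D,
        |∑ n ∈ (Icc 1 ⌊x⌋₊).filter (fun n => n ≡ c d [MOD d]), Λ n * wt g x n -
          (1 / (d.totient : ℝ)) * ∑ n ∈ Icc 1 ⌊x⌋₊, Λ n * wt g x n|
      ≤ ∑ d ∈ Icc 1 D, ((1 / (d.totient : ℝ)) * ∑ q ∈ d.divisors.filter (fun q => 1 < q),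
        ∑ ψ ∈ prim q, ‖SS LaC g x ψ‖ + EE g x d) := by
        refine Finset.sum_le_sum fun d hd => ?_
        exact one_modulus hg x (Finset.mem_Icc.mp hd).1 (hc d)
    _ = (∑ d ∈ Icc 1 D, (1 / (d.totient : ℝ)) * ∑ q ∈ d.divisors.filter (fun q => 1 < q),
        ∑ ψ ∈ prim q, ‖SS LaC g x ψ‖) + ∑ d ∈ Icc 1 D, EE g x d := Finset.sum_add_distrib
    _ ≤ (C1 + C2) / l ^ (A + 2) * (4 * l ^ 2) + 4 * G / l ^ A := by
        refine add_le_add ((swap g x D).trans ?_) hEE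
        refine mul_le_mul hall hphi (Finset.sum_nonneg fun m _ => by positivity) (by positivity)
    _ = (4 * (C1 + C2) + 4 * G) / l ^ A := by
        rw [h11]
        field_simp

end Pool.Agent.Helper34.CA
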