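import Pool.Agent.Helper34.CA.St

/-!
# Project CA (MP_87fff7_nt), module CountC

F3. `CountC`. For `t ∈ T` and `v` in the filtered set put `m = ∏ v_i ∏ t_i`. Then `m ≡ (∏r_i) a
≡ 1 mod M`; `p ∣ v_i` gives `p - 1 ∣ M ∣ m - 1`; `t_i - 1 = g D`, `D = rgh w (t_i-1) ∣ DD w t ∣
m - 1` (`m ≡ c ∏t ≡ 1`), `g ∣ M ∣ m - 1` (the part of primes `≤ y`), `g, D` coprime. `m` is
squarefree (the `v_i` are pairwise coprime with primes `≤ √x`, the `t_i` distinct primes `> √x`),
not prime, `m ≤ X^J x^4`. The map `(t, v) ↦ m` is at most `24`-to-one: the `t_i` are the primes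
`> √x` of `m` in some order, and `v` is determined by `∏ v_i` (pairwise coprimality across
different `i` of all elements).
-/

set_option autoImplicit false

open Finset Filter Topology
open scoped ArithmeticFunction.vonMangoldt

namespace Pool.Agent.Helper34.CA

open Pool.Agent.Helper18.BV

namespace CountCAux

theorem sqf_prod {ι : Type*} (s : Finset ι) (f : ι → ℕ) (h1 : ∀ i ∈ s, Squarefree (f i))
    (h2 : ∀ i ∈ s, ∀ j ∈ s, i ≠ j → Nat.Coprime (f i) (f j)) : Squarefree (∏ i ∈ s, f i) := by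
  classical
  induction s using Finset.induction_on with
  | empty => simp
  | insert a s ha ih =>
    rw [Finset.prod_insert ha]
    have hc : Nat.Coprime (f a) (∏ i ∈ s, f i) := by
      apply Nat.Coprime.prod_right
      intro i hi
      exact h2 a (mem_insert_self _ _) i (mem_insert_of_mem hi) (fun h => ha (h ▸ hi))
    rw [Nat.squarefree_mul hc]
    exact ⟨h1 a (mem_insert_self _ _), ih (fun i hi => h1 i (mem_insert_of_mem hi))
      (fun i hi j hj => h2 i (mem_insert_of_mem hi) j (mem_insert_of_mem hj))⟩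

theorem pow_dvd_rgh (w : ℝ) (m q k : ℕ) (hm : m ≠ 0) (hq : q.Prime) (hqw : w < q)
    (hk : k ≠ 0) (h : q ^ k ∣ m) : q ^ k ∣ rgh w m := by
  classical
  unfold rgh
  have hmem : q ∈ m.primeFactors.filter (fun p : ℕ => w < (p : ℝ)) := by
    rw [mem_filter]
    exact ⟨Nat.mem_primeFactors.2 ⟨hq, (dvd_pow_self q hk).trans h, hm⟩, hqw⟩
  refine Dvd.dvd.trans ?_ (Finset.dvd_prod_of_mem (fun p => p ^ m.factorization p) hmem)
  exact pow_dvd_pow q ((hq.pow_dvd_iff_le_factorization hm).1 h)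

theorem eq_of_prod_eq {J : ℕ} (A : Fin J → Finset ℕ)
    (hcop : ∀ i j, i ≠ j → ∀ n ∈ A i, ∀ n' ∈ A j, Nat.Coprime n n') (v v' : Fin J → ℕ)
    (hv : ∀ i, v i ∈ A i) (hv' : ∀ i, v' i ∈ A i) (h : ∏ i, v i = ∏ i, v' i) : v = v' := by
  have key : ∀ u u' : Fin J → ℕ, (∀ i, u i ∈ A i) → (∀ i, u' i ∈ A i) →
      ∏ i, u i = ∏ i, u' i → ∀ i, u i ∣ u' i := by
    intro u u' hu hu' he i
    have h1 : u i ∣ ∏ i, u' i := by
      rw [← he]
      exact Finset.dvd_prod_of_mem u (mem_univ i)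
    rw [← Finset.mul_prod_erase univ u' (mem_univ i)] at h1
    refine Nat.Coprime.dvd_of_dvd_mul_right ?_ h1
    apply Nat.Coprime.prod_right
    intro j hj
    exact hcop i j (fun e => (mem_erase.1 hj).1 e.symm) _ (hu i) _ (hu' j)
  funext i
  exact Nat.dvd_antisymm (key v v' hv hv' h i) (key v' v hv' hv h.symm i)

theorem exists_perm (s : ℝ) (t t0 : Fin 4 → ℕ) (V V0 : ℕ) (ht : ∀ i, (t i).Prime)
    (ht0 : ∀ i, (t0 i).Prime) (hs : ∀ i, s < t i) (hV0 : ∀ p : ℕ, p.Prime → p ∣ V0 → (p : ℝ) ≤ s)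
    (hinj : ∀ i j, i ≠ j → t i ≠ t j) (h : V * ∏ i, t i = V0 * ∏ i, t0 i) :
    ∃ σ : Equiv.Perm (Fin 4), t = t0 ∘ σ := by
  have h1 : ∀ i, ∃ j, t i = t0 j := by
    intro i
    have hd : t i ∣ V0 * ∏ i, t0 i := by
      rw [← h]
      exact Dvd.dvd.mul_left (Finset.dvd_prod_of_mem t (mem_univ i)) _
    rcases (ht i).dvd_mul.1 hd with h2 | h2
    · exact absurd (hV0 _ (ht i) h2) (not_le.2 (hs i))
    · obtain ⟨j, -, hj⟩ := (Nat.Prime.prime (ht i)).exists_mem_finset_dvd h2
      exact ⟨j, (Nat.prime_dvd_prime_iff_eq (ht i) (ht0 j)).1 hj⟩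
  choose σ hσ using h1
  have hσi : Function.Injective σ := by
    intro i j hij
    by_contra hne
    exact hinj i j hne (by rw [hσ i, hσ j, hij])
  have hb : Function.Bijective σ := Finite.injective_iff_bijective.1 hσi
  refine ⟨Equiv.ofBijective σ hb, ?_⟩
  funext i
  simp only [Function.comp_apply, Equiv.ofBijective_apply]
  exact hσ i

end CountCAux

open CountCAux

theorem countC (h : Kors) : CountC := by
  classical
  intro x y w M J X A r a T c hx hy hyw hM hA hcop hra hT S hS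
  set V : (Fin 4 → ℕ) → Finset (Fin J → ℕ) :=
    fun t => (Fintype.piFinset A).filter (fun v => ∏ i, v i ≡ c t [MOD DD w t]) with hVdef
  set F : (Σ _ : Fin 4 → ℕ, Fin J → ℕ) → ℕ := fun p => (∏ i, p.2 i) * ∏ i, p.1 i with hFdef
  have hx0 : (0 : ℝ) ≤ x := by linarith
  -- properties of the elements
  have hVp : ∀ v : Fin J → ℕ, (∀ i, v i ∈ A i) → ∀ p : ℕ, p.Prime → p ∣ ∏ i, v i →
      p - 1 ∣ M ∧ (p : ℝ) ≤ x ^ (1 / 2 : ℝ) := by
    intro v hv p hp hpd
    obtain ⟨j, -, hj⟩ := (Nat.Prime.prime hp).exists_mem_finset_dvd hpd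
    exact (hA j (v j) (hv j)).2.2.2.2 p hp hj
  have hmem : ∀ p ∈ T.sigma V, F p ∈ S := by
    rintro ⟨t, v⟩ hp
    rw [mem_sigma] at hp
    obtain ⟨htT, hvV⟩ := hp
    simp only [hVdef, mem_filter, Fintype.mem_piFinset] at hvV htT
    obtain ⟨hv, hvc⟩ := hvV
    obtain ⟨hN, hta, hadm, hct⟩ := hT t htT
    have htp : ∀ i, (t i).Prime := fun i => (hN i).1
    have hv1 : ∀ i, 1 ≤ v i := fun i => (hA i (v i) (hv i)).1
    have hvpos : 0 < ∏ i, v i := Finset.prod_pos (fun i _ => hv1 i)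
    have htpos : 0 < ∏ i, t i := Finset.prod_pos (fun i _ => (htp i).pos)
    have hmpos : 0 < (∏ i, v i) * ∏ i, t i := Nat.mul_pos hvpos htpos
    have htd : ∀ i, t i ∣ (∏ i, v i) * ∏ i, t i := fun i =>
      Dvd.dvd.mul_left (Finset.dvd_prod_of_mem t (mem_univ i)) _
    -- congruences
    have hvr : ∏ i, v i ≡ ∏ i, r i [MOD M] := by
      have : ∀ s : Finset (Fin J), ∏ i ∈ s, v i ≡ ∏ i ∈ s, r i [MOD M] := by
        intro s
        induction s using Finset.induction_on with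
        | empty => simp [Nat.ModEq]
        | insert b s hb ih =>
          rw [Finset.prod_insert hb, Finset.prod_insert hb]
          exact Nat.ModEq.mul (hA b (v b) (hv b)).2.2.2.1 ih
      exact this univ
    have hmM : (∏ i, v i) * ∏ i, t i ≡ 1 [MOD M] := (Nat.ModEq.mul hvr hta).trans hra
    have hmD : (∏ i, v i) * ∏ i, t i ≡ 1 [MOD DD w t] :=
      (Nat.ModEq.mul_right _ hvc).trans hct
    have hdM : M ∣ (∏ i, v i) * ∏ i, t i - 1 := (Nat.modEq_iff_dvd' hmpos).1 hmM.symm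
    have hdD : DD w t ∣ (∏ i, v i) * ∏ i, t i - 1 := (Nat.modEq_iff_dvd' hmpos).1 hmD.symm
    have h1m : 1 < (∏ i, v i) * ∏ i, t i :=
      lt_of_lt_of_le (htp 0).one_lt (Nat.le_of_dvd hmpos (htd 0))
    have hnp : ¬ ((∏ i, v i) * ∏ i, t i).Prime := by
      intro hpr
      have e0 := (Nat.prime_dvd_prime_iff_eq (htp 0) hpr).1 (htd 0)
      have e1 := (Nat.prime_dvd_prime_iff_eq (htp 1) hpr).1 (htd 1)
      exact (hadm.1 0 1 (by decide)).1 (e0.trans e1.symm)
    have hsq : Squarefree ((∏ i, v i) * ∏ i, t i) := by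
      have hc : Nat.Coprime (∏ i, v i) (∏ i, t i) := by
        apply Nat.Coprime.prod_right
        intro i _
        rw [Nat.coprime_comm, (htp i).coprime_iff_not_dvd]
        intro hd
        exact absurd (hVp v hv _ (htp i) hd).2 (not_le.2 (hN i).2.1)
      rw [Nat.squarefree_mul hc]
      refine ⟨sqf_prod _ _ (fun i _ => (hA i (v i) (hv i)).2.2.1)
        (fun i _ j _ hij => hcop i j hij _ (hv i) _ (hv j)),
        sqf_prod _ _ (fun i _ => (htp i).squarefree)
        (fun i _ j _ hij => (Nat.coprime_primes (htp i) (htp j)).2 (hadm.1 i j hij).1)⟩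
    have hdiv : ∀ p : ℕ, p.Prime → p ∣ (∏ i, v i) * ∏ i, t i →
        p - 1 ∣ (∏ i, v i) * ∏ i, t i - 1 := by
      intro p hp hpd
      rcases hp.dvd_mul.1 hpd with h2 | h2
      · exact (hVp v hv p hp h2).1.trans hdM
      · obtain ⟨i, -, hi⟩ := (Nat.Prime.prime hp).exists_mem_finset_dvd h2
        rw [(Nat.prime_dvd_prime_iff_eq hp (htp i)).1 hi]
        rw [Nat.dvd_iff_prime_pow_dvd_dvd]
        intro q k hq hqk
        rcases Nat.eq_zero_or_pos k with hk | hk
        · rw [hk, pow_zero]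
          exact one_dvd _
        · have hqd : q ∣ t i - 1 := (dvd_pow_self q hk.ne').trans hqk
          have ht1 : t i - 1 ≠ 0 := by
            have := (htp i).one_lt
            omega
          rcases (hN i).2.2.2.1 q hq hqd with h3 | h3
          · exact ((hN i).2.2.2.2 q k hq h3 hqk).trans hdM
          · refine (pow_dvd_rgh w (t i - 1) q k ht1 hq h3 hk.ne' hqk).trans (Dvd.dvd.trans ?_ hdD)
            exact Finset.dvd_prod_of_mem (fun i => rgh w (t i - 1)) (mem_univ i)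
    have hle : (((∏ i, v i) * ∏ i, t i : ℕ) : ℝ) ≤ (X : ℝ) ^ J * x ^ 4 := by
      rw [Nat.cast_mul, Nat.cast_prod, Nat.cast_prod]
      have e1 : ∏ i, (v i : ℝ) ≤ (X : ℝ) ^ J := by
        have := Finset.prod_le_prod (s := (univ : Finset (Fin J))) (f := fun i => (v i : ℝ))
          (g := fun _ => (X : ℝ)) (fun i _ => Nat.cast_nonneg _)
          (fun i _ => by exact_mod_cast (hA i (v i) (hv i)).2.1)
        simpa using this
      have e2 : ∏ i, (t i : ℝ) ≤ x ^ 4 := by
        have := Finset.prod_le_prod (s := (univ : Finset (Fin 4))) (f := fun i => (t i : ℝ))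
          (g := fun _ => x) (fun i _ => Nat.cast_nonneg _) (fun i _ => (hN i).2.2.1)
        simpa using this
      exact mul_le_mul e1 e2 (Finset.prod_nonneg (fun i _ => Nat.cast_nonneg _))
        (pow_nonneg (Nat.cast_nonneg _) _)
    exact (hS _).2 ⟨h _ h1m hnp hsq hdiv, hle⟩
  have hfib : ∀ n ∈ S, ((T.sigma V).filter (fun p => F p = n)).card ≤ 24 := by
    intro n _
    rcases ((T.sigma V).filter (fun p => F p = n)).eq_empty_or_nonempty with he | ⟨⟨t0, v0⟩, h0⟩
    · rw [he]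
      simp
    · rw [mem_filter, mem_sigma] at h0
      obtain ⟨⟨ht0T, hv0V⟩, hF0⟩ := h0
      simp only [hVdef, mem_filter, Fintype.mem_piFinset] at hv0V ht0T
      obtain ⟨hv0, -⟩ := hv0V
      obtain ⟨hN0, -, hadm0, -⟩ := hT t0 ht0T
      have hsub : (T.sigma V).filter (fun p => F p = n) ⊆
          (univ : Finset (Equiv.Perm (Fin 4))).image
            (fun σ : Equiv.Perm (Fin 4) => (⟨t0 ∘ ⇑σ, v0⟩ : Σ _ : Fin 4 → ℕ, Fin J → ℕ)) := by
        rintro ⟨t, v⟩ hp
        rw [mem_filter, mem_sigma] at hp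
        obtain ⟨⟨htT, hvV⟩, hF⟩ := hp
        simp only [hVdef, mem_filter, Fintype.mem_piFinset] at hvV htT
        obtain ⟨hv, -⟩ := hvV
        obtain ⟨hN, -, hadm, -⟩ := hT t htT
        simp only [hFdef] at hF hF0
        have heq : (∏ i, v i) * ∏ i, t i = (∏ i, v0 i) * ∏ i, t0 i := by
          rw [hF, hF0]
        obtain ⟨σ, hσ⟩ := exists_perm (x ^ (1 / 2 : ℝ)) t t0 _ _ (fun i => (hN i).1)
          (fun i => (hN0 i).1) (fun i => (hN i).2.1)
          (fun p hp hpd => (hVp v0 hv0 p hp hpd).2) (fun i j hij => (hadm.1 i j hij).1) heq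
        have hpt : ∏ i, t i = ∏ i, t0 i := by
          rw [hσ]
          exact Equiv.prod_comp σ t0
        have ht0pos : 0 < ∏ i, t0 i := Finset.prod_pos (fun i _ => (hN0 i).1.pos)
        have hpv : ∏ i, v i = ∏ i, v0 i := by
          rw [hpt] at heq
          exact Nat.eq_of_mul_eq_mul_right ht0pos heq
        have hvv : v = v0 := eq_of_prod_eq A hcop v v0 hv hv0 hpv
        rw [mem_image]
        refine ⟨σ, mem_univ _, ?_⟩
        rw [hvv, hσ]
      refine (Finset.card_le_card hsub).trans (Finset.card_image_le.trans ?_)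
      rw [Finset.card_univ, Fintype.card_perm, Fintype.card_fin]
      decide
  have hcard : (T.sigma V).card ≤ 24 * S.card :=
    Finset.card_le_mul_card_image_of_maps_to hmem 24 hfib
  rw [Finset.card_sigma] at hcard
  exact_mod_cast hcard

end Pool.Agent.Helper34.CA
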