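import Pool.Agent.Helper34.CA.MainD
import Pool.Agent.Helper11.CN.CountG

/-!
# Project CA: the main theorem
-/

set_option autoImplicit false

open Finset Filter Topology

namespace Pool.Agent.Helper34.CA

open Pool.Agent.Helper18.BV

theorem countG : CountG := Pool.Agent.Helper11.CN.countG

theorem quad_ev (h1 : QuadLB) {κ κ₁ κ₂ : ℝ} (k0 : 0 < κ) (k1 : κ < κ₁) (k2 : κ₁ < κ₂)
    (k3 : κ₂ < 1) : ∃ b0 : ℕ, ∀ᶠ l : ℝ in atTop, QuadAt κ κ₁ κ₂ b0 l := by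
  obtain ⟨b0, X0, _, h⟩ := h1 κ κ₁ κ₂ k0 k1 k2 k3
  refine ⟨b0, ?_⟩
  filter_upwards [Real.tendsto_exp_atTop.eventually_ge_atTop X0] with l hl
  intro M hM hM1 hq1 hq2
  have h2 := h (Real.exp l) hl M hM (by rwa [Real.log_exp]) (by rwa [Real.log_exp])
    (by rwa [Real.log_exp])
  simpa only [Real.log_exp] using h2

/-- The local form of the main theorem, `z = l ^ β`, `N = exp ((K + 4) l)`. -/
theorem loc (h1 : QuadLB) (h2 : PhiTail) (h3 : Equi) (h4 : SwapT) (h5 : BadT) (h6 : Pop)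
    (h7 : CountG) {θ ε : ℝ} (hθ : 0 < θ) (hθ2 : θ < 1 / 2) (hε : 0 < ε) :
    ∃ δ β K : ℝ, 0 < δ ∧ 1 < β ∧ 0 < K ∧ ∀ᶠ l : ℝ in atTop,
      ∀ f : ℕ → ℕ, (∀ p : ℕ, p.Prime → f p ∣ p - 1) → ∀ P0 : Finset ℕ,
      (∀ p ∈ P0, p.Prime ∧ (p : ℝ) ≤ l ^ β ∧
        ∀ q : ℕ, q.Prime → q ∣ f p → (q : ℝ) ≤ (l ^ β) ^ θ) →
      (l ^ β) ^ (1 - δ) ≤ (P0.card : ℝ) → ∀ S : Finset ℕ,
      (∀ n, n ∈ S ↔ IsG f ((l ^ β) ^ θ) n ∧ (n : ℝ) ≤ Real.exp ((K + 4) * l)) →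
      Real.exp ((1 - θ - ε) * ((K + 4) * l)) ≤ S.card := by
  obtain ⟨δ, hδdef⟩ : ∃ δ : ℝ, δ = min (1 / 100) (min ((1 / 2 - θ) / 8) (ε / 40)) := ⟨_, rfl⟩
  have hδ : 0 < δ := by
    rw [hδdef]
    refine lt_min (by norm_num) (lt_min ?_ ?_)
    · linarith
    · linarith
  have hδ2 : δ ≤ 1 / 100 := by rw [hδdef]; exact min_le_left _ _
  have hδθ : 8 * δ ≤ 1 / 2 - θ := by
    have : δ ≤ (1 / 2 - θ) / 8 := by
      rw [hδdef]; exact (min_le_right _ _).trans (min_le_left _ _)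
    linarith
  have hδε : 40 * δ ≤ ε := by
    have : δ ≤ ε / 40 := by
      rw [hδdef]; exact (min_le_right _ _).trans (min_le_right _ _)
    linarith
  obtain ⟨e, he⟩ : ∃ e : ℝ, e = δ / 16 := ⟨_, rfl⟩
  obtain ⟨β, hβ⟩ : ∃ β : ℝ, β = (1 - 4 * e) / θ := ⟨_, rfl⟩
  obtain ⟨K, hKdef⟩ : ∃ K : ℝ, K = max 64 (10 / ε) := ⟨_, rfl⟩
  have hK : 64 ≤ K := by rw [hKdef]; exact le_max_left _ _
  have hKε : 10 ≤ ε * K := by
    have : 10 / ε ≤ K := by rw [hKdef]; exact le_max_right _ _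
    rw [div_le_iff₀ hε] at this
    linarith
  have he0 : 0 < e := by rw [he]; positivity
  have he1 : e ≤ 1 / 1600 := by rw [he]; linarith
  have hβθ : β * θ = 1 - 4 * e := by rw [hβ]; field_simp
  have hβ1 : 1 < β := by
    rw [hβ, lt_div_iff₀ hθ]
    linarith
  obtain ⟨CT, _, hCT⟩ := h2
  obtain ⟨b0, hQ⟩ := quad_ev h1 (κ := 1 - 4 * e) (κ₁ := 1 - 3 * e) (κ₂ := 1 - e)
    (by linarith) (by linarith) (by linarith) (by linarith)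
  refine ⟨δ, β, K, hδ, hβ1, by linarith, ?_⟩
  filter_upwards [atoms (b0 := b0) (CT := CT) hθ hθ2 hδ hδ2 he hβ hK, hQ] with l hat hQl
  intro f hf P0 hP0 hP0c S hS
  have l0 : 0 < l := by linarith [hat.big]
  have hy : (l ^ β) ^ θ = l ^ (1 - 4 * e) := by rw [← Real.rpow_mul l0.le, hβθ]
  have hS' : ∀ n, n ∈ S ↔ IsG f (l ^ (1 - 4 * e)) n ∧ (n : ℝ) ≤ Real.exp ((K + 4) * l) := by
    rw [← hy]
    exact hS
  have key := step h4 h5 h3 h6 h7 hCT hf hθ hδ hδ2 hδθ he hβ hK hat hP0 hP0c hQl hS'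
  refine le_trans (Real.exp_le_exp.2 ?_) key
  have e1 := hat.a15
  have e2 : (1 - θ - ε) * ((K + 4) * l) = ((1 - θ - ε) * (K + 4)) * l := by ring
  have e3 : (1 - θ - 5 * δ) * (K * l) = ((1 - θ - 5 * δ) * K) * l := by ring
  have e4 : (1 - θ - ε) * (K + 4) + 4 ≤ (1 - θ - 5 * δ) * K := by
    have e5 : 40 * δ * K ≤ ε * K := mul_le_mul_of_nonneg_right hδε (by linarith)
    nlinarith
  have e6 : ((1 - θ - ε) * (K + 4) + 4) * l ≤ ((1 - θ - 5 * δ) * K) * l :=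
    mul_le_mul_of_nonneg_right e4 l0.le
  rw [e2, e3]
  linarith

/-- The local form of the main theorem. -/
def MainLoc : Prop :=
  ∀ θ ε : ℝ, 0 < θ → θ < 1 / 2 → 0 < ε → ∃ (η z₀ : ℝ) (Nz : ℝ → ℕ), 0 < η ∧ 1 ≤ z₀ ∧
    (∀ z : ℝ, z₀ ≤ z → z ≤ Nz z) ∧
    ∀ z : ℝ, z₀ ≤ z → ∀ f : ℕ → ℕ, (∀ p : ℕ, p.Prime → f p ∣ p - 1) → ∀ P0 : Finset ℕ,
      (∀ p ∈ P0, p.Prime ∧ (p : ℝ) ≤ z ∧ ∀ q : ℕ, q.Prime → q ∣ f p → (q : ℝ) ≤ z ^ θ) →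
      z ^ (1 - η) ≤ (P0.card : ℝ) → ∀ S : Finset ℕ,
      (∀ n, n ∈ S ↔ n ≤ Nz z ∧ IsG f (z ^ θ) n) → (Nz z : ℝ) ^ (1 - θ - ε) ≤ (S.card : ℝ)

/-- The main theorem for all large `N`. -/
def MainAll : Prop :=
  ∀ θ ε : ℝ, 0 < θ → θ < 1 / 2 → 0 < ε → ∃ η : ℝ, 0 < η ∧
    ∀ f : ℕ → ℕ, (∀ p : ℕ, p.Prime → f p ∣ p - 1) →
      (∃ z₀ : ℝ, ∀ z : ℝ, z₀ ≤ z → ∃ P0 : Finset ℕ,
        (∀ p ∈ P0, p.Prime ∧ (p : ℝ) ≤ z ∧ ∀ q : ℕ, q.Prime → q ∣ f p → (q : ℝ) ≤ z ^ θ) ∧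
        z ^ (1 - η) ≤ (P0.card : ℝ)) →
      ∀ V : ℝ, ∃ N₀ : ℕ, ∀ N : ℕ, N₀ ≤ N → ∀ S : Finset ℕ,
        (∀ n, n ∈ S ↔ n ≤ N ∧ IsG f V n) → (N : ℝ) ^ (1 - θ - ε) ≤ (S.card : ℝ)

theorem mainAll (h1 : QuadLB) (h2 : PhiTail) (h3 : Equi) (h4 : SwapT) (h5 : BadT) (h6 : Pop)
    (h7 : CountG) : MainAll := by
  classical
  intro θ ε hθ hθ2 hε
  obtain ⟨δ, β, K, hδ, hβ, hK, hloc⟩ := loc h1 h2 h3 h4 h5 h6 h7 hθ hθ2 hε
  refine ⟨δ, hδ, ?_⟩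
  rintro f hf ⟨z₀, hz₀⟩ V
  have hβ0 : 0 < β := by linarith
  have t1 : Tendsto (fun l : ℝ => l ^ β) atTop atTop := tendsto_rpow_atTop hβ0
  have t2 : Tendsto (fun l : ℝ => (l ^ β) ^ θ) atTop atTop := (tendsto_rpow_atTop hθ).comp t1
  have hev : ∀ᶠ l : ℝ in atTop, ∀ S : Finset ℕ,
      (∀ n, n ∈ S ↔ IsG f V n ∧ (n : ℝ) ≤ Real.exp ((K + 4) * l)) →
      Real.exp ((1 - θ - ε) * ((K + 4) * l)) ≤ S.card := by
    filter_upwards [hloc, t1.eventually_ge_atTop z₀, t2.eventually_ge_atTop V] with l b1 b2 b3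
    intro S hS
    obtain ⟨P0, hP0, hP0c⟩ := hz₀ _ b2
    have e1 := b1 f hf P0 hP0 hP0c (S.filter (fun n => IsG f ((l ^ β) ^ θ) n)) (by
      intro n
      rw [Finset.mem_filter, hS]
      constructor
      · exact fun h => ⟨h.2, h.1.2⟩
      · rintro ⟨⟨c1, c2, c3, c4⟩, h2⟩
        exact ⟨⟨⟨c1, c2, c3, fun p hp hpn => ⟨(c4 p hp hpn).1, lt_of_le_of_lt b3 (c4 p hp hpn).2⟩⟩,
          h2⟩, ⟨c1, c2, c3, c4⟩⟩)
    exact e1.trans (by exact_mod_cast Finset.card_filter_le _ _)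
  have t3 : Tendsto (fun N : ℕ => Real.log N / (K + 4)) atTop atTop :=
    (Real.tendsto_log_atTop.comp tendsto_natCast_atTop_atTop).atTop_div_const (by linarith)
  obtain ⟨N₀, hN₀⟩ := eventually_atTop.1 ((t3.eventually hev).and (eventually_ge_atTop 1))
  refine ⟨N₀, fun N hN S hS => ?_⟩
  obtain ⟨b1, b2⟩ := hN₀ N hN
  have hN0 : (0 : ℝ) < N := by exact_mod_cast b2
  have e1 : (K + 4) * (Real.log N / (K + 4)) = Real.log N := by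
    field_simp
  have e2 := b1 S (by
    intro n
    rw [hS, e1, Real.exp_log hN0]
    constructor
    · exact fun h => ⟨h.2, by exact_mod_cast h.1⟩
    · exact fun h => ⟨by exact_mod_cast h.2, h.1⟩)
  rw [e1] at e2
  rw [exp_of_log hN0, mul_comm]
  exact e2

theorem mainLoc (h1 : QuadLB) (h2 : PhiTail) (h3 : Equi) (h4 : SwapT) (h5 : BadT) (h6 : Pop)
    (h7 : CountG) : MainLoc := by
  classical
  intro θ ε hθ hθ2 hε
  obtain ⟨ε', hε'⟩ : ∃ ε' : ℝ, ε' = min ε (1 / 4) := ⟨_, rfl⟩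
  have he1 : 0 < ε' := by rw [hε']; exact lt_min hε (by norm_num)
  have he2 : ε' ≤ ε := by rw [hε']; exact min_le_left _ _
  have he3 : ε' ≤ 1 / 4 := by rw [hε']; exact min_le_right _ _
  obtain ⟨δ, β, K, hδ, hβ, hK, hloc⟩ := loc h1 h2 h3 h4 h5 h6 h7 hθ hθ2 he1
  have hβ0 : 0 < β := by linarith
  have t1 : Tendsto (fun z : ℝ => z ^ (1 / β)) atTop atTop := tendsto_rpow_atTop (by positivity)
  have t2 : ∀ᶠ l : ℝ in atTop, l ^ β + 1 ≤ Real.exp ((K + 4) * l) := by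
    filter_upwards [ev_log (β + 1) one_pos, eventually_ge_atTop (2 : ℝ)] with l b1 b2
    rw [Real.rpow_one] at b1
    have l0 : 0 < l := by linarith
    have e1 : l ^ β + 1 ≤ l ^ (β + 1) := by
      rw [Real.rpow_add l0, Real.rpow_one]
      have : 1 ≤ l ^ β := Real.one_le_rpow (by linarith) hβ0.le
      nlinarith
    refine e1.trans ?_
    rw [exp_of_log l0]
    refine Real.exp_le_exp.2 ?_
    nlinarith
  obtain ⟨z₀, hz₀⟩ := eventually_atTop.1 ((t1.eventually (hloc.and t2)).and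
    (eventually_ge_atTop (1 : ℝ)))
  refine ⟨δ, max z₀ 1, fun z => ⌊Real.exp ((K + 4) * z ^ (1 / β))⌋₊, hδ, le_max_right _ _, ?_, ?_⟩
  · intro z hz
    obtain ⟨⟨_, b2⟩, b3⟩ := hz₀ z ((le_max_left _ _).trans hz)
    have z0 : 0 ≤ z := by linarith
    have e1 : (z ^ (1 / β)) ^ β = z := by
      rw [← Real.rpow_mul z0, one_div_mul_cancel hβ0.ne', Real.rpow_one]
    rw [e1] at b2
    have := Nat.lt_floor_add_one (Real.exp ((K + 4) * z ^ (1 / β)))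
    linarith
  · intro z hz f hf P0 hP0 hP0c S hS
    obtain ⟨⟨b1, b2⟩, b3⟩ := hz₀ z ((le_max_left _ _).trans hz)
    have z0 : 0 ≤ z := by linarith
    have e1 : (z ^ (1 / β)) ^ β = z := by
      rw [← Real.rpow_mul z0, one_div_mul_cancel hβ0.ne', Real.rpow_one]
    rw [e1] at b1 b2
    obtain ⟨E, hE⟩ : ∃ E : ℝ, E = Real.exp ((K + 4) * z ^ (1 / β)) := ⟨_, rfl⟩
    have hE0 : 0 < E := by rw [hE]; exact Real.exp_pos _
    rw [← hE] at b2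
    have e2 := b1 f hf P0 hP0 hP0c S (by
      intro n
      rw [hS, ← hE, Nat.le_floor_iff (by rw [← hE]; exact hE0.le), ← hE]
      exact and_comm)
    change (⌊Real.exp ((K + 4) * z ^ (1 / β))⌋₊ : ℝ) ^ (1 - θ - ε) ≤ (S.card : ℝ)
    rw [← hE]
    have e3 : (1 : ℝ) ≤ ⌊E⌋₊ := by
      have : 1 ≤ ⌊E⌋₊ := Nat.le_floor (by push_cast; linarith)
      exact_mod_cast this
    have e4 : (⌊E⌋₊ : ℝ) ≤ E := Nat.floor_le hE0.le
    calc (⌊E⌋₊ : ℝ) ^ (1 - θ - ε) ≤ (⌊E⌋₊ : ℝ) ^ (1 - θ - ε') :=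
          Real.rpow_le_rpow_of_exponent_le e3 (by linarith)
      _ ≤ E ^ (1 - θ - ε') := Real.rpow_le_rpow (by linarith) e4 (by linarith)
      _ = Real.exp ((1 - θ - ε') * ((K + 4) * z ^ (1 / β))) := by
          rw [exp_of_log hE0, hE, Real.log_exp, mul_comm]
      _ ≤ S.card := e2

theorem main (h : MainAll) (hk : Kors) : Main := by
  classical
  intro θ hθ hθ2 hSm ε hε
  obtain ⟨η, hη, h1⟩ := h θ ε hθ hθ2 hε
  obtain ⟨z₀, hz₀⟩ := hSm η hη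
  obtain ⟨N₀, hN₀⟩ := h1 (fun p => p - 1) (fun p _ => dvd_refl _) ⟨z₀, fun z hz => by
    refine ⟨(Icc 1 ⌊z⌋₊).filter (fun p : ℕ => p.Prime ∧ (p : ℝ) ≤ z ∧
      ∀ q : ℕ, q.Prime → q ∣ p - 1 → (q : ℝ) ≤ z ^ θ), ?_, ?_⟩
    · intro p hp
      exact (Finset.mem_filter.1 hp).2
    · refine hz₀ z hz _ fun p => ?_
      rw [Finset.mem_filter, Finset.mem_Icc]
      constructor
      · exact fun h => h.2
      · exact fun h => ⟨⟨h.1.one_le, Nat.le_floor h.2.1⟩, h⟩⟩ 0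
  refine ⟨N₀, fun N hN S hS => ?_⟩
  have e1 := hN₀ N hN (S.filter (fun n => IsG (fun p => p - 1) 0 n)) (by
    intro n
    rw [Finset.mem_filter, hS]
    constructor
    · exact fun h => ⟨h.1.2, h.2⟩
    · intro h
      refine ⟨⟨hk n h.2.1 h.2.2.1 h.2.2.2.1 fun p hp hpn => (h.2.2.2.2 p hp hpn).1, h.1⟩, h.2⟩)
  exact e1.trans (by exact_mod_cast Finset.card_filter_le _ _)

end Pool.Agent.Helper34.CA
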