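import Pool.Agent.Helper34.CA.St
import Pool.Agent.Helper44.MertensProd
import Pool.Agent.Helper44.MertensInterval
import Pool.Agent.Helper51.BV.Average

/-!
# Project CA (MP_87fff7_nt), module NiceApprox

C2a. `NiceApprox`. `l = log x`, `y = l^κ`, `w = exp (l^{κ₂})`, `P` = primes in `(y, w]`,
`r = ⌈K log l⌉`, `𝒯 = {T ⊆ P : |T| ≤ r}`; `∏ T ≤ w^r ≤ x^{1/80}` for `x` large. Mertens:
`S₁ := ∑_{p ∈ P} 1/(p-1) ≤ C₁ log l` (`sum_primesUpTo_bounds`), so
`∑_{|T| = r+1} ∏ 1/(p-1) ≤ S₁^{r+1}/(r+1)! ≤ (e S₁/(r+1))^{r+1} ≤ l^{-A'}` if `K` is large.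
Second claim: `∑_{T ∈ 𝒯} (-1)^{|T|}/φ(∏T) ≥ ∏_{p∈P}(1 - 1/(p-1)) - (r+1)-term` (Bonferroni, or
`BrunPure`-like), and the product is `≥ exp(-2 ∑ 2/p) ≥ l^{-C}` (`y ≥ 3`).
Third claim: replace the sum over the primes `ℓ` by the sum over prime powers `n` with `Λ(n)`
(the proper prime powers `n > x^{1/2}` contribute `≤ x^{-1/5}`, also after summing over the at most
`2^{log x/(κ log l)}` sets `T ⊆ P` with `∏T ∣ n-1`), and apply `BrunPure` to `m = n - 1`: the
error is `≤ ∑_{|T|=r+1} ∑_{n ≡ 1 mod ∏T} Λ(n) wt(n) ≤ ∑_{|T|=r+1} G l (1 + l)/∏T`.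
-/

set_option autoImplicit false

open Finset Filter Topology
open scoped ArithmeticFunction.vonMangoldt

namespace Pool.Agent.Helper34.CA

open Pool.Agent.Helper18.BV

namespace NiceApproxAux

/-- elementary symmetric sums -/
noncomputable def es (u : ℕ → ℝ) (P : Finset ℕ) (k : ℕ) : ℝ :=
  ∑ T ∈ P.powersetCard k, ∏ p ∈ T, u p

theorem es_zero (u : ℕ → ℝ) (P : Finset ℕ) : es u P 0 = 1 := by simp [es]

theorem es_empty (u : ℕ → ℝ) (k : ℕ) : es u ∅ (k + 1) = 0 := by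
  unfold es
  rw [Finset.powersetCard_eq_empty.2 (by simp)]
  simp

theorem es_insert (u : ℕ → ℝ) {P : Finset ℕ} {a : ℕ} (ha : a ∉ P) (k : ℕ) :
    es u (insert a P) (k + 1) = es u P (k + 1) + u a * es u P k := by
  unfold es
  rw [Finset.powersetCard_succ_insert ha, Finset.sum_union, Finset.sum_image, Finset.mul_sum]
  · congr 1
    refine Finset.sum_congr rfl fun T hT => ?_
    rw [Finset.mem_powersetCard] at hT
    rw [Finset.prod_insert (fun h => ha (hT.1 h))]
  · intro T hT T' hT' h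
    have hT1 := (Finset.mem_powersetCard.1 (Finset.mem_coe.1 hT)).1
    have hT2 := (Finset.mem_powersetCard.1 (Finset.mem_coe.1 hT')).1
    have h' : (insert a T).erase a = (insert a T').erase a := by
      have h0 : insert a T = insert a T' := h
      rw [h0]
    rwa [Finset.erase_insert (fun h => ha (hT1 h)),
      Finset.erase_insert (fun h => ha (hT2 h))] at h'
  · rw [Finset.disjoint_left]
    intro T h1 h2
    rw [Finset.mem_powersetCard] at h1
    obtain ⟨T', _, rfl⟩ := Finset.mem_image.1 h2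
    exact ha (h1.1 (Finset.mem_insert_self a T'))

theorem es_nonneg (u : ℕ → ℝ) (P : Finset ℕ) (hu : ∀ p ∈ P, 0 ≤ u p) (k : ℕ) : 0 ≤ es u P k := by
  unfold es
  refine Finset.sum_nonneg fun T hT => Finset.prod_nonneg fun p hp => ?_
  exact hu p ((Finset.mem_powersetCard.1 hT).1 hp)

theorem pow_add_ge (n : ℕ) {x a : ℝ} (hx : 0 ≤ x) (ha : 0 ≤ a) :
    x ^ (n + 1) + (n + 1) * (a * x ^ n) ≤ (x + a) ^ (n + 1) := by
  induction n with
  | zero => simp
  | succ n ih =>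
    have h1 : (x ^ (n + 1) + (n + 1) * (a * x ^ n)) * (x + a) ≤ (x + a) ^ (n + 1) * (x + a) :=
      mul_le_mul_of_nonneg_right ih (by positivity)
    have h2 : 0 ≤ ((n : ℝ) + 1) * (a * x ^ n) * a := by positivity
    calc x ^ (n + 1 + 1) + ((n + 1 : ℕ) + 1) * (a * x ^ (n + 1))
        ≤ x ^ (n + 1 + 1) + ((n + 1 : ℕ) + 1) * (a * x ^ (n + 1)) +
          ((n : ℝ) + 1) * (a * x ^ n) * a := le_add_of_nonneg_right h2
      _ = (x ^ (n + 1) + (n + 1) * (a * x ^ n)) * (x + a) := by push_cast; ring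
      _ ≤ (x + a) ^ (n + 1) * (x + a) := h1
      _ = (x + a) ^ (n + 1 + 1) := by ring

theorem es_le (u : ℕ → ℝ) (P : Finset ℕ) : (∀ p ∈ P, 0 ≤ u p) → ∀ n : ℕ,
    es u P n ≤ (∑ p ∈ P, u p) ^ n / (n.factorial : ℝ) := by
  induction P using Finset.induction_on with
  | empty =>
    intro _ n
    rcases n with _ | n
    · simp [es_zero]
    · rw [es_empty]; simp
  | insert a P ha ih =>
    intro hw n
    have hwR : ∀ p ∈ P, 0 ≤ u p := fun p hp => hw p (Finset.mem_insert_of_mem hp)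
    have hwa : 0 ≤ u a := hw a (Finset.mem_insert_self a P)
    have hs : 0 ≤ ∑ p ∈ P, u p := Finset.sum_nonneg hwR
    rcases n with _ | n
    · simp [es_zero]
    · rw [es_insert u ha, Finset.sum_insert ha]
      have i1 := ih hwR (n + 1)
      have i2 := mul_le_mul_of_nonneg_left (ih hwR n) hwa
      have i3 := pow_add_ge n hs hwa
      have hf : (0 : ℝ) < ((n + 1).factorial : ℝ) := by exact_mod_cast Nat.factorial_pos _
      have hf' : (0 : ℝ) < (n.factorial : ℝ) := by exact_mod_cast Nat.factorial_pos _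
      have hff : ((n + 1).factorial : ℝ) = (n + 1) * (n.factorial : ℝ) := by
        rw [Nat.factorial_succ]; push_cast; ring
      calc _ ≤ (∑ p ∈ P, u p) ^ (n + 1) / ((n + 1).factorial : ℝ) +
            u a * ((∑ p ∈ P, u p) ^ n / (n.factorial : ℝ)) := add_le_add i1 i2
        _ = ((∑ p ∈ P, u p) ^ (n + 1) + (n + 1) * (u a * (∑ p ∈ P, u p) ^ n)) /
            ((n + 1).factorial : ℝ) := by
            rw [hff]
            have : (n : ℝ) + 1 ≠ 0 := by positivity
            field_simp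
        _ ≤ (∑ p ∈ P, u p + u a) ^ (n + 1) / ((n + 1).factorial : ℝ) :=
            div_le_div_of_nonneg_right i3 hf.le
        _ = (u a + ∑ p ∈ P, u p) ^ (n + 1) / ((n + 1).factorial : ℝ) := by rw [add_comm]

/-- Bonferroni's inequality. -/
theorem trunc (u : ℕ → ℝ) (P : Finset ℕ) : (∀ p ∈ P, 0 ≤ u p ∧ u p ≤ 1) → ∀ r : ℕ,
    |∑ k ∈ range (r + 1), (-1 : ℝ) ^ k * es u P k - ∏ p ∈ P, (1 - u p)| ≤ es u P (r + 1) := by
  induction P using Finset.induction_on with
  | empty =>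
    intro _ r
    rw [es_empty, Finset.sum_range_succ', es_zero]
    have : ∀ k ∈ range r, (-1 : ℝ) ^ (k + 1) * es u ∅ (k + 1) = 0 := fun k _ => by
      rw [es_empty, mul_zero]
    rw [Finset.sum_eq_zero this]
    simp
  | insert a P ha ih =>
    intro hu r
    have huP : ∀ p ∈ P, 0 ≤ u p ∧ u p ≤ 1 := fun p hp => hu p (Finset.mem_insert_of_mem hp)
    have hua := hu a (Finset.mem_insert_self a P)
    have ihP := ih huP
    have hP0 : 0 ≤ ∏ p ∈ P, (1 - u p) :=
      Finset.prod_nonneg fun p hp => by linarith [(huP p hp).2]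
    have hP1 : ∏ p ∈ P, (1 - u p) ≤ 1 :=
      Finset.prod_le_one (fun p hp => by linarith [(huP p hp).2])
        fun p hp => by linarith [(huP p hp).1]
    rw [Finset.prod_insert ha, es_insert u ha]
    rcases r with _ | r
    · have h0 := ihP 0
      rw [Finset.sum_range_one, es_zero, pow_zero, one_mul] at h0
      rw [Finset.sum_range_one, es_zero, es_zero, pow_zero, one_mul, mul_one]
      have e : (1 : ℝ) - (1 - u a) * ∏ p ∈ P, (1 - u p) =
          (1 - ∏ p ∈ P, (1 - u p)) + u a * ∏ p ∈ P, (1 - u p) := by ring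
      rw [e]
      refine (abs_add_le _ _).trans (add_le_add h0 ?_)
      rw [abs_of_nonneg (mul_nonneg hua.1 hP0)]
      exact mul_le_of_le_one_right hua.1 hP1
    · have e : ∑ k ∈ range (r + 1 + 1), (-1 : ℝ) ^ k * es u (insert a P) k =
          ∑ k ∈ range (r + 1 + 1), (-1 : ℝ) ^ k * es u P k -
            u a * ∑ k ∈ range (r + 1), (-1 : ℝ) ^ k * es u P k := by
        rw [Finset.sum_range_succ' _ (r + 1), Finset.sum_range_succ' _ (r + 1), es_zero, es_zero,
          Finset.mul_sum]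
        have : ∀ k ∈ range (r + 1), (-1 : ℝ) ^ (k + 1) * es u (insert a P) (k + 1) =
            (-1 : ℝ) ^ (k + 1) * es u P (k + 1) - u a * ((-1 : ℝ) ^ k * es u P k) := by
          intro k _
          rw [es_insert u ha]
          ring
        rw [Finset.sum_congr rfl this, Finset.sum_sub_distrib]
        ring
      rw [e]
      have e2 : ∑ k ∈ range (r + 1 + 1), (-1 : ℝ) ^ k * es u P k -
            u a * ∑ k ∈ range (r + 1), (-1 : ℝ) ^ k * es u P k -
            (1 - u a) * ∏ p ∈ P, (1 - u p) =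
          (∑ k ∈ range (r + 1 + 1), (-1 : ℝ) ^ k * es u P k - ∏ p ∈ P, (1 - u p)) -
          u a * (∑ k ∈ range (r + 1), (-1 : ℝ) ^ k * es u P k - ∏ p ∈ P, (1 - u p)) := by ring
      rw [e2]
      refine (abs_sub _ _).trans (add_le_add (ihP (r + 1)) ?_)
      rw [abs_mul, abs_of_nonneg hua.1]
      exact mul_le_mul_of_nonneg_left (ihP r) hua.1

theorem sum_filter_card (P : Finset ℕ) (r : ℕ) (f : Finset ℕ → ℝ) :
    ∑ T ∈ P.powerset.filter (fun T => T.card ≤ r), f T =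
      ∑ k ∈ range (r + 1), ∑ T ∈ P.powersetCard k, f T := by
  rw [← Finset.sum_fiberwise_of_maps_to (g := Finset.card) (t := range (r + 1))]
  · refine Finset.sum_congr rfl fun k hk => ?_
    refine Finset.sum_congr ?_ fun _ _ => rfl
    ext T
    rw [Finset.mem_filter, Finset.mem_filter, Finset.mem_powerset, Finset.mem_powersetCard]
    rw [Finset.mem_range] at hk
    constructor
    · rintro ⟨⟨h1, _⟩, h3⟩
      exact ⟨h1, h3⟩
    · rintro ⟨h1, h3⟩
      exact ⟨⟨h1, by omega⟩, h3⟩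
  · intro T hT
    rw [Finset.mem_filter] at hT
    exact Finset.mem_range.2 (by omega)

theorem sum_one_div (N : ℕ) : ∑ m ∈ Icc 1 N, (1 : ℝ) / m ≤ 1 + Real.log N := by
  have h3 : ∑ m ∈ Icc 1 N, (1 : ℝ) / m = ((harmonic N : ℚ) : ℝ) := by
    rw [harmonic_eq_sum_Icc]
    push_cast
    refine Finset.sum_congr rfl (fun m _ => by rw [one_div])
  rw [h3]
  exact harmonic_le_one_add_log N

theorem sum_inv_ap (N d : ℕ) (hd : 0 < d) :
    ∑ n ∈ (Icc 2 N).filter (fun n => d ∣ n - 1), (1 : ℝ) / n ≤ (1 + Real.log N) / d := by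
  have hd' : (0 : ℝ) < d := by exact_mod_cast hd
  have hsub : (Icc 2 N).filter (fun n => d ∣ n - 1) ⊆ (Icc 1 N).image (fun j => d * j + 1) := by
    intro n hn
    obtain ⟨h1, j, hj⟩ := Finset.mem_filter.1 hn
    rw [Finset.mem_Icc] at h1
    refine Finset.mem_image.2 ⟨j, ?_, by omega⟩
    rw [Finset.mem_Icc]
    have hj0 : 1 ≤ j := by
      rcases Nat.eq_zero_or_pos j with h | h
      · subst h; omega
      · exact h
    refine ⟨hj0, ?_⟩
    have : j ≤ d * j := Nat.le_mul_of_pos_left j hd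
    omega
  refine (Finset.sum_le_sum_of_subset_of_nonneg hsub fun n _ _ => by positivity).trans ?_
  refine (Finset.sum_image_le_of_nonneg fun n _ => by positivity).trans ?_
  have h1 : ∀ j ∈ Icc 1 N, (1 : ℝ) / ((d * j + 1 : ℕ) : ℝ) ≤ (1 / d) * (1 / (j : ℝ)) := by
    intro j hj
    have hj0 : (0 : ℝ) < j := by exact_mod_cast (Finset.mem_Icc.1 hj).1
    rw [one_div_mul_one_div]
    refine one_div_le_one_div_of_le (by positivity) ?_
    push_cast
    linarith
  refine (Finset.sum_le_sum h1).trans ?_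
  rw [← Finset.mul_sum]
  have := mul_le_mul_of_nonneg_left (sum_one_div N) (by positivity : (0 : ℝ) ≤ 1 / d)
  refine this.trans (le_of_eq ?_)
  ring

theorem sum_nonprime : ∃ C : ℝ, 0 < C ∧ ∀ x : ℝ, 3 ≤ x →
    ∑ n ∈ (Icc 1 ⌊x⌋₊).filter (fun n : ℕ => ¬ n.Prime ∧ x ^ (1 / 2 : ℝ) < (n : ℝ)), Λ n / n ≤
      C * Real.log x ^ 2 * x ^ (-(1 / 8) : ℝ) := by
  have hs : Summable (fun n : ℕ => (1 : ℝ) / (n : ℝ) ^ (3 / 2 : ℝ)) :=
    Real.summable_one_div_nat_rpow.2 (by norm_num)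
  set C0 : ℝ := ∑' n : ℕ, (1 : ℝ) / (n : ℝ) ^ (3 / 2 : ℝ) with hC0
  have hC00 : 0 ≤ C0 := tsum_nonneg fun n => by positivity
  refine ⟨2 * (C0 + 1), by positivity, fun x hx => ?_⟩
  have hx0 : 0 < x := by linarith
  have hlog : 0 < Real.log x := Real.log_pos (by linarith)
  set N := ⌊x⌋₊ with hN
  set K := Nat.log 2 N with hK
  set S := (Icc 1 N).filter (fun n : ℕ => (¬ n.Prime ∧ x ^ (1 / 2 : ℝ) < (n : ℝ)) ∧ IsPrimePow n) with hS
  have e1 : ∑ n ∈ (Icc 1 N).filter (fun n : ℕ => ¬ n.Prime ∧ x ^ (1 / 2 : ℝ) < (n : ℝ)), Λ n / n =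
      ∑ n ∈ S, Λ n / n := by
    symm
    refine Finset.sum_subset ?_ ?_
    · intro n hn
      rw [hS, Finset.mem_filter] at hn
      exact Finset.mem_filter.2 ⟨hn.1, hn.2.1⟩
    · intro n hn hn'
      rw [Finset.mem_filter] at hn
      have h2 : ¬ IsPrimePow n := fun h => hn' (by
        rw [hS]; exact Finset.mem_filter.2 ⟨hn.1, hn.2, h⟩)
      rw [ArithmeticFunction.vonMangoldt_eq_zero_iff.2 h2, zero_div]
  rw [e1]
  have h1 : ∀ n ∈ S, Λ n / n ≤ (Real.log x * x ^ (-(1 / 8) : ℝ)) * (n : ℝ) ^ (-(3 / 4) : ℝ) := by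
    intro n hn
    rw [hS, Finset.mem_filter, Finset.mem_Icc] at hn
    have hn1 : (1 : ℝ) ≤ n := by exact_mod_cast hn.1.1
    have hn0 : (0 : ℝ) < n := by linarith
    have hnx : (n : ℝ) ≤ x := (Nat.cast_le.2 hn.1.2).trans (Nat.floor_le hx0.le)
    have hL : Λ n ≤ Real.log x := by
      refine (ArithmeticFunction.vonMangoldt_le_log (n := n)).trans ?_
      exact Real.log_le_log (by linarith) hnx
    have h2 : (n : ℝ)⁻¹ ≤ x ^ (-(1 / 8) : ℝ) * (n : ℝ) ^ (-(3 / 4) : ℝ) := by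
      have e : (n : ℝ)⁻¹ = (n : ℝ) ^ (-(1 / 4) : ℝ) * (n : ℝ) ^ (-(3 / 4) : ℝ) := by
        rw [← Real.rpow_add hn0, ← Real.rpow_neg_one]
        norm_num
      rw [e]
      refine mul_le_mul_of_nonneg_right ?_ (Real.rpow_nonneg hn0.le _)
      have e3 : x ^ (-(1 / 8) : ℝ) = (x ^ (1 / 2 : ℝ)) ^ (-(1 / 4) : ℝ) := by
        rw [← Real.rpow_mul hx0.le]
        norm_num
      rw [e3]
      exact Real.rpow_le_rpow_of_nonpos (Real.rpow_pos_of_pos hx0 _) hn.2.1.2.le (by norm_num)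
    rw [div_eq_mul_inv, mul_assoc]
    exact mul_le_mul hL h2 (by positivity) hlog.le
  refine (Finset.sum_le_sum h1).trans ?_
  rw [← Finset.mul_sum]
  have hsub : S ⊆ (Icc 2 K ×ˢ Icc 1 N).image (fun p : ℕ × ℕ => p.2 ^ p.1) := by
    intro n hn
    obtain ⟨h1, ⟨h2, -⟩, h3⟩ := Finset.mem_filter.1 hn
    rw [Finset.mem_Icc] at h1
    obtain ⟨p, k, hp, hk, rfl⟩ := h3
    have hp' : p.Prime := Nat.prime_iff.2 hp
    refine Finset.mem_image.2 ⟨(k, p), ?_, rfl⟩
    rw [Finset.mem_product, Finset.mem_Icc, Finset.mem_Icc]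
    refine ⟨⟨?_, ?_⟩, hp'.pos, ?_⟩
    · rcases Nat.lt_or_ge k 2 with h | h
      · exfalso
        have : k = 1 := by omega
        subst this
        exact h2 (by rwa [pow_one])
      · exact h
    · have h4 : 2 ^ k ≤ N := (Nat.pow_le_pow_left hp'.two_le k).trans h1.2
      exact Nat.le_log_of_pow_le (by norm_num) h4
    · exact (Nat.le_self_pow hk.ne' p).trans h1.2
  have h2 : ∑ n ∈ S, (n : ℝ) ^ (-(3 / 4) : ℝ) ≤ (2 * Real.log x) * C0 := by
    refine (Finset.sum_le_sum_of_subset_of_nonneg hsub fun n _ _ =>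
      Real.rpow_nonneg (Nat.cast_nonneg _) _).trans ?_
    refine (Finset.sum_image_le_of_nonneg fun n _ => Real.rpow_nonneg (Nat.cast_nonneg _) _).trans ?_
    rw [Finset.sum_product]
    have h3 : ∀ k ∈ Icc 2 K, ∑ m ∈ Icc 1 N, ((m ^ k : ℕ) : ℝ) ^ (-(3 / 4) : ℝ) ≤ C0 := by
      intro k hk
      rw [Finset.mem_Icc] at hk
      have h4 : ∀ m ∈ Icc 1 N, ((m ^ k : ℕ) : ℝ) ^ (-(3 / 4) : ℝ) ≤
          (1 : ℝ) / (m : ℝ) ^ (3 / 2 : ℝ) := by
        intro m hm
        have hm1 : (1 : ℝ) ≤ m := by exact_mod_cast (Finset.mem_Icc.1 hm).1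
        have hm0 : (0 : ℝ) < m := by linarith
        have h5 : ((m : ℝ)) ^ 2 ≤ ((m ^ k : ℕ) : ℝ) := by
          push_cast
          exact pow_le_pow_right₀ hm1 hk.1
        refine (Real.rpow_le_rpow_of_nonpos (by positivity) h5 (by norm_num)).trans (le_of_eq ?_)
        rw [← Real.rpow_natCast, ← Real.rpow_mul hm0.le, one_div, ← Real.rpow_neg hm0.le]
        norm_num
      refine (Finset.sum_le_sum h4).trans ?_
      exact hs.sum_le_tsum _ fun n _ => by positivity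
    refine (Finset.sum_le_card_nsmul _ _ _ h3).trans ?_
    rw [nsmul_eq_mul, Nat.card_Icc]
    refine mul_le_mul_of_nonneg_right ?_ hC00
    have h6 : ((K + 1 - 2 : ℕ) : ℝ) ≤ (K : ℝ) := by
      exact_mod_cast (by omega : K + 1 - 2 ≤ K)
    exact h6.trans (Pool.Agent.Helper51.BV.natlog_le hx)
  have h3 : 0 ≤ Real.log x * x ^ (-(1 / 8) : ℝ) := by positivity
  refine (mul_le_mul_of_nonneg_left h2 h3).trans ?_
  have h4 : 0 ≤ Real.log x ^ 2 * x ^ (-(1 / 8) : ℝ) := by positivity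
  nlinarith

end NiceApproxAux

namespace NiceApproxAux

theorem err_one {g : ℝ → ℝ} (hg : IsWt g) {G : ℝ} (hG : ∀ v, g v ≤ G) (hG0 : 0 < G) {x : ℝ}
    (hx : 3 ≤ x) (P : Finset ℕ) (hP : ∀ p ∈ P, p.Prime) (r : ℕ) :
    ∑ n ∈ Icc 1 ⌊x⌋₊, Λ n * wt g x n *
      (((P.powerset.filter (fun T => T.card = r + 1 ∧ (∏ p ∈ T, p) ∣ n - 1)).card : ℕ) : ℝ) ≤
      G * Real.log x * (1 + Real.log x) * es (fun p => 1 / (p : ℝ)) P (r + 1) := by
  have hx0 : 0 < x := by linarith
  have hlog : 0 < Real.log x := Real.log_pos (by linarith)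
  set N := ⌊x⌋₊ with hN
  have hNx : (N : ℝ) ≤ x := Nat.floor_le hx0.le
  have hN1 : 1 ≤ N := Nat.le_floor (by push_cast; linarith)
  have e0 : ∑ n ∈ Icc 1 N, Λ n * wt g x n *
      (((P.powerset.filter (fun T => T.card = r + 1 ∧ (∏ p ∈ T, p) ∣ n - 1)).card : ℕ) : ℝ) =
      ∑ n ∈ Icc 2 N, Λ n * wt g x n *
      (((P.powerset.filter (fun T => T.card = r + 1 ∧ (∏ p ∈ T, p) ∣ n - 1)).card : ℕ) : ℝ) := by
    symm
    refine Finset.sum_subset (Finset.Icc_subset_Icc_left (by norm_num)) ?_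
    intro n hn hn'
    rw [Finset.mem_Icc] at hn hn'
    have : n = 1 := by omega
    subst this
    simp
  rw [e0]
  have h1 : ∀ n ∈ Icc 2 N, Λ n * wt g x n *
      (((P.powerset.filter (fun T => T.card = r + 1 ∧ (∏ p ∈ T, p) ∣ n - 1)).card : ℕ) : ℝ) ≤
      ∑ T ∈ P.powersetCard (r + 1),
        if (∏ p ∈ T, p) ∣ n - 1 then G * Real.log x * (1 / (n : ℝ)) else 0 := by
    intro n hn
    rw [Finset.mem_Icc] at hn
    have hn1 : (1 : ℝ) ≤ n := by exact_mod_cast (by omega : 1 ≤ n)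
    have hn0 : (0 : ℝ) < n := by linarith
    have hnx : (n : ℝ) ≤ x := (Nat.cast_le.2 hn.2).trans hNx
    have hL : Λ n ≤ Real.log x := by
      refine (ArithmeticFunction.vonMangoldt_le_log (n := n)).trans ?_
      exact Real.log_le_log (by linarith) hnx
    have hw : wt g x n ≤ G * (1 / (n : ℝ)) := by
      unfold wt
      rw [mul_one_div]
      exact div_le_div_of_nonneg_right (hG _) hn0.le
    have h2 : Λ n * wt g x n ≤ G * Real.log x * (1 / (n : ℝ)) := by
      calc Λ n * wt g x n ≤ Real.log x * (G * (1 / (n : ℝ))) :=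
            mul_le_mul hL hw (wt_nonneg hg _ _) hlog.le
        _ = G * Real.log x * (1 / (n : ℝ)) := by ring
    have e1 : P.powerset.filter (fun T => T.card = r + 1 ∧ (∏ p ∈ T, p) ∣ n - 1) =
        (P.powersetCard (r + 1)).filter (fun T => (∏ p ∈ T, p) ∣ n - 1) := by
      ext T
      simp only [Finset.mem_filter, Finset.mem_powerset, Finset.mem_powersetCard]
      tauto
    rw [← Finset.sum_filter, Finset.sum_const, nsmul_eq_mul, e1, mul_comm]
    exact mul_le_mul_of_nonneg_left h2 (Nat.cast_nonneg _)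
  refine (Finset.sum_le_sum h1).trans ?_
  rw [Finset.sum_comm]
  unfold es
  rw [Finset.mul_sum]
  refine Finset.sum_le_sum fun T hT => ?_
  rw [Finset.mem_powersetCard] at hT
  have hd : 0 < ∏ p ∈ T, p := Finset.prod_pos fun p hp => (hP p (hT.1 hp)).pos
  rw [← Finset.sum_filter, ← Finset.mul_sum]
  have h3 := sum_inv_ap N (∏ p ∈ T, p) hd
  have h4 : Real.log N ≤ Real.log x := Real.log_le_log (by exact_mod_cast hN1) hNx
  have hd' : (0 : ℝ) < ((∏ p ∈ T, p : ℕ) : ℝ) := by exact_mod_cast hd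
  have h5 : (1 + Real.log N) / ((∏ p ∈ T, p : ℕ) : ℝ) ≤
      (1 + Real.log x) * ∏ p ∈ T, (1 / (p : ℝ)) := by
    rw [Finset.prod_div_distrib, Finset.prod_const_one, mul_one_div]
    push_cast
    push_cast at hd'
    exact div_le_div_of_nonneg_right (by linarith) hd'.le
  have h6 : 0 ≤ G * Real.log x := by positivity
  calc _ ≤ G * Real.log x * ((1 + Real.log x) * ∏ p ∈ T, (1 / (p : ℝ))) :=
        mul_le_mul_of_nonneg_left (h3.trans h5) h6
    _ = _ := by ring

theorem main_err (hB : BrunPure) {g : ℝ → ℝ} (hg : IsWt g) {G : ℝ} (hG : ∀ v, g v ≤ G)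
    (hG0 : 0 < G) {x : ℝ} (hx : 3 ≤ x) {y w : ℝ} (P : Finset ℕ)
    (hP : ∀ p, p ∈ P ↔ p.Prime ∧ y < p ∧ (p : ℝ) ≤ w) (r : ℕ) (b : ℕ → ℂ)
    (hb : ∀ n, ‖b n‖ ≤ 1) :
    ‖∑ ℓ ∈ nz x y w, (Real.log ℓ : ℂ) * b ℓ * (wt g x ℓ : ℂ) -
      ∑ T ∈ P.powerset.filter (fun T => T.card ≤ r), (-1 : ℂ) ^ T.card *
        ∑ n ∈ (Icc 1 ⌊x⌋₊).filter (fun n => n ≡ 1 [MOD ∏ p ∈ T, p]),
          LaC n * b n * (wt g x n : ℂ)‖ ≤
      G * Real.log x * (1 + Real.log x) * es (fun p => 1 / (p : ℝ)) P (r + 1) +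
        ∑ n ∈ (Icc 1 ⌊x⌋₊).filter (fun n => ¬ n.Prime), Λ n * wt g x n := by
  classical
  set N := ⌊x⌋₊ with hN
  set c : ℕ → ℂ := fun n => LaC n * b n * (wt g x n : ℂ) with hc
  set I : ℕ → ℝ := fun n => if ∀ p ∈ P, ¬ p ∣ (n - 1) then (1 : ℝ) else 0 with hI
  set M : ℕ → ℝ := fun n => ∑ T ∈ P.powerset.filter
    (fun T => T.card ≤ r ∧ (∏ p ∈ T, p) ∣ (n - 1)), (-1 : ℝ) ^ T.card with hM
  have hcn : ∀ n, ‖c n‖ ≤ Λ n * wt g x n := by
    intro n
    simp only [hc]
    rw [norm_mul, norm_mul, LaC_apply, Complex.norm_real, Complex.norm_real,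
      Real.norm_of_nonneg ArithmeticFunction.vonMangoldt_nonneg,
      Real.norm_of_nonneg (wt_nonneg hg _ _)]
    have h2 : 0 ≤ Λ n := ArithmeticFunction.vonMangoldt_nonneg
    have h3 := wt_nonneg hg x n
    exact mul_le_mul_of_nonneg_right (mul_le_of_le_one_right h2 (hb n)) h3
  have hI01 : ∀ n, 0 ≤ I n ∧ I n ≤ 1 := by
    intro n
    simp only [hI]
    split_ifs <;> norm_num
  -- the sum over nice primes
  have eA : ∑ ℓ ∈ nz x y w, (Real.log ℓ : ℂ) * b ℓ * (wt g x ℓ : ℂ) =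
      ∑ n ∈ (Icc 1 N).filter (fun n => n.Prime), c n * (I n : ℂ) := by
    have e1 : nz x y w = ((Icc 1 N).filter (fun n => n.Prime)).filter
        (fun n => ∀ p ∈ P, ¬ p ∣ (n - 1)) := by
      ext n
      unfold nz
      simp only [Finset.mem_filter]
      constructor
      · rintro ⟨h1, h2, h3⟩
        refine ⟨⟨h1, h2⟩, fun p hp hd => ?_⟩
        have h4 := (hP p).1 hp
        rcases h3 p h4.1 hd with h5 | h5
        · linarith [h4.2.1]
        · linarith [h4.2.2]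
      · rintro ⟨⟨h1, h2⟩, h3⟩
        refine ⟨h1, h2, fun q hq hd => ?_⟩
        by_contra hcon
        rw [not_or, not_le, not_lt] at hcon
        exact h3 q ((hP q).2 ⟨hq, hcon.1, hcon.2⟩) hd
    rw [e1, Finset.sum_filter]
    refine Finset.sum_congr rfl fun n hn => ?_
    have hnp := (Finset.mem_filter.1 hn).2
    simp only [hI, hc]
    split_ifs with h
    · rw [LaC_apply, ArithmeticFunction.vonMangoldt_apply_prime hnp]
      push_cast
      ring
    · simp
  have eB : ∑ T ∈ P.powerset.filter (fun T => T.card ≤ r), (-1 : ℂ) ^ T.card *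
        ∑ n ∈ (Icc 1 N).filter (fun n => n ≡ 1 [MOD ∏ p ∈ T, p]),
          LaC n * b n * (wt g x n : ℂ) = ∑ n ∈ Icc 1 N, c n * (M n : ℂ) := by
    have e1 : ∀ T ∈ P.powerset.filter (fun T => T.card ≤ r), (-1 : ℂ) ^ T.card *
        ∑ n ∈ (Icc 1 N).filter (fun n => n ≡ 1 [MOD ∏ p ∈ T, p]),
          LaC n * b n * (wt g x n : ℂ) =
        ∑ n ∈ Icc 1 N, if (∏ p ∈ T, p) ∣ n - 1 then (-1 : ℂ) ^ T.card * c n else 0 := by
      intro T _
      rw [Finset.mul_sum, Finset.sum_filter]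
      refine Finset.sum_congr rfl fun n hn => ?_
      have hn1 := (Finset.mem_Icc.1 hn).1
      have hiff : n ≡ 1 [MOD ∏ p ∈ T, p] ↔ (∏ p ∈ T, p) ∣ n - 1 := by
        rw [← Nat.modEq_iff_dvd' hn1]
        exact ⟨fun h => h.symm, fun h => h.symm⟩
      by_cases h : (∏ p ∈ T, p) ∣ n - 1
      · rw [if_pos h, if_pos (hiff.2 h)]
      · rw [if_neg h, if_neg (fun h' => h (hiff.1 h'))]
    rw [Finset.sum_congr rfl e1, Finset.sum_comm]
    refine Finset.sum_congr rfl fun n _ => ?_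
    simp only [hM]
    rw [← Finset.sum_filter, Finset.filter_filter, ← Finset.sum_mul, mul_comm]
    push_cast
    rfl
  have key : ∑ ℓ ∈ nz x y w, (Real.log ℓ : ℂ) * b ℓ * (wt g x ℓ : ℂ) -
      ∑ T ∈ P.powerset.filter (fun T => T.card ≤ r), (-1 : ℂ) ^ T.card *
        ∑ n ∈ (Icc 1 N).filter (fun n => n ≡ 1 [MOD ∏ p ∈ T, p]),
          LaC n * b n * (wt g x n : ℂ) =
      ∑ n ∈ Icc 1 N, c n * ((I n - M n : ℝ) : ℂ) -
        ∑ n ∈ (Icc 1 N).filter (fun n => ¬ n.Prime), c n * (I n : ℂ) := by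
    rw [eA, eB]
    have e2 : ∑ n ∈ Icc 1 N, c n * (I n : ℂ) =
        ∑ n ∈ (Icc 1 N).filter (fun n => n.Prime), c n * (I n : ℂ) +
        ∑ n ∈ (Icc 1 N).filter (fun n => ¬ n.Prime), c n * (I n : ℂ) :=
      (Finset.sum_filter_add_sum_filter_not _ _ _).symm
    have e3 : ∑ n ∈ Icc 1 N, c n * ((I n - M n : ℝ) : ℂ) =
        ∑ n ∈ Icc 1 N, c n * (I n : ℂ) - ∑ n ∈ Icc 1 N, c n * (M n : ℂ) := by
      rw [← Finset.sum_sub_distrib]
      refine Finset.sum_congr rfl fun n _ => ?_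
      push_cast
      ring
    rw [e3, e2]
    ring
  rw [key]
  refine (norm_sub_le _ _).trans (add_le_add ?_ ?_)
  · refine (norm_sum_le _ _).trans ((Finset.sum_le_sum fun n hn => ?_).trans
      (err_one hg hG hG0 hx P (fun p hp => ((hP p).1 hp).1) r))
    rw [norm_mul, Complex.norm_real, Real.norm_eq_abs]
    rcases Nat.lt_or_ge n 2 with h2 | h2
    · have hn1 : n = 1 := by have := (Finset.mem_Icc.1 hn).1; omega
      subst hn1
      have h0 : ‖c 1‖ ≤ 0 := by
        refine (hcn 1).trans (le_of_eq ?_)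
        simp
      have h0' : ‖c 1‖ = 0 := le_antisymm h0 (norm_nonneg _)
      rw [h0', zero_mul]
      have : (0 : ℝ) ≤ Λ 1 * wt g x 1 :=
        mul_nonneg ArithmeticFunction.vonMangoldt_nonneg (wt_nonneg hg _ _)
      exact mul_nonneg this (Nat.cast_nonneg _)
    · have h3 := hB P (fun p hp => ((hP p).1 hp).1) (n - 1) r (by omega)
      exact mul_le_mul (hcn n) h3 (abs_nonneg _)
        (mul_nonneg ArithmeticFunction.vonMangoldt_nonneg (wt_nonneg hg _ _))
  · refine (norm_sum_le _ _).trans (Finset.sum_le_sum fun n hn => ?_)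
    rw [norm_mul, Complex.norm_real, Real.norm_of_nonneg (hI01 n).1]
    exact (mul_le_of_le_one_right (norm_nonneg _) (hI01 n).2).trans (hcn n)

theorem err_two {g : ℝ → ℝ} (hg : IsWt g) {G : ℝ} (hG : ∀ v, g v ≤ G) (hG0 : 0 < G) :
    ∃ C : ℝ, 0 < C ∧ ∀ x : ℝ, 3 ≤ x →
    ∑ n ∈ (Icc 1 ⌊x⌋₊).filter (fun n => ¬ n.Prime), Λ n * wt g x n ≤
      C * Real.log x ^ 2 * x ^ (-(1 / 8) : ℝ) := by
  obtain ⟨C, hC, h⟩ := sum_nonprime
  refine ⟨G * C, by positivity, fun x hx => ?_⟩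
  have hx1 : 1 < x := by linarith
  have e1 : ∑ n ∈ (Icc 1 ⌊x⌋₊).filter (fun n => ¬ n.Prime), Λ n * wt g x n =
      ∑ n ∈ (Icc 1 ⌊x⌋₊).filter (fun n : ℕ => ¬ n.Prime ∧ x ^ (1 / 2 : ℝ) < (n : ℝ)),
        Λ n * wt g x n := by
    symm
    refine Finset.sum_subset ?_ ?_
    · intro n hn
      rw [Finset.mem_filter] at hn ⊢
      exact ⟨hn.1, hn.2.1⟩
    · intro n hn hn'
      rw [Finset.mem_filter] at hn
      have h2 : (n : ℝ) ≤ x ^ (1 / 2 : ℝ) := by
        by_contra hcon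
        exact hn' (Finset.mem_filter.2 ⟨hn.1, hn.2, not_le.1 hcon⟩)
      rw [wt_zero hg hx1 h2, mul_zero]
  rw [e1]
  have h2 : ∀ n ∈ (Icc 1 ⌊x⌋₊).filter (fun n : ℕ => ¬ n.Prime ∧ x ^ (1 / 2 : ℝ) < (n : ℝ)),
      Λ n * wt g x n ≤ G * (Λ n / n) := by
    intro n _
    unfold wt
    have hL : 0 ≤ Λ n := ArithmeticFunction.vonMangoldt_nonneg
    have h4 : Λ n * (g (Real.log n / Real.log x) / n) =
        g (Real.log n / Real.log x) * (Λ n / n) := by ring
    rw [h4]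
    exact mul_le_mul_of_nonneg_right (hG _) (div_nonneg hL (Nat.cast_nonneg _))
  refine (Finset.sum_le_sum h2).trans ?_
  rw [← Finset.mul_sum, mul_assoc, mul_assoc]
  rw [← mul_assoc C]
  exact mul_le_mul_of_nonneg_left (h x hx) hG0.le

end NiceApproxAux

namespace NiceApproxAux

theorem totient_prod (T : Finset ℕ) : (∀ p ∈ T, p.Prime) →
    (∏ p ∈ T, p).totient = ∏ p ∈ T, (p - 1) := by
  induction T using Finset.induction_on with
  | empty => intro _; simp
  | insert a T ha ih =>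
    intro h
    have hT : ∀ p ∈ T, p.Prime := fun p hp => h p (Finset.mem_insert_of_mem hp)
    have hap := h a (Finset.mem_insert_self a T)
    rw [Finset.prod_insert ha, Finset.prod_insert ha, Nat.totient_mul, ih hT,
      Nat.totient_prime hap]
    refine Nat.Coprime.prod_right fun p hp => ?_
    rw [Nat.coprime_primes hap (hT p hp)]
    rintro rfl
    exact ha hp

/-- the sum over the truncated family -/
theorem sum_trunc (P : Finset ℕ) (hP : ∀ p ∈ P, p.Prime ∧ 3 ≤ p) (r : ℕ) :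
    ∏ p ∈ P, (1 - 1 / ((p : ℝ) - 1)) - es (fun p => 1 / ((p : ℝ) - 1)) P (r + 1) ≤
      ∑ T ∈ P.powerset.filter (fun T => T.card ≤ r),
        (-1 : ℝ) ^ T.card / ((∏ p ∈ T, p : ℕ).totient : ℝ) := by
  set u : ℕ → ℝ := fun p => 1 / ((p : ℝ) - 1) with hu
  have hu1 : ∀ p ∈ P, 0 ≤ u p ∧ u p ≤ 1 := by
    intro p hp
    have h3 : (3 : ℝ) ≤ p := by exact_mod_cast (hP p hp).2
    simp only [hu]
    refine ⟨by apply div_nonneg <;> linarith, ?_⟩
    rw [div_le_one (by linarith)]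
    linarith
  have h1 := (abs_le.1 (trunc u P hu1 r)).1
  have e1 : ∑ T ∈ P.powerset.filter (fun T => T.card ≤ r),
        (-1 : ℝ) ^ T.card / ((∏ p ∈ T, p : ℕ).totient : ℝ) =
      ∑ k ∈ range (r + 1), (-1 : ℝ) ^ k * es u P k := by
    rw [sum_filter_card]
    refine Finset.sum_congr rfl fun k _ => ?_
    unfold es
    rw [Finset.mul_sum]
    refine Finset.sum_congr rfl fun T hT => ?_
    rw [Finset.mem_powersetCard] at hT
    rw [hT.2, totient_prod T (fun p hp => (hP p (hT.1 hp)).1), div_eq_mul_inv]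
    congr 1
    push_cast
    rw [← Finset.prod_inv_distrib]
    refine Finset.prod_congr rfl fun p hp => ?_
    have h1 : 1 ≤ p := by have := (hP p (hT.1 hp)).2; omega
    simp only [hu]
    rw [Nat.cast_sub h1, one_div]
    norm_num
  rw [e1]
  linarith

theorem es_small (u : ℕ → ℝ) (P : Finset ℕ) (hu : ∀ p ∈ P, 0 ≤ u p) {L K : ℝ} (hL : 0 ≤ L)
    (hS : ∑ p ∈ P, u p ≤ 3 * L) (n : ℕ) (hn : K * L ≤ n) :
    es u P n ≤ Real.exp ((9 - K) * L) := by
  have hS0 : 0 ≤ ∑ p ∈ P, u p := Finset.sum_nonneg hu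
  refine (es_le u P hu n).trans ?_
  have hf : (0 : ℝ) < (n.factorial : ℝ) := by exact_mod_cast Nat.factorial_pos _
  have h1 : (∑ p ∈ P, u p) ^ n / (n.factorial : ℝ) ≤ (3 * L) ^ n / (n.factorial : ℝ) :=
    div_le_div_of_nonneg_right (pow_le_pow_left₀ hS0 hS n) hf.le
  refine h1.trans ?_
  have h2 := Real.pow_div_factorial_le_exp (x := Real.exp 1 * (3 * L)) (by positivity) n
  rw [mul_pow, ← Real.exp_nat_mul, mul_one] at h2
  have h3 : (3 * L) ^ n / (n.factorial : ℝ) =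
      Real.exp (-(n : ℝ)) * (Real.exp n * (3 * L) ^ n / (n.factorial : ℝ)) := by
    rw [mul_div_assoc, ← mul_assoc, ← Real.exp_add]
    simp
  rw [h3]
  refine (mul_le_mul_of_nonneg_left h2 (Real.exp_pos _).le).trans ?_
  rw [← Real.exp_add]
  apply Real.exp_le_exp.2
  have h4 : Real.exp 1 ≤ 3 := by
    have := Real.exp_one_lt_d9; linarith
  nlinarith

theorem prod_lower (P : Finset ℕ) (hP : ∀ p ∈ P, 3 ≤ p) {L : ℝ}
    (hS : ∑ p ∈ P, 1 / ((p : ℝ) - 1) ≤ 3 * L) :
    Real.exp (-(6 * L)) ≤ ∏ p ∈ P, (1 - 1 / ((p : ℝ) - 1)) := by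
  calc Real.exp (-(6 * L)) ≤ Real.exp (-∑ p ∈ P, 2 * (1 / ((p : ℝ) - 1))) := by
        apply Real.exp_le_exp.2
        rw [← Finset.mul_sum]
        linarith
    _ = ∏ p ∈ P, Real.exp (-(2 * (1 / ((p : ℝ) - 1)))) := by
        rw [← Finset.sum_neg_distrib, Real.exp_sum]
    _ ≤ ∏ p ∈ P, (1 - 1 / ((p : ℝ) - 1)) := by
        refine Finset.prod_le_prod (fun p _ => (Real.exp_pos _).le) fun p hp => ?_
        have h3 : (3 : ℝ) ≤ p := by exact_mod_cast hP p hp
        refine Pool.Agent.Helper44.one_sub_ge_exp ?_ ?_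
        · apply div_nonneg <;> linarith
        · rw [div_le_div_iff₀ (by linarith) (by norm_num)]
          linarith

/-- the conditions on `l = log x` -/
theorem conditions {κ κ₂ : ℝ} (hκ : 0 < κ) (hκ₂ : κ₂ < 1) (A C C2 G : ℝ) :
    ∀ᶠ l : ℝ in atTop, 3 ≤ l ∧ 2 ≤ l ^ κ ∧
      ((A + 16) * Real.log l + 1) * l ^ κ₂ ≤ l / 80 ∧ 2 * C ≤ Real.log l ∧ 4 * G ≤ l ∧
      2 * C2 * l ^ (A + 2) ≤ Real.exp (l / 8) := by
  refine (eventually_ge_atTop 3).and (((tendsto_rpow_atTop hκ).eventually_ge_atTop 2).and ?_)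
  refine Filter.Eventually.and ?_ ((Real.tendsto_log_atTop.eventually_ge_atTop _).and
    ((eventually_ge_atTop _).and ?_))
  · have h1 : Tendsto (fun l : ℝ => ((A + 16) * Real.log l + 1) * l ^ (κ₂ - 1)) atTop (𝓝 0) := by
      have h2 : Tendsto (fun l : ℝ => Real.log l * l ^ (κ₂ - 1)) atTop (𝓝 0) := by
        have h3 := (isLittleO_log_rpow_atTop (by linarith : 0 < 1 - κ₂)).tendsto_div_nhds_zero
        refine h3.congr' ?_
        filter_upwards [eventually_gt_atTop 0] with l hl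
        rw [div_eq_mul_inv, ← Real.rpow_neg hl.le]
        congr 2
        ring
      have h4 : Tendsto (fun l : ℝ => l ^ (κ₂ - 1)) atTop (𝓝 0) := by
        have := tendsto_rpow_neg_atTop (by linarith : 0 < 1 - κ₂)
        refine this.congr fun l => ?_
        congr 1
        ring
      have h5 := (h2.const_mul (A + 16)).add h4
      rw [mul_zero, zero_add] at h5
      refine h5.congr fun l => ?_
      ring
    have h6 := h1.eventually (gt_mem_nhds (by norm_num : (0 : ℝ) < 1 / 80))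
    filter_upwards [h6, eventually_gt_atTop 0] with l hl hl0
    have e : l ^ κ₂ = l ^ (κ₂ - 1) * l := by
      rw [← Real.rpow_add_one hl0.ne']
      congr 1
      ring
    rw [e, ← mul_assoc]
    have := mul_le_mul_of_nonneg_right hl.le hl0.le
    linarith
  · have h1 : Tendsto (fun l : ℝ => 2 * C2 * (l ^ (A + 2) * Real.exp (-(1 / 8) * l))) atTop
        (𝓝 (2 * C2 * 0)) :=
      (tendsto_rpow_mul_exp_neg_mul_atTop_nhds_zero (A + 2) (1 / 8) (by norm_num)).const_mul _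
    rw [mul_zero] at h1
    have h2 := h1.eventually (gt_mem_nhds (by norm_num : (0 : ℝ) < 1))
    filter_upwards [h2] with l hl
    have h3 : Real.exp (l / 8) * Real.exp (-(1 / 8) * l) = 1 := by
      rw [← Real.exp_add]
      ring_nf
      exact Real.exp_zero
    have h4 := mul_le_mul_of_nonneg_right hl.le (Real.exp_pos (l / 8)).le
    rw [one_mul] at h4
    calc 2 * C2 * l ^ (A + 2) = 2 * C2 * (l ^ (A + 2) * Real.exp (-(1 / 8) * l)) *
          Real.exp (l / 8) := by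
          rw [mul_assoc, mul_assoc, mul_assoc (l ^ (A + 2)), mul_comm (Real.exp (-(1 / 8) * l)), h3,
            mul_one]
          ring
      _ ≤ _ := h4

end NiceApproxAux

open NiceApproxAux in
theorem niceApprox (h : BrunPure) : NiceApprox := by
  intro κ κ₂ hκ hκκ₂ hκ₂ g hg
  obtain ⟨G, hG0, hG⟩ := hg.exists_bound
  obtain ⟨C, hC, hM⟩ := Pool.Agent.Helper44.sum_primesUpTo_bounds
  obtain ⟨C2, hC2, hE2⟩ := err_two hg hG hG0
  refine ⟨7, by norm_num, fun A hA => ?_⟩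
  obtain ⟨X1, hX1⟩ := Filter.eventually_atTop.1
    (Real.tendsto_log_atTop.eventually (conditions hκ hκ₂ A C C2 G))
  refine ⟨max 3 X1, le_max_left _ _, fun x hx => ?_⟩
  have hx3 : 3 ≤ x := (le_max_left _ _).trans hx
  obtain ⟨c1, c2, c3, c4, c5, c6⟩ := hX1 x ((le_max_right _ _).trans hx)
  set l := Real.log x with hl
  have hx0 : 0 < x := by linarith
  have hl0 : 0 < l := by linarith
  set L := Real.log l with hL
  have hL1 : 1 ≤ L := by
    rw [hL, ← Real.log_exp 1]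
    refine Real.log_le_log (Real.exp_pos _) ?_
    have := Real.exp_one_lt_d9; linarith
  have hL0 : 0 ≤ L := by linarith
  have hpw : ∀ s : ℝ, l ^ s = Real.exp (s * L) := by
    intro s
    rw [Real.rpow_def_of_pos hl0, mul_comm]
  have hlκ₂ : 1 ≤ l ^ κ₂ := Real.one_le_rpow (by linarith) (by linarith)
  set y := l ^ κ with hy
  set w := Real.exp (l ^ κ₂) with hw
  have hw2 : 2 ≤ w := by
    have := Real.add_one_le_exp (l ^ κ₂)
    linarith
  set P : Finset ℕ := (Pool.Agent.Helper44.primesUpTo w).filter (fun p : ℕ => y < (p : ℝ)) with hPdef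
  have hP : ∀ p, p ∈ P ↔ p.Prime ∧ y < p ∧ (p : ℝ) ≤ w := by
    intro p
    rw [hPdef, Finset.mem_filter, Pool.Agent.Helper44.mem_primesUpTo (by linarith)]
    tauto
  have hP3 : ∀ p ∈ P, 3 ≤ p := by
    intro p hp
    have h1 : (2 : ℝ) < p := lt_of_le_of_lt c2 ((hP p).1 hp).2.1
    exact_mod_cast h1
  have hS : ∑ p ∈ P, 1 / ((p : ℝ) - 1) ≤ 3 * L := by
    have h1 : ∀ p ∈ P, 1 / ((p : ℝ) - 1) ≤ 2 * (1 / (p : ℝ)) := by
      intro p hp
      have h3 : (3 : ℝ) ≤ p := by exact_mod_cast hP3 p hp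
      rw [mul_one_div, div_le_div_iff₀ (by linarith) (by linarith)]
      linarith
    refine (Finset.sum_le_sum h1).trans ?_
    rw [← Finset.mul_sum]
    have h2 : ∑ p ∈ P, 1 / (p : ℝ) ≤ ∑ p ∈ Pool.Agent.Helper44.primesUpTo w, 1 / (p : ℝ) :=
      Finset.sum_le_sum_of_subset_of_nonneg (Finset.filter_subset _ _) fun p _ _ => by positivity
    have h3 := (abs_le.1 (hM w hw2)).2
    have h4 : Real.log (Real.log w) = κ₂ * L := by
      rw [hw, Real.log_exp, Real.log_rpow hl0]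
    rw [h4] at h3
    nlinarith
  have hS' : ∑ p ∈ P, 1 / (p : ℝ) ≤ 3 * L := by
    refine le_trans (Finset.sum_le_sum fun p hp => ?_) hS
    have h3 : (3 : ℝ) ≤ p := by exact_mod_cast hP3 p hp
    exact one_div_le_one_div_of_le (by linarith) (by linarith)
  set K := A + 16 with hK
  set r := ⌈K * L⌉₊ with hr
  have hr1 : K * L ≤ r := Nat.le_ceil _
  have hr2 : (r : ℝ) ≤ K * L + 1 := (Nat.ceil_lt_add_one (by positivity)).le
  have hr3 : K * L ≤ ((r + 1 : ℕ) : ℝ) := by push_cast; linarith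
  refine ⟨P.powerset.filter (fun T => T.card ≤ r), ?_, ?_, ?_⟩
  · intro T hT
    rw [Finset.mem_filter, Finset.mem_powerset] at hT
    refine ⟨fun p hp => (hP p).1 (hT.1 hp), ?_⟩
    have h1 : ((∏ p ∈ T, p : ℕ) : ℝ) ≤ w ^ T.card := by
      push_cast
      rw [← Finset.prod_const]
      exact Finset.prod_le_prod (fun p _ => Nat.cast_nonneg _)
        (fun p hp => ((hP p).1 (hT.1 hp)).2.2)
    have h2 : w ^ T.card ≤ w ^ r := pow_le_pow_right₀ (by linarith) hT.2
    refine h1.trans (h2.trans ?_)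
    rw [hw, ← Real.exp_nat_mul, Real.rpow_def_of_pos hx0]
    apply Real.exp_le_exp.2
    have h3 : (r : ℝ) * l ^ κ₂ ≤ (K * L + 1) * l ^ κ₂ :=
      mul_le_mul_of_nonneg_right hr2 (by linarith)
    rw [← hl]
    linarith
  · refine le_trans ?_ (sum_trunc P (fun p hp => ⟨((hP p).1 hp).1, hP3 p hp⟩) r)
    have h1 := prod_lower P hP3 hS
    have h2 := es_small (fun p => 1 / ((p : ℝ) - 1)) P (fun p hp => by
      have h3 : (3 : ℝ) ≤ p := by exact_mod_cast hP3 p hp
      show 0 ≤ 1 / ((p : ℝ) - 1)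
      apply div_nonneg <;> linarith) hL0 hS (r + 1) hr3
    have h3 : Real.exp ((9 - K) * L) ≤ Real.exp (-(7 * L)) := by
      apply Real.exp_le_exp.2
      nlinarith
    have h4 : Real.exp (-(6 * L)) = Real.exp (-(7 * L)) * l := by
      have e : l = Real.exp L := by rw [hL, Real.exp_log hl0]
      rw [e, ← Real.exp_add]
      congr 1
      ring
    have h5 : l ^ (-7 : ℝ) = Real.exp (-(7 * L)) := by
      rw [hpw]
      congr 1
      ring
    rw [h5]
    have h6 := Real.exp_pos (-(7 * L))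
    rw [h4] at h1
    nlinarith
  · intro b hb
    refine (main_err h hg hG hG0 hx3 P hP r b hb).trans ?_
    have h1 := es_small (fun p => 1 / (p : ℝ)) P (fun p _ => by positivity) hL0 hS' (r + 1) hr3
    have h2 := hE2 x hx3
    rw [← hl] at h2 ⊢
    have e1 : 1 / l ^ A = Real.exp (-(A * L)) := by
      rw [hpw, one_div, ← Real.exp_neg]
    have e2 : Real.exp ((9 - K) * L) = Real.exp (-(A * L)) * Real.exp (-(7 * L)) := by
      rw [← Real.exp_add]
      congr 1
      rw [hK]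
      ring
    have e3 : Real.exp (7 * L) = l ^ (7 : ℕ) := by
      have h := hpw (7 : ℝ)
      rw [← h]
      exact_mod_cast Real.rpow_natCast l 7
    have e4 : Real.exp (-(7 * L)) = 1 / l ^ (7 : ℕ) := by
      rw [Real.exp_neg, e3, one_div]
    have hA1 : 0 < Real.exp (-(A * L)) := Real.exp_pos _
    have h3 : G * l * (1 + l) * es (fun p => 1 / (p : ℝ)) P (r + 1) ≤
        1 / 2 * Real.exp (-(A * L)) := by
      have h4 : G * l * (1 + l) * es (fun p => 1 / (p : ℝ)) P (r + 1) ≤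
          G * l * (1 + l) * (Real.exp (-(A * L)) * (1 / l ^ (7 : ℕ))) := by
        rw [← e4, ← e2]
        exact mul_le_mul_of_nonneg_left h1 (by positivity)
      refine h4.trans ?_
      have h5 : G * l * (1 + l) * (1 / l ^ (7 : ℕ)) ≤ 1 / 2 := by
        rw [mul_one_div, div_le_div_iff₀ (by positivity) (by norm_num)]
        have h6 : l ^ 3 ≤ l ^ 7 := pow_le_pow_right₀ (by linarith) (by norm_num)
        have h7 : 4 * G * l ^ 2 ≤ l * l ^ 2 :=
          mul_le_mul_of_nonneg_right c5 (by positivity)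
        have h8 : 0 ≤ G * l * (l - 1) := mul_nonneg (by positivity) (by linarith)
        have h9 : G * l * (1 + l) * 2 = 4 * G * l ^ 2 - 2 * (G * l * (l - 1)) := by ring
        have h10 : l * l ^ 2 = l ^ 3 := by ring
        rw [h9, one_mul]
        linarith
      calc G * l * (1 + l) * (Real.exp (-(A * L)) * (1 / l ^ (7 : ℕ))) =
            (G * l * (1 + l) * (1 / l ^ (7 : ℕ))) * Real.exp (-(A * L)) := by ring
        _ ≤ 1 / 2 * Real.exp (-(A * L)) := mul_le_mul_of_nonneg_right h5 hA1.le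
    have h4 : C2 * l ^ 2 * x ^ (-(1 / 8) : ℝ) ≤ 1 / 2 * Real.exp (-(A * L)) := by
      have e5 : x ^ (-(1 / 8) : ℝ) = Real.exp (-(l / 8)) := by
        rw [Real.rpow_def_of_pos hx0]
        congr 1
        rw [← hl]
        ring
      have e6 : l ^ (A + 2) = Real.exp (A * L) * l ^ 2 := by
        rw [Real.rpow_add hl0, hpw A]
        congr 1
        exact_mod_cast Real.rpow_natCast l 2
      rw [e6] at c6
      have h5 : Real.exp (A * L) * Real.exp (-(A * L)) = 1 := by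
        rw [← Real.exp_add]; simp
      have h6 : Real.exp (l / 8) * Real.exp (-(l / 8)) = 1 := by
        rw [← Real.exp_add]; simp
      rw [e5]
      have h7 : 2 * C2 * (Real.exp (A * L) * l ^ 2) * (Real.exp (-(A * L)) * Real.exp (-(l / 8))) ≤
          Real.exp (l / 8) * (Real.exp (-(A * L)) * Real.exp (-(l / 8))) :=
        mul_le_mul_of_nonneg_right c6 (by positivity)
      have h8 : 2 * C2 * (Real.exp (A * L) * l ^ 2) * (Real.exp (-(A * L)) * Real.exp (-(l / 8))) =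
          2 * (C2 * l ^ 2 * Real.exp (-(l / 8))) * (Real.exp (A * L) * Real.exp (-(A * L))) := by
        ring
      have h9 : Real.exp (l / 8) * (Real.exp (-(A * L)) * Real.exp (-(l / 8))) =
          Real.exp (-(A * L)) * (Real.exp (l / 8) * Real.exp (-(l / 8))) := by ring
      rw [h8, h9, h5, h6, mul_one, mul_one] at h7
      linarith
    rw [e1]
    linarith [h2.trans h4]

end Pool.Agent.Helper34.CA
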