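import Pool.Agent.Helper34.CA.St

/-!
# Project CA (MP_87fff7_nt), module NiceHat

C2. `NiceHat`. `ξ` from `Exc` with exponent `κ' ∈ (κ₁, 1)` (so that `M f ≤ exp(l^{κ'})` for
`M ≤ exp(l^{κ₁})`, `f ≤ l^B`). Take `b = χ` in `NiceApprox`; `TwAv` with `S = {∏T : T ∈ 𝒯}`
(`T ↦ ∏T` is injective, all elements are coprime to `M` as their primes are `> l^κ`), `c = 1`,
`η = C/l^{A'}` from `Exc` (`A'` large compared with the `B` of `TwAv`).
-/

set_option autoImplicit false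

open Finset Filter Topology
open scoped ArithmeticFunction.vonMangoldt

namespace Pool.Agent.Helper34.CA

open Pool.Agent.Helper18.BV

private theorem NiceHat_asym (κ₁ κ' B K : ℝ) (h1 : 0 < κ₁) (h2 : κ₁ < κ') (h3 : κ' < 1)
    (hB : 0 < B) :
    ∀ᶠ x : ℝ in atTop, Real.log x ^ κ₁ ≤ Real.log x / 100 ∧ 1 ≤ Real.log x ∧
      K ≤ Real.log x ∧ Real.log x ^ κ₁ + B * Real.log (Real.log x) ≤ Real.log x ^ κ' := by
  have hl : ∀ᶠ l : ℝ in atTop, l ^ κ₁ ≤ l / 100 ∧ 1 ≤ l ∧ K ≤ l ∧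
      l ^ κ₁ + B * Real.log l ≤ l ^ κ' := by
    have e1 : ∀ᶠ l : ℝ in atTop, 100 ≤ l ^ (1 - κ₁) :=
      (tendsto_rpow_atTop (by linarith)).eventually_ge_atTop 100
    have e2 : ∀ᶠ l : ℝ in atTop, 1 + B ≤ l ^ (κ' - κ₁) :=
      (tendsto_rpow_atTop (by linarith)).eventually_ge_atTop (1 + B)
    have e3 : ∀ᶠ l : ℝ in atTop, ‖Real.log l‖ ≤ 1 * ‖l ^ κ₁‖ :=
      (isLittleO_log_rpow_atTop h1).bound one_pos
    filter_upwards [e1, e2, e3, eventually_ge_atTop (1 : ℝ), eventually_ge_atTop K]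
      with l a1 a2 a3 a4 a5
    have hl0 : 0 < l := by linarith
    have hp : 0 < l ^ κ₁ := Real.rpow_pos_of_pos hl0 _
    have b1 : l = l ^ κ₁ * l ^ (1 - κ₁) := by
      rw [← Real.rpow_add hl0]; simp
    have b2 : l ^ κ' = l ^ κ₁ * l ^ (κ' - κ₁) := by
      rw [← Real.rpow_add hl0]; congr 1; ring
    have a3' : Real.log l ≤ l ^ κ₁ := by
      have := (Real.le_norm_self (Real.log l)).trans a3
      rwa [one_mul, Real.norm_of_nonneg hp.le] at this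
    refine ⟨?_, a4, a5, ?_⟩
    · nlinarith
    · rw [b2]
      nlinarith
  exact Real.tendsto_log_atTop.eventually hl

private theorem NiceHat_inj {T T' : Finset ℕ} (hT : ∀ p ∈ T, p.Prime) (hT' : ∀ p ∈ T', p.Prime)
    (h : ∏ p ∈ T, p = ∏ p ∈ T', p) : T = T' := by
  rw [← Nat.primeFactors_prod hT, ← Nat.primeFactors_prod hT', h]

theorem niceHat (h1 : NiceApprox) (h2 : TwAv) (h3 : Exc) : NiceHat := by
  intro κ κ₁ κ₂ hκ hκ₁ hκ₂ hκ₂' g hg A hA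
  obtain ⟨C0, -, hN⟩ := h1 κ κ₂ hκ (hκ₁.trans hκ₂) hκ₂' g hg
  obtain ⟨X1, hX1, hN⟩ := hN (A + 1) (by linarith)
  obtain ⟨B, C2, X2, hB, hC2, hX2, hT⟩ := h2 g hg (A + 1) (by linarith)
  have hκ' : κ₁ < (κ₁ + 1) / 2 := by linarith
  obtain ⟨C3, X3, hC3, hX3, hE⟩ := h3 ((κ₁ + 1) / 2) (by linarith) (by linarith) g hg
    (A + B + 4) (by linarith)
  obtain ⟨X4, hX4⟩ := eventually_atTop.mp (NiceHat_asym κ₁ ((κ₁ + 1) / 2) B
    (1 + C2 + C2 * C3) (by linarith) hκ' (by linarith) hB)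
  refine ⟨max (max X1 X2) (max X3 X4), hX1.trans ((le_max_left _ _).trans (le_max_left _ _)), ?_⟩
  intro x hx M _ hM hMq
  have hx1 : X1 ≤ x := ((le_max_left _ _).trans (le_max_left _ _)).trans hx
  have hx2 : X2 ≤ x := ((le_max_right _ _).trans (le_max_left _ _)).trans hx
  have hx3 : X3 ≤ x := ((le_max_left _ _).trans (le_max_right _ _)).trans hx
  have hx4 : X4 ≤ x := ((le_max_right _ _).trans (le_max_right _ _)).trans hx
  obtain ⟨a1, a2, a3, a4⟩ := hX4 x hx4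
  have hx0 : 3 ≤ x := hX1.trans hx1
  have hxpos : 0 < x := by linarith
  set l := Real.log x with hl
  have hl0 : 0 < l := by linarith
  obtain ⟨ξ, hξ, hE⟩ := hE x hx3 M
  refine ⟨ξ, hξ, ?_⟩
  intro χ hχ1 hχξ
  obtain ⟨𝒯, hT1, -, hT2⟩ := hN x hx1
  have hb : ∀ n : ℕ, ‖χ (n : ZMod M)‖ ≤ 1 := fun n => DirichletCharacter.norm_le_one χ _
  have hmain := hT2 (fun n => χ (n : ZMod M)) hb
  -- the set of moduli
  classical
  set S : Finset ℕ := 𝒯.image (fun T => ∏ p ∈ T, p) with hS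
  have hinj : Set.InjOn (fun T : Finset ℕ => ∏ p ∈ T, p) (𝒯 : Set (Finset ℕ)) := by
    intro T hT T' hT' h
    exact NiceHat_inj (fun p hp => ((hT1 T hT).1 p hp).1) (fun p hp => ((hT1 T' hT').1 p hp).1) h
  have hMx : (M : ℝ) ≤ x ^ (1 / 100 : ℝ) := by
    refine hM.trans ?_
    rw [Real.rpow_def_of_pos hxpos, ← hl]
    exact Real.exp_le_exp.mpr (by linarith)
  have hcop : ∀ T ∈ 𝒯, Nat.Coprime (∏ p ∈ T, p) M := by
    intro T hT
    refine Nat.Coprime.prod_left fun p hp => ?_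
    obtain ⟨b1, b2, -⟩ := (hT1 T hT).1 p hp
    rw [b1.coprime_iff_not_dvd]
    intro hd
    exact absurd (hMq p b1 hd) (not_le.mpr b2)
  have hS1 : ∀ d ∈ S, 1 ≤ d ∧ (d : ℝ) ≤ x ^ (1 / 40 : ℝ) ∧ Nat.Coprime d M := by
    intro d hd
    obtain ⟨T, hT, rfl⟩ := mem_image.mp hd
    refine ⟨?_, ?_, hcop T hT⟩
    · exact Nat.one_le_iff_ne_zero.mpr
        (prod_ne_zero_iff.mpr fun p hp => ((hT1 T hT).1 p hp).1.ne_zero)
    · exact (hT1 T hT).2.trans (Real.rpow_le_rpow_of_exponent_le (by linarith) (by norm_num))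
  have hη : ∀ d ∈ S, ∀ f : ℕ, f ∣ d → (f : ℝ) ≤ Real.log x ^ B →
      ∀ ψ ∈ prim f, ‖SSt χ g x ψ‖ ≤ C3 / l ^ (A + B + 4) := by
    intro d hd f hf hfB ψ hψ
    obtain ⟨b1, b2, b3⟩ := hS1 d hd
    have hf1 : 1 ≤ f := Nat.one_le_iff_ne_zero.mpr (by
      rintro rfl
      rw [zero_dvd_iff] at hf
      omega)
    refine hE χ hχ1 hχξ f hf1 (Nat.Coprime.coprime_dvd_left hf b3) ?_ ψ hψ
    push_cast
    have c1 : (f : ℝ) ≤ Real.exp (B * Real.log l) := by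
      refine hfB.trans (le_of_eq ?_)
      rw [← hl, Real.rpow_def_of_pos hl0, mul_comm]
    calc (M : ℝ) * f ≤ Real.exp (l ^ κ₁) * Real.exp (B * Real.log l) :=
          mul_le_mul hM c1 (by positivity) (by positivity)
      _ = Real.exp (l ^ κ₁ + B * Real.log l) := (Real.exp_add _ _).symm
      _ ≤ _ := Real.exp_le_exp.mpr a4
  have hTw := hT x hx2 M χ hMx S hS1 (C3 / l ^ (A + B + 4)) (by positivity) hη (fun _ => 1)
    (fun d _ => Nat.coprime_one_left d)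
  rw [hS, sum_image hinj] at hTw
  have hsum : ‖∑ T ∈ 𝒯, (-1 : ℂ) ^ T.card *
      ∑ n ∈ (Icc 1 ⌊x⌋₊).filter (fun n => n ≡ 1 [MOD ∏ p ∈ T, p]),
        LaC n * χ (n : ZMod M) * (wt g x n : ℂ)‖ ≤
      C2 / l ^ (A + 1) + C2 * (C3 / l ^ (A + B + 4)) * l ^ (B + 3) := by
    refine (norm_sum_le _ _).trans (le_trans (le_of_eq ?_) hTw)
    refine sum_congr rfl fun T _ => ?_
    rw [norm_mul, norm_pow, norm_neg, norm_one, one_pow, one_mul]
  have hpow : C2 * (C3 / l ^ (A + B + 4)) * l ^ (B + 3) = C2 * C3 / l ^ (A + 1) := by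
    have : l ^ (A + B + 4) = l ^ (A + 1) * l ^ (B + 3) := by
      rw [← Real.rpow_add hl0]; congr 1; ring
    rw [this]
    have p1 : l ^ (A + 1) ≠ 0 := (Real.rpow_pos_of_pos hl0 _).ne'
    have p2 : l ^ (B + 3) ≠ 0 := (Real.rpow_pos_of_pos hl0 _).ne'
    field_simp
  have hfin : (1 + C2 + C2 * C3) / l ^ (A + 1) ≤ 1 / l ^ A := by
    rw [Real.rpow_add hl0, Real.rpow_one]
    have p1 : 0 < l ^ A := Real.rpow_pos_of_pos hl0 _
    rw [div_le_div_iff₀ (by positivity) p1]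
    nlinarith
  have htri := norm_sub_norm_le
    (∑ ℓ ∈ nz x (Real.log x ^ κ) (Real.exp (Real.log x ^ κ₂)),
      (Real.log ℓ : ℂ) * χ (ℓ : ZMod M) * (wt g x ℓ : ℂ))
    (∑ T ∈ 𝒯, (-1 : ℂ) ^ T.card *
      ∑ n ∈ (Icc 1 ⌊x⌋₊).filter (fun n => n ≡ 1 [MOD ∏ p ∈ T, p]),
        LaC n * χ (n : ZMod M) * (wt g x n : ℂ))
  have htot : ‖∑ ℓ ∈ nz x (Real.log x ^ κ) (Real.exp (Real.log x ^ κ₂)),
      (Real.log ℓ : ℂ) * χ (ℓ : ZMod M) * (wt g x ℓ : ℂ)‖ ≤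
      (1 + C2 + C2 * C3) / l ^ (A + 1) := by
    have e : (1 + C2 + C2 * C3) / l ^ (A + 1) =
        1 / l ^ (A + 1) + (C2 / l ^ (A + 1) + C2 * C3 / l ^ (A + 1)) := by
      ring
    rw [hpow] at hsum
    rw [e]
    linarith [hmain]
  exact htot.trans hfin

end Pool.Agent.Helper34.CA
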