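import Pool.Agent.Helper34.CA.St

/-!
# Project CA (MP_87fff7_nt), module PhiTail

E3. `PhiTail`. Dyadic blocks `q ∈ (F, 2F]`, `F = 2^i ⌊w⌋ ≤ x^4` (at most `7 log x` of them).
Choose `j ≥ 1` minimal with `F² ≤ X^j`; as `F² ≤ x^8 ≤ X^{J/2}`, `2j ≤ J`, and `X^{j-1} ≤ F²`.
`ProdBound` with `Q = 2F`: `(1/F) C (X^j + 4F²) j^{jh}/a^j ≤ (5C/F) X^j X^{δj} X^{-(1/2+3δ)j}`
(`j^{jh} ≤ (J^h)^j ≤ X^{δj}`) `= 5C X^{j(1/2-2δ)}/F ≤ 5C (F²X)^{1/2-2δ}/F ≤ 5C F^{-4δ} w^{δ/2}`,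
and `F ≥ w/2`.
-/

set_option autoImplicit false

open Finset Filter Topology
open scoped ArithmeticFunction.vonMangoldt

namespace Pool.Agent.Helper34.CA

open Pool.Agent.Helper18.BV

namespace PhiTailAux

lemma Phi_nonneg {J : ℕ} (A : Fin J → Finset ℕ) (q : ℕ) : 0 ≤ Phi A q := by
  unfold Phi
  exact Finset.sum_nonneg fun χ _ => Finset.prod_nonneg fun i _ => by positivity

lemma real_bound (δ w a C : ℝ) (j h X J F : ℕ) (hδ : 0 < δ) (hδ8 : δ ≤ 1 / 8) (hw : 1 < w)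
    (hC : 0 < C) (hX : 2 ≤ X) (hXw : (X : ℝ) ≤ w ^ δ) (hJ : (J : ℝ) ^ h ≤ (X : ℝ) ^ δ)
    (hjJ : j ≤ J) (hj : 1 ≤ j) (ha : (X : ℝ) ^ (1 / 2 + 3 * δ) ≤ a) (hF : 1 ≤ F)
    (hFw : w / 2 ≤ F) (h1 : (F : ℝ) ^ 2 ≤ (X : ℝ) ^ j) (h2 : (X : ℝ) ^ (j - 1) ≤ (F : ℝ) ^ 2) :
    1 / (F : ℝ) * (C * ((X : ℝ) ^ j + ((2 * F : ℕ) : ℝ) ^ 2) * (j : ℝ) ^ (j * h) / a ^ j) ≤
      10 * C * w ^ (-(3 * δ)) := by
  have hX0 : (0 : ℝ) < X := by exact_mod_cast (by omega : 0 < X)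
  have hX1 : (1 : ℝ) ≤ X := by exact_mod_cast (by omega : 1 ≤ X)
  have hF0 : (0 : ℝ) < F := by exact_mod_cast (by omega : 0 < F)
  have hw0 : (0 : ℝ) < w := by linarith
  have hb0 : (0 : ℝ) < (X : ℝ) ^ (1 / 2 + 3 * δ) := Real.rpow_pos_of_pos hX0 _
  have ha0 : 0 < a := lt_of_lt_of_le hb0 ha
  -- the factor `j ^ (j * h)`
  have e1 : (j : ℝ) ^ (j * h) ≤ ((X : ℝ) ^ δ) ^ j := by
    rw [mul_comm, pow_mul]
    apply pow_le_pow_left₀ (by positivity)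
    refine le_trans ?_ hJ
    apply pow_le_pow_left₀ (by positivity)
    exact_mod_cast hjJ
  have e2 : ((X : ℝ) ^ (1 / 2 + 3 * δ)) ^ j ≤ a ^ j := pow_le_pow_left₀ hb0.le ha j
  have e3 : (X : ℝ) ^ j + ((2 * F : ℕ) : ℝ) ^ 2 ≤ 5 * (X : ℝ) ^ j := by
    push_cast
    nlinarith [h1]
  have e4 : C * ((X : ℝ) ^ j + ((2 * F : ℕ) : ℝ) ^ 2) * (j : ℝ) ^ (j * h) / a ^ j ≤
      5 * C * ((X : ℝ) ^ (1 / 2 - 2 * δ)) ^ j := by
    have hrew : ((X : ℝ) ^ (1 / 2 - 2 * δ)) ^ j * ((X : ℝ) ^ (1 / 2 + 3 * δ)) ^ j =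
        (X : ℝ) ^ j * ((X : ℝ) ^ δ) ^ j := by
      rw [← mul_pow, ← mul_pow]
      congr 1
      have k1 : (X : ℝ) * (X : ℝ) ^ δ = (X : ℝ) ^ (1 + δ) := by
        rw [Real.rpow_add hX0, Real.rpow_one]
      rw [← Real.rpow_add hX0, k1]
      congr 1
      ring
    rw [div_le_iff₀ (by positivity)]
    calc C * ((X : ℝ) ^ j + ((2 * F : ℕ) : ℝ) ^ 2) * (j : ℝ) ^ (j * h)
        ≤ C * (5 * (X : ℝ) ^ j) * ((X : ℝ) ^ δ) ^ j := by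
          gcongr
      _ = 5 * C * (((X : ℝ) ^ (1 / 2 - 2 * δ)) ^ j * ((X : ℝ) ^ (1 / 2 + 3 * δ)) ^ j) := by
          rw [hrew]; ring
      _ ≤ 5 * C * ((X : ℝ) ^ (1 / 2 - 2 * δ)) ^ j * a ^ j := by
          rw [← mul_assoc]
          gcongr
  have hexp : 0 ≤ 1 / 2 - 2 * δ := by linarith
  have e5 : ((X : ℝ) ^ (1 / 2 - 2 * δ)) ^ j ≤ ((X : ℝ) * (F : ℝ) ^ 2) ^ (1 / 2 - 2 * δ) := by
    rw [← Real.rpow_natCast, ← Real.rpow_mul hX0.le, mul_comm, Real.rpow_mul hX0.le,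
      Real.rpow_natCast]
    apply Real.rpow_le_rpow (by positivity) _ hexp
    calc (X : ℝ) ^ j = (X : ℝ) * (X : ℝ) ^ (j - 1) := by
          rw [← pow_succ']; congr 1; omega
      _ ≤ (X : ℝ) * (F : ℝ) ^ 2 := by gcongr
  have e6 : ((X : ℝ) * (F : ℝ) ^ 2) ^ (1 / 2 - 2 * δ) ≤
      w ^ (δ / 2) * ((F : ℝ) * (F : ℝ) ^ (-(4 * δ))) := by
    rw [Real.mul_rpow hX0.le (by positivity)]
    have k1 : (X : ℝ) ^ (1 / 2 - 2 * δ) ≤ w ^ (δ / 2) := by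
      calc (X : ℝ) ^ (1 / 2 - 2 * δ) ≤ (X : ℝ) ^ (1 / 2 : ℝ) :=
            Real.rpow_le_rpow_of_exponent_le hX1 (by linarith)
        _ ≤ (w ^ δ) ^ (1 / 2 : ℝ) := Real.rpow_le_rpow hX0.le hXw (by norm_num)
        _ = w ^ (δ / 2) := by
            rw [← Real.rpow_mul hw0.le]; congr 1; ring
    have k2 : ((F : ℝ) ^ 2) ^ (1 / 2 - 2 * δ) = (F : ℝ) * (F : ℝ) ^ (-(4 * δ)) := by
      rw [← Real.rpow_natCast, ← Real.rpow_mul hF0.le]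
      nth_rewrite 2 [← Real.rpow_one (F : ℝ)]
      rw [← Real.rpow_add hF0]
      congr 1
      push_cast
      ring
    rw [k2]
    gcongr
  have e7 : (F : ℝ) ^ (-(4 * δ)) ≤ 2 * w ^ (-(4 * δ)) := by
    have k1 : (F : ℝ) ^ (-(4 * δ)) ≤ (w / 2) ^ (-(4 * δ)) :=
      Real.rpow_le_rpow_of_nonpos (by positivity) hFw (by linarith)
    have k2 : (w / 2) ^ (-(4 * δ)) = (2 : ℝ) ^ (4 * δ) * w ^ (-(4 * δ)) := by
      rw [Real.div_rpow hw0.le (by norm_num), Real.rpow_neg (by norm_num : (0 : ℝ) ≤ 2)]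
      field_simp
    have k3 : (2 : ℝ) ^ (4 * δ) ≤ 2 := by
      calc (2 : ℝ) ^ (4 * δ) ≤ (2 : ℝ) ^ (1 : ℝ) :=
            Real.rpow_le_rpow_of_exponent_le (by norm_num) (by linarith)
        _ = 2 := Real.rpow_one 2
    rw [k2] at k1
    refine k1.trans ?_
    gcongr
  calc 1 / (F : ℝ) * (C * ((X : ℝ) ^ j + ((2 * F : ℕ) : ℝ) ^ 2) * (j : ℝ) ^ (j * h) / a ^ j)
      ≤ 1 / (F : ℝ) * (5 * C * (w ^ (δ / 2) * ((F : ℝ) * (2 * w ^ (-(4 * δ)))))) := by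
        gcongr
        refine e4.trans ?_
        gcongr
        refine e5.trans (e6.trans ?_)
        gcongr
    _ = 10 * C * (w ^ (δ / 2) * w ^ (-(4 * δ))) := by
        field_simp
        ring
    _ ≤ 10 * C * w ^ (-(3 * δ)) := by
        gcongr
        rw [← Real.rpow_add hw0]
        exact Real.rpow_le_rpow_of_exponent_le hw.le (by linarith)

/-- one dyadic block -/
lemma block (C : ℝ) (hC : 0 < C)
    (hPB : ∀ (h j X Q J : ℕ) (A : Fin J → Finset ℕ) (a : ℝ), 1 ≤ j → 2 * j ≤ J →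
      1 ≤ X → 1 ≤ Q → 0 < a → (∀ i, a ≤ (A i).card) →
      (∀ i, ∀ n ∈ A i, 1 ≤ n ∧ n ≤ X ∧ Squarefree n ∧ n.primeFactors.card = h) →
      ∑ q ∈ Icc 1 Q, Phi A q ≤
        C * ((X : ℝ) ^ j + (Q : ℝ) ^ 2) * (j : ℝ) ^ (j * h) / a ^ j)
    (δ x w a : ℝ) (h X J : ℕ) (A : Fin J → Finset ℕ) (hδ : 0 < δ) (hδ8 : δ ≤ 1 / 8)
    (hx : 3 ≤ x) (hw : 1 < w) (hX : 2 ≤ X) (hXw : (X : ℝ) ≤ w ^ δ)
    (hJ : (J : ℝ) ^ h ≤ (X : ℝ) ^ δ)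
    (hxX : x ^ 8 ≤ (X : ℝ) ^ (J / 2)) (ha : (X : ℝ) ^ (1 / 2 + 3 * δ) ≤ a)
    (hA : ∀ i, a ≤ (A i).card)
    (hA' : ∀ i, ∀ n ∈ A i, 1 ≤ n ∧ n ≤ X ∧ Squarefree n ∧ n.primeFactors.card = h)
    (F : ℕ) (hF : 1 ≤ F) (hFw : w / 2 ≤ F) (hFx : (F : ℝ) ≤ x ^ 4) :
    ∑ q ∈ Ioc F (2 * F), Phi A q / q ≤ 10 * C * w ^ (-(3 * δ)) := by
  have hX0 : (0 : ℝ) < X := by exact_mod_cast (by omega : 0 < X)
  have hF0 : (0 : ℝ) < F := by exact_mod_cast (by omega : 0 < F)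
  have hF1 : (1 : ℝ) ≤ F := by exact_mod_cast hF
  have hJ1 : 1 ≤ J / 2 := by
    by_contra hcon
    have h0 : J / 2 = 0 := by omega
    rw [h0, pow_zero] at hxX
    have : (1 : ℝ) < x ^ 8 := one_lt_pow₀ (by linarith) (by norm_num)
    linarith
  have hF2 : (F : ℝ) ^ 2 ≤ (X : ℝ) ^ (J / 2) := by
    calc (F : ℝ) ^ 2 ≤ (x ^ 4) ^ 2 := by gcongr
      _ = x ^ 8 := by ring
      _ ≤ _ := hxX
  classical
  have hex : ∃ j : ℕ, 1 ≤ j ∧ (F : ℝ) ^ 2 ≤ (X : ℝ) ^ j := ⟨J / 2, hJ1, hF2⟩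
  obtain ⟨j, ⟨hj1, hjF⟩, hmin⟩ : ∃ j : ℕ, (1 ≤ j ∧ (F : ℝ) ^ 2 ≤ (X : ℝ) ^ j) ∧
      ∀ i < j, ¬ (1 ≤ i ∧ (F : ℝ) ^ 2 ≤ (X : ℝ) ^ i) :=
    ⟨Nat.find hex, Nat.find_spec hex, fun i hi => Nat.find_min hex hi⟩
  have hjJ : j ≤ J / 2 := by
    by_contra hcon
    exact hmin (J / 2) (by omega) ⟨hJ1, hF2⟩
  have hj2 : 2 * j ≤ J := by omega
  have hpred : (X : ℝ) ^ (j - 1) ≤ (F : ℝ) ^ 2 := by
    rcases Nat.lt_or_ge 1 j with h1 | h1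
    · have := hmin (j - 1) (by omega)
      by_contra hcon
      exact this ⟨by omega, le_of_lt (not_le.mp hcon)⟩
    · have : j - 1 = 0 := by omega
      rw [this, pow_zero]
      exact one_le_pow₀ hF1
  have ha0 : 0 < a := lt_of_lt_of_le (Real.rpow_pos_of_pos hX0 _) ha
  have hPB' := hPB h j X (2 * F) J A a hj1 hj2 (by omega) (by omega) ha0 hA hA'
  calc ∑ q ∈ Ioc F (2 * F), Phi A q / q
      ≤ ∑ q ∈ Ioc F (2 * F), 1 / (F : ℝ) * Phi A q := by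
        apply Finset.sum_le_sum
        intro q hq
        rw [Finset.mem_Ioc] at hq
        rw [div_eq_mul_inv, mul_comm, ← one_div]
        apply mul_le_mul_of_nonneg_right _ (Phi_nonneg A q)
        apply one_div_le_one_div_of_le hF0
        exact_mod_cast hq.1.le
    _ = 1 / (F : ℝ) * ∑ q ∈ Ioc F (2 * F), Phi A q := by rw [Finset.mul_sum]
    _ ≤ 1 / (F : ℝ) * ∑ q ∈ Icc 1 (2 * F), Phi A q := by
        refine mul_le_mul_of_nonneg_left ?_ (by positivity)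
        apply Finset.sum_le_sum_of_subset_of_nonneg
        · intro q hq
          rw [Finset.mem_Ioc] at hq
          rw [Finset.mem_Icc]
          omega
        · intro q _ _
          exact Phi_nonneg A q
    _ ≤ 1 / (F : ℝ) *
        (C * ((X : ℝ) ^ j + ((2 * F : ℕ) : ℝ) ^ 2) * (j : ℝ) ^ (j * h) / a ^ j) := by
        gcongr
    _ ≤ 10 * C * w ^ (-(3 * δ)) :=
        real_bound δ w a C j h X J F hδ hδ8 hw hC hX hXw hJ (by omega) hj1 ha hF hFw hjF hpred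

lemma dyadic (g : ℕ → ℝ) (W : ℕ) (b : ℝ) :
    ∀ K : ℕ, (∀ i < K, ∑ q ∈ Ioc (2 ^ i * W) (2 * (2 ^ i * W)), g q ≤ b) →
      ∑ q ∈ Ioc W (2 ^ K * W), g q ≤ K * b := by
  intro K
  induction K with
  | zero => intro _; simp
  | succ K ih =>
    intro hb
    have h1 := ih (fun i hi => hb i (by omega))
    have h2 := hb K (by omega)
    have h3 : ∑ q ∈ Ioc W (2 ^ K * W), g q + ∑ q ∈ Ioc (2 ^ K * W) (2 ^ (K + 1) * W), g q =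
        ∑ q ∈ Ioc W (2 ^ (K + 1) * W), g q := by
      apply Finset.sum_Ioc_consecutive
      · exact Nat.le_mul_of_pos_left W (by positivity)
      · exact Nat.mul_le_mul_right W (Nat.pow_le_pow_right (by norm_num) (by omega))
    have h4 : 2 * (2 ^ K * W) = 2 ^ (K + 1) * W := by ring
    rw [h4] at h2
    rw [← h3]
    push_cast
    linarith

end PhiTailAux

open PhiTailAux in
theorem phiTail (h : ProdBound) : PhiTail := by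
  obtain ⟨C, hC, hPB⟩ := h
  refine ⟨70 * C, by positivity, ?_⟩
  intro δ x w a h X J A hδ hδ8 hx hw hX hXw hJ hxX ha hA hA'
  have hw0 : (0 : ℝ) < w := by linarith
  have hW1 : 1 ≤ ⌊w⌋₊ := by
    rw [Nat.one_le_floor_iff]
    exact hw.le
  have hWw : w / 2 ≤ (⌊w⌋₊ : ℝ) := by
    have h1 : w < ⌊w⌋₊ + 1 := Nat.lt_floor_add_one w
    have h2 : (1 : ℝ) ≤ ⌊w⌋₊ := by exact_mod_cast hW1
    linarith
  have hx4 : (1 : ℝ) ≤ x ^ 4 := one_le_pow₀ (by linarith)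
  have hY : ((⌊x ^ 4⌋₊ : ℕ) : ℝ) ≤ x ^ 4 := Nat.floor_le (by positivity)
  classical
  have hex : ∃ K : ℕ, ⌊x ^ 4⌋₊ ≤ 2 ^ K * ⌊w⌋₊ :=
    ⟨⌊x ^ 4⌋₊, le_trans (Nat.lt_two_pow_self).le (Nat.le_mul_of_pos_right _ (by omega))⟩
  obtain ⟨K, hK, hmin⟩ : ∃ K : ℕ, ⌊x ^ 4⌋₊ ≤ 2 ^ K * ⌊w⌋₊ ∧
      ∀ i < K, ¬ (⌊x ^ 4⌋₊ ≤ 2 ^ i * ⌊w⌋₊) :=
    ⟨Nat.find hex, Nat.find_spec hex, fun i hi => Nat.find_min hex hi⟩
  have hlog : 1 ≤ Real.log x := by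
    have h1 : Real.exp 1 ≤ x := by
      have := Real.exp_one_lt_d9
      linarith
    calc (1 : ℝ) = Real.log (Real.exp 1) := (Real.log_exp 1).symm
      _ ≤ Real.log x := Real.log_le_log (Real.exp_pos 1) h1
  have hKlog : (K : ℝ) ≤ 7 * Real.log x := by
    rcases Nat.eq_zero_or_pos K with h0 | h0
    · rw [h0]
      push_cast
      linarith
    · have h1 := hmin (K - 1) (by omega)
      have h2 : 2 ^ (K - 1) ≤ ⌊x ^ 4⌋₊ := by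
        have := Nat.le_mul_of_pos_right (2 ^ (K - 1)) (show 0 < ⌊w⌋₊ by omega)
        omega
      have h3 : (2 : ℝ) ^ (K - 1) ≤ x ^ 4 := by
        have : ((2 ^ (K - 1) : ℕ) : ℝ) ≤ ((⌊x ^ 4⌋₊ : ℕ) : ℝ) := by exact_mod_cast h2
        push_cast at this
        linarith
      have h4 : ((K - 1 : ℕ) : ℝ) * Real.log 2 ≤ 4 * Real.log x := by
        have := Real.log_le_log (by positivity) h3
        rw [Real.log_pow, Real.log_pow] at this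
        exact_mod_cast this
      have h5 : ((K - 1 : ℕ) : ℝ) = (K : ℝ) - 1 := by
        rw [Nat.cast_sub (by omega)]; simp
      rw [h5] at h4
      have h6 := Real.log_two_gt_d9
      have h7 : ((K : ℝ) - 1) * 0.6931471803 ≤ 4 * Real.log x := by
        have hK1 : (0 : ℝ) ≤ (K : ℝ) - 1 := by
          have : (1 : ℝ) ≤ K := by exact_mod_cast h0
          linarith
        nlinarith
      nlinarith
  have hb : ∀ i < K, ∑ q ∈ Ioc (2 ^ i * ⌊w⌋₊) (2 * (2 ^ i * ⌊w⌋₊)), Phi A q / q ≤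
      10 * C * w ^ (-(3 * δ)) := by
    intro i hi
    have h1 := hmin i hi
    have h2 : ⌊w⌋₊ ≤ 2 ^ i * ⌊w⌋₊ := Nat.le_mul_of_pos_left _ (by positivity)
    apply block C hC hPB δ x w a h X J A hδ hδ8 hx hw hX hXw hJ hxX ha hA hA' _ (by omega)
    · have : ((⌊w⌋₊ : ℕ) : ℝ) ≤ ((2 ^ i * ⌊w⌋₊ : ℕ) : ℝ) := by exact_mod_cast h2
      linarith
    · have h3 : ((2 ^ i * ⌊w⌋₊ : ℕ) : ℝ) ≤ ((⌊x ^ 4⌋₊ : ℕ) : ℝ) := by
        exact_mod_cast (by omega : 2 ^ i * ⌊w⌋₊ ≤ ⌊x ^ 4⌋₊)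
      linarith
  have hd := dyadic (fun q => Phi A q / q) ⌊w⌋₊ _ K hb
  have hwpos : 0 < w ^ (-(3 * δ)) := Real.rpow_pos_of_pos hw0 _
  calc ∑ q ∈ Ioc ⌊w⌋₊ ⌊x ^ 4⌋₊, Phi A q / q
      ≤ ∑ q ∈ Ioc ⌊w⌋₊ (2 ^ K * ⌊w⌋₊), Phi A q / q := by
        apply Finset.sum_le_sum_of_subset_of_nonneg
        · exact Finset.Ioc_subset_Ioc_right hK
        · intro q _ _
          exact div_nonneg (Phi_nonneg A q) (by positivity)
    _ ≤ K * (10 * C * w ^ (-(3 * δ))) := hd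
    _ ≤ (7 * Real.log x) * (10 * C * w ^ (-(3 * δ))) := by gcongr
    _ = 70 * C * Real.log x * w ^ (-(3 * δ)) := by ring

end Pool.Agent.Helper34.CA
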