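import Pool.Agent.Helper34.CA.LDer
import Pool.Agent.Helper34.CA.Combos
import Pool.Agent.Helper34.CA.Page
import Pool.Agent.Helper34.CA.NearP
import Pool.Agent.Helper34.CA.SmallP
import Pool.Agent.Helper34.CA.Exc
import Pool.Agent.Helper34.CA.Red
import Pool.Agent.Helper34.CA.TwLarge
import Pool.Agent.Helper34.CA.TwAv
import Pool.Agent.Helper34.CA.BrunPure
import Pool.Agent.Helper34.CA.NiceApprox
import Pool.Agent.Helper34.CA.NiceHat
import Pool.Agent.Helper34.CA.NiceMass
import Pool.Agent.Helper34.CA.Conv4
import Pool.Agent.Helper34.CA.QuadLB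
import Pool.Agent.Helper34.CA.Moment
import Pool.Agent.Helper34.CA.ProdBound
import Pool.Agent.Helper34.CA.PhiTail
import Pool.Agent.Helper34.CA.Equi
import Pool.Agent.Helper34.CA.SwapT
import Pool.Agent.Helper34.CA.BadT
import Pool.Agent.Helper34.CA.Pop
import Pool.Agent.Helper34.CA.Kors
import Pool.Agent.Helper34.CA.CountC
import Pool.Agent.Helper34.CA.MainE
import Pool.Agent.Helper18.CA.Main
import Pool.Agent.Helper18.BV.Final

/-!
# Project CA (MP_87fff7_nt): assembly
-/

set_option autoImplicit false

namespace Pool.Agent.Helper34.CA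

open Pool.Agent.Helper18.BV

theorem small_bv : Small := by
  have hB := Pool.Agent.Helper85.BV.lBound
  have hU := Pool.Agent.Helper85.BV.lUpper
  have hC := Pool.Agent.Helper30.BV.lComplex hU
  have hE := Pool.Agent.Helper18.BV.estermann
  have hAP := Pool.Agent.Helper79.BV.altProd
  have hAO := Pool.Agent.Helper79.BV.altOne
  have hSi := Pool.Agent.Helper37.BV.siegelReal hB hU hE hAP hAO
  have hF := Pool.Agent.Helper46.BV.fourierRep
  have hN := Pool.Agent.Helper79.BV.nearOne hU hC hSi
  exact Pool.Agent.Helper81.BV.small hN hF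

theorem typeTwo_bv : TypeTwo :=
  Pool.Agent.Helper96.BV.typeTwo Pool.Agent.Helper96.BV.tls Pool.Agent.Helper46.BV.fourierRep

theorem h_exc : Exc := exc (page lDer combos) (smallP nearP Pool.Agent.Helper46.BV.fourierRep)

theorem h_twAv : TwAv := twAv (twLarge Pool.Agent.Helper18.BV.vaughanId
  Pool.Agent.Helper18.BV.coefFacts Pool.Agent.Helper44.BV.typeOne typeTwo_bv)

theorem h_nice : NiceApprox := niceApprox brunPure

theorem h_quad : QuadLB :=
  quadLB (niceHat h_nice h_twAv h_exc) (niceMass h_nice bv Pool.Agent.Helper44.BV.mass) conv4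

theorem h_tail : PhiTail := phiTail (prodBound (moment mls_red))

theorem h_count : CountC := countC kors

theorem main_all : MainAll := mainAll h_quad h_tail equi swapT badT pop countG

theorem main_loc : MainLoc := mainLoc h_quad h_tail equi swapT badT pop countG

/-- **The main theorem.** -/
theorem main_thm : Main := main main_all kors

end Pool.Agent.Helper34.CA
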