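import Pool.Agent.Helper34.CA.St
import Pool.Agent.Helper44.BV.Mass

/-!
# Project CA (MP_87fff7_nt), module GoodWt

D4. `GoodWt`. A smooth bump with `0 ≤ g ≤ 1`, `g = 1` on `[1 - ε + ρε/4, 1 - ρε/4]`, support in
`(1-ε, 1)` (`exists_contDiff_tsupport_subset` or `exists_smooth_one_nhds...`, see `exists_wt` in
`Helper18/BV/Assemble.lean`). Lower bound: `∑_{A<n≤B} Λ(n)/n ≥ log(B/A) - 13`
(`le_sum_Lambda_Ioc`, `sum_Lambda_Ioc_le` in `Helper44/BV/Mass.lean`) with `A = x^{1-ε+ρε/4}`,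
`B = x^{1-ρε/4}`: `≥ (1-ρ/2) ε log x - 13 ≥ (1-ρ) ε log x` for `x` large.
-/

set_option autoImplicit false

open Finset Filter Topology
open scoped ArithmeticFunction.vonMangoldt

namespace Pool.Agent.Helper34.CA

open Pool.Agent.Helper18.BV

/-- the bump -/
theorem GoodWt_bump {ε ρ : ℝ} (hε : 0 < ε) (hρ : 0 < ρ) (hρ1 : ρ < 1) :
    ∃ g : ℝ → ℝ, IsWtS (1 - ε) g ∧ (∀ v, g v ≤ 1) ∧
      ∀ v, 1 - ε + ρ * ε / 4 ≤ v → v ≤ 1 - ρ * ε / 4 → g v = 1 := by
  have hρε : 0 < ρ * ε := mul_pos hρ hε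
  have hρε1 : ρ * ε < ε := by nlinarith
  let f : ContDiffBump (1 - ε / 2 : ℝ) :=
    ⟨ε / 2 - ρ * ε / 4, ε / 2 - ρ * ε / 8, by linarith, by linarith⟩
  refine ⟨fun v => f v, ⟨f.contDiff, ?_, fun v => f.nonneg⟩, fun v => f.le_one, ?_⟩
  · have h1 : tsupport (fun v => f v) = Metric.closedBall (1 - ε / 2) (ε / 2 - ρ * ε / 8) :=
      f.tsupport_eq
    rw [h1, Real.closedBall_eq_Icc]
    intro v hv
    rw [Set.mem_Icc] at hv
    rw [Set.mem_Ioo]
    constructor <;> linarith [hv.1, hv.2]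
  · intro v h1 h2
    apply f.one_of_mem_closedBall
    rw [Real.closedBall_eq_Icc, Set.mem_Icc]
    constructor
    · show 1 - ε / 2 - (ε / 2 - ρ * ε / 4) ≤ v
      linarith
    · show v ≤ 1 - ε / 2 + (ε / 2 - ρ * ε / 4)
      linarith

theorem goodWt : GoodWt := by
  intro ε ρ hε hε4 hρ hρ1
  obtain ⟨g, hg, hg1, hgone⟩ := GoodWt_bump hε hρ hρ1
  have hρε : 0 < ρ * ε := mul_pos hρ hε
  have hρε1 : ρ * ε < ε := by nlinarith
  refine ⟨g, hg, hg1, max 3 (Real.exp (26 / (ρ * ε))), le_max_left _ _, ?_⟩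
  intro x hx
  have hx3 : 3 ≤ x := (le_max_left _ _).trans hx
  have hx0 : 0 < x := by linarith
  have hlog1 : 1 ≤ Real.log x := by
    rw [Real.le_log_iff_exp_le hx0]
    exact (Real.exp_one_lt_d9.le.trans (by norm_num)).trans hx3
  have hlogε : 26 / (ρ * ε) ≤ Real.log x := by
    rw [Real.le_log_iff_exp_le hx0]
    exact (le_max_right _ _).trans hx
  have hlog0 : 0 < Real.log x := by linarith
  have hterm : ∀ n : ℕ, Λ n * wt g x n = g (Real.log n / Real.log x) * (Λ n / n) := by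
    intro n
    unfold wt
    ring
  set a := 1 - ε + ρ * ε / 4 with ha
  set b := 1 - ρ * ε / 4 with hb
  have hxa : 1 ≤ x ^ a := Real.one_le_rpow (by linarith) (by linarith)
  have hxb : 1 ≤ x ^ b := Real.one_le_rpow (by linarith) (by linarith)
  have hAB : ⌊x ^ a⌋₊ ≤ ⌊x ^ b⌋₊ :=
    Nat.floor_le_floor (Real.rpow_le_rpow_of_exponent_le (by linarith) (by linarith))
  have hBx : ⌊x ^ b⌋₊ ≤ ⌊x⌋₊ := by
    apply Nat.floor_le_floor
    calc x ^ b ≤ x ^ (1 : ℝ) := Real.rpow_le_rpow_of_exponent_le (by linarith) (by linarith)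
      _ = x := Real.rpow_one x
  have h1 : ∑ n ∈ Ioc ⌊x ^ a⌋₊ ⌊x ^ b⌋₊, (Λ n / n) ≤
      ∑ n ∈ Icc 1 ⌊x⌋₊, Λ n * wt g x n := by
    calc ∑ n ∈ Ioc ⌊x ^ a⌋₊ ⌊x ^ b⌋₊, (Λ n / n)
        ≤ ∑ n ∈ Ioc ⌊x ^ a⌋₊ ⌊x ^ b⌋₊, Λ n * wt g x n := by
          apply Finset.sum_le_sum
          intro n hn
          rw [hterm n]
          have hn1 := (Finset.mem_Ioc.1 hn).1
          have hn2 := (Finset.mem_Ioc.1 hn).2
          have hna : x ^ a < n := (Nat.floor_lt (by positivity)).1 hn1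
          have hnb : (n : ℝ) ≤ x ^ b := (Nat.le_floor_iff (by positivity)).1 hn2
          have hn0 : (0 : ℝ) < n := by linarith
          have hla : a ≤ Real.log n / Real.log x := by
            rw [le_div_iff₀ hlog0, ← Real.log_rpow hx0]
            exact Real.log_le_log (by positivity) hna.le
          have hlb : Real.log n / Real.log x ≤ b := by
            rw [div_le_iff₀ hlog0, ← Real.log_rpow hx0]
            exact Real.log_le_log hn0 hnb
          rw [hgone _ hla hlb, one_mul]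
      _ ≤ ∑ n ∈ Icc 1 ⌊x⌋₊, Λ n * wt g x n := by
          apply Finset.sum_le_sum_of_subset_of_nonneg
          · intro n hn
            rw [Finset.mem_Ioc] at hn
            rw [Finset.mem_Icc]
            omega
          · intro n _ _
            rw [hterm n]
            exact mul_nonneg (hg.nonneg _)
              (div_nonneg ArithmeticFunction.vonMangoldt_nonneg (Nat.cast_nonneg n))
  have h2 : ∑ n ∈ Ioc ⌊x ^ a⌋₊ ⌊x ^ b⌋₊, Λ n / n =
      ∑ n ∈ Ioc 0 ⌊x ^ b⌋₊, Λ n / n - ∑ n ∈ Ioc 0 ⌊x ^ a⌋₊, Λ n / n := by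
    rw [eq_sub_iff_add_eq, add_comm]
    have hd : Disjoint (Ioc 0 ⌊x ^ a⌋₊) (Ioc ⌊x ^ a⌋₊ ⌊x ^ b⌋₊) := by
      rw [Finset.disjoint_left]
      intro n h h'
      rw [Finset.mem_Ioc] at h h'
      omega
    rw [← Finset.sum_union hd, Finset.Ioc_union_Ioc_eq_Ioc (Nat.zero_le _) hAB]
  have h3 := Pool.Agent.Helper44.BV.sum_Lambda_Ioc_le hxa
  have h4 := Pool.Agent.Helper44.BV.le_sum_Lambda_Ioc hxb
  rw [Real.log_rpow hx0] at h3 h4
  rw [h2] at h1
  refine le_trans ?_ h1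
  have h5 : 26 ≤ Real.log x * (ρ * ε) := by
    rw [div_le_iff₀ hρε] at hlogε
    exact hlogε
  have h6 : b * Real.log x - a * Real.log x =
      (1 - ρ) * ε * Real.log x + (Real.log x * (ρ * ε)) / 2 := by
    rw [ha, hb]; ring
  linarith

end Pool.Agent.Helper34.CA
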