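import Pool.Agent.Helper34.CA.St
import Pool.Agent.Helper33.KSZ.Landau
import Pool.Agent.Helper85.BV.LUpper
import Pool.Agent.Helper33.CA.Local

/-!
# Project CA (MP_87fff7_nt), module LDer

A1. `LDer`, from the local expansion `Pool.Agent.Helper33.CA.local_LX` of `L'/L` near `1`. All
zeros have real part `< 1 < Re s₀`, `s₀ = 1 + δ + γ i`, so every term `Re (m_c / (s₀ - c))` is
nonnegative; the zeros in `Z` are among the zeros of the expansion and have `m_c ≥ 1`.
-/

set_option autoImplicit false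

open Finset Filter Topology
open scoped ArithmeticFunction.vonMangoldt

namespace Pool.Agent.Helper34.CA

open Pool.Agent.Helper18.BV

namespace LDerAux

/-- Nontrivial characters have modulus at least `3`. -/
lemma three_le {q : ℕ} [NeZero q] {χ : DirichletCharacter ℂ q} (hχ : χ ≠ 1) : 3 ≤ q := by
  by_contra h
  apply hχ
  have hq : q = 1 ∨ q = 2 := by
    have := NeZero.ne q
    omega
  have key : ∀ u : (ZMod q)ˣ, u = 1 := by
    rcases hq with rfl | rfl
    · decide
    · decide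
  ext u
  rw [key u]
  simp

lemma re_div_nonneg {s c : ℂ} (h : c.re < s.re) (m : ℕ) : 0 ≤ ((m : ℂ) / (s - c)).re :=
  Pool.Agent.Helper33.CA.re_nonneg' h m

end LDerAux

open LDerAux in
theorem lDer : LDer := by
  obtain ⟨C, hC, hloc⟩ := Pool.Agent.Helper33.CA.local_LX
  refine ⟨C, hC, ?_⟩
  intro q _ χ hχ δ γ hδ hδ1 hγ Z hZ
  have hq := three_le hχ
  have hq0 : (0 : ℝ) < q := by
    have : (3 : ℝ) ≤ q := by exact_mod_cast hq
    linarith
  obtain ⟨S, hS, -, hld⟩ := hloc q χ hq hχ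
  set s : ℂ := 1 + δ + γ * Complex.I with hs
  have hsre : s.re = 1 + δ := by simp [hs]
  have hsim : s.im = γ := by simp [hs]
  have hs1 : 1 < s.re := by rw [hsre]; linarith
  have hL : DirichletCharacter.LFunction χ s ≠ 0 :=
    DirichletCharacter.LFunction_ne_zero_of_one_le_re χ (Or.inl hχ) hs1.le
  have hball : s ∈ Metric.closedBall (11 / 10 : ℂ) (1 / 5) := by
    rw [Metric.mem_closedBall, dist_eq_norm]
    have h1 : ‖s - 11 / 10‖ ^ 2 ≤ (1 / 5 : ℝ) ^ 2 := by
      rw [← Complex.normSq_eq_norm_sq, Complex.normSq_apply]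
      have e1 : (s - 11 / 10).re = δ - 1 / 10 := by
        rw [Complex.sub_re, hsre]
        norm_num
        ring
      have e2 : (s - 11 / 10).im = γ := by
        rw [Complex.sub_im, hsim]
        norm_num
      rw [e1, e2]
      have h2 := abs_le.1 hγ
      nlinarith
    exact (abs_le_of_sq_le_sq' h1 (by norm_num)).2
  have h1 := hld s hball hL
  have h2 := (abs_le.1 ((Complex.abs_re_le_norm _).trans h1)).1
  rw [Complex.sub_re] at h2
  have hpos : ∀ c ∈ S, 0 ≤ ((analyticOrderNatAt (DirichletCharacter.LFunction χ) c : ℂ) /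
      (s - c)).re := by
    intro c hc
    exact re_div_nonneg ((Pool.Agent.Helper33.CA.re_lt_one hχ ((hS c).1 hc).2).trans hs1) _
  have h3 : (∑ c ∈ S, (analyticOrderNatAt (DirichletCharacter.LFunction χ) c : ℂ) /
      (s - c)).re = ∑ c ∈ S, ((analyticOrderNatAt (DirichletCharacter.LFunction χ) c : ℂ) /
      (s - c)).re := Complex.re_sum _ _
  rw [h3] at h2
  have hZS : Z ⊆ S := by
    intro ρ hρ
    obtain ⟨h4, h5⟩ := hZ ρ hρ
    refine (hS ρ).2 ⟨?_, h4⟩
    rw [Metric.mem_closedBall, dist_eq_norm]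
    have h6 : ρ - 11 / 10 = (ρ - 1) - (1 / 10 : ℂ) := by ring
    rw [h6]
    have h7 : ‖(1 / 10 : ℂ)‖ = 1 / 10 := by norm_num
    refine (norm_sub_le _ _).trans ?_
    rw [h7]
    linarith
  have h4 : ∑ ρ ∈ Z, (1 / (s - ρ)).re ≤
      ∑ c ∈ S, ((analyticOrderNatAt (DirichletCharacter.LFunction χ) c : ℂ) / (s - c)).re := by
    refine le_trans (Finset.sum_le_sum fun ρ hρ => ?_)
      (Finset.sum_le_sum_of_subset_of_nonneg hZS fun c hc _ => hpos c hc)
    have hρ0 := (hZ ρ hρ).1
    have h6 := re_div_nonneg ((Pool.Agent.Helper33.CA.re_lt_one hχ hρ0).trans hs1)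
      (analyticOrderNatAt (DirichletCharacter.LFunction χ) ρ - 1)
    have h7 := Pool.Agent.Helper33.CA.order_pos hχ hρ0
    rw [Nat.cast_sub h7, sub_div, Complex.sub_re, Nat.cast_one] at h6
    linarith
  have h5 : Real.log q ≤ Real.log (q / δ) := by
    refine Real.log_le_log hq0 ?_
    rw [le_div_iff₀ hδ]
    nlinarith
  have h6 : C * Real.log q ≤ C * Real.log (q / δ) := mul_le_mul_of_nonneg_left h5 hC.le
  unfold LD
  have h7 : ∑ ρ ∈ Z, (1 / (1 + (δ : ℂ) + γ * Complex.I - ρ)).re =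
      ∑ ρ ∈ Z, (1 / (s - ρ)).re := rfl
  rw [h7]
  linarith

end Pool.Agent.Helper34.CA
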