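import Pool.Agent.Helper34.CA.St
import Pool.Agent.Helper96.BV.Large

/-!
# Project CA (MP_87fff7_nt), module LargeS

B4. `LargeS`. Follow `Pool/Agent/Helper96/BV/Large.lean` with `U = V = ⌊x^{ε/4}⌋` (`σ = 1-ε`).
For `q` in a dyadic block `(Q, 2Q]`, `Q = 2^i ⌊l^B⌋ ≤ x^{1/2-ε}`: the Type I terms contribute
`≤ ∑_{q ≤ 2Q} C q U² l³ x^{-(1-ε)} ≤ C Q² x^{ε/2} l³ x^{-1+ε} ≤ C l³ x^{-ε/2}`, the Type II term
`≤ C l⁴ (1/Q + 2 x^{-ε/8} + Q x^{-(1-ε)/2}) ≤ C l⁴ (1/Q + 3 x^{-ε/8})`. Sum over the `≤ 2 l`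
blocks, `∑ 1/Q ≤ 2/l^B · 2`, `B = A + 5`. (The cut-off at `x^{1/2-ε}` only removes
nonnegative terms.)
-/

set_option autoImplicit false

open Finset Filter Topology
open scoped ArithmeticFunction.vonMangoldt

namespace Pool.Agent.Helper34.CA

open Pool.Agent.Helper18.BV

namespace LargeSAux

open Pool.Agent.Helper96.BV

/-- Summation over dyadic blocks. -/
theorem dyadic (F : ℕ → ℝ) (hF : ∀ q, 0 ≤ F q) (Q0 R : ℕ) (hQ0 : 1 ≤ Q0) (E K : ℝ) (hE : 0 ≤ E)
    (hK : 0 ≤ K)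
    (h : ∀ Q, Q0 ≤ Q → Q < R → ∑ q ∈ Ioc Q (2 * Q), F q ≤ E + K / Q) (N : ℕ) :
    ∑ q ∈ Ioc Q0 (min R (2 ^ N * Q0)), F q ≤ N * E + (2 - 2 / 2 ^ N) * (K / Q0) := by
  have hQ0' : (0 : ℝ) < Q0 := by exact_mod_cast hQ0
  induction N with
  | zero => simp
  | succ N ih =>
    have h2N : (0 : ℝ) < 2 ^ N := by positivity
    have hmono : N * E + (2 - 2 / 2 ^ N) * (K / Q0) ≤
        ((N + 1 : ℕ) : ℝ) * E + (2 - 2 / 2 ^ (N + 1)) * (K / Q0) := by
      have e1 : (2 : ℝ) / 2 ^ (N + 1) ≤ 2 / 2 ^ N := by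
        apply div_le_div_of_nonneg_left (by norm_num) h2N
        rw [pow_succ]; linarith
      have e2 : 0 ≤ K / Q0 := by positivity
      push_cast
      nlinarith
    by_cases hR : R ≤ 2 ^ N * Q0
    · have h1 : min R (2 ^ (N + 1) * Q0) = min R (2 ^ N * Q0) := by
        rw [min_eq_left hR, min_eq_left]
        rw [pow_succ]
        nlinarith [Nat.zero_le (2 ^ N * Q0)]
      rw [h1]
      exact ih.trans hmono
    · push Not at hR
      have h1 : Ioc Q0 (min R (2 ^ (N + 1) * Q0)) ⊆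
          Ioc Q0 (min R (2 ^ N * Q0)) ∪ Ioc (2 ^ N * Q0) (2 * (2 ^ N * Q0)) := by
        intro q hq
        rw [Finset.mem_Ioc] at hq
        rw [Finset.mem_union, Finset.mem_Ioc, Finset.mem_Ioc]
        have h3 : q ≤ 2 ^ (N + 1) * Q0 := hq.2.trans (min_le_right _ _)
        have h4 : q ≤ R := hq.2.trans (min_le_left _ _)
        have h5 : 2 ^ (N + 1) * Q0 = 2 * (2 ^ N * Q0) := by ring
        by_cases h6 : q ≤ 2 ^ N * Q0
        · left; exact ⟨hq.1, le_min h4 h6⟩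
        · right; exact ⟨by omega, by omega⟩
      have h2 : Q0 ≤ 2 ^ N * Q0 := Nat.le_mul_of_pos_left _ (by positivity)
      have h3 := h (2 ^ N * Q0) h2 hR
      calc ∑ q ∈ Ioc Q0 (min R (2 ^ (N + 1) * Q0)), F q
          ≤ ∑ q ∈ Ioc Q0 (min R (2 ^ N * Q0)) ∪ Ioc (2 ^ N * Q0) (2 * (2 ^ N * Q0)), F q :=
            Finset.sum_le_sum_of_subset_of_nonneg h1 (fun q _ _ => hF q)
        _ ≤ ∑ q ∈ Ioc Q0 (min R (2 ^ N * Q0)), F q +
            ∑ q ∈ Ioc (2 ^ N * Q0) (2 * (2 ^ N * Q0)), F q := by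
            have := Finset.sum_union_inter (s₁ := Ioc Q0 (min R (2 ^ N * Q0)))
              (s₂ := Ioc (2 ^ N * Q0) (2 * (2 ^ N * Q0))) (f := F)
            have h4 : 0 ≤ ∑ q ∈ Ioc Q0 (min R (2 ^ N * Q0)) ∩
              Ioc (2 ^ N * Q0) (2 * (2 ^ N * Q0)), F q := Finset.sum_nonneg (fun q _ => hF q)
            linarith
        _ ≤ (N * E + (2 - 2 / 2 ^ N) * (K / Q0)) + (E + K / ((2 ^ N * Q0 : ℕ) : ℝ)) :=
            add_le_add ih h3
        _ = ((N + 1 : ℕ) : ℝ) * E + (2 - 2 / 2 ^ (N + 1)) * (K / Q0) := by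
            push_cast
            rw [pow_succ]
            field_simp
            ring

theorem half_le_floor {y : ℝ} (hy : 1 ≤ y) : y / 2 ≤ (⌊y⌋₊ : ℝ) := by
  have h1 := Nat.sub_one_lt_floor y
  have h2 : (1 : ℝ) ≤ (⌊y⌋₊ : ℝ) := by
    have : 1 ≤ ⌊y⌋₊ := Nat.le_floor (by simpa using hy)
    exact_mod_cast this
  linarith

end LargeSAux

open LargeSAux Pool.Agent.Helper96.BV in
theorem largeS (h1 : VaughanId) (h2 : CoefFacts) (h3 : TypeOneS) (h4 : TypeTwoS) : LargeS := by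
  intro ε hε hε4 g hgS A hA
  have hσ2 : 1 / 2 ≤ 1 - ε := by linarith
  have hσ1 : 1 - ε < 1 := by linarith
  have hg : IsWt g := hgS.isWt hσ2
  obtain ⟨C3, hC3, h3'⟩ := h3 (1 - ε) hσ2 hσ1 g hgS
  obtain ⟨C4, hC4, h4'⟩ := h4 (1 - ε) hσ2 hσ1 g hgS
  -- choice of X0
  have hev : ∀ᶠ x : ℝ in Filter.atTop, Real.log x ^ (A + 5) ≤ x ^ (ε / 8) := by
    have h := isLittleO_log_rpow_rpow_atTop (A + 5) (by positivity : (0 : ℝ) < ε / 8)
    have h' := h.bound (by norm_num : (0 : ℝ) < 1)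
    filter_upwards [h', Filter.eventually_ge_atTop (1 : ℝ)] with x hx hx1
    rw [one_mul, Real.norm_of_nonneg (Real.rpow_nonneg (Real.log_nonneg hx1) _),
      Real.norm_of_nonneg (Real.rpow_nonneg (by linarith) _)] at hx
    exact hx
  obtain ⟨X1, hX1⟩ := Filter.eventually_atTop.1 hev
  refine ⟨A + 5, 3 * (4 * C3 + 5 * C4) + 4 * C4, max 3 X1, by positivity, by positivity,
    le_max_left _ _, ?_⟩
  intro x hx
  have hx3 : 3 ≤ x := (le_max_left _ _).trans hx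
  have hxe := hX1 x ((le_max_right _ _).trans hx)
  set l := Real.log x with hl
  have hx0 : 0 < x := by linarith
  have hx1 : 1 ≤ x := by linarith
  have hl1 : 1 ≤ l := by
    rw [hl, Real.le_log_iff_exp_le (by linarith)]
    have := Real.exp_one_lt_d9
    linarith
  have hl0 : 0 < l := by linarith
  set U := ⌊x ^ (ε / 4)⌋₊ with hU
  have hxU1 : 1 ≤ x ^ (ε / 4) := Real.one_le_rpow hx1 (by positivity)
  have hU1 : 1 ≤ U := Nat.le_floor (by simpa using hxU1)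
  have hUx : (U : ℝ) ≤ x ^ (ε / 4) := Nat.floor_le (by positivity)
  have hU0 : (0 : ℝ) ≤ U := Nat.cast_nonneg _
  have hUhalf : x ^ (ε / 4) / 2 ≤ (U : ℝ) := half_le_floor hxU1
  have hUx10 : (U : ℝ) ≤ x ^ (1 / 10 : ℝ) :=
    hUx.trans (Real.rpow_le_rpow_of_exponent_le hx1 (by linarith))
  have hUUx : (U : ℝ) * U ≤ x ^ (ε / 2) := by
    calc (U : ℝ) * U ≤ x ^ (ε / 4) * x ^ (ε / 4) :=
          mul_le_mul hUx hUx hU0 (by positivity)
      _ = x ^ (ε / 2) := by rw [← Real.rpow_add hx0]; congr 1; ring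
  have hU1' : (1 : ℝ) ≤ U := by exact_mod_cast hU1
  have hUle : (U : ℝ) ≤ (U : ℝ) * U := by nlinarith
  have hsqU : 1 / Real.sqrt U ≤ 2 * x ^ (-(ε / 8)) := by
    have h5 : x ^ (ε / 8) / 2 ≤ Real.sqrt U := by
      apply Real.le_sqrt_of_sq_le
      have h6 : (x ^ (ε / 8) / 2) ^ 2 = x ^ (ε / 4) / 4 := by
        rw [div_pow, ← Real.rpow_natCast, ← Real.rpow_mul hx0.le]
        congr 1
        · congr 1; push_cast; ring
        · norm_num
      rw [h6]
      linarith [Real.rpow_nonneg hx0.le (ε / 4)]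
    have h7 : 0 < x ^ (ε / 8) := by positivity
    rw [Real.rpow_neg hx0.le]
    calc 1 / Real.sqrt U ≤ 1 / (x ^ (ε / 8) / 2) :=
          div_le_div_of_nonneg_left (by norm_num) (by positivity) h5
      _ = 2 * (x ^ (ε / 8))⁻¹ := by field_simp
  -- Vaughan
  have hV := h1 U U zeC muC LaC h2.inv h2.log
  set b : ArithmeticFunction ℂ := hi U LaC * zeC with hb
  set a : ArithmeticFunction ℂ := hi U muC with ha
  have hT2 : ∀ Q : ℕ, 1 ≤ Q → ∑ q ∈ Ioc Q (2 * Q), (1 / (q.totient : ℝ)) *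
        ∑ χ ∈ prim q, ‖SS (a * b : ArithmeticFunction ℂ) g x χ‖ ≤
        C4 * Real.log x ^ 4 * (1 / (Q : ℝ) + 1 / Real.sqrt U + 1 / Real.sqrt U +
          Q * x ^ (-(1 - ε) / 2)) := fun Q hQ => h4' x hx3 Q U U hQ hU1 hU1 a b
    (by intro n hn; rw [ha, hi_apply, if_pos hn])
    (by intro n hn; exact h2.hi_mul_zero U n hn)
    (by
      intro n
      rw [ha, hi_apply]
      split_ifs
      · simp
      · exact h2.mu_le n)
    (by
      intro n hn
      refine (h2.hi_mul_le U n).trans ?_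
      rcases Nat.eq_zero_or_pos n with h0 | h0
      · subst h0; simp; linarith
      · exact Real.log_le_log (by exact_mod_cast h0) hn)
  -- pointwise estimate
  have hpt : ∀ q : ℕ, 1 < q → ∀ χ ∈ prim q, ‖SS LaC g x χ‖ ≤
      2 * (C3 * q * (x ^ (ε / 2)) * l ^ 2 * x ^ (-(1 - ε))) +
        ‖SS (a * b : ArithmeticFunction ℂ) g x χ‖ := by
    intro q hq χ hχ
    have hq0 : NeZero q := ⟨by omega⟩
    have hne := ne_one_of_prim hq hχ
    have hq0' : (0 : ℝ) ≤ q := Nat.cast_nonneg _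
    have hxh : 0 ≤ x ^ (-(1 - ε)) := by positivity
    have e1 : ‖SS (lo U muC * D zeC : ArithmeticFunction ℂ) g x χ‖ ≤
        C3 * q * (x ^ (ε / 2)) * l ^ 2 * x ^ (-(1 - ε)) := by
      have h5 := (h3' x hx3 q χ hne U (lo U muC) 1 (by
        intro m hm
        rw [lo_apply, if_pos hm]
        exact h2.mu_le m) (by
        intro m hm
        rw [lo_apply, if_neg (by omega)])).2
      refine h5.trans ?_
      apply mul_le_mul_of_nonneg_right _ hxh
      have h6 : (U : ℝ) * 1 * l ≤ x ^ (ε / 2) * l ^ 2 := by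
        calc (U : ℝ) * 1 * l ≤ x ^ (ε / 2) * l := by
              rw [mul_one]
              exact mul_le_mul_of_nonneg_right (hUle.trans hUUx) hl0.le
          _ ≤ x ^ (ε / 2) * l ^ 2 := by
              apply mul_le_mul_of_nonneg_left _ (by positivity)
              nlinarith
      calc C3 * q * U * 1 * l = C3 * q * (U * 1 * l) := by ring
        _ ≤ C3 * q * (x ^ (ε / 2) * l ^ 2) := mul_le_mul_of_nonneg_left h6 (by positivity)
        _ = _ := by ring
    have e2 : ‖SS (lo U muC * lo U LaC * zeC : ArithmeticFunction ℂ) g x χ‖ ≤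
        C3 * q * (x ^ (ε / 2)) * l ^ 2 * x ^ (-(1 - ε)) := by
      have h5 := (h3' x hx3 q χ hne (U * U) (lo U muC * lo U LaC) l (by
        intro m hm
        refine (h2.lo_mul_lo_le U U m).trans ?_
        rcases Nat.eq_zero_or_pos m with h0 | h0
        · subst h0; simp; linarith
        · apply Real.log_le_log (by exact_mod_cast h0)
          have h6 : (m : ℝ) ≤ (U : ℝ) * U := by exact_mod_cast hm
          refine h6.trans (hUUx.trans ?_)
          calc x ^ (ε / 2) ≤ x ^ (1 : ℝ) :=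
                Real.rpow_le_rpow_of_exponent_le (by linarith) (by linarith)
            _ = x := Real.rpow_one x) (by
        intro m hm
        exact h2.lo_mul_lo_zero U U m hm)).1
      refine h5.trans ?_
      apply mul_le_mul_of_nonneg_right _ hxh
      push_cast
      calc C3 * q * (U * U) * l * l = C3 * q * ((U * U) * l ^ 2) := by ring
        _ ≤ C3 * q * (x ^ (ε / 2) * l ^ 2) := by
            apply mul_le_mul_of_nonneg_left _ (by positivity)
            exact mul_le_mul_of_nonneg_right hUUx (by positivity)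
        _ = _ := by ring
    have e3 : SS LaC g x χ = SS (lo U muC * D zeC : ArithmeticFunction ℂ) g x χ -
        SS (lo U muC * lo U LaC * zeC : ArithmeticFunction ℂ) g x χ +
        SS (a * b : ArithmeticFunction ℂ) g x χ := by
      conv_lhs => rw [hV]
      rw [SS_add, SS_sub, SS_add, SS_lo hg hx3 hUx10, zero_add]
    rw [e3]
    calc _ ≤ ‖SS (lo U muC * D zeC : ArithmeticFunction ℂ) g x χ -
          SS (lo U muC * lo U LaC * zeC : ArithmeticFunction ℂ) g x χ‖ +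
          ‖SS (a * b : ArithmeticFunction ℂ) g x χ‖ := norm_add_le _ _
      _ ≤ _ := by
          have := norm_sub_le (SS (lo U muC * D zeC : ArithmeticFunction ℂ) g x χ)
            (SS (lo U muC * lo U LaC * zeC : ArithmeticFunction ℂ) g x χ)
          linarith
  -- the blocks
  set R := ⌊x ^ (1 / 2 - ε)⌋₊ with hR
  have hxR1 : 1 ≤ x ^ (1 / 2 - ε) := Real.one_le_rpow hx1 (by linarith)
  have hR1 : 1 ≤ R := Nat.le_floor (by simpa using hxR1)
  have hRx : (R : ℝ) ≤ x ^ (1 / 2 - ε) := Nat.floor_le (by positivity)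
  set Q0 := ⌊l ^ (A + 5)⌋₊ with hQ0
  have hlB1 : 1 ≤ l ^ (A + 5) := Real.one_le_rpow hl1 (by positivity)
  have hQ01 : 1 ≤ Q0 := Nat.le_floor (by simpa using hlB1)
  have hQ0half : l ^ (A + 5) / 2 ≤ (Q0 : ℝ) := half_le_floor hlB1
  have hx8 : 0 < x ^ (-(ε / 8)) := by positivity
  have hblock : ∀ Q, Q0 ≤ Q → Q < R → ∑ q ∈ Ioc Q (2 * Q), (1 / (q.totient : ℝ)) *
      ∑ χ ∈ prim q, ‖SS LaC g x χ‖ ≤
      (4 * C3 + 5 * C4) * l ^ 4 * x ^ (-(ε / 8)) + (C4 * l ^ 4) / Q := by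
    intro Q hQQ hQR
    have hQ1 : 1 ≤ Q := hQ01.trans hQQ
    have hQ0' : (0 : ℝ) < Q := by exact_mod_cast hQ1
    have hQx : (Q : ℝ) ≤ x ^ (1 / 2 - ε) := by
      have : (Q : ℝ) ≤ R := by exact_mod_cast hQR.le
      exact this.trans hRx
    set E : ℝ := 4 * (C3 * Q * (x ^ (ε / 2)) * l ^ 2 * x ^ (-(1 - ε))) with hE
    have hE0 : 0 ≤ E := by positivity
    have hterm : ∀ q ∈ Ioc Q (2 * Q),
        (1 / (q.totient : ℝ)) * ∑ χ ∈ prim q, ‖SS LaC g x χ‖ ≤
        E + (1 / (q.totient : ℝ)) *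
          ∑ χ ∈ prim q, ‖SS (a * b : ArithmeticFunction ℂ) g x χ‖ := by
      intro q hq
      rw [Finset.mem_Ioc] at hq
      have hq1 : 1 < q := by omega
      have hq0 : NeZero q := ⟨by omega⟩
      have hφ : (0 : ℝ) < q.totient := by exact_mod_cast Nat.totient_pos.2 (by omega : 0 < q)
      have hq2 : (q : ℝ) ≤ 2 * Q := by exact_mod_cast hq.2
      have hEq : 2 * (C3 * q * (x ^ (ε / 2)) * l ^ 2 * x ^ (-(1 - ε))) ≤ E := by
        have h10 : 0 ≤ C3 * ((x ^ (ε / 2)) * l ^ 2 * x ^ (-(1 - ε))) := by positivity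
        have := mul_le_mul_of_nonneg_left hq2 h10
        rw [hE]
        nlinarith
      have h5 : ∑ χ ∈ prim q, ‖SS LaC g x χ‖ ≤ q.totient * E +
          ∑ χ ∈ prim q, ‖SS (a * b : ArithmeticFunction ℂ) g x χ‖ := by
        calc ∑ χ ∈ prim q, ‖SS LaC g x χ‖
            ≤ ∑ χ ∈ prim q, (E + ‖SS (a * b : ArithmeticFunction ℂ) g x χ‖) :=
              Finset.sum_le_sum (fun χ hχ => (hpt q hq1 χ hχ).trans (by linarith))
          _ = (prim q).card * E +
              ∑ χ ∈ prim q, ‖SS (a * b : ArithmeticFunction ℂ) g x χ‖ := by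
              rw [Finset.sum_add_distrib]; simp
          _ ≤ _ := by
              have : ((prim q).card : ℝ) ≤ q.totient := by exact_mod_cast card_prim_le q
              have := mul_le_mul_of_nonneg_right this hE0
              linarith
      calc (1 / (q.totient : ℝ)) * ∑ χ ∈ prim q, ‖SS LaC g x χ‖
          ≤ (1 / (q.totient : ℝ)) * (q.totient * E +
            ∑ χ ∈ prim q, ‖SS (a * b : ArithmeticFunction ℂ) g x χ‖) :=
            mul_le_mul_of_nonneg_left h5 (by positivity)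
        _ = E + (1 / (q.totient : ℝ)) *
            ∑ χ ∈ prim q, ‖SS (a * b : ArithmeticFunction ℂ) g x χ‖ := by
            field_simp
    have hQE : (Q : ℝ) * E ≤ 4 * C3 * l ^ 4 * x ^ (-(ε / 8)) := by
      have e1 : (Q : ℝ) * Q ≤ x ^ (1 / 2 - ε) * x ^ (1 / 2 - ε) :=
        mul_le_mul hQx hQx hQ0'.le (by positivity)
      have e2 : (Q : ℝ) * E = 4 * C3 * l ^ 2 *
          ((Q : ℝ) * Q * (x ^ (ε / 2) * x ^ (-(1 - ε)))) := by rw [hE]; ring
      have e3 : x ^ (1 / 2 - ε) * x ^ (1 / 2 - ε) * (x ^ (ε / 2) * x ^ (-(1 - ε))) =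
          x ^ (-(ε / 2)) := by
        rw [← Real.rpow_add hx0, ← Real.rpow_add hx0, ← Real.rpow_add hx0]
        congr 1; ring
      have e4 : (Q : ℝ) * Q * (x ^ (ε / 2) * x ^ (-(1 - ε))) ≤ x ^ (-(ε / 8)) := by
        calc _ ≤ x ^ (1 / 2 - ε) * x ^ (1 / 2 - ε) * (x ^ (ε / 2) * x ^ (-(1 - ε))) :=
              mul_le_mul_of_nonneg_right e1 (by positivity)
          _ = x ^ (-(ε / 2)) := e3
          _ ≤ x ^ (-(ε / 8)) := Real.rpow_le_rpow_of_exponent_le hx1 (by linarith)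
      have e5 : l ^ 2 ≤ l ^ 4 := pow_le_pow_right₀ hl1 (by norm_num)
      rw [e2]
      calc 4 * C3 * l ^ 2 * ((Q : ℝ) * Q * (x ^ (ε / 2) * x ^ (-(1 - ε))))
          ≤ 4 * C3 * l ^ 4 * ((Q : ℝ) * Q * (x ^ (ε / 2) * x ^ (-(1 - ε)))) :=
            mul_le_mul_of_nonneg_right (mul_le_mul_of_nonneg_left e5 (by positivity))
              (by positivity)
        _ ≤ 4 * C3 * l ^ 4 * x ^ (-(ε / 8)) := mul_le_mul_of_nonneg_left e4 (by positivity)
    have hQσ : (Q : ℝ) * x ^ (-(1 - ε) / 2) ≤ x ^ (-(ε / 8)) := by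
      calc (Q : ℝ) * x ^ (-(1 - ε) / 2) ≤ x ^ (1 / 2 - ε) * x ^ (-(1 - ε) / 2) :=
            mul_le_mul_of_nonneg_right hQx (by positivity)
        _ = x ^ (-(ε / 2)) := by
            rw [← Real.rpow_add hx0]; congr 1; ring
        _ ≤ x ^ (-(ε / 8)) := Real.rpow_le_rpow_of_exponent_le hx1 (by linarith)
    have hTQ := hT2 Q hQ1
    rw [← hl] at hTQ
    calc ∑ q ∈ Ioc Q (2 * Q), (1 / (q.totient : ℝ)) * ∑ χ ∈ prim q, ‖SS LaC g x χ‖
        ≤ ∑ q ∈ Ioc Q (2 * Q), (E + (1 / (q.totient : ℝ)) *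
          ∑ χ ∈ prim q, ‖SS (a * b : ArithmeticFunction ℂ) g x χ‖) :=
          Finset.sum_le_sum hterm
      _ = Q * E + ∑ q ∈ Ioc Q (2 * Q), (1 / (q.totient : ℝ)) *
          ∑ χ ∈ prim q, ‖SS (a * b : ArithmeticFunction ℂ) g x χ‖ := by
          rw [Finset.sum_add_distrib, Finset.sum_const, Nat.card_Ioc, nsmul_eq_mul]
          congr 3
          omega
      _ ≤ 4 * C3 * l ^ 4 * x ^ (-(ε / 8)) + C4 * l ^ 4 *
          (1 / (Q : ℝ) + 2 * x ^ (-(ε / 8)) + 2 * x ^ (-(ε / 8)) + x ^ (-(ε / 8))) := by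
          refine add_le_add hQE (hTQ.trans ?_)
          apply mul_le_mul_of_nonneg_left _ (by positivity)
          linarith
      _ = (4 * C3 + 5 * C4) * l ^ 4 * x ^ (-(ε / 8)) + (C4 * l ^ 4) / Q := by ring
  -- the number of blocks
  set N := Nat.log 2 R + 1 with hN
  have hNR : R < 2 ^ N := Nat.lt_pow_succ_log_self (by norm_num) R
  have hmin : min R (2 ^ N * Q0) = R := by
    apply min_eq_left
    calc R ≤ 2 ^ N := hNR.le
      _ ≤ 2 ^ N * Q0 := Nat.le_mul_of_pos_right _ hQ01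
  have hNl : (N : ℝ) ≤ 3 * l := by
    have h5 : 2 ^ Nat.log 2 R ≤ R := Nat.pow_log_le_self 2 (by omega)
    have h6 : (2 : ℝ) ^ Nat.log 2 R ≤ x := by
      have h7 : ((2 ^ Nat.log 2 R : ℕ) : ℝ) ≤ R := by exact_mod_cast h5
      push_cast at h7
      refine h7.trans (hRx.trans ?_)
      calc x ^ (1 / 2 - ε) ≤ x ^ (1 : ℝ) :=
            Real.rpow_le_rpow_of_exponent_le hx1 (by linarith)
        _ = x := Real.rpow_one x
    have h8 : (Nat.log 2 R : ℝ) * Real.log 2 ≤ l := by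
      rw [← Real.log_pow, hl]
      exact Real.log_le_log (by positivity) h6
    have h9 : (1 : ℝ) / 2 ≤ Real.log 2 := by
      have := Real.log_two_gt_d9
      linarith
    have h10 : (0 : ℝ) ≤ Nat.log 2 R := Nat.cast_nonneg _
    have h11 : (Nat.log 2 R : ℝ) * (1 / 2) ≤ l :=
      (mul_le_mul_of_nonneg_left h9 h10).trans h8
    rw [hN]
    push_cast
    linarith
  have hsum := dyadic (fun q => (1 / (q.totient : ℝ)) * ∑ χ ∈ prim q, ‖SS LaC g x χ‖)
    (fun q => mul_nonneg (by positivity) (Finset.sum_nonneg (fun _ _ => norm_nonneg _)))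
    Q0 R hQ01 ((4 * C3 + 5 * C4) * l ^ 4 * x ^ (-(ε / 8))) (C4 * l ^ 4) (by positivity)
    (by positivity) hblock N
  rw [hmin] at hsum
  refine hsum.trans ?_
  have hlA : 0 < l ^ A := by positivity
  have f1 : (N : ℝ) * ((4 * C3 + 5 * C4) * l ^ 4 * x ^ (-(ε / 8))) ≤
      3 * (4 * C3 + 5 * C4) / l ^ A := by
    have h5 : l ^ (5 : ℕ) * x ^ (-(ε / 8)) ≤ 1 / l ^ A := by
      rw [Real.rpow_neg hx0.le, ← div_eq_mul_inv, div_le_div_iff₀ (by positivity) hlA, one_mul]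
      calc l ^ (5 : ℕ) * l ^ A = l ^ (A + 5) := by
            rw [Real.rpow_add hl0, mul_comm]; norm_num
        _ ≤ _ := hxe
    calc (N : ℝ) * ((4 * C3 + 5 * C4) * l ^ 4 * x ^ (-(ε / 8)))
        ≤ (3 * l) * ((4 * C3 + 5 * C4) * l ^ 4 * x ^ (-(ε / 8))) :=
          mul_le_mul_of_nonneg_right hNl (by positivity)
      _ = 3 * (4 * C3 + 5 * C4) * (l ^ (5 : ℕ) * x ^ (-(ε / 8))) := by ring
      _ ≤ 3 * (4 * C3 + 5 * C4) * (1 / l ^ A) :=
          mul_le_mul_of_nonneg_left h5 (by positivity)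
      _ = _ := by ring
  have f2 : (2 - 2 / 2 ^ N) * (C4 * l ^ 4 / Q0) ≤ 4 * C4 / l ^ A := by
    have hQ0p : (0 : ℝ) < Q0 := by exact_mod_cast hQ01
    have h5 : (2 - 2 / 2 ^ N : ℝ) ≤ 2 := by
      have : (0 : ℝ) ≤ 2 / 2 ^ N := by positivity
      linarith
    have h6 : C4 * l ^ 4 / Q0 ≤ C4 * l ^ 4 / (l ^ (A + 5) / 2) :=
      div_le_div_of_nonneg_left (by positivity) (by positivity) hQ0half
    have h7 : C4 * l ^ 4 / (l ^ (A + 5) / 2) ≤ 2 * C4 / l ^ A := by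
      rw [div_le_div_iff₀ (by positivity) hlA]
      have h8 : l ^ (A + 5) = l ^ A * l ^ (5 : ℕ) := by
        rw [Real.rpow_add hl0]; norm_num
      rw [h8]
      have h9 : l ^ 4 ≤ l ^ 5 := pow_le_pow_right₀ hl1 (by norm_num)
      have h10 : 0 ≤ C4 * l ^ A := by positivity
      have := mul_le_mul_of_nonneg_left h9 h10
      linarith
    calc (2 - 2 / 2 ^ N) * (C4 * l ^ 4 / Q0) ≤ 2 * (2 * C4 / l ^ A) :=
          mul_le_mul h5 (h6.trans h7) (by positivity) (by norm_num)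
      _ = _ := by ring
  calc _ ≤ 3 * (4 * C3 + 5 * C4) / l ^ A + 4 * C4 / l ^ A := add_le_add f1 f2
    _ = _ := by ring

end Pool.Agent.Helper34.CA
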