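import Pool.Agent.Helper34.CA.St
import Pool.Agent.Helper61.CA.MLS

/-!
# Project CA (MP_87fff7_nt), module MLS

B1. `MLS`. From the additive large sieve `Pool.Agent.Helper67.NX2.large_sieve` (file
`Pool/Agent/Helper87/NX2/LargeSieve.lean`). For `χ` primitive mod `q`:
`χ(n) τ(χ̄) = ∑_b χ̄(b) e(bn/q)` for all `n` and `|τ(χ̄)|^2 = q` (Mathlib:
`gaussSum_mulShift_of_isPrimitive`; the norm follows by Parseval over `n` mod `q`). Hence
`q ∑*_χ |∑ a_n χ(n)|^2 ≤ ∑_χ |∑_b χ̄(b) S(b/q)|^2 = φ(q) ∑_{b coprime to q} |S(b/q)|^2`,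
`S(α) = ∑ a_n e(αn)`. The fractions `b/q`, `q ≤ Q`, `gcd(b,q)=1`, `0 ≤ b < q` are distinct and
`dint`-spaced by `1/Q^2` (if `Q = 1` there is one point): `Δ = 1/Q^2`.

The proof is in `Pool/Agent/Helper61/CA/MLS.lean` (for the intervals `[N0, N0 + N)`).
-/

set_option autoImplicit false

open Finset Filter Topology
open scoped ArithmeticFunction.vonMangoldt

namespace Pool.Agent.Helper34.CA

open Pool.Agent.Helper18.BV

theorem mls : MLS := by
  obtain ⟨C, hC, h⟩ := Pool.Agent.Helper61.CA.mls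
  refine ⟨C, hC, ?_⟩
  intro Q N0 N hQ hN a
  have hI : Ioc N0 (N0 + N) = Ico (N0 + 1) (N0 + 1 + N) := by
    ext n
    rw [Finset.mem_Ioc, Finset.mem_Ico]
    omega
  rw [hI]
  exact h Q (N0 + 1) N hQ hN a

end Pool.Agent.Helper34.CA
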