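import Pool.Agent.Helper34.CA.St

/-!
# Project CA: the modulus `M`, dropping one block, inverses
-/

set_option autoImplicit false

open Finset Filter Topology

namespace Pool.Agent.Helper34.CA

open Pool.Agent.Helper18.BV

/-! ### the modulus -/

/-- the modulus `M` -/
def MM (Y B : ℕ) : ℕ := primorial Y ^ B

theorem MM_pos (Y B : ℕ) : 0 < MM Y B := pow_pos (primorial_pos Y) B

theorem MM_le {y : ℝ} (hy : 0 ≤ y) (B : ℕ) : (MM ⌊y⌋₊ B : ℝ) ≤ (4 : ℝ) ^ (y * B) := by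
  have h1 : (primorial ⌊y⌋₊ : ℝ) ≤ (4 : ℝ) ^ ⌊y⌋₊ := by
    exact_mod_cast primorial_le_four_pow ⌊y⌋₊
  unfold MM
  push_cast
  calc (primorial ⌊y⌋₊ : ℝ) ^ B ≤ ((4 : ℝ) ^ ⌊y⌋₊) ^ B := pow_le_pow_left₀ (Nat.cast_nonneg _) h1 B
    _ = (4 : ℝ) ^ ((⌊y⌋₊ : ℝ) * B) := by
        rw [← pow_mul, ← Real.rpow_natCast]
        push_cast
        rfl
    _ ≤ (4 : ℝ) ^ (y * B) := by
        apply Real.rpow_le_rpow_of_exponent_le (by norm_num)
        exact mul_le_mul_of_nonneg_right (Nat.floor_le hy) (Nat.cast_nonneg _)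

theorem prime_dvd_primorial {q Y : ℕ} (hq : q.Prime) : q ∣ primorial Y ↔ q ≤ Y := by
  constructor
  · intro h
    rw [primorial, Prime.dvd_finsetProd_iff hq.prime] at h
    obtain ⟨p, hp, hqp⟩ := h
    rw [Finset.mem_filter, Finset.mem_range] at hp
    have := (Nat.prime_dvd_prime_iff_eq hq hp.2).1 hqp
    omega
  · intro h
    rw [primorial]
    exact Finset.dvd_prod_of_mem (fun p => p) (Finset.mem_filter.2
      ⟨Finset.mem_range.2 (by omega), hq⟩)

theorem prime_dvd_MM {q : ℕ} {y : ℝ} {B : ℕ} (hy : 0 ≤ y) (hq : q.Prime)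
    (h : q ∣ MM ⌊y⌋₊ B) : (q : ℝ) ≤ y := by
  have h1 := hq.dvd_of_dvd_pow h
  rw [prime_dvd_primorial hq] at h1
  exact (Nat.le_floor_iff hy).1 h1

theorem factorization_primorial {q Y : ℕ} (hq : q.Prime) (h : q ≤ Y) :
    (primorial Y).factorization q = 1 := by
  have h1 : q ∣ primorial Y := (prime_dvd_primorial hq).2 h
  have hsq : Squarefree (primorial Y) := by
    rw [primorial]
    refine Finset.squarefree_prod_of_pairwise_isCoprime ?_ ?_
    · intro a ha b hb hab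
      rw [Finset.mem_coe, Finset.mem_filter] at ha hb
      simp only [Function.onFun]
      rw [← Nat.coprime_iff_isRelPrime]
      exact (Nat.coprime_primes ha.2 hb.2).2 hab
    · intro p hp
      exact (Finset.mem_filter.1 hp).2.prime.squarefree
  have h2 := (Nat.squarefree_iff_factorization_le_one (primorial_pos Y).ne').1 hsq q
  have h3 := hq.factorization_pos_of_dvd (primorial_pos Y).ne' h1
  omega

theorem factorization_MM {q : ℕ} {y : ℝ} {B : ℕ} (hq : q.Prime) (h : (q : ℝ) ≤ y) :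
    (MM ⌊y⌋₊ B).factorization q = B := by
  have h1 : q ≤ ⌊y⌋₊ := Nat.le_floor h
  unfold MM
  rw [Nat.factorization_pow]
  simp [factorization_primorial hq h1]

theorem dvd_MM {m : ℕ} {y : ℝ} {B : ℕ} (hm : 0 < m)
    (hs : ∀ q : ℕ, q.Prime → q ∣ m → (q : ℝ) ≤ y) (hB : m < 2 ^ B) : m ∣ MM ⌊y⌋₊ B := by
  rw [← Nat.factorization_le_iff_dvd hm.ne' (MM_pos _ _).ne']
  intro q
  by_cases hq : q.Prime
  · by_cases hd : q ∣ m
    · rw [factorization_MM hq (hs q hq hd)]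
      have h1 : q ^ m.factorization q ≤ m := Nat.ordProj_le q hm.ne'
      have h2 : 2 ^ m.factorization q ≤ q ^ m.factorization q :=
        Nat.pow_le_pow_left hq.two_le _
      have h3 : 2 ^ m.factorization q < 2 ^ B := by omega
      exact ((Nat.pow_lt_pow_iff_right (by norm_num)).1 h3).le
    · rw [Nat.factorization_eq_zero_of_not_dvd hd]
      exact Nat.zero_le _
  · rw [Nat.factorization_eq_zero_of_not_prime _ hq]
    exact Nat.zero_le _

/-! ### inverses -/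

theorem exists_inv {k D : ℕ} (hD : 0 < D) (h : Nat.Coprime k D) :
    ∃ c : ℕ, c * k ≡ 1 [MOD D] ∧ Nat.Coprime c D := by
  have : NeZero D := ⟨hD.ne'⟩
  set v := ZMod.unitOfCoprime k h with hv
  refine ⟨((v⁻¹ : (ZMod D)ˣ) : ZMod D).val, ?_, ?_⟩
  · rw [← ZMod.natCast_eq_natCast_iff]
    push_cast
    rw [ZMod.natCast_val, ZMod.cast_id, ← ZMod.coe_unitOfCoprime k h, ← hv, Units.inv_mul]
  · have := (v⁻¹).isUnit
    rw [← ZMod.isUnit_iff_coprime, ZMod.natCast_val, ZMod.cast_id]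
    exact this

/-! ### dropping one block -/

theorem sq_one_apply {M : ℕ} [NeZero M] {ξ : DirichletCharacter ℂ M} (hξ : ξ ^ 2 = 1) {a : ℕ}
    (ha : Nat.Coprime a M) : ξ (a : ZMod M) = 1 ∨ ξ (a : ZMod M) = -1 := by
  have h1 : (ξ (a : ZMod M)) ^ 2 = 1 := by
    have h2 : (ξ ^ 2) (a : ZMod M) = (ξ (a : ZMod M)) ^ 2 := MulChar.pow_apply' ξ (by norm_num) _
    rw [← h2, hξ, MulChar.one_apply ((ZMod.isUnit_iff_coprime a M).2 ha)]
  exact mul_self_eq_one_iff.1 (by rw [← sq]; exact h1)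

/-! ### rough parts -/

theorem mem_rgh_primes {w : ℝ} {m p : ℕ} (hp : p.Prime) (h : p ∣ rgh w m) : w < (p : ℝ) := by
  classical
  unfold rgh at h
  rw [Prime.dvd_finsetProd_iff hp.prime] at h
  obtain ⟨q, hq, hpq⟩ := h
  rw [Finset.mem_filter, Nat.mem_primeFactors] at hq
  have h1 := hp.dvd_of_dvd_pow hpq
  rw [(Nat.prime_dvd_prime_iff_eq hp hq.1.1).1 h1]
  exact hq.2

theorem rgh_pos (w : ℝ) (m : ℕ) : 0 < rgh w m := by
  classical
  unfold rgh
  refine Finset.prod_pos fun p hp => ?_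
  rw [Finset.mem_filter, Nat.mem_primeFactors] at hp
  exact pow_pos hp.1.1.pos _

theorem rgh_dvd (w : ℝ) {m : ℕ} (hm : m ≠ 0) : rgh w m ∣ m := by
  classical
  unfold rgh
  conv_rhs => rw [← Nat.prod_factorization_pow_eq_self hm]
  rw [Finsupp.prod, Nat.support_factorization]
  exact Finset.prod_dvd_prod_of_subset _ _ _ (Finset.filter_subset _ _)

theorem rgh_le (w : ℝ) {m : ℕ} (hm : m ≠ 0) : rgh w m ≤ m :=
  Nat.le_of_dvd (Nat.pos_of_ne_zero hm) (rgh_dvd w hm)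

theorem DD_pos (w : ℝ) (t : Fin 4 → ℕ) : 0 < DD w t :=
  Finset.prod_pos fun _ _ => rgh_pos w _

theorem prime_dvd_DD {w : ℝ} {t : Fin 4 → ℕ} {p : ℕ} (hp : p.Prime) (h : p ∣ DD w t) :
    w < (p : ℝ) := by
  unfold DD at h
  rw [Prime.dvd_finsetProd_iff hp.prime] at h
  obtain ⟨i, _, hi⟩ := h
  exact mem_rgh_primes hp hi

theorem DD_le {w : ℝ} {t : Fin 4 → ℕ} (ht : ∀ i, (t i).Prime) : DD w t ≤ ∏ i, t i := by
  unfold DD
  refine Finset.prod_le_prod' fun i _ => ?_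
  have h1 := (ht i).two_le
  exact (rgh_le w (by omega)).trans (Nat.sub_le _ _)

end Pool.Agent.Helper34.CA
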