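import Pool.Agent.Helper34.CA.MainA
import Pool.Agent.Helper34.CA.StG

/-!
# Project CA: the count for given parameters
-/

set_option autoImplicit false

open Finset Filter Topology

namespace Pool.Agent.Helper34.CA

open Pool.Agent.Helper18.BV

/-- The hypotheses of `PhiTail` for the constant `C`. -/
def PhiTailC (C : ℝ) : Prop :=
  ∀ (δ x w a : ℝ) (h X J : ℕ) (A : Fin J → Finset ℕ), 0 < δ → δ ≤ 1 / 8 →
    3 ≤ x → 1 < w → 2 ≤ X → (X : ℝ) ≤ w ^ δ → (J : ℝ) ^ h ≤ (X : ℝ) ^ δ →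
    x ^ 8 ≤ (X : ℝ) ^ (J / 2) → (X : ℝ) ^ (1 / 2 + 3 * δ) ≤ a → (∀ i, a ≤ (A i).card) →
    (∀ i, ∀ n ∈ A i, 1 ≤ n ∧ n ≤ X ∧ Squarefree n ∧ n.primeFactors.card = h) →
    ∑ q ∈ Ioc ⌊w⌋₊ ⌊x ^ 4⌋₊, Phi A q / q ≤ C * Real.log x * w ^ (-(3 * δ))

theorem Phi_nonneg {J : ℕ} (A : Fin J → Finset ℕ) (q : ℕ) : 0 ≤ Phi A q :=
  Finset.sum_nonneg fun _ _ => Finset.prod_nonneg fun _ _ =>
    div_nonneg (norm_nonneg _) (Nat.cast_nonneg _)

theorem one_div_prod_le {w : ℝ} {t : Fin 4 → ℕ} (ht : ∀ i, (t i).Prime) :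
    ∏ i, (1 / (t i : ℝ)) ≤ 1 / ((DD w t).totient : ℝ) := by
  have h1 : (∏ i, (1 / (t i : ℝ))) = 1 / ((∏ i, t i : ℕ) : ℝ) := by
    rw [Finset.prod_div_distrib, Finset.prod_const_one]
    push_cast
    rfl
  rw [h1]
  have h2 : (0 : ℝ) < ((DD w t).totient : ℝ) := by
    exact_mod_cast Nat.totient_pos.2 (DD_pos w t)
  refine one_div_le_one_div_of_le h2 ?_
  exact_mod_cast (Nat.totient_le _).trans (DD_le ht)

/-- The count for given sets `A i` with `ξ (∏ r i) = 1`. -/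
theorem core1 (h4 : SwapT) (h5 : BadT) (h3 : Equi) (h7 : CountG) {CT : ℝ} (h2 : PhiTailC CT)
    {f : ℕ → ℕ} (hf : ∀ p : ℕ, p.Prime → f p ∣ p - 1)
    {x y w δ a μ : ℝ} {M J h z X : ℕ} {A : Fin J → Finset ℕ} {r : Fin J → ℕ}
    (hx : 3 ≤ x) (hy : 1 ≤ y) (hyw : y < w) (hwx : w ≤ x ^ (1 / 2 : ℝ)) (hM : 0 < M)
    (hzx : (z : ℝ) ≤ x ^ (1 / 2 : ℝ)) (hzw : (z : ℝ) ≤ w) (hδ : 0 < δ) (hδ' : δ ≤ 1 / 8)
    (hX2 : 2 ≤ X) (hXw : (X : ℝ) ≤ w ^ δ) (hJh : (J : ℝ) ^ h ≤ (X : ℝ) ^ δ)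
    (hx8 : x ^ 8 ≤ (X : ℝ) ^ (J / 2)) (haX : (X : ℝ) ^ (1 / 2 + 3 * δ) ≤ a)
    (hA : ∀ i, ∀ n ∈ A i, 1 ≤ n ∧ n ≤ X ∧ Squarefree n ∧ n.primeFactors.card = h ∧
      (∀ p : ℕ, p.Prime → p ∣ n → f p ∣ M ∧ p ≤ z ∧ y < (p : ℝ)) ∧ n ≡ r i [MOD M])
    (hAd : ∀ i j, i ≠ j → ∀ n ∈ A i, ∀ n' ∈ A j, Nat.Coprime n n')
    (hr : ∀ i, Nat.Coprime (r i) M) (hAa : ∀ i, a ≤ (A i).card)
    {ξ : DirichletCharacter ℂ M} (hξr : ξ ((∏ i, r i : ℕ) : ZMod M) = 1)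
    (hQ : ∀ a : ℕ, ξ (a : ZMod M) = 1 → ∀ T : Finset (Fin 4 → ℕ),
          (∀ t, t ∈ T ↔ (∀ i, NiceP x y w M (t i)) ∧ ∏ i, t i ≡ a [MOD M]) →
          2 * μ ≤ ∑ t ∈ T, ∏ i, (1 / (t i : ℝ)))
    (hbad : 100 * (1 + Real.log x) ^ 4 / w ≤ μ)
    (herr : (M.divisors.card * (1 + Real.log x)) ^ 4 * (65536 : ℝ) ^ (Real.log x / Real.log w) *
      (CT * Real.log x * w ^ (-(3 * δ))) ≤ μ / 2)
    {S : Finset ℕ} (hS : ∀ n, n ∈ S ↔ IsG f y n ∧ (n : ℝ) ≤ (X : ℝ) ^ J * x ^ 4) :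
    a ^ J * μ / 48 ≤ S.card := by
  classical
  have hX0 : (0 : ℝ) < X := by exact_mod_cast (by omega : 0 < X)
  have ha0 : 0 < a := (Real.rpow_pos_of_pos hX0 _).trans_le haX
  have hw1 : 1 < w := lt_of_le_of_lt hy hyw
  have hw0 : 0 < w := by linarith
  have hlx : 0 ≤ Real.log x := Real.log_nonneg (by linarith)
  have hne : ∀ i, (A i).Nonempty := by
    intro i
    rw [← Finset.card_pos]
    have : (0 : ℝ) < ((A i).card : ℝ) := ha0.trans_le (hAa i)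
    exact_mod_cast this
  -- the class
  have hrM : Nat.Coprime (∏ i, r i) M := Nat.Coprime.prod_left fun i _ => hr i
  obtain ⟨a₀, ha₀, ha₀M⟩ := exists_inv hM hrM
  have hξa : ξ (a₀ : ZMod M) = 1 := by
    have e1 : ((a₀ * ∏ i, r i : ℕ) : ZMod M) = 1 := by
      have := (ZMod.natCast_eq_natCast_iff _ _ _).2 ha₀
      rw [this, Nat.cast_one]
    have e2 : ξ ((a₀ * ∏ i, r i : ℕ) : ZMod M) = 1 := by rw [e1, map_one]
    rw [Nat.cast_mul, map_mul, hξr, mul_one] at e2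
    exact e2
  -- the quadruples
  set T0 : Finset (Fin 4 → ℕ) := (Fintype.piFinset (fun _ : Fin 4 => Icc 1 ⌊x⌋₊)).filter
    (fun t => (∀ i, NiceP x y w M (t i)) ∧ ∏ i, t i ≡ a₀ [MOD M]) with hT0
  have hT0m : ∀ t, t ∈ T0 ↔ (∀ i, NiceP x y w M (t i)) ∧ ∏ i, t i ≡ a₀ [MOD M] := by
    intro t
    rw [hT0, Finset.mem_filter, Fintype.mem_piFinset]
    constructor
    · exact fun h => h.2
    · intro h
      refine ⟨fun i => ?_, h⟩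
      rw [Finset.mem_Icc]
      exact ⟨(h.1 i).1.one_le, Nat.le_floor (h.1 i).2.2.1⟩
  have hT0s := hQ a₀ hξa T0 hT0m
  set T : Finset (Fin 4 → ℕ) := T0.filter (fun t => Adm w t) with hT
  have hTm : ∀ t ∈ T, (∀ i, NiceP x y w M (t i)) ∧ Adm w t := by
    intro t ht
    rw [hT, Finset.mem_filter, hT0m] at ht
    exact ⟨ht.1.1, ht.2⟩
  have hTm' : ∀ t ∈ T, ∏ i, t i ≡ a₀ [MOD M] := by
    intro t ht
    rw [hT, Finset.mem_filter, hT0m] at ht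
    exact ht.1.2
  have hTs : μ ≤ ∑ t ∈ T, ∏ i, (1 / (t i : ℝ)) := by
    have e1 := h5 x y w M hx hy hyw hwx hM (T0.filter (fun t => ¬ Adm w t)) (by
      intro t ht
      rw [Finset.mem_filter, hT0m] at ht
      exact ⟨ht.1.1, ht.2⟩)
    have e2 := Finset.sum_filter_add_sum_filter_not T0 (fun t => Adm w t)
      (fun t => ∏ i, (1 / (t i : ℝ)))
    rw [← hT] at e2
    linarith
  -- inverses modulo `D t`
  have hcls : ∀ t : Fin 4 → ℕ, ∃ c : ℕ, t ∈ T → c * ∏ i, t i ≡ 1 [MOD DD w t] ∧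
      Nat.Coprime c (DD w t) := by
    intro t
    by_cases ht : t ∈ T
    · obtain ⟨c, hc⟩ := exists_inv (DD_pos w t) (hTm t ht).2.2
      exact ⟨c, fun _ => hc⟩
    · exact ⟨0, fun h => absurd h ht⟩
  choose c hc using hcls
  -- coprimality
  have hAD : ∀ t : Fin 4 → ℕ, ∀ i, ∀ n ∈ A i, Nat.Coprime n (DD w t) := by
    intro t i n hn
    refine Nat.coprime_of_dvd fun q hq hqn hqD => ?_
    have e1 := prime_dvd_DD hq hqD
    have e2 := (((hA i n hn).2.2.2.2.1) q hq hqn).2.1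
    have e3 : (q : ℝ) ≤ z := by exact_mod_cast e2
    linarith
  -- the tail
  have htail := h2 δ x w a h X J A hδ hδ' hx hw1 hX2 hXw hJh hx8 haX hAa
    (fun i n hn => ⟨(hA i n hn).1, (hA i n hn).2.1, (hA i n hn).2.2.1, (hA i n hn).2.2.2.1⟩)
  have hswap := h4 x y w M hx hy hyw hM T hTm (Phi A) (Phi_nonneg A)
  have hsw2 : ∑ t ∈ T, (1 / ((DD w t).totient : ℝ)) *
      ∑ q ∈ (DD w t).divisors.filter (fun q => 1 < q), Phi A q ≤ μ / 2 := by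
    refine hswap.trans (le_trans ?_ herr)
    refine mul_le_mul_of_nonneg_left htail ?_
    have : 0 ≤ 1 + Real.log x := by linarith
    positivity
  have hφ : ∀ t ∈ T, ∏ i, (1 / (t i : ℝ)) ≤ 1 / ((DD w t).totient : ℝ) :=
    fun t ht => one_div_prod_le fun i => ((hTm t ht).1 i).1
  have hφs : μ ≤ ∑ t ∈ T, 1 / ((DD w t).totient : ℝ) := hTs.trans (Finset.sum_le_sum hφ)
  set PA : ℝ := ∏ i, ((A i).card : ℝ) with hPA
  have hPA0 : 0 ≤ PA := Finset.prod_nonneg fun _ _ => Nat.cast_nonneg _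
  have hcount : PA * (μ / 2) ≤
      ((∑ t ∈ T, ((Fintype.piFinset A).filter
        (fun v => ∏ i, v i ≡ c t [MOD DD w t])).card : ℕ) : ℝ) := by
    have e1 : ∀ t ∈ T, PA * (1 / ((DD w t).totient : ℝ) - (1 / ((DD w t).totient : ℝ)) *
        ∑ q ∈ (DD w t).divisors.filter (fun q => 1 < q), Phi A q) ≤
        ((((Fintype.piFinset A).filter
          (fun v => ∏ i, v i ≡ c t [MOD DD w t])).card : ℕ) : ℝ) := by
      intro t ht
      have e2 := h3 J A (DD w t) (c t) (DD_pos w t) (hc t ht).2 hne (hAD t)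
      rw [abs_le] at e2
      have e3 := e2.1
      have e4 : PA * (1 / ((DD w t).totient : ℝ) - (1 / ((DD w t).totient : ℝ)) *
        ∑ q ∈ (DD w t).divisors.filter (fun q => 1 < q), Phi A q) =
        PA / (DD w t).totient - PA / (DD w t).totient *
          ∑ q ∈ (DD w t).divisors.filter (fun q => 1 < q), Phi A q := by
        ring
      rw [e4]
      linarith
    have e5 := Finset.sum_le_sum e1
    rw [← Finset.mul_sum, Finset.sum_sub_distrib] at e5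
    have e6 : PA * (μ / 2) ≤ PA * (∑ t ∈ T, 1 / ((DD w t).totient : ℝ) -
        ∑ t ∈ T, (1 / ((DD w t).totient : ℝ)) *
        ∑ q ∈ (DD w t).divisors.filter (fun q => 1 < q), Phi A q) := by
      refine mul_le_mul_of_nonneg_left ?_ hPA0
      linarith
    push_cast
    exact e6.trans e5
  have hfin := h7 f hf x y w M J X A r a₀ T c hx hy hyw (hyw.le.trans hwx) hM
    (fun i n hn => by
      obtain ⟨b1, b2, b3, b4, b5, b6⟩ := hA i n hn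
      refine ⟨b1, b2, b3, b6, fun p hp hpn => ⟨(b5 p hp hpn).1, (b5 p hp hpn).2.2, ?_⟩⟩
      have : (p : ℝ) ≤ z := by exact_mod_cast (b5 p hp hpn).2.1
      linarith)
    hAd (by rw [mul_comm]; exact ha₀)
    (fun t ht => ⟨(hTm t ht).1, hTm' t ht, (hTm t ht).2, (hc t ht).1⟩) S hS
  have hpow : a ^ J ≤ PA := by
    have := Finset.prod_le_prod (s := (Finset.univ : Finset (Fin J)))
      (f := fun _ => a) (g := fun i => ((A i).card : ℝ)) (fun i _ => ha0.le) (fun i _ => hAa i)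
    simpa using this
  have hμ : 0 ≤ μ := le_trans (by positivity) hbad
  have h9 : a ^ J * (μ / 2) ≤ PA * (μ / 2) := mul_le_mul_of_nonneg_right hpow (by linarith)
  linarith

/-- The count for given parameters. -/
theorem core (h4 : SwapT) (h5 : BadT) (h3 : Equi) (h6 : Pop) (h7 : CountG) {CT : ℝ}
    (h2 : PhiTailC CT) {f : ℕ → ℕ} (hf : ∀ p : ℕ, p.Prime → f p ∣ p - 1)
    {x y w δ a μ : ℝ} {M J h z : ℕ} {P : Finset ℕ}
    (hx : 3 ≤ x) (hy : 1 ≤ y) (hyw : y < w) (hwx : w ≤ x ^ (1 / 2 : ℝ)) (hM : 0 < M)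
    (hzx : (z : ℝ) ≤ x ^ (1 / 2 : ℝ)) (hzw : (z : ℝ) ≤ w) (hδ : 0 < δ) (hδ' : δ ≤ 1 / 8)
    (hJ : 2 ≤ J) (hh : 1 ≤ h) (hJh : J * h ≤ P.card)
    (hP : ∀ p ∈ P, p.Prime ∧ p ≤ z ∧ Nat.Coprime p M ∧ f p ∣ M ∧ y < (p : ℝ))
    (hX2 : 2 ≤ z ^ h) (hXw : ((z ^ h : ℕ) : ℝ) ≤ w ^ δ)
    (hJhX : (J : ℝ) ^ h ≤ ((z ^ h : ℕ) : ℝ) ^ δ)
    (hx8 : x ^ 8 ≤ ((z ^ h : ℕ) : ℝ) ^ ((J - 1) / 2))
    (haX : ((z ^ h : ℕ) : ℝ) ^ (1 / 2 + 3 * δ) ≤ a)
    (ha : a ≤ (((P.card / J : ℕ) : ℝ) / h) ^ h / M)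
    (hQ : ∃ ξ : DirichletCharacter ℂ M, ξ ^ 2 = 1 ∧
      ∀ a : ℕ, ξ (a : ZMod M) = 1 → ∀ T : Finset (Fin 4 → ℕ),
          (∀ t, t ∈ T ↔ (∀ i, NiceP x y w M (t i)) ∧ ∏ i, t i ≡ a [MOD M]) →
          2 * μ ≤ ∑ t ∈ T, ∏ i, (1 / (t i : ℝ)))
    (hbad : 100 * (1 + Real.log x) ^ 4 / w ≤ μ)
    (herr : (M.divisors.card * (1 + Real.log x)) ^ 4 * (65536 : ℝ) ^ (Real.log x / Real.log w) *
      (CT * Real.log x * w ^ (-(3 * δ))) ≤ μ / 2)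
    {S : Finset ℕ}
    (hS : ∀ n, n ∈ S ↔ IsG f y n ∧ (n : ℝ) ≤ ((z ^ h : ℕ) : ℝ) ^ J * x ^ 4) :
    a ^ (J - 1) * μ / 48 ≤ S.card := by
  classical
  obtain ⟨A, r, hA, hAd, hr, hAc⟩ := h6 P J h M z (by omega) hh hJh hM
    (fun p hp => ⟨(hP p hp).1, (hP p hp).2.1, (hP p hp).2.2.1⟩)
  obtain ⟨ξ, hξ, hξQ⟩ := hQ
  have : NeZero M := ⟨hM.ne'⟩
  have hX1 : (1 : ℝ) ≤ ((z ^ h : ℕ) : ℝ) := by exact_mod_cast (by omega : 1 ≤ z ^ h)
  have ha1 : 1 ≤ a := (Real.one_le_rpow hX1 (by positivity)).trans haX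
  have hw1 : 1 < w := lt_of_le_of_lt hy hyw
  have hlx : 0 ≤ Real.log x := Real.log_nonneg (by linarith)
  have hμ : 0 ≤ μ := le_trans (by positivity) hbad
  have hA' : ∀ i, ∀ n ∈ A i, 1 ≤ n ∧ n ≤ z ^ h ∧ Squarefree n ∧ n.primeFactors.card = h ∧
      (∀ p : ℕ, p.Prime → p ∣ n → f p ∣ M ∧ p ≤ z ∧ y < (p : ℝ)) ∧ n ≡ r i [MOD M] := by
    intro i n hn
    obtain ⟨b1, b2, b3, b4, b5, b6⟩ := hA i n hn
    refine ⟨b1, b2, b3, b4, fun p hp hpn => ?_, b6⟩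
    have e := b5 (Nat.mem_primeFactors.2 ⟨hp, hpn, by omega⟩)
    exact ⟨(hP p e).2.2.2.1, (hP p e).2.1, (hP p e).2.2.2.2⟩
  have hAa : ∀ i, a ≤ (A i).card := fun i => ha.trans (hAc i)
  rcases sq_one_apply hξ (Nat.Coprime.prod_left fun i _ => hr i : Nat.Coprime (∏ i, r i) M)
    with hc | hc
  · have hx8' : x ^ 8 ≤ ((z ^ h : ℕ) : ℝ) ^ (J / 2) :=
      hx8.trans (pow_le_pow_right₀ hX1 (Nat.div_le_div_right (Nat.sub_le _ _)))
    have e := core1 h4 h5 h3 h7 h2 hf hx hy hyw hwx hM hzx hzw hδ hδ' hX2 hXw hJhX hx8' haX hA' hAd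
      hr hAa hc hξQ hbad herr hS
    have e2 : a ^ (J - 1) ≤ a ^ J := pow_le_pow_right₀ ha1 (Nat.sub_le _ _)
    have e3 : a ^ (J - 1) * μ ≤ a ^ J * μ := mul_le_mul_of_nonneg_right e2 hμ
    linarith
  · obtain ⟨n, rfl⟩ : ∃ n, J = n + 1 := ⟨J - 1, by omega⟩
    have hi : ∃ i, ξ (r i : ZMod M) = -1 := by
      by_contra hno
      push Not at hno
      have e1 : ∀ i, ξ (r i : ZMod M) = 1 := fun i =>
        (sq_one_apply hξ (hr i)).resolve_right (hno i)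
      rw [Nat.cast_prod, map_prod, Finset.prod_congr rfl fun i _ => e1 i,
        Finset.prod_const_one] at hc
      norm_num at hc
    obtain ⟨i₀, hi₀⟩ := hi
    have hc' : ξ ((∏ i, r (i₀.succAbove i) : ℕ) : ZMod M) = 1 := by
      rw [Fin.prod_univ_succAbove _ i₀, Nat.cast_mul, map_mul, hi₀] at hc
      linear_combination (-1 : ℂ) * hc
    have hS' : ∀ m : ℕ, m ∈ S.filter (fun m : ℕ => (m : ℝ) ≤ ((z ^ h : ℕ) : ℝ) ^ n * x ^ 4) ↔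
        IsG f y m ∧ (m : ℝ) ≤ ((z ^ h : ℕ) : ℝ) ^ n * x ^ 4 := by
      intro m
      rw [Finset.mem_filter, hS]
      constructor
      · exact fun h => ⟨h.1.1, h.2⟩
      · rintro ⟨b1, b2⟩
        refine ⟨⟨b1, b2.trans ?_⟩, b2⟩
        refine mul_le_mul_of_nonneg_right ?_ (by positivity)
        exact pow_le_pow_right₀ hX1 (Nat.le_succ n)
    have hJhX' : (n : ℝ) ^ h ≤ ((z ^ h : ℕ) : ℝ) ^ δ := by
      refine le_trans (pow_le_pow_left₀ (Nat.cast_nonneg _) ?_ h) hJhX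
      push_cast
      linarith
    have e := core1 (A := fun i => A (i₀.succAbove i)) (r := fun i => r (i₀.succAbove i))
      h4 h5 h3 h7 h2 hf hx hy hyw hwx hM hzx hzw hδ hδ' hX2 hXw hJhX' (by simpa using hx8) haX
      (fun i => hA' _)
      (fun i j hij => hAd _ _ (fun h => hij (Fin.succAbove_right_injective h)))
      (fun i => hr _) (fun i => hAa _) hc' hξQ hbad herr hS'
    have e2 : (((S.filter (fun m : ℕ => (m : ℝ) ≤ ((z ^ h : ℕ) : ℝ) ^ n * x ^ 4)).card : ℕ) : ℝ) ≤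
        S.card := by exact_mod_cast Finset.card_filter_le _ _
    simpa using e.trans e2

end Pool.Agent.Helper34.CA
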