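import Pool.Agent.Helper34.CA.MainB

/-!
# Project CA: the asymptotic inequalities
-/

set_option autoImplicit false

open Finset Filter Topology

namespace Pool.Agent.Helper34.CA

theorem ev_pow {a b : ℝ} (C : ℝ) (h : a < b) : ∀ᶠ l : ℝ in atTop, C * l ^ a ≤ l ^ b := by
  filter_upwards [(tendsto_rpow_atTop (sub_pos.2 h)).eventually_ge_atTop C,
    eventually_gt_atTop (0 : ℝ)] with l h1 h2
  have : l ^ b = l ^ (b - a) * l ^ a := by rw [← Real.rpow_add h2]; congr 1; ring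
  rw [this]
  exact mul_le_mul_of_nonneg_right h1 (Real.rpow_nonneg h2.le _)

theorem ev_const {b : ℝ} (C : ℝ) (h : 0 < b) : ∀ᶠ l : ℝ in atTop, C ≤ l ^ b :=
  (tendsto_rpow_atTop h).eventually_ge_atTop C

theorem ev_log {b : ℝ} (C : ℝ) (h : 0 < b) : ∀ᶠ l : ℝ in atTop, C * Real.log l ≤ l ^ b := by
  have h1 := (isLittleO_log_rpow_atTop h).bound (show (0 : ℝ) < 1 / (|C| + 1) by positivity)
  filter_upwards [h1, eventually_ge_atTop (1 : ℝ)] with l h2 h3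
  have h4 : 0 ≤ Real.log l := Real.log_nonneg h3
  have h5 : 0 ≤ l ^ b := Real.rpow_nonneg (by linarith) _
  rw [Real.norm_of_nonneg h4, Real.norm_of_nonneg h5] at h2
  have h6 : (|C| + 1) * Real.log l ≤ l ^ b := by
    rw [one_div, inv_mul_eq_div, le_div_iff₀ (by positivity)] at h2
    linarith
  have h7 : C ≤ |C| + 1 := (le_abs_self C).trans (by linarith)
  exact (mul_le_mul_of_nonneg_right h7 h4).trans h6

/-- The inequalities between powers of `l` which are needed. -/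
structure Atoms (θ δ e β K CT : ℝ) (b0 : ℕ) (l : ℝ) : Prop where
  big : 100 ≤ l
  a1 : β * Real.log l ≤ l ^ e
  a2 : 4 ≤ l ^ β
  a3 : 2 * l ^ (1 - e) ≤ l
  a5 : 100 * l ^ e ≤ l ^ (1 - 2 * e)
  a6 : l ^ (1 - 2 * e) ≤ δ * l ^ (1 - e)
  a7 : 4 * K * l ^ (2 * e) ≤ l ^ (β * δ)
  a8 : 2 * l ^ (1 - 4 * e + e / 2) ≤ l ^ (1 - 3 * e)
  a9 : 2 * l ^ (1 - 3 * e) ≤ δ * l ^ (1 - 2 * e)
  a10 : 4 * K * l ^ (1 + β * (1 - θ - 3 * δ)) ≤ l ^ (β * (1 - δ))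
  a11 : (b0 + β + 1) * Real.log l ≤ (l ^ (e / 2) - 1) / 2
  a12 : 3200 + 4 * Real.log l + 2 * l ^ (1 - 3 * e) ≤ l ^ (1 - e)
  a13 : 64 + 5 * Real.log l + 6 * l ^ (1 - 3 * e) + 65536 * l ^ e + |CT| ≤ 3 * δ * l ^ (1 - e)
  a14 : 2 * l ^ (1 - 2 * e) + K * l ^ (3 * e) ≤ δ * K * l
  a15 : 2 * l ^ (1 - 3 * e) + 96 ≤ 4 * l
  a16 : 2 * l ^ (1 - 4 * e) ≤ l ^ (β * (1 - δ))

theorem atoms {θ δ e β K CT : ℝ} {b0 : ℕ} (hθ : 0 < θ) (hθ2 : θ < 1 / 2) (hδ : 0 < δ)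
    (hδ2 : δ ≤ 1 / 100) (he : e = δ / 16) (hβ : β = (1 - 4 * e) / θ) (hK : 64 ≤ K) :
    ∀ᶠ l : ℝ in atTop, Atoms θ δ e β K CT b0 l := by
  have he0 : 0 < e := by rw [he]; positivity
  have he1 : e ≤ 1 / 1600 := by rw [he]; linarith
  have hβ1 : 3 / 2 < β := by
    rw [hβ, lt_div_iff₀ hθ]
    nlinarith
  have hβθ : β * θ = 1 - 4 * e := by rw [hβ]; field_simp
  have hexp : 1 + β * (1 - θ - 3 * δ) < β * (1 - δ) := by
    have h1 : β * (1 - δ) - β * (1 - θ - 3 * δ) = β * θ + 2 * (β * δ) := by ring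
    have h2 : 3 / 2 * δ < β * δ := mul_lt_mul_of_pos_right hβ1 hδ
    rw [hβθ] at h1
    linarith
  have h1 : ∀ᶠ l : ℝ in atTop, β * Real.log l ≤ l ^ e := ev_log β he0
  have h2 : ∀ᶠ l : ℝ in atTop, 4 ≤ l ^ β := ev_const 4 (by linarith)
  have h3 : ∀ᶠ l : ℝ in atTop, 2 * l ^ (1 - e) ≤ l ^ (1 : ℝ) := ev_pow 2 (by linarith)
  have h5 : ∀ᶠ l : ℝ in atTop, 100 * l ^ e ≤ l ^ (1 - 2 * e) := ev_pow 100 (by linarith)
  have h6 : ∀ᶠ l : ℝ in atTop, 1 / δ * l ^ (1 - 2 * e) ≤ l ^ (1 - e) := ev_pow _ (by linarith)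
  have h7 : ∀ᶠ l : ℝ in atTop, 4 * K * l ^ (2 * e) ≤ l ^ (β * δ) := ev_pow _ (by
    have h2 : 3 / 2 * δ < β * δ := mul_lt_mul_of_pos_right hβ1 hδ
    rw [he]; linarith)
  have h8 : ∀ᶠ l : ℝ in atTop, 2 * l ^ (1 - 4 * e + e / 2) ≤ l ^ (1 - 3 * e) :=
    ev_pow _ (by linarith)
  have h9 : ∀ᶠ l : ℝ in atTop, 2 / δ * l ^ (1 - 3 * e) ≤ l ^ (1 - 2 * e) := ev_pow _ (by linarith)
  have h10 : ∀ᶠ l : ℝ in atTop, 4 * K * l ^ (1 + β * (1 - θ - 3 * δ)) ≤ l ^ (β * (1 - δ)) :=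
    ev_pow _ hexp
  have h11a : ∀ᶠ l : ℝ in atTop, 4 * (b0 + β + 1) * Real.log l ≤ l ^ (e / 2) :=
    ev_log _ (by linarith)
  have h11b : ∀ᶠ l : ℝ in atTop, 2 ≤ l ^ (e / 2) := ev_const _ (by linarith)
  have h12a : ∀ᶠ l : ℝ in atTop, 9600 ≤ l ^ (1 - e) := ev_const _ (by linarith)
  have h12b : ∀ᶠ l : ℝ in atTop, 12 * Real.log l ≤ l ^ (1 - e) := ev_log _ (by linarith)
  have h12c : ∀ᶠ l : ℝ in atTop, 6 * l ^ (1 - 3 * e) ≤ l ^ (1 - e) := ev_pow _ (by linarith)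
  have h13a : ∀ᶠ l : ℝ in atTop, (64 + |CT|) / δ * 2 ≤ l ^ (1 - e) := ev_const _ (by linarith)
  have h13b : ∀ᶠ l : ℝ in atTop, 10 / δ * Real.log l ≤ l ^ (1 - e) := ev_log _ (by linarith)
  have h13c : ∀ᶠ l : ℝ in atTop, 12 / δ * l ^ (1 - 3 * e) ≤ l ^ (1 - e) := ev_pow _ (by linarith)
  have h13d : ∀ᶠ l : ℝ in atTop, 131072 / δ * l ^ e ≤ l ^ (1 - e) := ev_pow _ (by linarith)
  have h14a : ∀ᶠ l : ℝ in atTop, 4 / (δ * K) * l ^ (1 - 2 * e) ≤ l ^ (1 : ℝ) :=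
    ev_pow _ (by linarith)
  have h14b : ∀ᶠ l : ℝ in atTop, 2 / δ * l ^ (3 * e) ≤ l ^ (1 : ℝ) := ev_pow _ (by linarith)
  have h15 : ∀ᶠ l : ℝ in atTop, 2 * l ^ (1 - 3 * e) ≤ l ^ (1 : ℝ) := ev_pow _ (by linarith)
  have h16 : ∀ᶠ l : ℝ in atTop, 2 * l ^ (1 - 4 * e) ≤ l ^ (β * (1 - δ)) := ev_pow _ (by
    have : 3 / 2 * (1 - δ) < β * (1 - δ) := mul_lt_mul_of_pos_right hβ1 (by linarith)
    linarith)
  filter_upwards [eventually_ge_atTop (100 : ℝ), h1, h2, h3, h5, h6, h7, h8, h9, h10, h11a, h11b,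
    h12a, h12b, h12c, h13a, h13b, h13c, h13d, h14a, h14b, h15, h16] with l b b1 b2 b3 b5 b6 b7 b8
    b9 b10 b11a b11b b12a b12b b12c b13a b13b b13c b13d b14a b14b b15 b16
  rw [Real.rpow_one] at b3 b14a b14b b15
  have hK0 : 0 < K := by linarith
  refine ⟨b, b1, b2, b3, b5, ?_, b7, b8, ?_, b10, ?_, ?_, ?_, ?_, ?_, b16⟩
  · rw [div_mul_eq_mul_div, one_mul, div_le_iff₀ hδ] at b6
    linarith
  · rw [div_mul_eq_mul_div, div_le_iff₀ hδ] at b9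
    linarith
  · linarith
  · linarith
  · rw [div_mul_eq_mul_div, div_le_iff₀ hδ] at b13a b13b b13c b13d
    nlinarith
  · rw [div_mul_eq_mul_div, div_le_iff₀ (by positivity)] at b14a
    rw [div_mul_eq_mul_div, div_le_iff₀ hδ] at b14b
    have : K * (2 * l ^ (3 * e)) ≤ K * (l * δ) := mul_le_mul_of_nonneg_left b14b hK0.le
    linarith
  · linarith

end Pool.Agent.Helper34.CA
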