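import Pool.Agent.Helper34.CA.MainC

/-!
# Project CA: the choice of the parameters
-/

set_option autoImplicit false

open Finset Filter Topology

namespace Pool.Agent.Helper34.CA

open Pool.Agent.Helper18.BV

theorem exp_of_log {a b : ℝ} (ha : 0 < a) : a ^ b = Real.exp (Real.log a * b) :=
  Real.rpow_def_of_pos ha b

/-- the output of `QuadLB` for `x = exp l` -/
def QuadAt (κ κ₁ κ₂ : ℝ) (b0 : ℕ) (l : ℝ) : Prop :=
  ∀ M : ℕ, 0 < M → (M : ℝ) ≤ Real.exp (l ^ κ₁) →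
    (∀ q : ℕ, q.Prime → q ∣ M → (q : ℝ) ≤ l ^ κ) →
    (∀ q : ℕ, q.Prime → (q : ℝ) ≤ l ^ κ → l ^ b0 ≤ (q : ℝ) ^ (M.factorization q + 1)) →
    ∃ ξ : DirichletCharacter ℂ M, ξ ^ 2 = 1 ∧
      ∀ a : ℕ, ξ (a : ZMod M) = 1 → ∀ T : Finset (Fin 4 → ℕ),
        (∀ t, t ∈ T ↔ (∀ i, NiceP (Real.exp l) (l ^ κ) (Real.exp (l ^ κ₂)) M (t i)) ∧
          ∏ i, t i ≡ a [MOD M]) →
        Real.exp (-(2 * l ^ κ₁)) ≤ ∑ t ∈ T, ∏ i, (1 / (t i : ℝ))

theorem aux_f4 {K l δ t1 t2 t3 X : ℝ} (h1 : K * l - K * t3 - 2 * t2 + 2 * t1 ≤ X)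
    (h2 : 2 * t2 + K * t3 ≤ δ * K * l) (h3 : 1 ≤ t1) : (1 - δ) * (K * l) ≤ X := by
  have : (1 - δ) * (K * l) = K * l - δ * K * l := by ring
  rw [this]
  linarith

theorem aux_f5 {K l δ θ X Λ : ℝ} (h : (1 - δ) * (K * l) ≤ X * Λ) (h1 : 0 ≤ 1 - θ - 4 * δ)
    (hδ : 0 ≤ δ) (hθ : 0 ≤ θ) (hK : 0 ≤ K * l) :
    (1 - θ - 5 * δ) * (K * l) ≤ X * (Λ * (1 - θ - 4 * δ)) := by
  have e1 : (1 - δ) * (K * l) * (1 - θ - 4 * δ) ≤ X * Λ * (1 - θ - 4 * δ) :=
    mul_le_mul_of_nonneg_right h h1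
  have e2 : 0 ≤ δ * (θ + 4 * δ) * (K * l) := by positivity
  have e3 : X * (Λ * (1 - θ - 4 * δ)) = X * Λ * (1 - θ - 4 * δ) := by ring
  have e4 : (1 - δ) * (K * l) * (1 - θ - 4 * δ) =
      (1 - θ - 5 * δ) * (K * l) + δ * (θ + 4 * δ) * (K * l) := by ring
  rw [e3]
  linarith

theorem aux_P {J h b K l v L c : ℝ} (h1 : J * h * b ≤ K * l * v) (h2 : J ≤ K * l * v)
    (h3 : 4 * K * (l * v) ≤ L) (h4 : L ≤ 2 * c) : J * (b * h + 1) ≤ c := by
  have e1 : J * (b * h + 1) = J * h * b + J := by ring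
  have e2 : 4 * K * (l * v) = 4 * (K * l * v) := by ring
  rw [e1]
  linarith

theorem aux_exp (a b c d : ℝ) :
    ((Real.exp a * (16 * Real.exp b)) * Real.exp c) * Real.exp d =
      64 * Real.exp (a + b + c + d) / 4 := by
  rw [Real.exp_add, Real.exp_add, Real.exp_add]
  ring

theorem aux_num (c : ℝ) (hc : 0 ≤ c) : c ≤ Real.exp c := by
  have := Real.add_one_le_exp c
  linarith

theorem step (h4 : SwapT) (h5 : BadT) (h3 : Equi) (h6 : Pop) (h7 : CountG) {CT : ℝ}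
    (h2 : PhiTailC CT) {f : ℕ → ℕ} (hf : ∀ p : ℕ, p.Prime → f p ∣ p - 1) {θ δ e β K : ℝ} {b0 : ℕ} {l : ℝ} (hθ : 0 < θ) (hδ : 0 < δ)
    (hδ2 : δ ≤ 1 / 100) (hδθ : 8 * δ ≤ 1 / 2 - θ) (he : e = δ / 16) (hβ : β = (1 - 4 * e) / θ)
    (hK : 64 ≤ K) (hat : Atoms θ δ e β K CT b0 l) {P0 : Finset ℕ}
    (hP0 : ∀ p ∈ P0, p.Prime ∧ (p : ℝ) ≤ l ^ β ∧
      ∀ q : ℕ, q.Prime → q ∣ f p → (q : ℝ) ≤ (l ^ β) ^ θ)
    (hP0c : (l ^ β) ^ (1 - δ) ≤ (P0.card : ℝ))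
    (hQ : QuadAt (1 - 4 * e) (1 - 3 * e) (1 - e) b0 l)
    {S : Finset ℕ} (hS : ∀ n, n ∈ S ↔ IsG f (l ^ (1 - 4 * e)) n ∧ (n : ℝ) ≤ Real.exp ((K + 4) * l)) :
    Real.exp ((1 - θ - 5 * δ) * (K * l) - 2 * l ^ (1 - 3 * e) - 96) ≤ S.card := by
  classical
  obtain ⟨big, a1, a2, a3, a5, a6, a7, a8, a9, a10, a11, a12, a13, a14, a15, a16⟩ := hat
  have he0 : 0 < e := by rw [he]; positivity
  have he1 : e ≤ 1 / 1600 := by rw [he]; linarith
  have l0 : 0 < l := by linarith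
  have l1 : 1 ≤ l := by linarith
  have K0 : 0 < K := by linarith
  have hlog0 : 0 < Real.log l := Real.log_pos (by linarith)
  have hθ2 : θ < 1 / 2 := by linarith
  have hβθ : β * θ = 1 - 4 * e := by rw [hβ]; field_simp
  have hβ1 : 3 / 2 < β := by
    rw [hβ, lt_div_iff₀ hθ]
    nlinarith
  have hβ0 : 0 < β := by linarith
  -- `y`, `z`, `w`
  unfold QuadAt at hQ
  obtain ⟨y, hy⟩ : ∃ y : ℝ, y = l ^ (1 - 4 * e) := ⟨_, rfl⟩
  obtain ⟨z, hz⟩ : ∃ z : ℝ, z = l ^ β := ⟨_, rfl⟩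
  obtain ⟨w, hw⟩ : ∃ w : ℝ, w = Real.exp (l ^ (1 - e)) := ⟨_, rfl⟩
  rw [← hz] at hP0 hP0c a2
  rw [← hy] at hQ hS a16
  rw [← hw] at hQ
  have hy1 : 1 ≤ y := by rw [hy]; exact Real.one_le_rpow l1 (by linarith)
  have hy0 : 0 ≤ y := by linarith
  have hzθ : z ^ θ = y := by rw [hz, hy, ← Real.rpow_mul l0.le, hβθ]
  have hz0 : 0 < z := by rw [hz]; exact Real.rpow_pos_of_pos l0 _
  obtain ⟨z0, hz0'⟩ : ∃ z0 : ℕ, z0 = ⌊z⌋₊ := ⟨_, rfl⟩
  have hz4 : 4 ≤ z0 := by rw [hz0']; exact Nat.le_floor (by exact_mod_cast a2)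
  have hz4r : (4 : ℝ) ≤ z0 := by exact_mod_cast hz4
  have hz0le : (z0 : ℝ) ≤ z := by rw [hz0']; exact Nat.floor_le hz0.le
  have hz0gt : z < z0 + 1 := by rw [hz0']; exact Nat.lt_floor_add_one z
  have hz0pos : (0 : ℝ) < z0 := by linarith
  have hlogz0 : 1 ≤ Real.log z0 := by
    rw [Real.le_log_iff_exp_le hz0pos]
    have := Real.exp_one_lt_d9
    linarith
  have hlogz : Real.log z = β * Real.log l := by rw [hz]; exact Real.log_rpow l0 β
  have hlogz0' : Real.log z0 ≤ β * Real.log l := by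
    rw [← hlogz]
    exact Real.log_le_log hz0pos hz0le
  have hlogz0e : Real.log z0 ≤ l ^ e := hlogz0'.trans a1
  -- powers
  have p1 : l ^ (2 * e) * l ^ (1 - 2 * e) = l := by
    rw [← Real.rpow_add l0]
    simp
  have p2 : l ^ e * l ^ (2 * e) = l ^ (3 * e) := by
    rw [← Real.rpow_add l0]
    congr 1
    ring
  have p3 : 1 ≤ l ^ (2 * e) := Real.one_le_rpow l1 (by linarith)
  have p4 : 1 ≤ l ^ e := Real.one_le_rpow l1 (by linarith)
  have p5 : 1 ≤ l ^ (1 - 2 * e) := Real.one_le_rpow l1 (by linarith)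
  have p6 : 0 < l ^ (1 - 3 * e) := Real.rpow_pos_of_pos l0 _
  -- `h`
  obtain ⟨h, hh⟩ : ∃ h : ℕ, h = ⌊l ^ (1 - 2 * e) / Real.log z0⌋₊ := ⟨_, rfl⟩
  have hh1 : (h : ℝ) ≤ l ^ (1 - 2 * e) / Real.log z0 := by
    rw [hh]; exact Nat.floor_le (by positivity)
  have hh2 : l ^ (1 - 2 * e) / Real.log z0 < h + 1 := by rw [hh]; exact Nat.lt_floor_add_one _
  obtain ⟨Λ, hΛ⟩ : ∃ Λ : ℝ, Λ = h * Real.log z0 := ⟨_, rfl⟩
  have hL0 : 0 < Real.log z0 := by linarith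
  have hΛ1 : Λ ≤ l ^ (1 - 2 * e) := by rwa [le_div_iff₀ hL0, ← hΛ] at hh1
  have hΛ2 : l ^ (1 - 2 * e) - l ^ e ≤ Λ := by
    rw [div_lt_iff₀ hL0] at hh2
    rw [hΛ]
    linarith
  have hΛ3 : l ^ (1 - 2 * e) ≤ 2 * Λ := by linarith
  have hΛ0 : 0 < Λ := by linarith
  have hhge : 1 ≤ h := by
    rcases Nat.eq_zero_or_pos h with h0 | h0
    · rw [hΛ, h0] at hΛ0
      simp at hΛ0
    · exact h0
  have hhr : (1 : ℝ) ≤ h := by exact_mod_cast hhge
  have hhle : (h : ℝ) ≤ l ^ (1 - 2 * e) := hh1.trans (div_le_self (by linarith) hlogz0)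
  -- `J`
  obtain ⟨J, hJ⟩ : ∃ J : ℕ, J = ⌊K * l ^ (2 * e)⌋₊ := ⟨_, rfl⟩
  have hJ1 : (J : ℝ) ≤ K * l ^ (2 * e) := by rw [hJ]; exact Nat.floor_le (by positivity)
  have hJ2 : K * l ^ (2 * e) < J + 1 := by rw [hJ]; exact Nat.lt_floor_add_one _
  have hKp : K ≤ K * l ^ (2 * e) := le_mul_of_one_le_right K0.le p3
  have hJ64 : 63 < (J : ℝ) := by linarith
  have hJn : 63 < J := by exact_mod_cast hJ64
  have hJ0 : (0 : ℝ) < J := by linarith
  have hJh : (J : ℝ) * h ≤ K * l := by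
    calc (J : ℝ) * h ≤ (K * l ^ (2 * e)) * l ^ (1 - 2 * e) :=
          mul_le_mul hJ1 hhle (Nat.cast_nonneg _) (by positivity)
      _ = K * l := by rw [mul_assoc, p1]
  -- `X`
  have hX : ((z0 ^ h : ℕ) : ℝ) = Real.exp Λ := by
    rw [Nat.cast_pow, hΛ, Real.exp_nat_mul, Real.exp_log hz0pos]
  have hXpow : ∀ n : ℕ, ((z0 ^ h : ℕ) : ℝ) ^ n = Real.exp (n * Λ) := by
    intro n
    rw [hX, ← Real.exp_nat_mul]
  have hXr : ∀ s : ℝ, ((z0 ^ h : ℕ) : ℝ) ^ s = Real.exp (Λ * s) := by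
    intro s
    rw [hX, ← Real.exp_mul]
  -- `B` and `M`
  obtain ⟨B, hB⟩ : ∃ B : ℕ, B = ⌊l ^ (e / 2)⌋₊ := ⟨_, rfl⟩
  have hB1 : (B : ℝ) ≤ l ^ (e / 2) := by rw [hB]; exact Nat.floor_le (by positivity)
  have hB2 : l ^ (e / 2) < B + 1 := by rw [hB]; exact Nat.lt_floor_add_one _
  obtain ⟨M, hM⟩ : ∃ M : ℕ, M = MM ⌊y⌋₊ B := ⟨_, rfl⟩
  have hMpos : 0 < M := by rw [hM]; exact MM_pos _ _
  have hMr : (0 : ℝ) < M := by exact_mod_cast hMpos
  have hM1 : (M : ℝ) ≤ Real.exp (l ^ (1 - 3 * e)) := by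
    rw [hM]
    refine (MM_le hy0 B).trans ?_
    rw [exp_of_log (by norm_num : (0 : ℝ) < 4)]
    refine Real.exp_le_exp.2 (le_trans ?_ a8)
    have e1 : Real.log 4 ≤ 2 := by
      have : Real.log 4 = 2 * Real.log 2 := by
        rw [show (4 : ℝ) = 2 ^ 2 by norm_num, Real.log_pow]; norm_num
      have := Real.log_two_lt_d9
      linarith
    have e2 : y * (B : ℝ) ≤ l ^ (1 - 4 * e + e / 2) := by
      rw [Real.rpow_add l0, ← hy]
      exact mul_le_mul_of_nonneg_left hB1 hy0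
    have e3 : 0 ≤ y * (B : ℝ) := mul_nonneg hy0 (Nat.cast_nonneg _)
    calc Real.log 4 * (y * B) ≤ 2 * (y * B) := mul_le_mul_of_nonneg_right e1 e3
      _ ≤ 2 * l ^ (1 - 4 * e + e / 2) := by linarith
  have hM2 : l ^ (1 - 3 * e) ≤ δ * Λ := by
    have : δ * l ^ (1 - 2 * e) ≤ δ * (2 * Λ) := mul_le_mul_of_nonneg_left hΛ3 hδ.le
    linarith
  have h2B : Real.exp ((b0 + β + 1) * Real.log l) ≤ (2 : ℝ) ^ B := by
    rw [← Real.rpow_natCast, exp_of_log (by norm_num : (0 : ℝ) < 2)]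
    refine Real.exp_le_exp.2 (a11.trans ?_)
    have e1 := Real.log_two_gt_d9
    have e2 : (1 / 2 : ℝ) * B ≤ Real.log 2 * B :=
      mul_le_mul_of_nonneg_right (by linarith) (Nat.cast_nonneg _)
    linarith
  have h2B1 : l ^ b0 ≤ (2 : ℝ) ^ B := by
    refine le_trans ?_ h2B
    rw [← Real.rpow_natCast, exp_of_log l0]
    refine Real.exp_le_exp.2 ?_
    have : 0 ≤ (β + 1) * Real.log l := by positivity
    linarith
  have h2B2 : z < (2 : ℝ) ^ B := by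
    refine lt_of_lt_of_le ?_ h2B
    rw [hz, exp_of_log l0]
    refine Real.exp_lt_exp.2 ?_
    have : 0 ≤ (b0 : ℝ) * Real.log l := by positivity
    linarith
  -- the quadruples
  obtain ⟨ξ, hξ, hξQ⟩ := hQ M hMpos hM1
    (fun q hq hqM => prime_dvd_MM (B := B) hy0 hq (by rw [← hM]; exact hqM)) (by
    intro q hq hqy
    rw [hM, factorization_MM hq hqy]
    refine h2B1.trans ?_
    have e1 : (2 : ℝ) ≤ q := by exact_mod_cast hq.two_le
    calc (2 : ℝ) ^ B ≤ (q : ℝ) ^ B := pow_le_pow_left₀ (by norm_num) e1 B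
      _ ≤ (q : ℝ) ^ (B + 1) := pow_le_pow_right₀ (by linarith) (Nat.le_succ B))
  -- the primes
  obtain ⟨P, hP⟩ : ∃ P : Finset ℕ, P = P0.filter (fun p : ℕ => y < (p : ℝ)) := ⟨_, rfl⟩
  have hPm : ∀ p ∈ P, p.Prime ∧ (p : ℝ) ≤ z ∧ (∀ q : ℕ, q.Prime → q ∣ f p → (q : ℝ) ≤ y) ∧
      y < (p : ℝ) := by
    intro p hp
    rw [hP, Finset.mem_filter] at hp
    have e1 := hP0 p hp.1
    rw [hzθ] at e1
    exact ⟨e1.1, e1.2.1, e1.2.2, hp.2⟩
  have hPc : l ^ (β * (1 - δ)) ≤ 2 * (P.card : ℝ) := by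
    have e1 : P0.card ≤ P.card + ⌊y⌋₊ := by
      have e2 := Finset.card_filter_add_card_filter_not (s := P0) (fun p : ℕ => y < (p : ℝ))
      rw [← hP] at e2
      have e3 : (P0.filter (fun p : ℕ => ¬ y < (p : ℝ))).card ≤ (Icc 1 ⌊y⌋₊).card := by
        refine Finset.card_le_card fun p hp => ?_
        rw [Finset.mem_filter] at hp
        rw [Finset.mem_Icc]
        exact ⟨(hP0 p hp.1).1.one_le, Nat.le_floor (not_lt.1 hp.2)⟩
      rw [Nat.card_Icc] at e3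
      omega
    have e4 : (P0.card : ℝ) ≤ P.card + ⌊y⌋₊ := by exact_mod_cast e1
    have e5 : (⌊y⌋₊ : ℝ) ≤ y := Nat.floor_le hy0
    have e6 : z ^ (1 - δ) = l ^ (β * (1 - δ)) := by rw [hz, ← Real.rpow_mul l0.le]
    rw [e6] at hP0c
    linarith
  have hPp : ∀ p ∈ P, p.Prime ∧ p ≤ z0 ∧ Nat.Coprime p M ∧ f p ∣ M ∧ y < (p : ℝ) := by
    intro p hp
    obtain ⟨b1, b2, b3, b4⟩ := hPm p hp
    refine ⟨b1, by rw [hz0']; exact Nat.le_floor b2, ?_, ?_, b4⟩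
    · rw [b1.coprime_iff_not_dvd]
      intro hd
      rw [hM] at hd
      have := prime_dvd_MM hy0 b1 hd
      linarith
    · have e0 := b1.two_le
      have e3 : 0 < f p := Nat.pos_of_dvd_of_pos (hf p b1) (by omega)
      have e4 : f p ≤ p - 1 := Nat.le_of_dvd (by omega) (hf p b1)
      rw [hM]
      refine dvd_MM e3 b3 ?_
      have e1 : (p : ℝ) < (2 : ℝ) ^ B := lt_of_le_of_lt b2 h2B2
      have e2 : p < 2 ^ B := by exact_mod_cast e1
      omega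
  -- `a`
  have hex : 0 ≤ 1 - θ - 3 * δ := by linarith
  obtain ⟨v, hv⟩ : ∃ v : ℝ, v = l ^ (β * (1 - θ - 3 * δ)) := ⟨_, rfl⟩
  have hv1 : 1 ≤ v := by rw [hv]; exact Real.one_le_rpow l1 (by positivity)
  have hvE : l ^ (1 + β * (1 - θ - 3 * δ)) = l * v := by
    rw [Real.rpow_add l0, Real.rpow_one, hv]
  rw [hvE] at a10
  have hKl : K * l ≤ K * (l * v) := by
    refine mul_le_mul_of_nonneg_left ?_ K0.le
    exact le_mul_of_one_le_right l0.le hv1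
  have hKlpos : 0 < K * l := by positivity
  have hJhP : J * h ≤ P.card := by
    have : ((J * h : ℕ) : ℝ) ≤ (P.card : ℝ) := by
      push_cast
      linarith
    exact_mod_cast this
  obtain ⟨b, hb⟩ : ∃ b : ℝ, b = (z0 : ℝ) ^ (1 - θ - 3 * δ) := ⟨_, rfl⟩
  have hb0 : 0 < b := by rw [hb]; exact Real.rpow_pos_of_pos hz0pos _
  have hbv : b ≤ v := by
    rw [hb, hv, Real.rpow_mul l0.le, ← hz]
    exact Real.rpow_le_rpow hz0pos.le hz0le hex
  have hbh : b ≤ ((P.card / J : ℕ) : ℝ) / h := by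
    rw [le_div_iff₀ (by linarith)]
    have e1 : P.card < J * (P.card / J + 1) := by
      have := Nat.lt_mul_div_succ P.card (show 0 < J by omega)
      exact this
    have e2 : (P.card : ℝ) < J * (((P.card / J : ℕ) : ℝ) + 1) := by exact_mod_cast e1
    have e3 : (J : ℝ) * (b * h + 1) ≤ P.card := by
      have e4 : (J : ℝ) * h * b ≤ K * l * v :=
        mul_le_mul hJh hbv hb0.le (by positivity)
      have e5 : (J : ℝ) ≤ K * l * v := by
        have e6 : (J : ℝ) ≤ J * h := le_mul_of_one_le_right hJ0.le hhr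
        rw [mul_assoc]
        exact e6.trans (hJh.trans hKl)
      exact aux_P e4 e5 a10 hPc
    have e6 : (J : ℝ) * (b * h + 1) < J * (((P.card / J : ℕ) : ℝ) + 1) := lt_of_le_of_lt e3 e2
    have e7 := lt_of_mul_lt_mul_left e6 hJ0.le
    linarith
  have ha : Real.exp (Λ * (1 - θ - 4 * δ)) ≤ (((P.card / J : ℕ) : ℝ) / h) ^ h / M := by
    rw [le_div_iff₀ hMr]
    have e1 : b ^ h = Real.exp (Λ * (1 - θ - 3 * δ)) := by
      rw [hb, exp_of_log hz0pos, ← Real.exp_nat_mul, hΛ]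
      congr 1
      ring
    calc Real.exp (Λ * (1 - θ - 4 * δ)) * M ≤
          Real.exp (Λ * (1 - θ - 4 * δ)) * Real.exp (δ * Λ) :=
          mul_le_mul_of_nonneg_left (hM1.trans (Real.exp_le_exp.2 hM2)) (Real.exp_pos _).le
      _ = b ^ h := by
          rw [← Real.exp_add, e1]
          congr 1
          ring
      _ ≤ (((P.card / J : ℕ) : ℝ) / h) ^ h := pow_le_pow_left₀ hb0.le hbh h
  -- the remaining inequalities
  have hl2 : l ^ (1 - e) ≤ l / 2 := by linarith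
  have hyw : y < w := by
    have e1 : y ≤ l ^ (1 - e) := by
      rw [hy]; exact Real.rpow_le_rpow_of_exponent_le l1 (by linarith)
    have e2 := Real.add_one_le_exp (l ^ (1 - e))
    rw [hw]
    linarith
  have hxh : Real.exp l ^ (1 / 2 : ℝ) = Real.exp (l / 2) := by
    rw [← Real.exp_mul]
    congr 1
    ring
  have hwx : w ≤ Real.exp l ^ (1 / 2 : ℝ) := by
    rw [hxh, hw]
    exact Real.exp_le_exp.2 hl2
  have hzw : (z0 : ℝ) ≤ w := by
    refine hz0le.trans ?_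
    rw [hz, exp_of_log l0, hw]
    refine Real.exp_le_exp.2 ?_
    have e1 : l ^ e ≤ l ^ (1 - e) := Real.rpow_le_rpow_of_exponent_le l1 (by linarith)
    linarith
  have hXw : ((z0 ^ h : ℕ) : ℝ) ≤ w ^ δ := by
    rw [hX, hw, ← Real.exp_mul]
    exact Real.exp_le_exp.2 (by linarith)
  have hX2 : 2 ≤ z0 ^ h := by
    calc 2 ≤ z0 := by omega
      _ = z0 ^ 1 := (pow_one _).symm
      _ ≤ z0 ^ h := Nat.pow_le_pow_right (by omega) hhge
  have hJhX : (J : ℝ) ^ h ≤ ((z0 ^ h : ℕ) : ℝ) ^ δ := by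
    have e1 : (J : ℝ) ≤ (z0 : ℝ) ^ δ := by
      have e2 : (z / 2) ^ δ ≤ (z0 : ℝ) ^ δ :=
        Real.rpow_le_rpow (by positivity) (by linarith) hδ.le
      have e3 : (z / 2) ^ δ = z ^ δ / 2 ^ δ := Real.div_rpow hz0.le (by norm_num) δ
      have e4 : (2 : ℝ) ^ δ ≤ 2 := by
        calc (2 : ℝ) ^ δ ≤ (2 : ℝ) ^ (1 : ℝ) :=
              Real.rpow_le_rpow_of_exponent_le (by norm_num) (by linarith)
          _ = 2 := Real.rpow_one 2
      have e5 : z ^ δ = l ^ (β * δ) := by rw [hz, ← Real.rpow_mul l0.le]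
      have e6 : l ^ (β * δ) / 2 ≤ z ^ δ / 2 ^ δ := by
        rw [← e5]
        exact div_le_div_of_nonneg_left (Real.rpow_nonneg hz0.le _)
          (Real.rpow_pos_of_pos (by norm_num) _) e4
      have e7 : 0 ≤ K * l ^ (2 * e) := by positivity
      linarith
    calc (J : ℝ) ^ h ≤ ((z0 : ℝ) ^ δ) ^ h := pow_le_pow_left₀ (Nat.cast_nonneg _) e1 h
      _ = ((z0 ^ h : ℕ) : ℝ) ^ δ := by
          rw [Nat.cast_pow, ← Real.rpow_natCast, ← Real.rpow_natCast, ← Real.rpow_mul hz0pos.le,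
            ← Real.rpow_mul hz0pos.le, mul_comm δ]
  have hJd : (J : ℝ) - 2 ≤ 2 * (((J - 1) / 2 : ℕ) : ℝ) := by
    have e1 : J ≤ 2 * ((J - 1) / 2) + 2 := by omega
    have e2 : (J : ℝ) ≤ 2 * (((J - 1) / 2 : ℕ) : ℝ) + 2 := by exact_mod_cast e1
    linarith
  have hx8 : Real.exp l ^ 8 ≤ ((z0 ^ h : ℕ) : ℝ) ^ ((J - 1) / 2) := by
    rw [hXpow, ← Real.exp_nat_mul]
    refine Real.exp_le_exp.2 ?_
    have e1 : K * l ^ (2 * e) / 4 ≤ (((J - 1) / 2 : ℕ) : ℝ) := by linarith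
    have e2 : (K * l ^ (2 * e) / 4) * (l ^ (1 - 2 * e) / 2) ≤ (((J - 1) / 2 : ℕ) : ℝ) * Λ :=
      mul_le_mul e1 (by linarith) (by positivity) (Nat.cast_nonneg _)
    have e3 : (K * l ^ (2 * e) / 4) * (l ^ (1 - 2 * e) / 2) = K * l / 8 := by
      calc (K * l ^ (2 * e) / 4) * (l ^ (1 - 2 * e) / 2) =
            K * (l ^ (2 * e) * l ^ (1 - 2 * e)) / 8 := by ring
        _ = K * l / 8 := by rw [p1]
    have e4 : 64 * l ≤ K * l := mul_le_mul_of_nonneg_right hK l0.le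
    push_cast
    linarith
  have haX : ((z0 ^ h : ℕ) : ℝ) ^ (1 / 2 + 3 * δ) ≤ Real.exp (Λ * (1 - θ - 4 * δ)) := by
    rw [hXr]
    refine Real.exp_le_exp.2 (mul_le_mul_of_nonneg_left ?_ hΛ0.le)
    linarith
  have hlogx : Real.log (Real.exp l) = l := Real.log_exp l
  obtain ⟨μ, hμ⟩ : ∃ μ : ℝ, μ = Real.exp (-(2 * l ^ (1 - 3 * e))) / 2 := ⟨_, rfl⟩
  have h1l : (1 + l) ^ 4 ≤ 16 * Real.exp (4 * Real.log l) := by
    have e1 : Real.exp (4 * Real.log l) = l ^ 4 := by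
      have := Real.exp_nat_mul (Real.log l) 4
      rw [Real.exp_log l0] at this
      rw [← this]
      norm_num
    rw [e1]
    calc (1 + l) ^ 4 ≤ (2 * l) ^ 4 := pow_le_pow_left₀ (by linarith) (by linarith) 4
      _ = 16 * l ^ 4 := by ring
  have hbad : 100 * (1 + Real.log (Real.exp l)) ^ 4 / w ≤ μ := by
    rw [hlogx, hw, div_le_iff₀ (Real.exp_pos _), hμ]
    have e1 : (3200 : ℝ) ≤ Real.exp 3200 := by
      have := Real.add_one_le_exp (3200 : ℝ)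
      linarith
    have e2 : 3200 * Real.exp (4 * Real.log l) ≤
        Real.exp (-(2 * l ^ (1 - 3 * e))) * Real.exp (l ^ (1 - e)) := by
      calc 3200 * Real.exp (4 * Real.log l) ≤ Real.exp 3200 * Real.exp (4 * Real.log l) :=
            mul_le_mul_of_nonneg_right e1 (Real.exp_pos _).le
        _ = Real.exp (3200 + 4 * Real.log l) := (Real.exp_add _ _).symm
        _ ≤ Real.exp (-(2 * l ^ (1 - 3 * e)) + l ^ (1 - e)) := Real.exp_le_exp.2 (by linarith)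
        _ = _ := Real.exp_add _ _
    linarith
  have herr : (M.divisors.card * (1 + Real.log (Real.exp l))) ^ 4 *
      (65536 : ℝ) ^ (Real.log (Real.exp l) / Real.log w) *
      (CT * Real.log (Real.exp l) * w ^ (-(3 * δ))) ≤ μ / 2 := by
    rw [hlogx, hw, Real.log_exp]
    have q1 : l / l ^ (1 - e) = l ^ e := by
      rw [div_eq_iff (Real.rpow_pos_of_pos l0 _).ne', ← Real.rpow_add l0]
      simp
    rw [q1]
    have q2 : (65536 : ℝ) ^ (l ^ e) ≤ Real.exp (65536 * l ^ e) := by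
      rw [exp_of_log (by norm_num)]
      refine Real.exp_le_exp.2 (mul_le_mul_of_nonneg_right ?_ (by linarith))
      have := Real.log_le_sub_one_of_pos (show (0 : ℝ) < 65536 by norm_num)
      linarith
    have q3 : (M.divisors.card : ℝ) ≤ Real.exp (l ^ (1 - 3 * e)) := by
      refine le_trans ?_ hM1
      exact_mod_cast Nat.card_divisors_le_self M
    have q4 : ((M.divisors.card : ℝ) * (1 + l)) ^ 4 ≤
        Real.exp (4 * l ^ (1 - 3 * e)) * (16 * Real.exp (4 * Real.log l)) := by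
      rw [mul_pow]
      refine mul_le_mul ?_ h1l (by positivity) (Real.exp_pos _).le
      have := Real.exp_nat_mul (l ^ (1 - 3 * e)) 4
      push_cast at this
      rw [this]
      exact pow_le_pow_left₀ (Nat.cast_nonneg _) q3 4
    have q5 : CT * l * Real.exp (l ^ (1 - e)) ^ (-(3 * δ)) ≤
        Real.exp (|CT| + Real.log l + l ^ (1 - e) * (-(3 * δ))) := by
      rw [Real.exp_add, Real.exp_add, Real.exp_log l0, ← Real.exp_mul]
      refine mul_le_mul_of_nonneg_right ?_ (Real.exp_pos _).le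
      refine mul_le_mul_of_nonneg_right ?_ l0.le
      have e1 := Real.add_one_le_exp |CT|
      have e2 := le_abs_self CT
      linarith
    have q6 : (0 : ℝ) ≤ ((M.divisors.card : ℝ) * (1 + l)) ^ 4 * (65536 : ℝ) ^ (l ^ e) := by
      positivity
    have q7 : ((M.divisors.card : ℝ) * (1 + l)) ^ 4 * (65536 : ℝ) ^ (l ^ e) ≤
        (Real.exp (4 * l ^ (1 - 3 * e)) * (16 * Real.exp (4 * Real.log l))) *
          Real.exp (65536 * l ^ e) :=
      mul_le_mul q4 q2 (by positivity) (by positivity)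
    have q8 : (64 : ℝ) ≤ Real.exp 64 := by
      have := Real.add_one_le_exp (64 : ℝ)
      linarith
    calc ((M.divisors.card : ℝ) * (1 + l)) ^ 4 * (65536 : ℝ) ^ (l ^ e) *
          (CT * l * Real.exp (l ^ (1 - e)) ^ (-(3 * δ)))
        ≤ ((M.divisors.card : ℝ) * (1 + l)) ^ 4 * (65536 : ℝ) ^ (l ^ e) *
          Real.exp (|CT| + Real.log l + l ^ (1 - e) * (-(3 * δ))) :=
          mul_le_mul_of_nonneg_left q5 q6
      _ ≤ ((Real.exp (4 * l ^ (1 - 3 * e)) * (16 * Real.exp (4 * Real.log l))) *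
          Real.exp (65536 * l ^ e)) *
          Real.exp (|CT| + Real.log l + l ^ (1 - e) * (-(3 * δ))) :=
          mul_le_mul_of_nonneg_right q7 (Real.exp_pos _).le
      _ = 64 * Real.exp (4 * l ^ (1 - 3 * e) + 4 * Real.log l + 65536 * l ^ e +
          (|CT| + Real.log l + l ^ (1 - e) * (-(3 * δ)))) / 4 := by
          exact aux_exp _ _ _ _
      _ ≤ Real.exp 64 * Real.exp (4 * l ^ (1 - 3 * e) + 4 * Real.log l + 65536 * l ^ e +
          (|CT| + Real.log l + l ^ (1 - e) * (-(3 * δ)))) / 4 := by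
          refine div_le_div_of_nonneg_right ?_ (by norm_num)
          exact mul_le_mul_of_nonneg_right q8 (Real.exp_pos _).le
      _ = Real.exp (64 + (4 * l ^ (1 - 3 * e) + 4 * Real.log l + 65536 * l ^ e +
          (|CT| + Real.log l + l ^ (1 - e) * (-(3 * δ))))) / 4 := by
          rw [← Real.exp_add]
      _ ≤ Real.exp (-(2 * l ^ (1 - 3 * e))) / 4 := by
          refine div_le_div_of_nonneg_right ?_ (by norm_num)
          exact Real.exp_le_exp.2 (by linarith)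
      _ = μ / 2 := by rw [hμ]; ring
  -- the set of Carmichael numbers
  have hXJ : ((z0 ^ h : ℕ) : ℝ) ^ J * Real.exp l ^ 4 ≤ Real.exp ((K + 4) * l) := by
    rw [hXpow, ← Real.exp_nat_mul, ← Real.exp_add]
    refine Real.exp_le_exp.2 ?_
    have e1 : (J : ℝ) * Λ ≤ (K * l ^ (2 * e)) * l ^ (1 - 2 * e) :=
      mul_le_mul hJ1 hΛ1 hΛ0.le (by positivity)
    rw [mul_assoc, p1] at e1
    push_cast
    linarith
  have hS' : ∀ n : ℕ, n ∈ S.filter (fun n : ℕ => (n : ℝ) ≤ ((z0 ^ h : ℕ) : ℝ) ^ J *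
      Real.exp l ^ 4) ↔ IsG f y n ∧ (n : ℝ) ≤ ((z0 ^ h : ℕ) : ℝ) ^ J * Real.exp l ^ 4 := by
    intro n
    rw [Finset.mem_filter, hS]
    exact ⟨fun h => ⟨h.1.1, h.2⟩, fun h => ⟨⟨h.1, h.2.trans hXJ⟩, h.2⟩⟩
  have hx3 : 3 ≤ Real.exp l := by
    have := Real.add_one_le_exp l
    linarith
  have hmain := core h4 h5 h3 h6 h7 h2 hf (a := Real.exp (Λ * (1 - θ - 4 * δ))) hx3 hy1 hyw hwx hMpos
    (hzw.trans hwx) hzw hδ (by linarith) (by omega) hhge hJhP hPp hX2 hXw hJhX hx8 haX ha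
    ⟨ξ, hξ, fun a ha T hT => by
      have := hξQ a ha T hT
      rw [hμ]
      linarith⟩ hbad herr hS'
  have hcard : (((S.filter (fun n : ℕ => (n : ℝ) ≤ ((z0 ^ h : ℕ) : ℝ) ^ J *
      Real.exp l ^ 4)).card : ℕ) : ℝ) ≤ S.card := by exact_mod_cast Finset.card_filter_le _ _
  refine le_trans ?_ (hmain.trans hcard)
  have f1 : Real.exp (Λ * (1 - θ - 4 * δ)) ^ (J - 1) * μ / 48 =
      Real.exp (((J - 1 : ℕ) : ℝ) * (Λ * (1 - θ - 4 * δ)) + -(2 * l ^ (1 - 3 * e))) / 96 := by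
    rw [Real.exp_add, Real.exp_nat_mul, hμ]
    ring
  rw [f1]
  have f2 : (96 : ℝ) ≤ Real.exp 96 := by
    have := Real.add_one_le_exp (96 : ℝ)
    linarith
  have f3 : Real.exp (-96) ≤ 1 / 96 := by
    rw [Real.exp_neg, ← one_div]
    exact one_div_le_one_div_of_le (by norm_num) f2
  have f4 : (1 - δ) * (K * l) ≤ ((J - 1 : ℕ) : ℝ) * Λ := by
    have e0 : ((J - 1 : ℕ) : ℝ) = J - 1 := by
      rw [Nat.cast_sub (by omega)]
      norm_num
    have e1 : K * l ^ (2 * e) - 2 ≤ ((J - 1 : ℕ) : ℝ) := by rw [e0]; linarith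
    have e2 : (K * l ^ (2 * e) - 2) * (l ^ (1 - 2 * e) - l ^ e) ≤ ((J - 1 : ℕ) : ℝ) * Λ :=
      mul_le_mul e1 hΛ2 (by linarith) (by positivity)
    have e3 : (K * l ^ (2 * e) - 2) * (l ^ (1 - 2 * e) - l ^ e) =
        K * (l ^ (2 * e) * l ^ (1 - 2 * e)) - K * (l ^ e * l ^ (2 * e)) - 2 * l ^ (1 - 2 * e) +
          2 * l ^ e := by ring
    rw [e3, p1, p2] at e2
    exact aux_f4 e2 a14 p4
  have f5 : (1 - θ - 5 * δ) * (K * l) ≤ ((J - 1 : ℕ) : ℝ) * (Λ * (1 - θ - 4 * δ)) := by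
    exact aux_f5 f4 (by linarith) hδ.le hθ.le hKlpos.le
  calc Real.exp ((1 - θ - 5 * δ) * (K * l) - 2 * l ^ (1 - 3 * e) - 96)
      ≤ Real.exp (((J - 1 : ℕ) : ℝ) * (Λ * (1 - θ - 4 * δ)) + -(2 * l ^ (1 - 3 * e)) + -96) :=
        Real.exp_le_exp.2 (by linarith)
    _ = Real.exp (((J - 1 : ℕ) : ℝ) * (Λ * (1 - θ - 4 * δ)) + -(2 * l ^ (1 - 3 * e))) *
        Real.exp (-96) := Real.exp_add _ _
    _ ≤ Real.exp (((J - 1 : ℕ) : ℝ) * (Λ * (1 - θ - 4 * δ)) + -(2 * l ^ (1 - 3 * e))) *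
        (1 / 96) := mul_le_mul_of_nonneg_left f3 (Real.exp_pos _).le
    _ = Real.exp (((J - 1 : ℕ) : ℝ) * (Λ * (1 - θ - 4 * δ)) + -(2 * l ^ (1 - 3 * e))) / 96 := by
        ring

end Pool.Agent.Helper34.CA
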