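import Pool.Agent.Helper34.CA.St
import Pool.Agent.Helper44.BV.Mass

/-!
# Project CA (MP_87fff7_nt), module PairA

D5a. `PairA`. `BVs` with `ε'` (so `g` is `IsWtS (1-ε')`, level `z^{1/2-ε'} ≥ z^{1/2-ε}`), `A = 1`,
residue classes `1`: the double sum is `≥ (∑_{m∈S} 1/φ(m)) W - C/log z`. And `∑_{m∈S} 1/φ(m) ≥`
(all `m ∈ (z^{1/2-2ε}, z^{1/2-ε}]`, `PhiSums.lower`) `-` (`m` with a prime factor in
`(z^θ, z^{1/2-ε}]`, `PhiSums.big`) `≥ kap ε log z - C' - (log((1/2-ε)/θ) + C/log z)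
(kap ε log z + C)`, `log((1/2-ε)/θ) ≤ log(5000/4095)`, `θ = 0.4095`. The bounded terms are
absorbed by `ρ kap ε log z` for `z` large. Use `0 ≤ W ≤ log z + 6`.
-/

set_option autoImplicit false

open Finset Filter Topology
open scoped ArithmeticFunction.vonMangoldt

namespace Pool.Agent.Helper34.CA

open Pool.Agent.Helper18.BV

namespace PairAAux

/-- Lower bound for the sum of `1 / φ(m)` over the smooth `m` in the interval. -/
theorem smooth_sum (h2 : PhiSums) (ρ ε : ℝ) (hρ : 0 < ρ) (hε : 0 < ε) (hε1 : ε ≤ 1 / 100) :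
    ∃ z0 : ℝ, 3 ≤ z0 ∧ ∀ z : ℝ, z0 ≤ z → ∀ S : Finset ℕ,
      (∀ m, m ∈ S ↔ (z ^ (1 / 2 - 2 * ε) < m ∧ (m : ℝ) ≤ z ^ (1 / 2 - ε) ∧
        ∀ q : ℕ, q.Prime → q ∣ m → (q : ℝ) ≤ z ^ (4095 / 10000 : ℝ))) →
      (1 - Real.log (5000 / 4095) - ρ) * kap * ε * Real.log z ≤
        ∑ m ∈ S, (1 : ℝ) / m.totient := by
  classical
  obtain ⟨C1, hC1, hlow⟩ := h2.lower
  obtain ⟨C2, hC2, hbig⟩ := h2.big
  have hk := h2.pos
  obtain ⟨L, hL⟩ : ∃ L, L = Real.log (5000 / 4095) := ⟨_, rfl⟩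
  have hL0 : 0 ≤ L := by
    rw [hL]
    exact Real.log_nonneg (by norm_num)
  obtain ⟨K, hK⟩ : ∃ K, K = 9 * C1 + L * C2 + C2 * kap * ε / (4095 / 10000) +
    C2 ^ 2 / (4095 / 10000) := ⟨_, rfl⟩
  refine ⟨max 8 (Real.exp (max 1 (K / (ρ * ε)))), le_trans (by norm_num) (le_max_left _ _), ?_⟩
  intro z hz S hS
  have hz8 : (8 : ℝ) ≤ z := (le_max_left _ _).trans hz
  have hz0 : 0 < z := by linarith
  have hz1 : 1 ≤ z := by linarith
  have hle : max 1 (K / (ρ * ε)) ≤ Real.log z :=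
    (Real.le_log_iff_exp_le hz0).2 ((le_max_right _ _).trans hz)
  obtain ⟨l, hl⟩ : ∃ l, l = Real.log z := ⟨_, rfl⟩
  rw [← hl] at hle
  have hl1 : 1 ≤ l := (le_max_left _ _).trans hle
  have hlK : K ≤ ρ * ε * l := by
    have h := (le_max_right _ _).trans hle
    rw [div_le_iff₀ (mul_pos hρ hε)] at h
    linarith
  obtain ⟨a, ha⟩ : ∃ a, a = z ^ (1 / 2 - 2 * ε) := ⟨_, rfl⟩
  obtain ⟨b, hb⟩ : ∃ b, b = z ^ (1 / 2 - ε) := ⟨_, rfl⟩
  obtain ⟨P, hP⟩ : ∃ P, P = z ^ (4095 / 10000 : ℝ) := ⟨_, rfl⟩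
  have ha0 : 0 < a := by rw [ha]; exact Real.rpow_pos_of_pos hz0 _
  have hb0 : 0 < b := by rw [hb]; exact Real.rpow_pos_of_pos hz0 _
  have hP0 : 0 < P := by rw [hP]; exact Real.rpow_pos_of_pos hz0 _
  have ha1 : 1 ≤ a := by rw [ha]; exact Real.one_le_rpow hz1 (by linarith)
  have hab : a ≤ b := by
    rw [ha, hb]
    exact Real.rpow_le_rpow_of_exponent_le hz1 (by linarith)
  have hPb : P ≤ b := by
    rw [hP, hb]
    exact Real.rpow_le_rpow_of_exponent_le hz1 (by linarith)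
  have hP2 : 2 ≤ P := by
    rw [hP]
    calc (2 : ℝ) = 2 ^ (1 : ℝ) := (Real.rpow_one 2).symm
      _ ≤ 2 ^ (3 * (4095 / 10000) : ℝ) :=
          Real.rpow_le_rpow_of_exponent_le (by norm_num) (by norm_num)
      _ = ((2 : ℝ) ^ (3 : ℝ)) ^ (4095 / 10000 : ℝ) := Real.rpow_mul (by norm_num) _ _
      _ = (8 : ℝ) ^ (4095 / 10000 : ℝ) := by
          congr 1
          rw [show (3 : ℝ) = ((3 : ℕ) : ℝ) by norm_num, Real.rpow_natCast]
          norm_num
      _ ≤ z ^ (4095 / 10000 : ℝ) := Real.rpow_le_rpow (by norm_num) hz8 (by norm_num)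
  have hla : Real.log a = (1 / 2 - 2 * ε) * l := by rw [ha, Real.log_rpow hz0, hl]
  have hlb : Real.log b = (1 / 2 - ε) * l := by rw [hb, Real.log_rpow hz0, hl]
  have hlP : Real.log P = 4095 / 10000 * l := by rw [hP, Real.log_rpow hz0, hl]
  have hlba : Real.log (b / a) = ε * l := by
    rw [Real.log_div hb0.ne' ha0.ne', hla, hlb]
    ring
  have hsq : Real.log b / Real.sqrt a ≤ 8 := by
    have h1 : z ^ (1 / 8 : ℝ) ≤ Real.sqrt a := by
      rw [Real.sqrt_eq_rpow, ha, ← Real.rpow_mul hz0.le]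
      exact Real.rpow_le_rpow_of_exponent_le hz1 (by linarith)
    have h2 : l ≤ 8 * z ^ (1 / 8 : ℝ) := by
      have h := Real.log_le_rpow_div hz0.le (show (0 : ℝ) < 1 / 8 by norm_num)
      rw [← hl] at h
      linarith
    have h3 : 0 < Real.sqrt a := Real.sqrt_pos.2 ha0
    rw [div_le_iff₀ h3, hlb]
    have h4 : (1 / 2 - ε) * l ≤ 1 * l := mul_le_mul_of_nonneg_right (by linarith) (by linarith)
    linarith
  have hA := hlow a b ha1 hab
  rw [hlba] at hA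
  have hA' : kap * (ε * l) - 9 * C1 ≤ ∑ n ∈ Ioc ⌊a⌋₊ ⌊b⌋₊, (1 : ℝ) / n.totient := by
    refine le_trans ?_ hA
    have : C1 * (1 + Real.log b / Real.sqrt a) ≤ C1 * 9 :=
      mul_le_mul_of_nonneg_left (by linarith) hC1.le
    linarith
  have hmem : ∀ n : ℕ, n ∈ Ioc ⌊a⌋₊ ⌊b⌋₊ ↔ a < n ∧ (n : ℝ) ≤ b := by
    intro n
    rw [Finset.mem_Ioc, Nat.floor_lt ha0.le, Nat.le_floor_iff hb0.le]
  obtain ⟨bad, hbad⟩ : ∃ bad, bad = (Ioc ⌊a⌋₊ ⌊b⌋₊).filter (fun n => ¬ n ∈ S) := ⟨_, rfl⟩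
  have hB := hbig a b P b ha0 hab hP2 hPb bad (by
    intro n hn
    rw [hbad, Finset.mem_filter, hmem] at hn
    obtain ⟨⟨hn1, hn2⟩, hn3⟩ := hn
    refine ⟨hn1, hn2, ?_⟩
    by_contra hcon
    push Not at hcon
    apply hn3
    rw [hS, ← ha, ← hb, ← hP]
    refine ⟨hn1, hn2, fun q hq hqn => ?_⟩
    by_contra hqP
    push Not at hqP
    have hn0 : 0 < n := by
      have : (0 : ℝ) < n := ha0.trans hn1
      exact_mod_cast this
    refine hcon q hq hqP ?_ hqn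
    exact (Nat.cast_le.2 (Nat.le_of_dvd hn0 hqn)).trans hn2)
  rw [hlba, hlb, hlP] at hB
  have hlog : Real.log ((1 / 2 - ε) * l / (4095 / 10000 * l)) ≤ L := by
    rw [hL]
    have e : (1 / 2 - ε) * l / (4095 / 10000 * l) = (1 / 2 - ε) / (4095 / 10000) := by
      rw [mul_div_mul_right _ _ (by linarith : l ≠ 0)]
    rw [e]
    apply Real.log_le_log
    · apply div_pos (by linarith) (by norm_num)
    · rw [div_le_div_iff₀ (by norm_num) (by norm_num)]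
      linarith
  have hkε : 0 ≤ kap * (ε * l) := mul_nonneg (by linarith) (mul_nonneg hε.le (by linarith))
  have hB' : ∑ n ∈ bad, (1 : ℝ) / n.totient ≤ L * (kap * (ε * l)) + L * C2 +
      C2 * kap * ε / (4095 / 10000) + C2 ^ 2 / (4095 / 10000) := by
    refine hB.trans ?_
    calc (Real.log ((1 / 2 - ε) * l / (4095 / 10000 * l)) + C2 / (4095 / 10000 * l)) *
          (kap * (ε * l) + C2) ≤
          (L + C2 / (4095 / 10000 * l)) * (kap * (ε * l) + C2) :=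
          mul_le_mul_of_nonneg_right (by linarith) (by linarith)
      _ = L * (kap * (ε * l)) + L * C2 + C2 * kap * ε / (4095 / 10000) +
          C2 ^ 2 / (4095 / 10000) * (1 / l) := by
          have : l ≠ 0 := by linarith
          field_simp
          ring
      _ ≤ _ := by
          have h1 : 1 / l ≤ 1 := by
            rw [div_le_one (by linarith)]
            exact hl1
          have h2 : 0 ≤ C2 ^ 2 / (4095 / 10000) := by positivity
          have h3 := mul_le_mul_of_nonneg_left h1 h2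
          linarith
  have hsplit : ∑ n ∈ Ioc ⌊a⌋₊ ⌊b⌋₊, (1 : ℝ) / n.totient ≤
      ∑ m ∈ S, (1 : ℝ) / m.totient + ∑ n ∈ bad, (1 : ℝ) / n.totient := by
    rw [← Finset.sum_filter_add_sum_filter_not (Ioc ⌊a⌋₊ ⌊b⌋₊) (fun n => n ∈ S), ← hbad]
    refine add_le_add ?_ le_rfl
    refine Finset.sum_le_sum_of_subset_of_nonneg ?_ fun n _ _ => by positivity
    intro n hn
    exact (Finset.mem_filter.1 hn).2
  rw [← hL, ← hl]
  have hfin : K ≤ ρ * kap * (ε * l) := by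
    have h1 : ρ * ε * l ≤ ρ * ε * l * kap :=
      le_mul_of_one_le_right (by positivity) hk
    nlinarith
  rw [hK] at hfin
  nlinarith

end PairAAux

theorem pairA (h1 : BVs) (h2 : PhiSums) : PairA := by
  intro ρ hρ
  refine ⟨1 / 100, by norm_num, fun ε hε hε1 ε' hε' hε'2 g hg _ => ?_⟩
  obtain ⟨z1, hz1, hF⟩ := PairAAux.smooth_sum h2 ρ ε hρ hε hε1
  have hεε : ε' ≤ ε := by nlinarith
  obtain ⟨C, X0, hC, hX0, hBV⟩ := h1 ε' hε' (by linarith) g hg 1 one_pos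
  refine ⟨max (max z1 X0) (Real.exp C), hz1.trans ((le_max_left _ _).trans (le_max_left _ _)),
    fun z hz S hS => ?_⟩
  have hzz1 : z1 ≤ z := ((le_max_left _ _).trans (le_max_left _ _)).trans hz
  have hzX : X0 ≤ z := ((le_max_right _ _).trans (le_max_left _ _)).trans hz
  have hz3 : 3 ≤ z := hz1.trans hzz1
  have hz0 : 0 < z := by linarith
  have hlC : C ≤ Real.log z :=
    (Real.le_log_iff_exp_le hz0).2 ((le_max_right _ _).trans hz)
  have hl0 : 0 < Real.log z := Real.log_pos (by linarith)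
  have hFz := hF z hzz1 S hS
  obtain ⟨W, hW⟩ : ∃ W, W = ∑ n ∈ Icc 1 ⌊z⌋₊, Λ n * wt g z n := ⟨_, rfl⟩
  have hW0 : 0 ≤ W := by
    rw [hW]
    exact Finset.sum_nonneg fun n _ => mul_nonneg ArithmeticFunction.vonMangoldt_nonneg
      (div_nonneg (hg.nonneg _) (Nat.cast_nonneg _))
  have hB := hBV z hzX (fun _ => 1) (fun d => Nat.coprime_one_left d)
  rw [Real.rpow_one, ← hW] at hB
  have hsub : S ⊆ Icc 1 ⌊z ^ (1 / 2 - ε')⌋₊ := by
    intro m hm
    obtain ⟨hm1, hm2, -⟩ := (hS m).1 hm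
    rw [Finset.mem_Icc]
    constructor
    · have h3 : (0 : ℝ) < m := (Real.rpow_pos_of_pos hz0 _).trans hm1
      exact_mod_cast h3
    · exact Nat.le_floor (hm2.trans (Real.rpow_le_rpow_of_exponent_le (by linarith)
        (by linarith)))
  have hE : ∑ m ∈ S, |∑ n ∈ (Icc 1 ⌊z⌋₊).filter (fun n => n ≡ 1 [MOD m]), Λ n * wt g z n -
      (1 / (m.totient : ℝ)) * W| ≤ C / Real.log z :=
    (Finset.sum_le_sum_of_subset_of_nonneg hsub fun _ _ _ => abs_nonneg _).trans hB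
  have hC1 : C / Real.log z ≤ 1 := by
    rw [div_le_one hl0]
    exact hlC
  have hlow : (∑ m ∈ S, (1 : ℝ) / m.totient) * W - C / Real.log z ≤
      ∑ m ∈ S, ∑ n ∈ (Icc 1 ⌊z⌋₊).filter (fun n => n ≡ 1 [MOD m]), Λ n * wt g z n := by
    rw [Finset.sum_mul]
    have h3 : ∑ m ∈ S, ((1 / (m.totient : ℝ)) * W - |∑ n ∈ (Icc 1 ⌊z⌋₊).filter
        (fun n => n ≡ 1 [MOD m]), Λ n * wt g z n - (1 / (m.totient : ℝ)) * W|) ≤
        ∑ m ∈ S, ∑ n ∈ (Icc 1 ⌊z⌋₊).filter (fun n => n ≡ 1 [MOD m]), Λ n * wt g z n := by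
      refine Finset.sum_le_sum fun m _ => ?_
      have h4 := neg_abs_le (∑ n ∈ (Icc 1 ⌊z⌋₊).filter (fun n => n ≡ 1 [MOD m]),
        Λ n * wt g z n - (1 / (m.totient : ℝ)) * W)
      linarith
    rw [Finset.sum_sub_distrib] at h3
    linarith
  rw [← hW]
  have h5 := mul_le_mul_of_nonneg_right hFz hW0
  linarith

end Pool.Agent.Helper34.CA
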