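import Pool.Agent.Helper34.CA.St

/-!
# Project CA (MP_87fff7_nt), module PairB

D5b. `PairB`. Let `θ = 0.4095`. `(m, p) ↦ (n, p)`, `n = (p-1)/m`, is injective; terms with
`wt ≠ 0` have `p > z^{1-ε'}`, so `z^{1/2+ε-ε'}/2 ≤ n ≤ z^{1/2+2ε}`, `p ≡ 1 mod n`, and `n` has a
prime factor in `(z^θ, z^{1/2+2ε}]`. `log p · wt(p) ≤ log p/p`. `BTw` (with this `ε`, `a =
z^{1-ε'} ≥ z^{1-ε}`, `b = z`): `∑_p ≤ (4+Kε)(ε' log z + 1)/φ(n)`. `PhiSums.big`: `∑_n 1/φ(n) ≤
(log((1/2+2ε)/θ) + C/log z)(kap (ε+ε') log z + C')`. As `ε' ≤ ε²` the product is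
`≤ (4+Kε)(log(5000/4095)+4ε)(1+ε) kap ε ε' log²z (1+o(1))`, and this is
`≤ (4 log(5000/4095) + ρ) kap ε ε' log² z` for `ε ≤ ε₀(ρ)`, `z ≥ z0`.
-/

set_option autoImplicit false

open Finset Filter Topology
open scoped ArithmeticFunction.vonMangoldt

namespace Pool.Agent.Helper34.CA

open Pool.Agent.Helper18.BV

private lemma PairB_eps (K lam ρ : ℝ) (hρ : 0 < ρ) :
    ∃ ε₀ : ℝ, 0 < ε₀ ∧ ε₀ ≤ 1 / 100 ∧ ∀ ε : ℝ, 0 < ε → ε ≤ ε₀ →
      (4 + K * ε) * (lam + 4 * ε) * (1 + ε) < 4 * lam + ρ := by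
  have hc : Continuous fun ε : ℝ => (4 + K * ε) * (lam + 4 * ε) * (1 + ε) := by fun_prop
  have h0 : (fun ε : ℝ => (4 + K * ε) * (lam + 4 * ε) * (1 + ε)) 0 < 4 * lam + ρ := by
    simp only [mul_zero, add_zero, mul_one]
    linarith
  have hev : ∀ᶠ ε in 𝓝 (0 : ℝ), (4 + K * ε) * (lam + 4 * ε) * (1 + ε) < 4 * lam + ρ :=
    hc.continuousAt.eventually_lt continuousAt_const h0
  obtain ⟨δ, hδ, hb⟩ := Metric.eventually_nhds_iff.1 hev
  refine ⟨min (δ / 2) (1 / 100), lt_min (by linarith) (by norm_num), min_le_right _ _, ?_⟩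
  intro ε h1 h2
  apply hb
  rw [Real.dist_eq, sub_zero, abs_of_pos h1]
  have := h2.trans (min_le_left _ _)
  linarith

private lemma PairB_lim (A B R lam C θ kp e l2 : ℝ) (hθ : 0 < θ)
    (h : A * B * lam * (kp * e) < R) :
    ∃ L0 : ℝ, 0 < L0 ∧ ∀ L : ℝ, L0 ≤ L →
      A * (B * L + 1) * ((lam + C / (θ * L)) * (kp * (e * L + l2) + C)) ≤ R * L ^ 2 := by
  have hc : Continuous fun u : ℝ =>
      A * (B + u) * ((lam + C / θ * u) * (kp * (e + l2 * u) + C * u)) := by fun_prop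
  have h0 : (fun u : ℝ => A * (B + u) * ((lam + C / θ * u) * (kp * (e + l2 * u) + C * u))) 0
      < R := by
    simp only [mul_zero, add_zero]
    linarith
  have hev : ∀ᶠ u in 𝓝 (0 : ℝ),
      A * (B + u) * ((lam + C / θ * u) * (kp * (e + l2 * u) + C * u)) < R :=
    hc.continuousAt.eventually_lt continuousAt_const h0
  obtain ⟨δ, hδ, hb⟩ := Metric.eventually_nhds_iff.1 hev
  refine ⟨2 / δ, by positivity, ?_⟩
  intro L hL
  have hL0 : 0 < L := lt_of_lt_of_le (by positivity) hL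
  have h1 := hb (y := 1 / L) (by
    rw [Real.dist_eq, sub_zero, abs_of_pos (by positivity), div_lt_iff₀ hL0]
    rw [div_le_iff₀ hδ] at hL
    linarith)
  have h2 : A * (B * L + 1) * ((lam + C / (θ * L)) * (kp * (e * L + l2) + C)) =
      A * (B + 1 / L) * ((lam + C / θ * (1 / L)) * (kp * (e + l2 * (1 / L)) + C * (1 / L)))
        * L ^ 2 := by
    field_simp
  rw [h2]
  exact mul_le_mul_of_nonneg_right h1.le (by positivity)

private lemma PairB_fib (a b : ℝ) (S : Finset (ℕ × ℕ)) (N : Finset ℕ) (F : ℕ × ℕ → ℕ)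
    (hN : ∀ s ∈ S, F s ∈ N)
    (hF : ∀ s ∈ S, F s * s.1 = s.2 - 1 ∧ 2 ≤ s.2 ∧ s.2.Prime ∧ a < s.2 ∧ (s.2 : ℝ) ≤ b)
    (ha : 0 ≤ a) :
    ∑ s ∈ S, Real.log s.2 / s.2 ≤ ∑ n ∈ N,
      ∑ p ∈ (Ioc ⌊a⌋₊ ⌊b⌋₊).filter (fun p => p.Prime ∧ p ≡ 1 [MOD n]), Real.log p / p := by
  classical
  rw [← Finset.sum_fiberwise_of_maps_to hN]
  refine Finset.sum_le_sum fun n _ => ?_
  have hinj : Set.InjOn (fun s : ℕ × ℕ => s.2) (S.filter fun s => F s = n : Finset (ℕ × ℕ)) := by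
    intro s hs t ht hst
    rw [Finset.mem_coe, Finset.mem_filter] at hs ht
    obtain ⟨hs1, hs2⟩ := hs
    obtain ⟨ht1, ht2⟩ := ht
    obtain ⟨h1, h2, _⟩ := hF s hs1
    obtain ⟨h3, h4, _⟩ := hF t ht1
    rw [hs2] at h1
    rw [ht2] at h3
    have hst' : s.2 = t.2 := hst
    have h5 : n * s.1 = n * t.1 := by rw [h1, h3, hst']
    have hn : 0 < n := by
      rcases Nat.eq_zero_or_pos n with h | h
      · rw [h, zero_mul] at h1
        omega
      · exact h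
    exact Prod.ext (Nat.eq_of_mul_eq_mul_left hn h5) hst'
  rw [← Finset.sum_image (f := fun p : ℕ => Real.log p / p) hinj]
  refine Finset.sum_le_sum_of_subset_of_nonneg ?_ ?_
  · intro p hp
    rw [Finset.mem_image] at hp
    obtain ⟨s, hs, rfl⟩ := hp
    rw [Finset.mem_filter] at hs
    obtain ⟨hs1, hs2⟩ := hs
    obtain ⟨h1, h2, h3, h4, h5⟩ := hF s hs1
    rw [Finset.mem_filter, Finset.mem_Ioc]
    refine ⟨⟨(Nat.floor_lt ha).2 h4, Nat.le_floor h5⟩, h3, ?_⟩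
    refine ((Nat.modEq_iff_dvd' (by omega)).2 ?_).symm
    rw [← h1, hs2]
    exact dvd_mul_right _ _
  · intro p _ _
    exact div_nonneg (Real.log_natCast_nonneg p) (Nat.cast_nonneg p)

theorem pairB (h1 : BTw) (h2 : PhiSums) : PairB := by
  obtain ⟨K, hK, hBT⟩ := h1
  obtain ⟨C, hC, hbig⟩ := h2.big
  have hkap : (1 : ℝ) ≤ kap := h2.pos
  intro ρ hρ
  set lam0 : ℝ := Real.log (5000 / 4095) with hlam0
  have hlam0pos : 0 < lam0 := Real.log_pos (by norm_num)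
  obtain ⟨ε₀, hε₀, hε₀1, hε⟩ := PairB_eps K lam0 ρ hρ
  refine ⟨ε₀, hε₀, ?_⟩
  intro ε he hee ε' he' hee' g hg hg1
  have hes : ε ≤ 1 / 100 := hee.trans hε₀1
  have hε2 : ε ^ 2 ≤ ε := by nlinarith
  have hε'ε : ε' ≤ ε := hee'.trans hε2
  obtain ⟨z1, hz13, hz1⟩ := hBT ε he hes
  set lam : ℝ := Real.log ((1 / 2 + 2 * ε) / (4095 / 10000)) with hlam
  have hlamle : lam ≤ lam0 + 4 * ε := by
    have e1 : ((1 : ℝ) / 2 + 2 * ε) / (4095 / 10000) = (5000 / 4095) * (1 + 4 * ε) := by ring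
    rw [hlam, e1, Real.log_mul (by norm_num) (by positivity)]
    have := Real.log_le_sub_one_of_pos (x := 1 + 4 * ε) (by positivity)
    linarith
  have hlampos : 0 ≤ lam := by
    apply Real.log_nonneg
    rw [le_div_iff₀ (by norm_num)]
    linarith
  have hlim : (4 + K * ε) * ε' * lam * (kap * (ε + ε')) < (4 * lam0 + ρ) * kap * ε * ε' := by
    have h3 := hε ε he hee
    have hA : 0 < 4 + K * ε := by positivity
    have h4 : (4 + K * ε) * ε' * lam * (kap * (ε + ε')) ≤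
        (4 + K * ε) * ε' * (lam0 + 4 * ε) * (kap * (ε * (1 + ε))) := by
      have h5 : ε + ε' ≤ ε * (1 + ε) := by nlinarith
      have h6 : kap * (ε + ε') ≤ kap * (ε * (1 + ε)) :=
        mul_le_mul_of_nonneg_left h5 (by linarith)
      have h7 : (4 + K * ε) * ε' * lam ≤ (4 + K * ε) * ε' * (lam0 + 4 * ε) :=
        mul_le_mul_of_nonneg_left hlamle (by positivity)
      exact mul_le_mul h7 h6 (by positivity) (by positivity)
    have h8 : (4 + K * ε) * ε' * (lam0 + 4 * ε) * (kap * (ε * (1 + ε))) =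
        ((4 + K * ε) * (lam0 + 4 * ε) * (1 + ε)) * (kap * ε * ε') := by ring
    have h9 : 0 < kap * ε * ε' := by positivity
    calc _ ≤ _ := h4
      _ = _ := h8
      _ < (4 * lam0 + ρ) * (kap * ε * ε') := mul_lt_mul_of_pos_right h3 h9
      _ = _ := by ring
  obtain ⟨L0, hL0, hL⟩ := PairB_lim (4 + K * ε) ε' ((4 * lam0 + ρ) * kap * ε * ε') lam C
    (4095 / 10000) kap (ε + ε') (Real.log 2) (by norm_num) hlim
  refine ⟨max (max z1 3) (Real.exp (max L0 10)), le_max_of_le_left (le_max_right _ _), ?_⟩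
  intro z hz S hS
  have hz1z : z1 ≤ z := (le_max_left _ _).trans ((le_max_left _ _).trans hz)
  have hz3 : 3 ≤ z := (le_max_right _ _).trans ((le_max_left _ _).trans hz)
  have hz0 : 0 < z := by linarith
  have hz1' : 1 ≤ z := by linarith
  have hexp : Real.exp (max L0 10) ≤ z := (le_max_right _ _).trans hz
  set L : ℝ := Real.log z with hLdef
  have hLmax : max L0 10 ≤ L := by
    rw [hLdef]
    exact (Real.le_log_iff_exp_le hz0).2 hexp
  have hLL0 : L0 ≤ L := (le_max_left _ _).trans hLmax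
  have hL10 : 10 ≤ L := (le_max_right _ _).trans hLmax
  have hLpos : 0 < L := by linarith
  -- the relevant pairs
  classical
  set S' : Finset (ℕ × ℕ) := S.filter fun s => wt g z s.2 ≠ 0 with hS'
  set F : ℕ × ℕ → ℕ := fun s => (s.2 - 1) / s.1 with hFdef
  have hw0 : ∀ p : ℕ, p.Prime → wt g z p ≠ 0 → z ^ (1 - ε') < (p : ℝ) := by
    intro p hp hw
    have hgp : g (Real.log p / Real.log z) ≠ 0 := by
      intro h
      apply hw
      rw [wt, h, zero_div]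
    have hmem := hg.supp (subset_tsupport g (Function.mem_support.2 hgp))
    have h3 : 1 - ε' < Real.log p / L := hmem.1
    rw [lt_div_iff₀ hLpos] at h3
    have hp0 : (0 : ℝ) < p := by exact_mod_cast hp.pos
    rw [Real.rpow_def_of_pos hz0, ← Real.lt_log_iff_exp_lt hp0]
    rw [← hLdef]
    linarith
  have hprops : ∀ s ∈ S', F s * s.1 = s.2 - 1 ∧ 2 ≤ s.2 ∧ s.2.Prime ∧
      z ^ (1 - ε') < (s.2 : ℝ) ∧ (s.2 : ℝ) ≤ z := by
    intro s hs
    rw [hS', Finset.mem_filter] at hs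
    obtain ⟨hsS, hsw⟩ := hs
    obtain ⟨hp, hpz, hm1, hm2, q, hq, hqz, hdvd⟩ := hS s hsS
    refine ⟨Nat.div_mul_cancel ((dvd_mul_left _ _).trans hdvd), hp.two_le, hp,
      hw0 _ hp hsw, hpz⟩
  have hn : ∀ s ∈ S', z ^ (1 / 2 + ε - ε') / 2 < (F s : ℝ) ∧
      (F s : ℝ) ≤ z ^ (1 / 2 + 2 * ε) ∧
      ∃ q : ℕ, q.Prime ∧ z ^ (4095 / 10000 : ℝ) < q ∧ (q : ℝ) ≤ z ^ (1 / 2 + 2 * ε) ∧
        q ∣ F s := by
    intro s hs
    obtain ⟨h3, h4, h5, h6, h7⟩ := hprops s hs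
    rw [hS', Finset.mem_filter] at hs
    obtain ⟨hsS, hsw⟩ := hs
    obtain ⟨hp, hpz, hm1, hm2, q, hq, hqz, hdvd⟩ := hS s hsS
    have hp2 : (2 : ℝ) ≤ s.2 := by exact_mod_cast h4
    have h8 : (F s : ℝ) * (s.1 : ℝ) = (s.2 : ℝ) - 1 := by
      have : ((F s * s.1 : ℕ) : ℝ) = ((s.2 - 1 : ℕ) : ℝ) := by rw [h3]
      rw [Nat.cast_mul, Nat.cast_sub (by omega), Nat.cast_one] at this
      exact this
    have hmpos : (0 : ℝ) < s.1 := lt_trans (by positivity) hm1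
    have hmposN : 0 < s.1 := by exact_mod_cast hmpos
    have hFpos : 0 < F s := by
      rcases Nat.eq_zero_or_pos (F s) with h | h
      · rw [h, zero_mul] at h3
        omega
      · exact h
    have hup : (F s : ℝ) ≤ z ^ (1 / 2 + 2 * ε) := by
      by_contra hcon
      rw [not_le] at hcon
      have h9 : z ^ (1 / 2 + 2 * ε) * z ^ (1 / 2 - 2 * ε) < (F s : ℝ) * s.1 :=
        mul_lt_mul'' hcon hm1 (by positivity) (by positivity)
      rw [← Real.rpow_add hz0] at h9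
      have e1 : (1 / 2 + 2 * ε) + (1 / 2 - 2 * ε) = (1 : ℝ) := by ring
      rw [e1, Real.rpow_one] at h9
      linarith
    refine ⟨?_, hup, q, hq, hqz, ?_, ?_⟩
    · by_contra hcon
      rw [not_lt] at hcon
      have h9 : (F s : ℝ) * s.1 ≤ z ^ (1 / 2 + ε - ε') / 2 * z ^ (1 / 2 - ε) :=
        mul_le_mul hcon hm2 (by positivity) (by positivity)
      have e1 : z ^ (1 / 2 + ε - ε') / 2 * z ^ (1 / 2 - ε) = z ^ (1 - ε') / 2 := by
        have e2 : (1 - ε' : ℝ) = (1 / 2 + ε - ε') + (1 / 2 - ε) := by ring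
        rw [e2, Real.rpow_add hz0]
        ring
      rw [e1] at h9
      linarith
    · have hqn : q ∣ F s := by
        apply Nat.dvd_of_mul_dvd_mul_right hmposN
        rw [h3]
        exact hdvd
      exact le_trans (by exact_mod_cast Nat.le_of_dvd hFpos hqn) hup
    · apply Nat.dvd_of_mul_dvd_mul_right hmposN
      rw [h3]
      exact hdvd
  -- the sum over the pairs
  have hsum1 : ∑ s ∈ S, Real.log s.2 * wt g z s.2 ≤ ∑ s ∈ S', Real.log s.2 / s.2 := by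
    have h3 : ∑ s ∈ S, Real.log s.2 * wt g z s.2 = ∑ s ∈ S', Real.log s.2 * wt g z s.2 := by
      rw [hS', Finset.sum_filter]
      refine Finset.sum_congr rfl fun s _ => ?_
      by_cases h : wt g z s.2 = 0
      · rw [if_neg (not_not.mpr h), h, mul_zero]
      · rw [if_pos h]
    rw [h3]
    refine Finset.sum_le_sum fun s _ => ?_
    have h4 : wt g z s.2 ≤ 1 / s.2 := by
      rw [wt]
      exact div_le_div_of_nonneg_right (hg1 _) (Nat.cast_nonneg _)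
    calc Real.log s.2 * wt g z s.2 ≤ Real.log s.2 * (1 / s.2) :=
          mul_le_mul_of_nonneg_left h4 (Real.log_natCast_nonneg _)
      _ = Real.log s.2 / s.2 := by ring
  set N : Finset ℕ := S'.image F with hNdef
  have hN : ∀ s ∈ S', F s ∈ N := fun s hs => Finset.mem_image_of_mem F hs
  have hNn : ∀ n ∈ N, z ^ (1 / 2 + ε - ε') / 2 < (n : ℝ) ∧ (n : ℝ) ≤ z ^ (1 / 2 + 2 * ε) ∧
      ∃ q : ℕ, q.Prime ∧ z ^ (4095 / 10000 : ℝ) < q ∧ (q : ℝ) ≤ z ^ (1 / 2 + 2 * ε) ∧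
        q ∣ n := by
    intro n hnN
    rw [hNdef, Finset.mem_image] at hnN
    obtain ⟨s, hs, rfl⟩ := hnN
    exact hn s hs
  have hsum2 := PairB_fib (z ^ (1 - ε')) z S' N F hN hprops (by positivity)
  have hle1 : z ^ (1 - ε) ≤ z ^ (1 - ε') := Real.rpow_le_rpow_of_exponent_le hz1' (by linarith)
  have hle2 : z ^ (1 - ε') ≤ z := by
    conv_rhs => rw [← Real.rpow_one z]
    exact Real.rpow_le_rpow_of_exponent_le hz1' (by linarith)
  have hlog1 : Real.log (z / z ^ (1 - ε')) = ε' * L := by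
    rw [Real.log_div (by positivity) (by positivity), Real.log_rpow hz0, ← hLdef]
    ring
  have hsum3 : ∑ n ∈ N, ∑ p ∈ (Ioc ⌊z ^ (1 - ε')⌋₊ ⌊z⌋₊).filter
      (fun p => p.Prime ∧ p ≡ 1 [MOD n]), Real.log p / p ≤
      (4 + K * ε) * (ε' * L + 1) * ∑ n ∈ N, (1 : ℝ) / n.totient := by
    rw [Finset.mul_sum]
    refine Finset.sum_le_sum fun n hnN => ?_
    obtain ⟨h3, h4, _⟩ := hNn n hnN
    have hn1 : 1 ≤ n := by
      have : (0 : ℝ) < n := lt_trans (by positivity) h3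
      exact_mod_cast this
    have h5 := hz1 z hz1z n (z ^ (1 - ε')) z hn1 h4 hle1 hle2 le_rfl
    rw [hlog1] at h5
    refine h5.trans (le_of_eq ?_)
    ring
  have hlogP1 : Real.log (z ^ (4095 / 10000 : ℝ)) = 4095 / 10000 * L := by
    rw [Real.log_rpow hz0, ← hLdef]
  have hlogP2 : Real.log (z ^ (1 / 2 + 2 * ε)) = (1 / 2 + 2 * ε) * L := by
    rw [Real.log_rpow hz0, ← hLdef]
  have hP1 : (2 : ℝ) ≤ z ^ (4095 / 10000 : ℝ) := by
    rw [Real.rpow_def_of_pos hz0, ← hLdef]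
    have := Real.add_one_le_exp (L * (4095 / 10000))
    linarith
  have hP12 : z ^ (4095 / 10000 : ℝ) ≤ z ^ (1 / 2 + 2 * ε) :=
    Real.rpow_le_rpow_of_exponent_le hz1' (by linarith)
  have hab : z ^ (1 / 2 + ε - ε') / 2 ≤ z ^ (1 / 2 + 2 * ε) := by
    have h3 : z ^ (1 / 2 + ε - ε') ≤ z ^ (1 / 2 + 2 * ε) :=
      Real.rpow_le_rpow_of_exponent_le hz1' (by linarith)
    have h4 : 0 ≤ z ^ (1 / 2 + ε - ε') := by positivity
    linarith
  have hsum4 := hbig (z ^ (1 / 2 + ε - ε') / 2) (z ^ (1 / 2 + 2 * ε)) (z ^ (4095 / 10000 : ℝ))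
    (z ^ (1 / 2 + 2 * ε)) (by positivity) hab hP1 hP12 N hNn
  have hlogba : Real.log (z ^ (1 / 2 + 2 * ε) / (z ^ (1 / 2 + ε - ε') / 2)) =
      (ε + ε') * L + Real.log 2 := by
    rw [Real.log_div (by positivity) (by positivity), Real.log_div (by positivity) (by norm_num),
      hlogP2, Real.log_rpow hz0, ← hLdef]
    ring
  have hratio : (1 / 2 + 2 * ε) * L / (4095 / 10000 * L) = (1 / 2 + 2 * ε) / (4095 / 10000) :=
    mul_div_mul_right _ _ hLpos.ne'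
  rw [hlogP1, hlogP2, hlogba, hratio, ← hlam] at hsum4
  have hA : 0 ≤ (4 + K * ε) * (ε' * L + 1) := by positivity
  calc ∑ s ∈ S, Real.log s.2 * wt g z s.2 ≤ ∑ s ∈ S', Real.log s.2 / s.2 := hsum1
    _ ≤ _ := hsum2
    _ ≤ (4 + K * ε) * (ε' * L + 1) * ∑ n ∈ N, (1 : ℝ) / n.totient := hsum3
    _ ≤ (4 + K * ε) * (ε' * L + 1) * ((lam + C / (4095 / 10000 * L)) *
          (kap * ((ε + ε') * L + Real.log 2) + C)) := mul_le_mul_of_nonneg_left hsum4 hA
    _ ≤ (4 * lam0 + ρ) * kap * ε * ε' * L ^ 2 := hL L hLL0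
    _ = (4 * lam0 + ρ) * kap * ε * L * (ε' * L) := by ring

end Pool.Agent.Helper34.CA
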