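import Pool.Agent.Helper34.CA.St

/-!
# Project CA (MP_87fff7_nt), module PairsLB

D5. `PairsLB`. `ρ = 1/10000`, `L = log(5000/4095) ≤ 0.1997` (numerical bound), `ε = min` of the
two `ε₀` and `1/100`, `g` from `GoodWt ε' ρ`. The pairs `(m, n)` counted in `PairA` with `n` a proper
prime power contribute `≤ ∑_{n=p^k > z^{1-ε'}} (log z/n) z^{1/2-ε} ≤ 1` for `z` large (at most
`z^{1/2-ε}` values `m`); those with `n = p` prime and `(p-1)/m` not smooth are bounded by `PairB`.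
The rest is `≥ [(1-L-ρ)(1-ρ) - (4L+ρ)] kap ε ε' log² z - 2 ≥ 1` for `z` large, since
`1 - 5L ≥ 0.0015`. If `m` and `(p-1)/m` are smooth, so is `p - 1`; `log p · wt(p) ≤ log p/p`.
-/

set_option autoImplicit false

open Finset Filter Topology
open scoped ArithmeticFunction.vonMangoldt

namespace Pool.Agent.Helper34.CA

open Pool.Agent.Helper18.BV

/-! ### The constant `kap` -/

private theorem PairsLB_prod_le (s : Finset ℕ) (hs : ∀ p ∈ s, p.Prime ∧ p ≠ 2) :
    ∏ p ∈ s, p ≤ (∏ p ∈ s, (p - 1)) ^ 2 := by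
  rw [← Finset.prod_pow]
  refine Finset.prod_le_prod' fun p hp => ?_
  have h2 := (hs p hp).1.two_le
  have h3 := (hs p hp).2
  obtain ⟨k, rfl⟩ : ∃ k, p = k + 3 := ⟨p - 3, by omega⟩
  show k + 3 ≤ (k + 2) ^ 2
  nlinarith

private theorem PairsLB_prod_le' (s : Finset ℕ) (hs : ∀ p ∈ s, p.Prime) :
    ∏ p ∈ s, p ≤ 2 * (∏ p ∈ s, (p - 1)) ^ 2 := by
  by_cases h2 : 2 ∈ s
  · rw [← Finset.mul_prod_erase s (fun p => p) h2, ← Finset.mul_prod_erase s (fun p => p - 1) h2]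
    have h := PairsLB_prod_le (s.erase 2) fun p hp =>
      ⟨hs p (Finset.mem_of_mem_erase hp), Finset.ne_of_mem_erase hp⟩
    simpa using h
  · have h := PairsLB_prod_le s fun p hp => ⟨hs p hp, fun h => h2 (h ▸ hp)⟩
    omega

private theorem PairsLB_totient_sq {d : ℕ} (hd : Squarefree d) : d ≤ 2 * d.totient ^ 2 := by
  have h0 : 0 < d := Nat.pos_of_ne_zero hd.ne_zero
  have h1 := Nat.totient_mul_prod_primeFactors d
  rw [Nat.prod_primeFactors_of_squarefree hd, mul_comm] at h1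
  have h2 : d.totient = ∏ p ∈ d.primeFactors, (p - 1) := Nat.eq_of_mul_eq_mul_left h0 h1
  have h3 := PairsLB_prod_le' d.primeFactors fun p hp => Nat.prime_of_mem_primeFactors hp
  rwa [Nat.prod_primeFactors_of_squarefree hd, ← h2] at h3

private theorem PairsLB_kap_summable :
    Summable (fun d : ℕ => if Squarefree d then (1 : ℝ) / (d * d.totient) else 0) := by
  have h1 : Summable (fun d : ℕ => √2 * (1 / (d : ℝ) ^ (3 / 2 : ℝ))) :=
    (Real.summable_one_div_nat_rpow.2 (by norm_num)).mul_left _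
  refine Summable.of_nonneg_of_le (fun d => ?_) (fun d => ?_) h1
  · split_ifs
    · positivity
    · exact le_rfl
  · split_ifs with hd
    · have h0 : 0 < d := Nat.pos_of_ne_zero hd.ne_zero
      have hd0 : (0 : ℝ) < d := by exact_mod_cast h0
      have ht0 : (0 : ℝ) < d.totient := by exact_mod_cast Nat.totient_pos.2 h0
      have h2 : (d : ℝ) ≤ 2 * (d.totient : ℝ) ^ 2 := by exact_mod_cast PairsLB_totient_sq hd
      have h3 : √(d : ℝ) ≤ √2 * d.totient := by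
        apply Real.sqrt_le_iff.2
        refine ⟨by positivity, ?_⟩
        rw [mul_pow, Real.sq_sqrt (by norm_num)]
        exact h2
      have h4 : (d : ℝ) ^ (3 / 2 : ℝ) = d * √(d : ℝ) := by
        rw [Real.sqrt_eq_rpow]
        nth_rewrite 2 [← Real.rpow_one (d : ℝ)]
        rw [← Real.rpow_add hd0]
        norm_num
      have hs0 : 0 < √(d : ℝ) := Real.sqrt_pos.2 hd0
      rw [h4, mul_one_div, div_le_div_iff₀ (by positivity) (by positivity)]
      calc 1 * ((d : ℝ) * √(d : ℝ)) = d * √(d : ℝ) := one_mul _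
        _ ≤ d * (√2 * d.totient) := mul_le_mul_of_nonneg_left h3 hd0.le
        _ = √2 * (d * d.totient) := by ring
    · positivity

private theorem PairsLB_kap_ge : 1 ≤ kap := by
  unfold kap
  have h := PairsLB_kap_summable.le_tsum 1 (fun j _ => by
    split_ifs
    · positivity
    · exact le_rfl)
  simpa using h

/-! ### Numerical facts -/

private theorem PairsLB_log_le : Real.log (5000 / 4095) ≤ 1997 / 10000 := by
  rw [Real.log_le_iff_le_exp (by norm_num)]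
  have h := Real.sum_le_exp_of_nonneg (x := 1997 / 10000) (by norm_num) 5
  refine le_trans ?_ h
  norm_num [Finset.sum_range_succ, Nat.factorial]

/-! ### The weights -/

private theorem PairsLB_wt_nonneg {σ : ℝ} {g : ℝ → ℝ} (hg : IsWtS σ g) (z : ℝ) (n : ℕ) :
    0 ≤ wt g z n := div_nonneg (hg.nonneg _) (Nat.cast_nonneg _)

private theorem PairsLB_wt_le {g : ℝ → ℝ} (hg1 : ∀ v, g v ≤ 1) (z : ℝ) (n : ℕ) :
    wt g z n ≤ 1 / n := by
  unfold wt
  exact div_le_div_of_nonneg_right (hg1 _) (Nat.cast_nonneg _)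

private theorem PairsLB_wt_zero {ε' : ℝ} {g : ℝ → ℝ} (hg : IsWtS (1 - ε') g) {z : ℝ}
    (hz : 1 < z) {n : ℕ} (hn : (n : ℝ) ≤ z ^ (1 - ε')) : wt g z n = 0 := by
  rcases Nat.eq_zero_or_pos n with rfl | hn0
  · simp [wt]
  have hn' : (0:ℝ) < n := by exact_mod_cast hn0
  have hlog : 0 < Real.log z := Real.log_pos hz
  have h1 : Real.log n ≤ (1 - ε') * Real.log z := by
    rw [← Real.log_rpow (by linarith)]
    exact Real.log_le_log hn' hn
  have h2 : Real.log n / Real.log z ≤ 1 - ε' := by rwa [div_le_iff₀ hlog]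
  have : g (Real.log n / Real.log z) = 0 := by
    by_contra hne
    exact absurd (hg.supp (subset_tsupport g (Function.mem_support.2 hne))).1 (not_lt.2 h2)
  rw [wt, this, zero_div]

private theorem PairsLB_wt_le' {ε' : ℝ} {g : ℝ → ℝ} (hg : IsWtS (1 - ε') g)
    (hg1 : ∀ v, g v ≤ 1) {z : ℝ} (hz : 1 < z) (n : ℕ) : wt g z n ≤ z ^ (-(1 - ε')) := by
  have hz0 : 0 < z := by linarith
  by_cases hn : (n : ℝ) ≤ z ^ (1 - ε')
  · rw [PairsLB_wt_zero hg hz hn]
    exact (Real.rpow_pos_of_pos hz0 _).le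
  · rw [not_le] at hn
    refine (PairsLB_wt_le hg1 z n).trans ?_
    rw [Real.rpow_neg hz0.le, ← one_div]
    exact one_div_le_one_div_of_le (Real.rpow_pos_of_pos hz0 _) hn.le

/-- the contribution of the non-primes -/
private theorem PairsLB_nonprime {ε' : ℝ} {g : ℝ → ℝ} (hg : IsWtS (1 - ε') g)
    (hg1 : ∀ v, g v ≤ 1) {z : ℝ} (hz : 1 < z) (T : Finset ℕ)
    (hT : T ⊆ (Ioc 0 ⌊z⌋₊).filter fun n => ¬ n.Prime) :
    ∑ n ∈ T, Λ n * wt g z n ≤ z ^ (-(1 - ε')) * (2 * √z * Real.log z) := by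
  have hz0 : 0 < z := by linarith
  calc ∑ n ∈ T, Λ n * wt g z n
      ≤ ∑ n ∈ (Ioc 0 ⌊z⌋₊).filter (fun n => ¬ n.Prime), Λ n * wt g z n :=
        Finset.sum_le_sum_of_subset_of_nonneg hT fun n _ _ =>
          mul_nonneg ArithmeticFunction.vonMangoldt_nonneg (PairsLB_wt_nonneg hg z n)
    _ ≤ ∑ n ∈ (Ioc 0 ⌊z⌋₊).filter (fun n => ¬ n.Prime), Λ n * z ^ (-(1 - ε')) :=
        Finset.sum_le_sum fun n _ =>
          mul_le_mul_of_nonneg_left (PairsLB_wt_le' hg hg1 hz n)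
            ArithmeticFunction.vonMangoldt_nonneg
    _ = z ^ (-(1 - ε')) * (Chebyshev.psi z - Chebyshev.theta z) := by
        rw [Chebyshev.psi_sub_theta_eq_sum_not_prime, ← Finset.sum_mul, mul_comm]
    _ ≤ z ^ (-(1 - ε')) * (2 * √z * Real.log z) :=
        mul_le_mul_of_nonneg_left
          ((le_abs_self _).trans (Chebyshev.abs_psi_sub_theta_le_sqrt_mul_log hz.le))
          (Real.rpow_pos_of_pos hz0 _).le

/-- the number of `m`, times the contribution of the non-primes -/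
private theorem PairsLB_np_total {ε ε' z : ℝ} (hz : 1 < z)
    (hE : 2 * Real.log z ≤ z ^ (ε - ε')) :
    z ^ (1 / 2 - ε) * (z ^ (-(1 - ε')) * (2 * √z * Real.log z)) ≤ 1 := by
  have hz0 : 0 < z := by linarith
  have h1 : z ^ (1 / 2 - ε) * (z ^ (-(1 - ε')) * (2 * √z * Real.log z)) =
      z ^ (-(ε - ε')) * (2 * Real.log z) := by
    rw [Real.sqrt_eq_rpow]
    have h2 : z ^ (-(ε - ε')) = z ^ (1 / 2 - ε) * z ^ (-(1 - ε')) * z ^ (1 / 2 : ℝ) := by
      rw [← Real.rpow_add hz0, ← Real.rpow_add hz0]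
      congr 1
      ring
    rw [h2]
    ring
  rw [h1, Real.rpow_neg hz0.le]
  have h3 : 0 < z ^ (ε - ε') := Real.rpow_pos_of_pos hz0 _
  rw [inv_mul_le_iff₀ h3, mul_one]
  exact hE

/-- the final computation -/
private theorem PairsLB_final {L K ε ε' ρ l T A B S : ℝ} (hL : L ≤ 1997 / 10000)
    (hρ : ρ = 1 / 10000) (hK : 0 ≤ K) (hε : 0 < ε) (hl : 0 ≤ l)
    (hT : (1 - ρ) * ε' * l ≤ T)
    (hA : (1 - L - ρ) * K * ε * l * T - 1 ≤ A) (hN : A ≤ 1 + B + S)
    (hB : B ≤ (4 * L + ρ) * K * ε * l * (ε' * l)) (hε' : 0 < ε')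
    (hbig : 3 ≤ K * ε * ε' / 1000 * l ^ 2) : 1 ≤ S := by
  subst hρ
  have h1 : (1 - L - 1 / 10000) * K * ε * l * ((1 - 1 / 10000) * ε' * l) ≤
      (1 - L - 1 / 10000) * K * ε * l * T := by
    apply mul_le_mul_of_nonneg_left hT
    have : 0 ≤ 1 - L - 1 / 10000 := by linarith
    positivity
  have h2 : (K * ε * ε' * l ^ 2) * (1 / 1000) ≤ (K * ε * ε' * l ^ 2) *
      ((1 - L - 1 / 10000) * (1 - 1 / 10000) - (4 * L + 1 / 10000)) := by
    apply mul_le_mul_of_nonneg_left _ (by positivity)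
    nlinarith
  nlinarith

theorem pairsLB (h1 : PairA) (h2 : PairB) (h3 : GoodWt) : PairsLB := by
  classical
  obtain ⟨εA, hεA, hA⟩ := h1 (1 / 10000) (by norm_num)
  obtain ⟨εB, hεB, hB⟩ := h2 (1 / 10000) (by norm_num)
  set ε : ℝ := min (min εA εB) (1 / 100) with hεdef
  have hε : 0 < ε := lt_min (lt_min hεA hεB) (by norm_num)
  have hεa : ε ≤ εA := (min_le_left _ _).trans (min_le_left _ _)
  have hεb : ε ≤ εB := (min_le_left _ _).trans (min_le_right _ _)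
  have hε1 : ε ≤ 1 / 100 := min_le_right _ _
  refine ⟨ε, hε, hε1, fun ε' hε' hεε' => ?_⟩
  have hlt : ε' < ε := by nlinarith
  obtain ⟨g, hg, hg1, XG, hXG, hG⟩ := h3 ε' (1 / 10000) hε' (by nlinarith) (by norm_num)
    (by norm_num)
  obtain ⟨zA, hzA, hA⟩ := hA ε hε hεa ε' hε' hεε' g hg hg1
  obtain ⟨zB, hzB, hB⟩ := hB ε hε hεb ε' hε' hεε' g hg hg1
  have hkap : 0 < kap := lt_of_lt_of_le one_pos PairsLB_kap_ge
  have hev1 : ∀ᶠ z : ℝ in atTop, 2 * Real.log z ≤ z ^ (ε - ε') := by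
    have h := (isLittleO_log_rpow_atTop (r := ε - ε') (by linarith)).bound
      (show (0:ℝ) < 1 / 2 by norm_num)
    filter_upwards [h, eventually_gt_atTop (1:ℝ)] with z hz hz1
    rw [Real.norm_eq_abs, Real.norm_eq_abs,
      abs_of_nonneg (Real.rpow_pos_of_pos (by linarith) _).le] at hz
    have := (le_abs_self _).trans hz
    linarith
  have hev2 : ∀ᶠ z : ℝ in atTop, 3 ≤ kap * ε * ε' / 1000 * Real.log z ^ 2 := by
    have hc : 0 < kap * ε * ε' / 1000 := by positivity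
    have h := ((tendsto_pow_atTop (two_ne_zero)).comp Real.tendsto_log_atTop).const_mul_atTop hc
    exact h.eventually_ge_atTop 3
  obtain ⟨z1, hz1⟩ := eventually_atTop.1 (hev1.and hev2)
  refine ⟨max (max zA zB) (max XG z1), (hzA.trans (le_max_left _ _)).trans (le_max_left _ _),
    fun z hz S hS => ?_⟩
  have hza : zA ≤ z := ((le_max_left _ _).trans (le_max_left _ _)).trans hz
  have hzb : zB ≤ z := ((le_max_right _ _).trans (le_max_left _ _)).trans hz
  have hzg : XG ≤ z := ((le_max_left _ _).trans (le_max_right _ _)).trans hz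
  have hzz1 : z1 ≤ z := ((le_max_right _ _).trans (le_max_right _ _)).trans hz
  obtain ⟨hE1, hE2⟩ := hz1 z hzz1
  have hz3 : 3 ≤ z := hzA.trans hza
  have hz1' : 1 < z := by linarith
  have hz0 : 0 < z := by linarith
  have hlog : 0 ≤ Real.log z := Real.log_nonneg hz1'.le
  -- the smooth `m`
  set SA : Finset ℕ := (Icc 1 ⌊z ^ (1 / 2 - ε)⌋₊).filter (fun m =>
    z ^ (1 / 2 - 2 * ε) < m ∧ ∀ q : ℕ, q.Prime → q ∣ m → (q : ℝ) ≤ z ^ (4095 / 10000 : ℝ))
    with hSA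
  have hSAm : ∀ m, m ∈ SA ↔ (z ^ (1 / 2 - 2 * ε) < m ∧ (m : ℝ) ≤ z ^ (1 / 2 - ε) ∧
      ∀ q : ℕ, q.Prime → q ∣ m → (q : ℝ) ≤ z ^ (4095 / 10000 : ℝ)) := by
    intro m
    rw [hSA, mem_filter, mem_Icc, Nat.le_floor_iff (Real.rpow_pos_of_pos hz0 _).le]
    constructor
    · rintro ⟨⟨_, h2⟩, h3, h4⟩
      exact ⟨h3, h2, h4⟩
    · rintro ⟨h3, h2, h4⟩
      have hm0 : (0:ℝ) < m := (Real.rpow_pos_of_pos hz0 _).trans h3
      exact ⟨⟨by exact_mod_cast hm0, h2⟩, h3, h4⟩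
  have hA' := hA z hza SA hSAm
  have hG' := hG z hzg
  have hcard : ((SA.card : ℕ) : ℝ) ≤ z ^ (1 / 2 - ε) := by
    have h1 : SA.card ≤ ⌊z ^ (1 / 2 - ε)⌋₊ := by
      calc SA.card ≤ (Icc 1 ⌊z ^ (1 / 2 - ε)⌋₊).card := card_filter_le _ _
        _ = ⌊z ^ (1 / 2 - ε)⌋₊ := by rw [Nat.card_Icc]; omega
    calc ((SA.card : ℕ) : ℝ) ≤ (⌊z ^ (1 / 2 - ε)⌋₊ : ℝ) := by exact_mod_cast h1
      _ ≤ z ^ (1 / 2 - ε) := Nat.floor_le (Real.rpow_pos_of_pos hz0 _).le
  -- the pairs with a prime second component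
  set Q : Finset (ℕ × ℕ) := (SA ×ˢ Icc 1 ⌊z⌋₊).filter (fun s => s.2 ≡ 1 [MOD s.1] ∧ s.2.Prime)
    with hQ
  have hQm : ∀ s ∈ Q, s.1 ∈ SA ∧ (s.2 : ℝ) ≤ z ∧ s.1 ∣ s.2 - 1 ∧ s.2.Prime := by
    intro s hs
    rw [hQ, mem_filter, mem_product, mem_Icc] at hs
    refine ⟨hs.1.1, (Nat.le_floor_iff hz0.le).1 hs.1.2.2, ?_, hs.2.2⟩
    exact (Nat.modEq_iff_dvd' hs.1.2.1).1 hs.2.1.symm
  have hsplit : ∑ m ∈ SA, ∑ n ∈ (Icc 1 ⌊z⌋₊).filter (fun n => n ≡ 1 [MOD m]), Λ n * wt g z n ≤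
      1 + ∑ s ∈ Q, Real.log s.2 * wt g z s.2 := by
    have hstep : ∀ m ∈ SA,
        ∑ n ∈ (Icc 1 ⌊z⌋₊).filter (fun n => n ≡ 1 [MOD m]), Λ n * wt g z n ≤
        z ^ (-(1 - ε')) * (2 * √z * Real.log z) +
          ∑ n ∈ (Icc 1 ⌊z⌋₊).filter (fun n => n ≡ 1 [MOD m] ∧ n.Prime),
            Real.log n * wt g z n := by
      intro m _
      rw [← Finset.sum_filter_add_sum_filter_not _ (fun n : ℕ => n.Prime), add_comm]
      apply add_le_add
      · apply PairsLB_nonprime hg hg1 hz1'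
        intro n hn
        rw [mem_filter, mem_filter, mem_Icc] at hn
        rw [mem_filter, mem_Ioc]
        exact ⟨⟨hn.1.1.1, hn.1.1.2⟩, hn.2⟩
      · rw [Finset.filter_filter]
        refine le_of_eq (Finset.sum_congr rfl fun n hn => ?_)
        rw [ArithmeticFunction.vonMangoldt_apply_prime (mem_filter.1 hn).2.2]
    calc ∑ m ∈ SA, ∑ n ∈ (Icc 1 ⌊z⌋₊).filter (fun n => n ≡ 1 [MOD m]), Λ n * wt g z n
        ≤ ∑ m ∈ SA, (z ^ (-(1 - ε')) * (2 * √z * Real.log z) +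
          ∑ n ∈ (Icc 1 ⌊z⌋₊).filter (fun n => n ≡ 1 [MOD m] ∧ n.Prime),
            Real.log n * wt g z n) := Finset.sum_le_sum hstep
      _ = (SA.card : ℝ) * (z ^ (-(1 - ε')) * (2 * √z * Real.log z)) +
          ∑ m ∈ SA, ∑ n ∈ (Icc 1 ⌊z⌋₊).filter (fun n => n ≡ 1 [MOD m] ∧ n.Prime),
            Real.log n * wt g z n := by
          rw [Finset.sum_add_distrib, Finset.sum_const, nsmul_eq_mul]
      _ ≤ 1 + ∑ s ∈ Q, Real.log s.2 * wt g z s.2 := by
          apply add_le_add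
          · refine le_trans (mul_le_mul_of_nonneg_right hcard ?_) (PairsLB_np_total hz1' hE1)
            exact mul_nonneg (Real.rpow_pos_of_pos hz0 _).le
              (mul_nonneg (by positivity) hlog)
          · refine le_of_eq ?_
            symm
            calc ∑ s ∈ Q, Real.log s.2 * wt g z s.2
                = ∑ s ∈ SA ×ˢ Icc 1 ⌊z⌋₊, if s.2 ≡ 1 [MOD s.1] ∧ s.2.Prime then
                    Real.log s.2 * wt g z s.2 else 0 := Finset.sum_filter _ _
              _ = ∑ m ∈ SA, ∑ n ∈ Icc 1 ⌊z⌋₊, if n ≡ 1 [MOD m] ∧ n.Prime then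
                    Real.log n * wt g z n else 0 := Finset.sum_product _ _ _
              _ = ∑ m ∈ SA, ∑ n ∈ (Icc 1 ⌊z⌋₊).filter (fun n => n ≡ 1 [MOD m] ∧ n.Prime),
                    Real.log n * wt g z n :=
                  Finset.sum_congr rfl fun m _ => (Finset.sum_filter _ _).symm
  -- smooth and not smooth
  set sm : ℕ × ℕ → Prop := fun s => ∀ q : ℕ, q.Prime → q ∣ s.2 - 1 →
    (q : ℝ) ≤ z ^ (4095 / 10000 : ℝ) with hsm
  have hQsum := Finset.sum_filter_add_sum_filter_not Q sm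
    (fun s => Real.log s.2 * wt g z s.2)
  have hB' := hB z hzb (Q.filter fun s => ¬ sm s) (by
    intro s hs
    rw [mem_filter] at hs
    obtain ⟨hs1, hs2⟩ := hs
    obtain ⟨ha, hb, hc, hd⟩ := hQm s hs1
    have ha' := (hSAm s.1).1 ha
    refine ⟨hd, hb, ha'.1, ha'.2.1, ?_⟩
    rw [hsm] at hs2
    push Not at hs2
    obtain ⟨q, hq, hqd, hqz⟩ := hs2
    refine ⟨q, hq, hqz, ?_⟩
    have hnd : ¬ q ∣ s.1 := fun h => absurd (ha'.2.2 q hq h) (not_le.2 hqz)
    exact Nat.Coprime.mul_dvd_of_dvd_of_dvd ((Nat.Prime.coprime_iff_not_dvd hq).2 hnd) hqd hc)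
  have hgood : ∑ s ∈ Q.filter sm, Real.log s.2 * wt g z s.2 ≤ ∑ s ∈ S, Real.log s.2 / s.2 := by
    have hlogn : ∀ s : ℕ × ℕ, 0 ≤ Real.log s.2 := fun s => Real.log_natCast_nonneg _
    calc ∑ s ∈ Q.filter sm, Real.log s.2 * wt g z s.2
        = ∑ s ∈ (Q.filter sm).filter (fun s => z ^ (1 - ε') < s.2),
            Real.log s.2 * wt g z s.2 := by
          symm
          apply Finset.sum_subset (Finset.filter_subset _ _)
          intro s hs hs'
          have hle : (s.2 : ℝ) ≤ z ^ (1 - ε') := by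
            by_contra hlt
            exact hs' (mem_filter.2 ⟨hs, not_le.1 hlt⟩)
          rw [PairsLB_wt_zero hg hz1' hle, mul_zero]
      _ ≤ ∑ s ∈ (Q.filter sm).filter (fun s => z ^ (1 - ε') < s.2), Real.log s.2 / s.2 := by
          refine Finset.sum_le_sum fun s _ => ?_
          rw [div_eq_mul_one_div]
          exact mul_le_mul_of_nonneg_left (PairsLB_wt_le hg1 z s.2) (hlogn s)
      _ ≤ ∑ s ∈ S, Real.log s.2 / s.2 := by
          refine Finset.sum_le_sum_of_subset_of_nonneg ?_ fun s _ _ =>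
            div_nonneg (hlogn s) (Nat.cast_nonneg _)
          intro s hs
          rw [mem_filter, mem_filter] at hs
          obtain ⟨⟨hs1, hs2⟩, hs3⟩ := hs
          obtain ⟨_, hb, hc, hd⟩ := hQm s hs1
          exact (hS s).2 ⟨hd, hs3, hb, hc, hs2⟩
  refine PairsLB_final (L := Real.log (5000 / 4095)) (K := kap) (ε := ε) (ε' := ε')
    (ρ := 1 / 10000) (l := Real.log z) PairsLB_log_le rfl hkap.le hε hlog
    hG' hA' ?_ hB' hε' hE2
  refine hsplit.trans ?_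
  rw [← hQsum]
  linarith

end Pool.Agent.Helper34.CA
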