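import Pool.Agent.Helper34.CA.St
import Pool.Agent.Helper44.MertensInterval
import Pool.Agent.Helper96.BV.Large

/-!
# Project CA (MP_87fff7_nt), module PhiSums

D3. `PhiSums`. `n/φ(n) = ∑_{d ∣ n} μ²(d)/φ(d)`, so `∑_{a<n≤b} 1/φ(n) = ∑_d μ²(d)/(dφ(d))
∑_{a/d<j≤b/d} 1/j`. `upper`: the inner sum is `≤ log(b/a) + 1` for all `0 < a ≤ b`. `lower`: the
inner sum is `≥ log(b/a) - d/a` for `d ≤ a`; the tail `∑_{d>a} 1/(dφ(d)) ≤ C/√a` by
`φ(d) ≥ √d/2`. `big`: `n = q k`, `φ(qk) ≥ (q-1)φ(k)`, `upper` for `k`, and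
`∑_{P₁<q≤P₂} 1/(q-1) ≤ log(log P₂/log P₁) + C/log P₁` (`mertens_interval`). `pos`: `d = 1`.
-/

set_option autoImplicit false

open Finset Filter Topology
open scoped ArithmeticFunction.vonMangoldt

namespace Pool.Agent.Helper34.CA

open Pool.Agent.Helper18.BV

namespace PhiSumsAux

/-- the summand of `kap` -/
noncomputable def ff (d : ℕ) : ℝ := if Squarefree d then (1 : ℝ) / (d * d.totient) else 0

theorem kap_eq : kap = ∑' d : ℕ, ff d := rfl

theorem ff_nonneg (d : ℕ) : 0 ≤ ff d := by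
  unfold ff
  split_ifs
  · positivity
  · exact le_rfl

theorem ff_zero : ff 0 = 0 := by
  unfold ff
  simp

theorem ff_one : ff 1 = 1 := by
  unfold ff
  simp

theorem ff_le {d : ℕ} (hd : 0 < d) : ff d ≤ 2 / (d * Real.sqrt d) := by
  have h1 := Pool.Agent.Helper96.BV.inv_totient_le hd
  have h2 : (0 : ℝ) < d := by exact_mod_cast hd
  have h4 : 0 < Real.sqrt d := Real.sqrt_pos.2 h2
  unfold ff
  split_ifs
  · have e1 : (1 : ℝ) / (d * d.totient) = 1 / d * (1 / d.totient) := by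
      rw [one_div_mul_one_div]
    have e2 : (2 : ℝ) / (d * Real.sqrt d) = 1 / d * (2 / Real.sqrt d) := by
      rw [div_mul_div_comm, one_mul]
    rw [e1, e2]
    exact mul_le_mul_of_nonneg_left h1 (by positivity)
  · positivity

theorem mul_ff_le {d : ℕ} (hd : 0 < d) : d * ff d ≤ 1 := by
  have h2 : (0 : ℝ) < d := by exact_mod_cast hd
  have h3 : (1 : ℝ) ≤ d.totient := by exact_mod_cast Nat.totient_pos.2 hd
  unfold ff
  split_ifs
  · rw [mul_one_div, div_le_one (by positivity)]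
    nlinarith
  · simp

theorem step {N : ℕ} (hN : 0 < N) :
    ff (N + 1) ≤ 4 / Real.sqrt N - 4 / Real.sqrt ((N + 1 : ℕ) : ℝ) := by
  have h0 : (0 : ℝ) < N := by exact_mod_cast hN
  have h1 : (0 : ℝ) < ((N + 1 : ℕ) : ℝ) := by positivity
  have hu : 0 < Real.sqrt N := Real.sqrt_pos.2 h0
  have hv : 0 < Real.sqrt ((N + 1 : ℕ) : ℝ) := Real.sqrt_pos.2 h1
  have hu2 : Real.sqrt N * Real.sqrt N = N := Real.mul_self_sqrt h0.le
  have hv2 : Real.sqrt ((N + 1 : ℕ) : ℝ) * Real.sqrt ((N + 1 : ℕ) : ℝ) = ((N + 1 : ℕ) : ℝ) :=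
    Real.mul_self_sqrt h1.le
  have huv : Real.sqrt N ≤ Real.sqrt ((N + 1 : ℕ) : ℝ) :=
    Real.sqrt_le_sqrt (by push_cast; linarith)
  refine (ff_le (Nat.succ_pos N)).trans ?_
  set u := Real.sqrt N
  set v := Real.sqrt ((N + 1 : ℕ) : ℝ)
  have h3 : v * v - u * u = 1 := by
    rw [hu2, hv2]; push_cast; ring
  rw [← hv2, div_sub_div _ _ hu.ne' hv.ne', div_le_div_iff₀ (by positivity) (by positivity)]
  have h4 : 0 ≤ v - u := by linarith
  have h5 : (v - u) * (v + u) = 1 := by linarith [h3, (by ring : (v - u) * (v + u) = v * v - u * u)]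
  have h6 : 1 ≤ 2 * v * (v - u) := by nlinarith
  have h7 : 0 < u * v := by positivity
  nlinarith [mul_le_mul_of_nonneg_left h6 (by positivity : (0 : ℝ) ≤ 2 * v * u),
    mul_le_mul_of_nonneg_left huv (by positivity : (0 : ℝ) ≤ 2 * v)]

theorem tail_le {D : ℕ} (hD : 0 < D) (N : ℕ) :
    ∑ d ∈ Ioc D N, ff d ≤ 4 / Real.sqrt D := by
  have key : ∀ k : ℕ, ∑ d ∈ Ioc D (D + k), ff d ≤
      4 / Real.sqrt D - 4 / Real.sqrt ((D + k : ℕ) : ℝ) := by
    intro k
    induction k with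
    | zero => simp
    | succ k ih =>
      have h1 := step (N := D + k) (by omega)
      rw [← add_assoc, Finset.sum_Ioc_succ_top (by omega)]
      linarith
  rcases le_or_gt N D with h | h
  · rw [Finset.Ioc_eq_empty (by omega), Finset.sum_empty]
    positivity
  · obtain ⟨k, rfl⟩ := Nat.exists_eq_add_of_lt h
    have h1 := key (k + 1)
    have h2 : 0 ≤ 4 / Real.sqrt ((D + (k + 1) : ℕ) : ℝ) := by positivity
    rw [add_assoc]
    linarith

theorem range_le {D : ℕ} (hD : 0 < D) (n : ℕ) :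
    ∑ i ∈ range n, ff i ≤ ∑ d ∈ Ioc 0 D, ff d + 4 / Real.sqrt D := by
  have h0 : ∑ i ∈ range n, ff i ≤ ∑ i ∈ insert 0 (Ioc 0 D ∪ Ioc D n), ff i := by
    refine Finset.sum_le_sum_of_subset_of_nonneg ?_ (fun i _ _ => ff_nonneg i)
    intro i hi
    rw [Finset.mem_range] at hi
    rw [Finset.mem_insert, Finset.mem_union, Finset.mem_Ioc, Finset.mem_Ioc]
    omega
  have h1 : ∑ i ∈ insert 0 (Ioc 0 D ∪ Ioc D n), ff i = ∑ i ∈ Ioc 0 D ∪ Ioc D n, ff i := by
    rw [Finset.sum_insert (by simp), ff_zero, zero_add]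
  have h2 : Disjoint (Ioc 0 D) (Ioc D n) := by
    rw [Finset.disjoint_left]
    intro i hi hi2
    rw [Finset.mem_Ioc] at hi hi2
    omega
  rw [h1, Finset.sum_union h2] at h0
  linarith [tail_le hD n]

theorem summable_ff : Summable ff :=
  summable_of_sum_range_le ff_nonneg (fun n => range_le (D := 1) one_pos n)

theorem kap_le {D : ℕ} (hD : 0 < D) : kap ≤ ∑ d ∈ Ioc 0 D, ff d + 4 / Real.sqrt D := by
  rw [kap_eq]
  exact Real.tsum_le_of_sum_range_le ff_nonneg (fun n => range_le hD n)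

theorem le_kap (s : Finset ℕ) : ∑ d ∈ s, ff d ≤ kap := by
  rw [kap_eq]
  exact summable_ff.sum_le_tsum s (fun i _ => ff_nonneg i)

theorem one_le_kap : 1 ≤ kap := by
  have := le_kap {1}
  rwa [Finset.sum_singleton, ff_one] at this

/-! ### the arithmetic identity -/

theorem sum_inv_totient {d : ℕ} (hd : Squarefree d) :
    ∑ k ∈ d.divisors, (1 : ℝ) / k.totient = d / d.totient := by
  have hd0 : d ≠ 0 := hd.ne_zero
  have hphi : (0 : ℝ) < d.totient := by exact_mod_cast Nat.totient_pos.2 (Nat.pos_of_ne_zero hd0)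
  rw [eq_div_iff hphi.ne', Finset.sum_mul]
  have h : ∀ k ∈ d.divisors, (1 : ℝ) / k.totient * d.totient = (d / k).totient := by
    intro k hk
    rw [Nat.mem_divisors] at hk
    obtain ⟨e, rfl⟩ := hk.1
    have hk0 : 0 < k := Nat.pos_of_ne_zero (fun h => hd0 (by rw [h, zero_mul]))
    have hcop : Nat.Coprime k e := Nat.coprime_of_squarefree_mul hd
    rw [Nat.totient_mul hcop, Nat.mul_div_cancel_left _ hk0]
    have : (k.totient : ℝ) ≠ 0 := by
      have := Nat.totient_pos.2 hk0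
      positivity
    push_cast
    field_simp
  rw [Finset.sum_congr rfl h, ← Nat.cast_sum, Nat.sum_div_divisors d (fun k => k.totient),
    Nat.sum_totient]

theorem totient_eq_prod (n : ℕ) :
    (n.totient : ℝ) = n * ∏ p ∈ n.primeFactors, (1 - 1 / (p : ℝ)) := by
  have h := Nat.totient_eq_mul_prod_factors n
  have h2 : ((n.totient : ℚ) : ℝ) = ((n : ℚ) * ∏ p ∈ n.primeFactors, (1 - (p : ℚ)⁻¹) : ℚ) := by
    rw [h]
  push_cast at h2
  rw [h2]
  congr 1
  refine Finset.prod_congr rfl fun p _ => ?_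
  rw [one_div]

theorem identity {n : ℕ} (hn : 0 < n) :
    (1 : ℝ) / n.totient = ∑ d ∈ n.divisors.filter Squarefree, 1 / (n * d.totient : ℝ) := by
  set r := ∏ p ∈ n.primeFactors, p with hr
  have hr0 : r ≠ 0 := by
    rw [hr, Finset.prod_ne_zero_iff]
    intro p hp
    exact (Nat.prime_of_mem_primeFactors hp).ne_zero
  have hrn : r ∣ n := Nat.prod_primeFactors_dvd n
  have hpf : r.primeFactors = n.primeFactors :=
    Nat.primeFactors_prod (fun p hp => Nat.prime_of_mem_primeFactors hp)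
  have hsq : Squarefree r := by
    rw [hr]
    refine Finset.squarefree_prod_of_pairwise_isCoprime ?_ ?_
    · intro p hp q hq hpq
      simp only [Function.onFun]
      rw [← Nat.coprime_iff_isRelPrime]
      exact (Nat.coprime_primes (Nat.prime_of_mem_primeFactors hp)
        (Nat.prime_of_mem_primeFactors hq)).2 hpq
    · intro p hp
      exact (Nat.prime_of_mem_primeFactors hp).squarefree
  have hset : n.divisors.filter Squarefree = r.divisors := by
    ext d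
    rw [Finset.mem_filter, Nat.mem_divisors, Nat.mem_divisors]
    constructor
    · rintro ⟨⟨h1, _⟩, h3⟩
      refine ⟨?_, hr0⟩
      rw [← Nat.prod_primeFactors_of_squarefree h3, hr]
      exact Finset.prod_dvd_prod_of_subset _ _ _ (Nat.primeFactors_mono h1 hn.ne')
    · rintro ⟨h1, _⟩
      exact ⟨⟨h1.trans hrn, hn.ne'⟩, hsq.squarefree_of_dvd h1⟩
  rw [hset]
  have h1 : ∑ d ∈ r.divisors, 1 / (n * d.totient : ℝ) =
      1 / n * ∑ d ∈ r.divisors, (1 : ℝ) / d.totient := by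
    rw [Finset.mul_sum]
    refine Finset.sum_congr rfl (fun d _ => ?_)
    rw [one_div_mul_one_div]
  rw [h1, sum_inv_totient hsq]
  have ht := totient_eq_prod n
  have htr := totient_eq_prod r
  rw [hpf] at htr
  have hn0 : (0 : ℝ) < n := by exact_mod_cast hn
  have hr0' : (0 : ℝ) < r := by exact_mod_cast Nat.pos_of_ne_zero hr0
  have htn : (0 : ℝ) < n.totient := by exact_mod_cast Nat.totient_pos.2 hn
  have hP : (∏ p ∈ n.primeFactors, (1 - 1 / (p : ℝ))) ≠ 0 := by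
    intro h
    rw [h, mul_zero] at ht
    exact htn.ne' ht
  rw [ht, htr]
  field_simp

/-! ### harmonic sums -/

theorem harm_lower (a : ℕ) (k : ℕ) :
    Real.log (((a + k : ℕ) + 1 : ℝ) / (a + 1)) ≤ ∑ j ∈ Ioc a (a + k), (1 : ℝ) / j := by
  induction k with
  | zero =>
    rw [add_zero, div_self (by positivity), Real.log_one]
    simp
  | succ k ih =>
    rw [← add_assoc, Finset.sum_Ioc_succ_top (by omega)]
    have h1 : (0 : ℝ) < ((a + k : ℕ) : ℝ) + 1 := by positivity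
    have h2 : ((a + k + 1 : ℕ) : ℝ) + 1 = ((a + k : ℕ) + 1 : ℝ) + 1 := by push_cast; ring
    have h3 : Real.log ((((a + k + 1 : ℕ) : ℝ) + 1) / (a + 1)) =
        Real.log (((a + k : ℕ) + 1 : ℝ) / (a + 1)) +
          Real.log ((((a + k + 1 : ℕ) : ℝ) + 1) / ((a + k : ℕ) + 1)) := by
      rw [← Real.log_mul (by positivity) (by positivity)]
      congr 1
      field_simp
    have h4 : Real.log ((((a + k + 1 : ℕ) : ℝ) + 1) / ((a + k : ℕ) + 1)) ≤
        1 / ((a + k + 1 : ℕ) : ℝ) := by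
      refine (Real.log_le_sub_one_of_pos (by positivity)).trans (le_of_eq ?_)
      push_cast
      field_simp
      ring
    linarith

theorem harm_upper {a : ℕ} (ha : 0 < a) (k : ℕ) :
    ∑ j ∈ Ioc a (a + k), (1 : ℝ) / j ≤ Real.log ((a + k : ℕ) / a) := by
  have ha0 : (0 : ℝ) < a := by exact_mod_cast ha
  induction k with
  | zero =>
    rw [add_zero, div_self ha0.ne', Real.log_one]
    simp
  | succ k ih =>
    rw [← add_assoc, Finset.sum_Ioc_succ_top (by omega)]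
    have h1 : (0 : ℝ) < ((a + k : ℕ) : ℝ) := by positivity
    have h5 : (0 : ℝ) < ((a + k + 1 : ℕ) : ℝ) := by positivity
    have h3 : Real.log (((a + k + 1 : ℕ) : ℝ) / a) =
        Real.log (((a + k : ℕ) : ℝ) / a) -
          Real.log (((a + k : ℕ) : ℝ) / ((a + k + 1 : ℕ) : ℝ)) := by
      rw [← Real.log_div (by positivity) (by positivity)]
      congr 1
      field_simp
    have h4 : Real.log (((a + k : ℕ) : ℝ) / ((a + k + 1 : ℕ) : ℝ)) ≤
        - (1 / ((a + k + 1 : ℕ) : ℝ)) := by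
      refine (Real.log_le_sub_one_of_pos (by positivity)).trans (le_of_eq ?_)
      push_cast
      field_simp
      ring
    linarith

theorem inner_upper {A B : ℝ} (hA : 0 < A) (hAB : A ≤ B) :
    ∑ j ∈ Ioc ⌊A⌋₊ ⌊B⌋₊, (1 : ℝ) / j ≤ Real.log (B / A) + 1 := by
  have hl : 0 ≤ Real.log (B / A) := Real.log_nonneg (by rw [le_div_iff₀ hA]; linarith)
  rcases le_or_gt ⌊B⌋₊ ⌊A⌋₊ with h | h
  · rw [Finset.Ioc_eq_empty (by omega), Finset.sum_empty]
    linarith
  · obtain ⟨k, hk⟩ := Nat.exists_eq_add_of_lt h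
    have e1 : Ioc ⌊A⌋₊ ⌊B⌋₊ = insert (⌊A⌋₊ + 1) (Ioc (⌊A⌋₊ + 1) (⌊A⌋₊ + 1 + k)) := by
      ext j
      rw [Finset.mem_insert, Finset.mem_Ioc, Finset.mem_Ioc]
      omega
    rw [e1, Finset.sum_insert (by simp)]
    have h1 := harm_upper (a := ⌊A⌋₊ + 1) (Nat.succ_pos _) k
    have h2 : A ≤ ((⌊A⌋₊ + 1 : ℕ) : ℝ) := by
      push_cast
      exact (Nat.lt_floor_add_one A).le
    have h3 : ((⌊A⌋₊ + 1 + k : ℕ) : ℝ) ≤ B := by
      have : ⌊A⌋₊ + 1 + k = ⌊B⌋₊ := by omega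
      rw [this]
      exact Nat.floor_le (by linarith)
    have h4 : Real.log ((⌊A⌋₊ + 1 + k : ℕ) / ((⌊A⌋₊ + 1 : ℕ) : ℝ)) ≤ Real.log (B / A) := by
      apply Real.log_le_log (by positivity)
      exact div_le_div₀ (by linarith) h3 hA h2
    have h5 : (1 : ℝ) / ((⌊A⌋₊ + 1 : ℕ) : ℝ) ≤ 1 := by
      rw [div_le_one (by positivity)]
      push_cast
      have : (0 : ℝ) ≤ (⌊A⌋₊ : ℝ) := by positivity
      linarith
    linarith

theorem inner_lower {A B : ℝ} (hA : 0 < A) (hAB : A ≤ B) :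
    Real.log (B / A) - 1 / A ≤ ∑ j ∈ Ioc ⌊A⌋₊ ⌊B⌋₊, (1 : ℝ) / j := by
  have hfl : ⌊A⌋₊ ≤ ⌊B⌋₊ := Nat.floor_le_floor hAB
  obtain ⟨k, hk⟩ := Nat.exists_eq_add_of_le hfl
  have h1 := harm_lower ⌊A⌋₊ k
  rw [← hk] at h1
  refine le_trans ?_ h1
  have h2 : B ≤ (⌊B⌋₊ : ℝ) + 1 := (Nat.lt_floor_add_one B).le
  have h3 : (⌊A⌋₊ : ℝ) + 1 ≤ A + 1 := by linarith [Nat.floor_le hA.le]
  have hB : 0 < B := by linarith
  have h4 : Real.log (B / (A + 1)) ≤ Real.log (((⌊B⌋₊ : ℝ) + 1) / ((⌊A⌋₊ : ℝ) + 1)) := by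
    apply Real.log_le_log (by positivity)
    exact div_le_div₀ (by positivity) h2 (by positivity) h3
  refine le_trans ?_ h4
  have h5 : Real.log (B / A) = Real.log (B / (A + 1)) + Real.log ((A + 1) / A) := by
    rw [← Real.log_mul (by positivity) (by positivity)]
    congr 1
    field_simp
  have h6 : Real.log ((A + 1) / A) ≤ 1 / A := by
    refine (Real.log_le_sub_one_of_pos (by positivity)).trans (le_of_eq ?_)
    field_simp
    ring
  linarith

/-! ### double counting -/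

theorem inner_eq {a b : ℝ} (ha : 0 < a) (hab : a ≤ b) {d : ℕ} (hd : 0 < d) :
    ∑ n ∈ (Ioc ⌊a⌋₊ ⌊b⌋₊).filter (fun n => d ∣ n), (1 : ℝ) / n =
      1 / d * ∑ j ∈ Ioc ⌊a / d⌋₊ ⌊b / d⌋₊, (1 : ℝ) / j := by
  have hd0 : (0 : ℝ) < d := by exact_mod_cast hd
  have hb : 0 < b := by linarith
  have e : (Ioc ⌊a⌋₊ ⌊b⌋₊).filter (fun n => d ∣ n) =
      (Ioc ⌊a / d⌋₊ ⌊b / d⌋₊).image (fun j => d * j) := by
    ext n
    rw [Finset.mem_filter, Finset.mem_image]
    constructor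
    · rintro ⟨h1, ⟨j, rfl⟩⟩
      refine ⟨j, ?_, rfl⟩
      rw [Finset.mem_Ioc] at h1 ⊢
      rw [Nat.floor_lt ha.le, Nat.le_floor_iff (by linarith)] at h1
      rw [Nat.floor_lt (by positivity), Nat.le_floor_iff (by positivity), div_lt_iff₀ hd0,
        le_div_iff₀ hd0]
      push_cast at h1
      constructor <;> nlinarith [h1.1, h1.2]
    · rintro ⟨j, h1, rfl⟩
      refine ⟨?_, Dvd.intro j rfl⟩
      rw [Finset.mem_Ioc] at h1 ⊢
      rw [Nat.floor_lt (by positivity), Nat.le_floor_iff (div_nonneg (by linarith) hd0.le),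
        div_lt_iff₀ hd0, le_div_iff₀ hd0] at h1
      rw [Nat.floor_lt ha.le, Nat.le_floor_iff (by linarith)]
      push_cast
      constructor <;> nlinarith [h1.1, h1.2]
  rw [e, Finset.sum_image (by
    intro x _ y _ hxy
    exact Nat.eq_of_mul_eq_mul_left hd hxy), Finset.mul_sum]
  refine Finset.sum_congr rfl (fun j _ => ?_)
  push_cast
  rw [one_div_mul_one_div]

theorem main_eq {a b : ℝ} (ha : 0 < a) (hab : a ≤ b) :
    ∑ n ∈ Ioc ⌊a⌋₊ ⌊b⌋₊, (1 : ℝ) / n.totient =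
      ∑ d ∈ Ioc 0 ⌊b⌋₊, ff d * ∑ j ∈ Ioc ⌊a / d⌋₊ ⌊b / d⌋₊, (1 : ℝ) / j := by
  have h1 : ∀ n ∈ Ioc ⌊a⌋₊ ⌊b⌋₊, (1 : ℝ) / n.totient =
      ∑ d ∈ Ioc 0 ⌊b⌋₊, if d ∣ n then (if Squarefree d then 1 / (n * d.totient : ℝ) else 0)
        else 0 := by
    intro n hn
    rw [Finset.mem_Ioc] at hn
    have hn0 : 0 < n := by omega
    rw [identity hn0, ← Finset.sum_filter, ← Finset.sum_filter]
    refine Finset.sum_congr ?_ (fun _ _ => rfl)
    ext d
    simp only [Finset.mem_filter, Nat.mem_divisors, Finset.mem_Ioc]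
    constructor
    · rintro ⟨⟨h2, h3⟩, h4⟩
      have := Nat.le_of_dvd hn0 h2
      have h5 : 0 < d := Nat.pos_of_dvd_of_pos h2 hn0
      exact ⟨⟨⟨h5, by omega⟩, h2⟩, h4⟩
    · rintro ⟨⟨⟨_, _⟩, h2⟩, h4⟩
      exact ⟨⟨h2, hn0.ne'⟩, h4⟩
  rw [Finset.sum_congr rfl h1, Finset.sum_comm]
  refine Finset.sum_congr rfl (fun d hd => ?_)
  rw [Finset.mem_Ioc] at hd
  rw [← Finset.sum_filter]
  unfold ff
  split_ifs with hs
  · have h2 : ∑ n ∈ (Ioc ⌊a⌋₊ ⌊b⌋₊).filter (fun n => d ∣ n), 1 / (n * d.totient : ℝ) =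
        1 / d.totient * ∑ n ∈ (Ioc ⌊a⌋₊ ⌊b⌋₊).filter (fun n => d ∣ n), (1 : ℝ) / n := by
      rw [Finset.mul_sum]
      refine Finset.sum_congr rfl (fun n _ => ?_)
      rw [one_div_mul_one_div, mul_comm]
    rw [h2, inner_eq ha hab hd.1, ← mul_assoc, one_div_mul_one_div, mul_comm (d.totient : ℝ)]
  · simp

theorem upper_aux {a b : ℝ} (ha : 0 < a) (hab : a ≤ b) :
    ∑ n ∈ Ioc ⌊a⌋₊ ⌊b⌋₊, (1 : ℝ) / n.totient ≤ kap * (Real.log (b / a) + 1) := by
  rw [main_eq ha hab]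
  have hl : 0 ≤ Real.log (b / a) := Real.log_nonneg (by rw [le_div_iff₀ ha]; linarith)
  calc ∑ d ∈ Ioc 0 ⌊b⌋₊, ff d * ∑ j ∈ Ioc ⌊a / d⌋₊ ⌊b / d⌋₊, (1 : ℝ) / j
      ≤ ∑ d ∈ Ioc 0 ⌊b⌋₊, ff d * (Real.log (b / a) + 1) := by
        refine Finset.sum_le_sum (fun d hd => ?_)
        rw [Finset.mem_Ioc] at hd
        have hd0 : (0 : ℝ) < d := by exact_mod_cast hd.1
        refine mul_le_mul_of_nonneg_left ?_ (ff_nonneg d)
        have h := inner_upper (A := a / d) (B := b / d) (by positivity)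
          (div_le_div_of_nonneg_right hab hd0.le)
        rwa [div_div_div_cancel_right₀ hd0.ne'] at h
    _ = (∑ d ∈ Ioc 0 ⌊b⌋₊, ff d) * (Real.log (b / a) + 1) := by rw [Finset.sum_mul]
    _ ≤ kap * (Real.log (b / a) + 1) :=
        mul_le_mul_of_nonneg_right (le_kap _) (by linarith)

theorem lower_aux {a b : ℝ} (ha : 1 ≤ a) (hab : a ≤ b) :
    kap * Real.log (b / a) - 8 * (1 + Real.log b / Real.sqrt a) ≤
      ∑ n ∈ Ioc ⌊a⌋₊ ⌊b⌋₊, (1 : ℝ) / n.totient := by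
  have ha0 : 0 < a := by linarith
  have hb0 : 0 < b := by linarith
  rw [main_eq ha0 hab]
  have hl : 0 ≤ Real.log (b / a) := Real.log_nonneg (by rw [le_div_iff₀ ha0]; linarith)
  set D := ⌊a⌋₊ with hD
  have hD1 : 1 ≤ D := by rw [hD, Nat.one_le_floor_iff]; exact ha
  have hDb : D ≤ ⌊b⌋₊ := Nat.floor_le_floor hab
  have hDa : (D : ℝ) ≤ a := Nat.floor_le ha0.le
  have hDa2 : a ≤ 2 * D := by
    have h1 := (Nat.lt_floor_add_one a).le
    rw [← hD] at h1
    have h2 : (1 : ℝ) ≤ D := by exact_mod_cast hD1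
    linarith
  have h1 : ∑ d ∈ Ioc 0 D, ff d * (Real.log (b / a) - d / a) ≤
      ∑ d ∈ Ioc 0 ⌊b⌋₊, ff d * ∑ j ∈ Ioc ⌊a / d⌋₊ ⌊b / d⌋₊, (1 : ℝ) / j := by
    refine le_trans (Finset.sum_le_sum (fun d hd => ?_))
      (Finset.sum_le_sum_of_subset_of_nonneg (Finset.Ioc_subset_Ioc_right hDb)
        (fun d _ _ => mul_nonneg (ff_nonneg d) (Finset.sum_nonneg (fun j _ => by positivity))))
    rw [Finset.mem_Ioc] at hd
    have hd0 : (0 : ℝ) < d := by exact_mod_cast hd.1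
    refine mul_le_mul_of_nonneg_left ?_ (ff_nonneg d)
    have h := inner_lower (A := a / d) (B := b / d) (by positivity)
      (div_le_div_of_nonneg_right hab hd0.le)
    rwa [div_div_div_cancel_right₀ hd0.ne', one_div_div] at h
  refine le_trans ?_ h1
  have h2 : ∑ d ∈ Ioc 0 D, ff d * (Real.log (b / a) - d / a) =
      Real.log (b / a) * ∑ d ∈ Ioc 0 D, ff d - 1 / a * ∑ d ∈ Ioc 0 D, d * ff d := by
    rw [Finset.mul_sum, Finset.mul_sum, ← Finset.sum_sub_distrib]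
    refine Finset.sum_congr rfl (fun d _ => ?_)
    ring
  have h3 : ∑ d ∈ Ioc 0 D, d * ff d ≤ a := by
    calc ∑ d ∈ Ioc 0 D, d * ff d ≤ ∑ d ∈ Ioc 0 D, (1 : ℝ) := by
          refine Finset.sum_le_sum (fun d hd => ?_)
          rw [Finset.mem_Ioc] at hd
          exact mul_ff_le hd.1
      _ = D := by simp
      _ ≤ a := hDa
  have h4 : 1 / a * ∑ d ∈ Ioc 0 D, d * ff d ≤ 1 := by
    calc 1 / a * ∑ d ∈ Ioc 0 D, d * ff d ≤ 1 / a * a :=
          mul_le_mul_of_nonneg_left h3 (by positivity)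
      _ = 1 := by field_simp
  have h5 := kap_le (D := D) (by omega)
  have hsa : 0 < Real.sqrt a := Real.sqrt_pos.2 ha0
  have hD0 : (0 : ℝ) < D := by exact_mod_cast hD1
  have hsD : 0 < Real.sqrt D := Real.sqrt_pos.2 hD0
  have h6 : 4 / Real.sqrt D ≤ 8 / Real.sqrt a := by
    rw [div_le_div_iff₀ hsD hsa]
    have h7 : Real.sqrt a ≤ 2 * Real.sqrt D := by
      rw [Real.sqrt_le_left (by positivity), mul_pow, Real.sq_sqrt hD0.le]
      linarith
    linarith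
  have h8 : Real.log (b / a) ≤ Real.log b := by
    apply Real.log_le_log (by positivity)
    exact div_le_self hb0.le ha
  have h9 : Real.log (b / a) * (kap - 8 / Real.sqrt a) ≤
      Real.log (b / a) * ∑ d ∈ Ioc 0 D, ff d :=
    mul_le_mul_of_nonneg_left (by linarith) hl
  have h10 : Real.log (b / a) * (8 / Real.sqrt a) ≤ 8 * (Real.log b / Real.sqrt a) := by
    calc Real.log (b / a) * (8 / Real.sqrt a) ≤ Real.log b * (8 / Real.sqrt a) :=
          mul_le_mul_of_nonneg_right h8 (by positivity)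
      _ = 8 * (Real.log b / Real.sqrt a) := by ring
  rw [h2]
  nlinarith [h4, h9, h10]

theorem sum_inv_pred {P₁ P₂ C : ℝ} (h1 : 2 ≤ P₁) (h2 : P₁ ≤ P₂)
    (hC : |∑ q ∈ (Finset.Ioc ⌊P₁⌋₊ ⌊P₂⌋₊).filter Nat.Prime, (1:ℝ)/q -
      Real.log (Real.log P₂ / Real.log P₁)| ≤ C / Real.log P₁) :
    ∑ q ∈ (Finset.Ioc ⌊P₁⌋₊ ⌊P₂⌋₊).filter Nat.Prime, (1:ℝ) / ((q : ℝ) - 1) ≤
      Real.log (Real.log P₂ / Real.log P₁) + (C + 2) / Real.log P₁ := by
  have hA : 2 ≤ ⌊P₁⌋₊ := Nat.le_floor (by exact_mod_cast h1)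
  have hlp : 0 < Real.log P₁ := Real.log_pos (by linarith)
  have key : ∀ k : ℕ, ∑ q ∈ Ioc ⌊P₁⌋₊ (⌊P₁⌋₊ + k), ((1 : ℝ) / ((q : ℝ) - 1) - 1 / q) ≤
      1 / (⌊P₁⌋₊ : ℝ) - 1 / ((⌊P₁⌋₊ + k : ℕ) : ℝ) := by
    intro k
    induction k with
    | zero => simp
    | succ k ih =>
      rw [← add_assoc, Finset.sum_Ioc_succ_top (by omega)]
      have : (((⌊P₁⌋₊ + k + 1 : ℕ) : ℝ) - 1) = ((⌊P₁⌋₊ + k : ℕ) : ℝ) := by push_cast; ring
      rw [this]
      linarith
  have h3 : ∑ q ∈ (Finset.Ioc ⌊P₁⌋₊ ⌊P₂⌋₊).filter Nat.Prime,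
      ((1 : ℝ) / ((q : ℝ) - 1) - 1 / q) ≤ 1 / (⌊P₁⌋₊ : ℝ) := by
    have h4 : ∑ q ∈ (Finset.Ioc ⌊P₁⌋₊ ⌊P₂⌋₊).filter Nat.Prime,
        ((1 : ℝ) / ((q : ℝ) - 1) - 1 / q) ≤
        ∑ q ∈ Finset.Ioc ⌊P₁⌋₊ ⌊P₂⌋₊, ((1 : ℝ) / ((q : ℝ) - 1) - 1 / q) := by
      refine Finset.sum_le_sum_of_subset_of_nonneg (Finset.filter_subset _ _) ?_
      intro q hq _
      rw [Finset.mem_Ioc] at hq
      have h5 : (2 : ℝ) < q := by exact_mod_cast (by omega : 2 < q)
      have h6 : (1 : ℝ) / q ≤ 1 / ((q : ℝ) - 1) :=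
        one_div_le_one_div_of_le (by linarith) (by linarith)
      linarith
    obtain ⟨k, hk⟩ := Nat.exists_eq_add_of_le (Nat.floor_le_floor h2)
    rw [hk] at h4
    have h5 := key k
    have h6 : 0 ≤ 1 / ((⌊P₁⌋₊ + k : ℕ) : ℝ) := by positivity
    rw [hk]
    linarith
  have h7 : 1 / (⌊P₁⌋₊ : ℝ) ≤ 2 / Real.log P₁ := by
    have h8 : (0 : ℝ) < (⌊P₁⌋₊ : ℝ) := by
      have : (2 : ℝ) ≤ (⌊P₁⌋₊ : ℝ) := by exact_mod_cast hA
      linarith
    rw [div_le_div_iff₀ h8 hlp]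
    have h9 : Real.log P₁ ≤ P₁ - 1 := Real.log_le_sub_one_of_pos (by linarith)
    have h10 := (Nat.lt_floor_add_one P₁).le
    linarith
  rw [Finset.sum_sub_distrib] at h3
  have h11 := (abs_le.1 hC).2
  have h12 : (C + 2) / Real.log P₁ = C / Real.log P₁ + 2 / Real.log P₁ := by rw [add_div]
  linarith

theorem big_aux {C : ℝ} (hC : ∀ x y : ℝ, 2 ≤ x → x ≤ y →
    |∑ q ∈ (Finset.Ioc ⌊x⌋₊ ⌊y⌋₊).filter Nat.Prime, (1:ℝ)/q - Real.log (Real.log y / Real.log x)|
      ≤ C / Real.log x) {a b P₁ P₂ : ℝ} (ha : 0 < a) (hab : a ≤ b) (h1 : 2 ≤ P₁) (h2 : P₁ ≤ P₂)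
    (S : Finset ℕ)
    (hS : ∀ n ∈ S, a < n ∧ (n : ℝ) ≤ b ∧ ∃ q : ℕ, q.Prime ∧ P₁ < q ∧ (q : ℝ) ≤ P₂ ∧ q ∣ n) :
    ∑ n ∈ S, (1 : ℝ) / n.totient ≤
      (Real.log (Real.log P₂ / Real.log P₁) + (C + 2) / Real.log P₁) *
        (kap * (Real.log (b / a) + 1)) := by
  have hl : 0 ≤ Real.log (b / a) := Real.log_nonneg (by rw [le_div_iff₀ ha]; linarith)
  have hk := one_le_kap
  set Q := (Finset.Ioc ⌊P₁⌋₊ ⌊P₂⌋₊).filter Nat.Prime with hQ
  have h3 : ∑ n ∈ S, (1 : ℝ) / n.totient ≤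
      ∑ n ∈ S, ∑ q ∈ Q, if q ∣ n then (1 : ℝ) / n.totient else 0 := by
    refine Finset.sum_le_sum (fun n hn => ?_)
    obtain ⟨_, _, q, hq, hq1, hq2, hqn⟩ := hS n hn
    have hqQ : q ∈ Q := by
      rw [hQ, Finset.mem_filter, Finset.mem_Ioc, Nat.floor_lt (by linarith),
        Nat.le_floor_iff (by linarith)]
      exact ⟨⟨hq1, hq2⟩, hq⟩
    have h4 := Finset.single_le_sum (f := fun q => if q ∣ n then (1 : ℝ) / n.totient else 0)
      (s := Q) (fun i _ => by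
        split_ifs
        · positivity
        · exact le_rfl) hqQ
    simp only [hqn, if_true] at h4
    exact h4
  rw [Finset.sum_comm] at h3
  refine h3.trans ?_
  have h5 : ∀ q ∈ Q, ∑ n ∈ S, (if q ∣ n then (1 : ℝ) / n.totient else 0) ≤
      1 / ((q : ℝ) - 1) * (kap * (Real.log (b / a) + 1)) := by
    intro q hq
    rw [hQ, Finset.mem_filter] at hq
    have hqp := hq.2
    have hq0 : 0 < q := hqp.pos
    have hq0' : (0 : ℝ) < q := by exact_mod_cast hq0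
    have hq1 : (1 : ℝ) < q := by exact_mod_cast hqp.one_lt
    rw [← Finset.sum_filter]
    have h6 : S.filter (fun n => q ∣ n) ⊆ (Ioc ⌊a / q⌋₊ ⌊b / q⌋₊).image (fun j => q * j) := by
      intro n hn
      rw [Finset.mem_filter] at hn
      obtain ⟨h7, h8, _⟩ := hS n hn.1
      obtain ⟨j, rfl⟩ := hn.2
      rw [Finset.mem_image]
      refine ⟨j, ?_, rfl⟩
      have hb : 0 < b := by linarith
      rw [Finset.mem_Ioc, Nat.floor_lt (by positivity), Nat.le_floor_iff (by positivity),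
        div_lt_iff₀ hq0', le_div_iff₀ hq0']
      push_cast at h7 h8
      constructor <;> nlinarith [h7, h8]
    calc ∑ n ∈ S.filter (fun n => q ∣ n), (1 : ℝ) / n.totient
        ≤ ∑ n ∈ (Ioc ⌊a / q⌋₊ ⌊b / q⌋₊).image (fun j => q * j), (1 : ℝ) / n.totient :=
          Finset.sum_le_sum_of_subset_of_nonneg h6 (fun n _ _ => by positivity)
      _ = ∑ j ∈ Ioc ⌊a / q⌋₊ ⌊b / q⌋₊, (1 : ℝ) / (q * j).totient :=
          Finset.sum_image (by
            intro x _ y _ hxy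
            exact Nat.eq_of_mul_eq_mul_left hq0 hxy)
      _ ≤ ∑ j ∈ Ioc ⌊a / q⌋₊ ⌊b / q⌋₊, 1 / ((q : ℝ) - 1) * (1 / j.totient) := by
          refine Finset.sum_le_sum (fun j hj => ?_)
          rw [Finset.mem_Ioc] at hj
          have hj0 : 0 < j := by omega
          have h9 : (0 : ℝ) < j.totient := by exact_mod_cast Nat.totient_pos.2 hj0
          have h10 := Nat.totient_super_multiplicative q j
          rw [Nat.totient_prime hqp] at h10
          have h11 : ((q : ℝ) - 1) * j.totient ≤ (q * j).totient := by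
            have h12 : (((q - 1) * j.totient : ℕ) : ℝ) ≤ ((q * j).totient : ℝ) := by
              exact_mod_cast h10
            rw [Nat.cast_mul, Nat.cast_sub hqp.one_lt.le, Nat.cast_one] at h12
            exact h12
          rw [one_div_mul_one_div]
          have h13 : 0 < (q : ℝ) - 1 := by linarith
          exact one_div_le_one_div_of_le (by positivity) h11
      _ = 1 / ((q : ℝ) - 1) * ∑ j ∈ Ioc ⌊a / q⌋₊ ⌊b / q⌋₊, (1 : ℝ) / j.totient := by
          rw [Finset.mul_sum]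
      _ ≤ 1 / ((q : ℝ) - 1) * (kap * (Real.log (b / a) + 1)) := by
          have h13 : 0 < (q : ℝ) - 1 := by linarith
          refine mul_le_mul_of_nonneg_left ?_ (by positivity)
          have h := upper_aux (a := a / q) (b := b / q) (by positivity)
            (div_le_div_of_nonneg_right hab hq0'.le)
          rwa [div_div_div_cancel_right₀ hq0'.ne'] at h
  refine (Finset.sum_le_sum h5).trans ?_
  rw [← Finset.sum_mul]
  refine mul_le_mul_of_nonneg_right (sum_inv_pred h1 h2 (hC P₁ P₂ h1 h2)) ?_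
  have : 0 ≤ kap := by linarith
  positivity

end PhiSumsAux

open PhiSumsAux in
theorem phiSums : PhiSums := by
  have hk := one_le_kap
  refine ⟨hk, ⟨kap, by linarith, ?_⟩, ⟨8, by norm_num, ?_⟩, ?_⟩
  · intro a b ha hab
    have := upper_aux ha hab
    rw [mul_add, mul_one] at this
    exact this
  · intro a b ha hab
    exact lower_aux ha hab
  · obtain ⟨C, hC0, hC⟩ := Pool.Agent.Helper44.mertens_interval
    refine ⟨max (C + 2) kap, lt_of_lt_of_le (by linarith) (le_max_left _ _), ?_⟩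
    intro a b P₁ P₂ ha hab h1 h2 S hS
    have h3 := big_aux hC ha hab h1 h2 S hS
    have hl : 0 ≤ Real.log (b / a) := Real.log_nonneg (by rw [le_div_iff₀ ha]; linarith)
    have hlp : 0 < Real.log P₁ := Real.log_pos (by linarith)
    have hlp2 : 0 < Real.log P₂ := Real.log_pos (by linarith)
    have hll : 0 ≤ Real.log (Real.log P₂ / Real.log P₁) := by
      refine Real.log_nonneg ?_
      rw [le_div_iff₀ hlp, one_mul]
      exact Real.log_le_log (by linarith) h2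
    refine h3.trans ?_
    refine mul_le_mul ?_ ?_ ?_ ?_
    · have : (C + 2) / Real.log P₁ ≤ max (C + 2) kap / Real.log P₁ :=
        div_le_div_of_nonneg_right (le_max_left _ _) hlp.le
      linarith
    · have := le_max_right (C + 2) kap
      rw [mul_add, mul_one]
      linarith
    · have : 0 ≤ kap := by linarith
      positivity
    · have : 0 ≤ max (C + 2) kap := le_trans (by linarith) (le_max_left (C + 2) kap)
      positivity

end Pool.Agent.Helper34.CA
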