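import Pool.Agent.Helper34.CA.St
import Pool.Agent.Helper91.KC.DivBound

/-!
# Project CA (MP_87fff7_nt), module SmoothShift

D6. `SmoothShift`. Given `η` take `ε' = min (ε²) (η/3)`. By `PairsLB`
`1 ≤ ∑_{p ∈ P, p > z^{1-ε'}} τ(p-1) log p/p ≤ |P| · max τ · log z/z^{1-ε'}`, and `τ(n) ≤ C n^{η/4}`
(`card_divisors_bound`), so `|P| ≥ z^{1-η}` for `z` large.
-/

set_option autoImplicit false

open Finset Filter Topology
open scoped ArithmeticFunction.vonMangoldt

namespace Pool.Agent.Helper34.CA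

open Pool.Agent.Helper18.BV

theorem smoothShift (h : PairsLB) : SmoothShift := by
  classical
  intro η hη
  obtain ⟨ε, hε, hε1, hpair⟩ := h
  obtain ⟨C, hC1, hC⟩ := Pool.Agent.Helper91.KC.card_divisors_bound (η / 4) (by positivity)
  have hε' : (0 : ℝ) < min (ε ^ 2) (η / 3) := lt_min (by positivity) (by positivity)
  obtain ⟨z0, hz0, hz⟩ := hpair _ hε' (min_le_left _ _)
  set ε' := min (ε ^ 2) (η / 3) with hεdef
  have hε3 : ε' ≤ η / 3 := min_le_right _ _
  -- `C log z ≤ z ^ (5η/12)` for large `z`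
  have hlog : ∀ᶠ z : ℝ in atTop, C * Real.log z ≤ z ^ (5 * η / 12) := by
    have h1 := (isLittleO_log_rpow_atTop (show (0 : ℝ) < 5 * η / 12 by positivity)).bound
      (show (0 : ℝ) < 1 / C by positivity)
    filter_upwards [h1, eventually_ge_atTop 1] with z hz1 hz2
    have h2 : 0 ≤ Real.log z := Real.log_nonneg hz2
    have h3 : (0 : ℝ) ≤ z ^ (5 * η / 12) := Real.rpow_nonneg (by linarith) _
    rw [Real.norm_of_nonneg h2, Real.norm_of_nonneg h3] at hz1
    have hC0 : 0 < C := by linarith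
    calc C * Real.log z ≤ C * (1 / C * z ^ (5 * η / 12)) := by gcongr
      _ = z ^ (5 * η / 12) := by field_simp
  obtain ⟨z1, hz1⟩ := eventually_atTop.mp hlog
  refine ⟨max z0 z1, fun z hzz P hP => ?_⟩
  have hzz0 : z0 ≤ z := (le_max_left _ _).trans hzz
  have hz3 : (3 : ℝ) ≤ z := hz0.trans hzz0
  have hzpos : (0 : ℝ) < z := by linarith
  have hlz := hz1 z ((le_max_right _ _).trans hzz)
  -- the finite set of pairs
  set P' := P.filter (fun p : ℕ => z ^ (1 - ε') < (p : ℝ)) with hP'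
  set S : Finset (ℕ × ℕ) := P'.biUnion (fun p => (p - 1).divisors.image (fun m => (m, p)))
    with hS
  have hmem : ∀ s, s ∈ S ↔ (s.2.Prime ∧ z ^ (1 - ε') < s.2 ∧ (s.2 : ℝ) ≤ z ∧ s.1 ∣ s.2 - 1 ∧
        ∀ q : ℕ, q.Prime → q ∣ s.2 - 1 → (q : ℝ) ≤ z ^ (4095 / 10000 : ℝ)) := by
    rintro ⟨m, p⟩
    simp only [hS, hP', Finset.mem_biUnion, Finset.mem_filter, Finset.mem_image,
      Nat.mem_divisors, Prod.mk.injEq]
    constructor
    · rintro ⟨a, ⟨haP, ha⟩, b, ⟨hb, hb0⟩, rfl, rfl⟩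
      obtain ⟨h1, h2, h3⟩ := (hP a).mp haP
      exact ⟨h1, ha, h2, hb, h3⟩
    · rintro ⟨h1, h2, h3, h4, h5⟩
      have hp2 := h1.two_le
      exact ⟨p, ⟨(hP p).mpr ⟨h1, h3, h5⟩, h2⟩, m, ⟨h4, by omega⟩, rfl, rfl⟩
  have hone := hz z hzz0 S hmem
  have hsum : ∑ s ∈ S, Real.log s.2 / s.2 ≤
      ∑ p ∈ P', ((p - 1).divisors.card : ℝ) * (Real.log p / p) := by
    rw [hS, Finset.sum_biUnion]
    · refine (Finset.sum_congr rfl fun p _ => ?_).le
      rw [Finset.sum_image (fun a _ b _ hab => (Prod.mk.inj hab).1)]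
      simp only [Finset.sum_const, nsmul_eq_mul]
    · intro p _ q _ hpq
      rw [Function.onFun, Finset.disjoint_left]
      rintro ⟨a, b⟩ h1 h2
      simp only [Finset.mem_image, Prod.mk.injEq] at h1 h2
      obtain ⟨_, _, _, rfl⟩ := h1
      obtain ⟨_, _, _, rfl⟩ := h2
      exact hpq rfl
  have hterm : ∀ p ∈ P', ((p - 1).divisors.card : ℝ) * (Real.log p / p) ≤
      C * z ^ (η / 4) * (Real.log z / z ^ (1 - ε')) := by
    intro p hp
    rw [hP', Finset.mem_filter] at hp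
    obtain ⟨h1, h2, h3⟩ := (hP p).mp hp.1
    have hp2 := h1.two_le
    have hp0 : (0 : ℝ) < p := by exact_mod_cast h1.pos
    have e1 : ((p - 1).divisors.card : ℝ) ≤ C * z ^ (η / 4) := by
      refine (hC (p - 1) (by omega)).trans ?_
      have : ((p - 1 : ℕ) : ℝ) ≤ z := by
        have : ((p - 1 : ℕ) : ℝ) ≤ p := by exact_mod_cast Nat.sub_le p 1
        linarith
      gcongr
    have e2 : Real.log p / p ≤ Real.log z / z ^ (1 - ε') := by
      have hlog0 : 0 ≤ Real.log p := Real.log_natCast_nonneg p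
      have hzp : 0 < z ^ (1 - ε') := Real.rpow_pos_of_pos hzpos _
      calc Real.log p / p ≤ Real.log p / z ^ (1 - ε') :=
            div_le_div_of_nonneg_left hlog0 hzp hp.2.le
        _ ≤ Real.log z / z ^ (1 - ε') := by gcongr
    have e3 : 0 ≤ Real.log p / p := div_nonneg (Real.log_natCast_nonneg p) hp0.le
    exact mul_le_mul e1 e2 e3 (by positivity)
  have hfin : 1 ≤ (P.card : ℝ) * (C * z ^ (η / 4) * (Real.log z / z ^ (1 - ε'))) := by
    have hlz0 : 0 ≤ Real.log z := Real.log_nonneg (by linarith)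
    calc (1 : ℝ) ≤ ∑ s ∈ S, Real.log s.2 / s.2 := hone
      _ ≤ ∑ p ∈ P', ((p - 1).divisors.card : ℝ) * (Real.log p / p) := hsum
      _ ≤ ∑ _p ∈ P', C * z ^ (η / 4) * (Real.log z / z ^ (1 - ε')) := Finset.sum_le_sum hterm
      _ = (P'.card : ℝ) * (C * z ^ (η / 4) * (Real.log z / z ^ (1 - ε'))) := by
          rw [Finset.sum_const, nsmul_eq_mul]
      _ ≤ (P.card : ℝ) * (C * z ^ (η / 4) * (Real.log z / z ^ (1 - ε'))) := by
          have : (P'.card : ℝ) ≤ P.card := by exact_mod_cast Finset.card_filter_le _ _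
          have hz' : 0 ≤ C * z ^ (η / 4) * (Real.log z / z ^ (1 - ε')) := by
            have : 0 ≤ C := by linarith
            positivity
          exact mul_le_mul_of_nonneg_right this hz'
  -- conclusion
  have hC0 : 0 < C := by linarith
  have key : C * z ^ (η / 4) * (Real.log z / z ^ (1 - ε')) ≤ z ^ (-(1 - η)) := by
    have hzp : 0 < z ^ (1 - ε') := Real.rpow_pos_of_pos hzpos _
    calc C * z ^ (η / 4) * (Real.log z / z ^ (1 - ε'))
        = (C * Real.log z) * (z ^ (η / 4) * z ^ (-(1 - ε'))) := by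
          rw [Real.rpow_neg hzpos.le]; field_simp
      _ ≤ z ^ (5 * η / 12) * (z ^ (η / 4) * z ^ (-(1 - ε'))) := by gcongr
      _ = z ^ (5 * η / 12 + (η / 4 + -(1 - ε'))) := by
          rw [← Real.rpow_add hzpos, ← Real.rpow_add hzpos]
      _ ≤ z ^ (-(1 - η)) := by
          apply Real.rpow_le_rpow_of_exponent_le (by linarith)
          linarith
  have hP0 : (0 : ℝ) ≤ P.card := Nat.cast_nonneg _
  have h1 : (1 : ℝ) ≤ (P.card : ℝ) * z ^ (-(1 - η)) := hfin.trans (by gcongr)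
  rw [Real.rpow_neg hzpos.le, ← div_eq_mul_inv, one_le_div (Real.rpow_pos_of_pos hzpos _)] at h1
  exact h1

end Pool.Agent.Helper34.CA
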