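import Pool.Agent.Helper34.CA.St
import Pool.Agent.Helper96.BV.TypeTwo

/-!
# Project CA (MP_87fff7_nt), module TypeTwoS

B3. `TypeTwoS`. Follow `Pool/Agent/Helper96/BV/TypeTwo.lean` (same separation of variables by
`FourierRep`), after cutting `(U, x]` and `(V, x]` into dyadic blocks `(M₀, 2M₀]`, `(N₀, 2N₀]`,
`M₀ = 2^i U`, `N₀ = 2^j V`. A block with `4 M₀ N₀ ≤ x^σ` contributes `0` (all weights vanish). For
a block, Cauchy-Schwarz and `MLS` (`1/φ(q) ≤ (1/Q) q/φ(q)` for `q > Q`):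
`∑_{q~Q} (1/φ(q)) ∑* |F_a||F_b| ≤ (1/Q) (C(M₀+4Q²) ∑|a_m|²/m²)^{1/2} (C(N₀+4Q²)∑|b_n|²/n²)^{1/2}`
`≤ (C/Q) (1 + 2Q/√M₀)(1 + 2Q/√N₀) log x`. Sum over the `≤ C log²x` blocks (geometric series for
the terms `1/√M₀`, `1/√N₀`; `1/√(M₀N₀) ≤ 2 x^{-σ/2}`).
-/

set_option autoImplicit false

open Finset Filter Topology
open scoped ArithmeticFunction.vonMangoldt

namespace Pool.Agent.Helper34.CA

open Pool.Agent.Helper18.BV

namespace TypeTwoSAux

open Pool.Agent.Helper96.BV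

/-- Cutting into dyadic blocks. -/
theorem dyadic (U K : ℕ) (f : ℕ → ℂ) :
    ∑ d ∈ Ioc U (2 ^ K * U), f d =
      ∑ i ∈ range K, ∑ d ∈ Ioc (2 ^ i * U) (2 ^ i * U + 2 ^ i * U), f d := by
  induction K with
  | zero => simp
  | succ K ih =>
    rw [Finset.sum_range_succ, ← ih]
    have h1 : 2 ^ K * U + 2 ^ K * U = 2 ^ (K + 1) * U := by ring
    rw [h1]
    symm
    apply Finset.sum_Ioc_consecutive
    · exact Nat.le_mul_of_pos_left U (by positivity)
    · apply Nat.mul_le_mul_right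
      exact Nat.pow_le_pow_right (by norm_num) (by omega)

/-- The cut of a function at `N`. -/
noncomputable def cut (N : ℕ) (a : ℕ → ℂ) (n : ℕ) : ℂ := if n ≤ N then a n else 0

theorem sum_cut (U K N : ℕ) (hN : N ≤ 2 ^ K * U) (a : ℕ → ℂ) (ha : ∀ n ≤ U, a n = 0)
    (G : ℕ → ℂ) :
    ∑ d ∈ Icc 1 N, a d * G d =
      ∑ i ∈ range K, ∑ d ∈ Ioc (2 ^ i * U) (2 ^ i * U + 2 ^ i * U), cut N a d * G d := by
  classical
  rw [← dyadic U K (fun d => cut N a d * G d)]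
  have e1 : ∑ d ∈ Icc 1 N, a d * G d = ∑ d ∈ (Icc 1 N).filter (fun d => U < d), a d * G d := by
    rw [Finset.sum_filter]
    refine Finset.sum_congr rfl (fun d _ => ?_)
    split_ifs with h
    · rfl
    · rw [ha d (by omega), zero_mul]
  have e2 : ∑ d ∈ Ioc U (2 ^ K * U), cut N a d * G d =
      ∑ d ∈ (Ioc U (2 ^ K * U)).filter (fun d => d ≤ N), a d * G d := by
    rw [Finset.sum_filter]
    refine Finset.sum_congr rfl (fun d _ => ?_)
    unfold cut
    split_ifs with h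
    · rfl
    · rw [zero_mul]
  rw [e1, e2]
  refine Finset.sum_congr ?_ (fun _ _ => rfl)
  ext d
  simp only [Finset.mem_filter, Finset.mem_Icc, Finset.mem_Ioc]
  constructor
  · rintro ⟨⟨h1, h2⟩, h3⟩
    exact ⟨⟨h3, by omega⟩, h2⟩
  · rintro ⟨⟨h1, h2⟩, h3⟩
    exact ⟨⟨by omega, h3⟩, h1⟩

/-- The mean square of a block. -/
theorem sq_bd {C : ℝ} (hC : 0 < C)
    (h1 : ∀ (Q N0 N : ℕ), 1 ≤ Q → 1 ≤ N → ∀ a : ℕ → ℂ,
      ∑ q ∈ Icc 1 Q, ((q : ℝ) / q.totient) *
        ∑ χ ∈ prim q, ‖∑ n ∈ Ioc N0 (N0 + N), a n * χ (n : ZMod q)‖ ^ 2 ≤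
        C * (N + (Q : ℝ) ^ 2) * ∑ n ∈ Ioc N0 (N0 + N), ‖a n‖ ^ 2)
    {Q M : ℕ} (hQ : 1 ≤ Q) (hM : 1 ≤ M) (a : ℕ → ℂ) (l K : ℝ)
    (ha : ∀ n, ‖a n‖ ≤ K) (t : ℝ) :
    ∑ y ∈ (Ioc Q (2 * Q)).sigma (fun q => prim q), ((y.1 : ℝ) / y.1.totient) *
      ‖FF a l M (M + M) y t‖ ^ 2 ≤ C * K ^ 2 * (1 + 2 * Q / Real.sqrt M) ^ 2 := by
  have hM0 : (0 : ℝ) < M := by exact_mod_cast hM
  have hs : 0 < Real.sqrt M := Real.sqrt_pos.2 hM0
  have hss : Real.sqrt M ^ 2 = M := Real.sq_sqrt hM0.le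
  rw [Finset.sum_sigma]
  have h2 := h1 (2 * Q) M M (by omega) hM (fun n => a n * uu l n t / n)
  have h3 : ∑ q ∈ Ioc Q (2 * Q), ∑ χ ∈ prim q, ((q : ℝ) / q.totient) *
      ‖FF a l M (M + M) ⟨q, χ⟩ t‖ ^ 2 ≤
      ∑ q ∈ Icc 1 (2 * Q), ((q : ℝ) / q.totient) *
        ∑ χ ∈ prim q, ‖∑ n ∈ Ioc M (M + M), (a n * uu l n t / n) * χ (n : ZMod q)‖ ^ 2 := by
    have e : ∀ q : ℕ, ∑ χ ∈ prim q, ((q : ℝ) / q.totient) *
      ‖FF a l M (M + M) ⟨q, χ⟩ t‖ ^ 2 = ((q : ℝ) / q.totient) *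
        ∑ χ ∈ prim q, ‖∑ n ∈ Ioc M (M + M), (a n * uu l n t / n) * χ (n : ZMod q)‖ ^ 2 := by
      intro q
      rw [Finset.mul_sum]
      refine Finset.sum_congr rfl (fun χ _ => ?_)
      unfold FF
      congr 3
      refine Finset.sum_congr rfl (fun n _ => ?_)
      simp only
      ring
    rw [Finset.sum_congr rfl (fun q _ => e q)]
    refine Finset.sum_le_sum_of_subset_of_nonneg ?_ (fun q _ _ => ?_)
    · intro q hq
      rw [Finset.mem_Ioc] at hq
      exact Finset.mem_Icc.2 ⟨by omega, hq.2⟩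
    · exact mul_nonneg (by positivity) (Finset.sum_nonneg (fun _ _ => by positivity))
  refine h3.trans (h2.trans ?_)
  have h4 : ∑ n ∈ Ioc M (M + M), ‖a n * uu l n t / n‖ ^ 2 ≤ K ^ 2 / M := by
    have h5 : ∀ n ∈ Ioc M (M + M), ‖a n * uu l n t / n‖ ^ 2 ≤ K ^ 2 / (M : ℝ) ^ 2 := by
      intro n hn
      rw [Finset.mem_Ioc] at hn
      have hn0 : (M : ℝ) ≤ n := by exact_mod_cast hn.1.le
      rw [norm_div, norm_mul, norm_uu, mul_one, Complex.norm_natCast, div_pow]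
      exact div_le_div₀ (by positivity) (pow_le_pow_left₀ (norm_nonneg _) (ha n) 2)
        (by positivity) (pow_le_pow_left₀ hM0.le hn0 2)
    refine (Finset.sum_le_sum h5).trans ?_
    rw [Finset.sum_const, Nat.card_Ioc, nsmul_eq_mul]
    have : M + M - M = M := by omega
    rw [this]
    apply le_of_eq
    field_simp
  have h6 : (0 : ℝ) ≤ C * (M + ((2 * Q : ℕ) : ℝ) ^ 2) := by positivity
  refine (mul_le_mul_of_nonneg_left h4 h6).trans ?_
  push_cast
  have h7 : C * (M + (2 * (Q : ℝ)) ^ 2) * (K ^ 2 / M) =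
      C * K ^ 2 * (1 + (2 * (Q : ℝ)) ^ 2 / M) := by
    field_simp
  rw [h7]
  apply mul_le_mul_of_nonneg_left _ (by positivity)
  have h8 : (1 + 2 * (Q : ℝ) / Real.sqrt M) ^ 2 =
      1 + (2 * (Q : ℝ)) ^ 2 / M + 2 * (2 * (Q : ℝ) / Real.sqrt M) := by
    rw [← hss]
    rw [Real.sqrt_sq hs.le]
    ring
  rw [h8]
  have : 0 ≤ 2 * (2 * (Q : ℝ) / Real.sqrt M) := by positivity
  linarith

/-- One block, fixed `t`. -/
theorem block_bd {C : ℝ} (hC : 0 < C)
    (h1 : ∀ (Q N0 N : ℕ), 1 ≤ Q → 1 ≤ N → ∀ a : ℕ → ℂ,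
      ∑ q ∈ Icc 1 Q, ((q : ℝ) / q.totient) *
        ∑ χ ∈ prim q, ‖∑ n ∈ Ioc N0 (N0 + N), a n * χ (n : ZMod q)‖ ^ 2 ≤
        C * (N + (Q : ℝ) ^ 2) * ∑ n ∈ Ioc N0 (N0 + N), ‖a n‖ ^ 2)
    {Q M N : ℕ} (hQ : 1 ≤ Q) (hM : 1 ≤ M) (hN : 1 ≤ N) (a b : ℕ → ℂ) (l K : ℝ)
    (hK : 0 ≤ K) (ha : ∀ n, ‖a n‖ ≤ 1) (hb : ∀ n, ‖b n‖ ≤ K) (t : ℝ) :
    ∑ y ∈ (Ioc Q (2 * Q)).sigma (fun q => prim q), (1 / (y.1.totient : ℝ)) *
      (‖FF a l M (M + M) y t‖ * ‖FF b l N (N + N) y t‖) ≤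
      (C * K / Q) * ((1 + 2 * Q / Real.sqrt M) * (1 + 2 * Q / Real.sqrt N)) := by
  have hQ0 : (0 : ℝ) < Q := by exact_mod_cast hQ
  set X : Finset (Σ q : ℕ, DirichletCharacter ℂ q) :=
    (Ioc Q (2 * Q)).sigma (fun q => prim q) with hX
  have h2 : ∀ y ∈ X, (1 / (y.1.totient : ℝ)) *
      (‖FF a l M (M + M) y t‖ * ‖FF b l N (N + N) y t‖) ≤
      (1 / (Q : ℝ)) * ((Real.sqrt ((y.1 : ℝ) / y.1.totient) * ‖FF a l M (M + M) y t‖) *
        (Real.sqrt ((y.1 : ℝ) / y.1.totient) * ‖FF b l N (N + N) y t‖)) := by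
    intro y hy
    rw [hX, Finset.mem_sigma, Finset.mem_Ioc] at hy
    have hy0 : (Q : ℝ) ≤ y.1 := by exact_mod_cast hy.1.1.le
    have hw : 0 ≤ (y.1 : ℝ) / y.1.totient := by positivity
    have e : (Real.sqrt ((y.1 : ℝ) / y.1.totient) * ‖FF a l M (M + M) y t‖) *
        (Real.sqrt ((y.1 : ℝ) / y.1.totient) * ‖FF b l N (N + N) y t‖) =
        ((y.1 : ℝ) / y.1.totient) * (‖FF a l M (M + M) y t‖ * ‖FF b l N (N + N) y t‖) := by
      have := Real.mul_self_sqrt hw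
      calc _ = (Real.sqrt ((y.1 : ℝ) / y.1.totient) * Real.sqrt ((y.1 : ℝ) / y.1.totient)) *
            (‖FF a l M (M + M) y t‖ * ‖FF b l N (N + N) y t‖) := by ring
        _ = _ := by rw [this]
    rw [e, ← mul_assoc (1 / (Q : ℝ))]
    apply mul_le_mul_of_nonneg_right _ (by positivity)
    have e2 : (1 / (Q : ℝ)) * ((y.1 : ℝ) / y.1.totient) =
        ((y.1 : ℝ) / Q) * (1 / y.1.totient) := by ring
    rw [e2]
    have e3 : 1 ≤ (y.1 : ℝ) / Q := (one_le_div hQ0).2 hy0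
    have e4 : 0 ≤ 1 / (y.1.totient : ℝ) := by positivity
    nlinarith
  refine (Finset.sum_le_sum h2).trans ?_
  rw [← Finset.mul_sum]
  have h3 := Finset.sum_mul_sq_le_sq_mul_sq X
    (fun y => Real.sqrt ((y.1 : ℝ) / y.1.totient) * ‖FF a l M (M + M) y t‖)
    (fun y => Real.sqrt ((y.1 : ℝ) / y.1.totient) * ‖FF b l N (N + N) y t‖)
  have hsq : ∀ (c : ℕ → ℂ) (P : ℕ) , ∑ y ∈ X, (Real.sqrt ((y.1 : ℝ) / y.1.totient) *
      ‖FF c l P (P + P) y t‖) ^ 2 = ∑ y ∈ X, ((y.1 : ℝ) / y.1.totient) *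
      ‖FF c l P (P + P) y t‖ ^ 2 := by
    intro c P
    refine Finset.sum_congr rfl (fun y _ => ?_)
    rw [mul_pow, Real.sq_sqrt (by positivity)]
  have h4 := sq_bd hC h1 hQ hM a l 1 ha t
  have h5 := sq_bd hC h1 hQ hN b l K hb t
  have h6 : (∑ y ∈ X, (Real.sqrt ((y.1 : ℝ) / y.1.totient) * ‖FF a l M (M + M) y t‖) *
        (Real.sqrt ((y.1 : ℝ) / y.1.totient) * ‖FF b l N (N + N) y t‖)) ^ 2 ≤
      (C * K * ((1 + 2 * Q / Real.sqrt M) * (1 + 2 * Q / Real.sqrt N))) ^ 2 := by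
    refine h3.trans ?_
    rw [hsq, hsq]
    calc _ ≤ (C * 1 ^ 2 * (1 + 2 * Q / Real.sqrt M) ^ 2) *
          (C * K ^ 2 * (1 + 2 * Q / Real.sqrt N) ^ 2) :=
          mul_le_mul h4 h5 (Finset.sum_nonneg (fun _ _ => by positivity)) (by positivity)
      _ = _ := by ring
  have h7 := abs_le_of_sq_le_sq h6 (by positivity)
  have h8 := (le_abs_self _).trans h7
  calc _ ≤ (1 / (Q : ℝ)) *
        (C * K * ((1 + 2 * Q / Real.sqrt M) * (1 + 2 * Q / Real.sqrt N))) :=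
        mul_le_mul_of_nonneg_left h8 (by positivity)
    _ = _ := by ring

/-- The integral representation of a block. -/
theorem block_int {g : ℝ → ℝ} {h : ℝ → ℂ} (hc : Continuous h)
    (hinth : MeasureTheory.Integrable h)
    (hrep : ∀ v : ℝ, (g v : ℂ) = ∫ t : ℝ, h t * Complex.exp (t * v * Complex.I))
    (x : ℝ) (a b : ℕ → ℂ) {M M' N N' : ℕ} (y : Σ q : ℕ, DirichletCharacter ℂ q) :
    ∑ d ∈ Ioc M M', ∑ e ∈ Ioc N N', a d * b e *
        (y.2 (d : ZMod y.1) * y.2 (e : ZMod y.1)) * (wt g x (d * e) : ℂ) =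
      ∫ t, h t * (FF a (Real.log x) M M' y t * FF b (Real.log x) N N' y t) := by
  set l := Real.log x with hl
  have h3 : ∀ d ∈ Ioc M M', ∀ e ∈ Ioc N N', a d * b e *
      (y.2 (d : ZMod y.1) * y.2 (e : ZMod y.1)) * (wt g x (d * e) : ℂ) =
      ∫ t, h t * ((a d * uu l d t) * y.2 (d : ZMod y.1) / d *
        ((b e * uu l e t) * y.2 (e : ZMod y.1) / e)) := by
    intro d hd e he
    rw [Finset.mem_Ioc] at hd he
    have hd0 : (d : ℝ) ≠ 0 := by
      have : 0 < d := by omega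
      exact_mod_cast this.ne'
    have he0 : (e : ℝ) ≠ 0 := by
      have : 0 < e := by omega
      exact_mod_cast this.ne'
    have h4 : (wt g x (d * e) : ℂ) = (∫ t : ℝ, h t * (uu l d t * uu l e t)) / (d * e) := by
      unfold wt
      push_cast
      rw [hrep]
      congr 1
      refine MeasureTheory.integral_congr_ae (Filter.Eventually.of_forall (fun t => ?_))
      simp only
      congr 1
      unfold uu
      rw [← Complex.exp_add]
      congr 1
      push_cast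
      rw [Real.log_mul hd0 he0]
      push_cast
      ring
    rw [h4]
    rw [mul_div_assoc', ← MeasureTheory.integral_const_mul, ← MeasureTheory.integral_div]
    refine MeasureTheory.integral_congr_ae (Filter.Eventually.of_forall (fun t => ?_))
    simp only
    ring
  have hint2 : ∀ d e : ℕ, MeasureTheory.Integrable (fun t => h t *
      ((a d * uu l d t) * y.2 (d : ZMod y.1) / d *
        ((b e * uu l e t) * y.2 (e : ZMod y.1) / e))) := by
    intro d e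
    have h5 : MeasureTheory.Integrable (fun t => (a d * y.2 (d : ZMod y.1) / d *
        (b e * y.2 (e : ZMod y.1) / e)) * (h t * (uu l d t * uu l e t))) := by
      apply MeasureTheory.Integrable.const_mul
      refine MeasureTheory.Integrable.mono hinth ?_ ?_
      · have := continuous_uu l d
        have := continuous_uu l e
        exact (by fun_prop : Continuous (fun t => h t * (uu l d t * uu l e t))).aestronglyMeasurable
      · refine Filter.Eventually.of_forall (fun t => ?_)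
        rw [norm_mul, norm_mul, norm_uu, norm_uu]
        simp
    refine h5.congr (Filter.Eventually.of_forall (fun t => ?_))
    simp only
    ring
  rw [Finset.sum_congr rfl (fun d hd => Finset.sum_congr rfl (fun e he => h3 d hd e he))]
  rw [Finset.sum_congr rfl (fun d _ =>
    (MeasureTheory.integral_finsetSum (Ioc N N') (fun e _ => hint2 d e)).symm)]
  rw [← MeasureTheory.integral_finsetSum]
  · refine MeasureTheory.integral_congr_ae (Filter.Eventually.of_forall (fun t => ?_))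
    simp only
    unfold FF
    rw [Finset.sum_mul_sum, Finset.mul_sum]
    refine Finset.sum_congr rfl (fun d _ => ?_)
    rw [Finset.mul_sum]
  · intro d _
    exact MeasureTheory.integrable_finsetSum _ (fun e _ => hint2 d e)

/-- The block sum. -/
noncomputable def BB (g : ℝ → ℝ) (x : ℝ) (a b : ℕ → ℂ) (M N : ℕ)
    (y : Σ q : ℕ, DirichletCharacter ℂ q) : ℂ :=
  ∑ d ∈ Ioc M (M + M), ∑ e ∈ Ioc N (N + N), a d * b e *
        (y.2 (d : ZMod y.1) * y.2 (e : ZMod y.1)) * (wt g x (d * e) : ℂ)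

theorem block_main {C : ℝ} (hC : 0 < C)
    (h1 : ∀ (Q N0 N : ℕ), 1 ≤ Q → 1 ≤ N → ∀ a : ℕ → ℂ,
      ∑ q ∈ Icc 1 Q, ((q : ℝ) / q.totient) *
        ∑ χ ∈ prim q, ‖∑ n ∈ Ioc N0 (N0 + N), a n * χ (n : ZMod q)‖ ^ 2 ≤
        C * (N + (Q : ℝ) ^ 2) * ∑ n ∈ Ioc N0 (N0 + N), ‖a n‖ ^ 2)
    {g : ℝ → ℝ} {h : ℝ → ℂ} (hc : Continuous h)
    (hinth : MeasureTheory.Integrable h)
    (hrep : ∀ v : ℝ, (g v : ℂ) = ∫ t : ℝ, h t * Complex.exp (t * v * Complex.I))
    (x : ℝ) {Q M N : ℕ} (hQ : 1 ≤ Q) (hM : 1 ≤ M) (hN : 1 ≤ N) (a b : ℕ → ℂ) (K : ℝ)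
    (hK : 0 ≤ K) (ha : ∀ n, ‖a n‖ ≤ 1) (hb : ∀ n, ‖b n‖ ≤ K) :
    ∑ y ∈ (Ioc Q (2 * Q)).sigma (fun q => prim q), (1 / (y.1.totient : ℝ)) *
      ‖BB g x a b M N y‖ ≤
      (∫ t, ‖h t‖) *
        ((C * K / Q) * ((1 + 2 * Q / Real.sqrt M) * (1 + 2 * Q / Real.sqrt N))) := by
  set l := Real.log x with hl
  set X : Finset (Σ q : ℕ, DirichletCharacter ℂ q) :=
    (Ioc Q (2 * Q)).sigma (fun q => prim q) with hX
  have hint0 : MeasureTheory.Integrable (fun t : ℝ => ‖h t‖) := hinth.norm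
  have hintF : ∀ y, MeasureTheory.Integrable
      (fun t => ‖h t‖ * ((1 / (y.1.totient : ℝ)) *
        (‖FF a l M (M + M) y t‖ * ‖FF b l N (N + N) y t‖))) := by
    intro y
    refine MeasureTheory.Integrable.mono' (hint0.mul_const
      ((1 / (y.1.totient : ℝ)) * ((∑ m ∈ Ioc M (M + M), ‖a m‖ / m) *
        (∑ m ∈ Ioc N (N + N), ‖b m‖ / m)))) ?_ ?_
    · have := continuous_FF a l M (M + M) y
      have := continuous_FF b l N (N + N) y
      exact (by fun_prop : Continuous (fun t => ‖h t‖ * ((1 / (y.1.totient : ℝ)) *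
        (‖FF a l M (M + M) y t‖ * ‖FF b l N (N + N) y t‖)))).aestronglyMeasurable
    · refine Filter.Eventually.of_forall (fun t => ?_)
      rw [Real.norm_of_nonneg (by positivity)]
      apply mul_le_mul_of_nonneg_left _ (norm_nonneg _)
      apply mul_le_mul_of_nonneg_left _ (by positivity)
      exact mul_le_mul (norm_FF_le _ _ _ _ _ _) (norm_FF_le _ _ _ _ _ _) (norm_nonneg _)
        (Finset.sum_nonneg (fun _ _ => by positivity))
  calc ∑ y ∈ X, (1 / (y.1.totient : ℝ)) * ‖BB g x a b M N y‖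
      ≤ ∑ y ∈ X, ∫ t, ‖h t‖ * ((1 / (y.1.totient : ℝ)) *
        (‖FF a l M (M + M) y t‖ * ‖FF b l N (N + N) y t‖)) := by
        refine Finset.sum_le_sum (fun y _ => ?_)
        unfold BB
        rw [block_int hc hinth hrep x a b y]
        have e1 : ∫ t, ‖h t‖ * ((1 / (y.1.totient : ℝ)) *
            (‖FF a l M (M + M) y t‖ * ‖FF b l N (N + N) y t‖)) =
            (1 / (y.1.totient : ℝ)) * ∫ t, ‖h t‖ *
            (‖FF a l M (M + M) y t‖ * ‖FF b l N (N + N) y t‖) := by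
          rw [← MeasureTheory.integral_const_mul]
          refine MeasureTheory.integral_congr_ae (Filter.Eventually.of_forall (fun t => ?_))
          simp only
          ring
        rw [e1]
        apply mul_le_mul_of_nonneg_left _ (by positivity)
        refine (MeasureTheory.norm_integral_le_integral_norm _).trans (le_of_eq ?_)
        refine MeasureTheory.integral_congr_ae (Filter.Eventually.of_forall (fun t => ?_))
        simp only
        rw [norm_mul, norm_mul]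
    _ = ∫ t, ∑ y ∈ X, ‖h t‖ * ((1 / (y.1.totient : ℝ)) *
        (‖FF a l M (M + M) y t‖ * ‖FF b l N (N + N) y t‖)) :=
        (MeasureTheory.integral_finsetSum X (fun y _ => hintF y)).symm
    _ ≤ ∫ t, ‖h t‖ *
        ((C * K / Q) * ((1 + 2 * Q / Real.sqrt M) * (1 + 2 * Q / Real.sqrt N))) := by
        apply MeasureTheory.integral_mono
        · exact MeasureTheory.integrable_finsetSum _ (fun y _ => hintF y)
        · exact hint0.mul_const _
        · intro t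
          simp only
          rw [← Finset.mul_sum]
          exact mul_le_mul_of_nonneg_left
            (block_bd hC h1 hQ hM hN a b l K hK ha hb t) (norm_nonneg _)
    _ = _ := by rw [MeasureTheory.integral_mul_const]

/-- The weight vanishes for small arguments. -/
theorem wt_zero {σ : ℝ} {g : ℝ → ℝ} (hg : IsWtS σ g) {x : ℝ} (hx : 3 ≤ x) {n : ℕ}
    (hn : (n : ℝ) ≤ x ^ σ) (hσ : 0 < σ) : wt g x n = 0 := by
  have hl : 0 < Real.log x := Real.log_pos (by linarith)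
  unfold wt
  have h1 : g (Real.log n / Real.log x) = 0 := by
    apply image_eq_zero_of_notMem_tsupport
    intro h
    have h2 := (hg.supp h).1
    rw [lt_div_iff₀ hl] at h2
    rcases Nat.eq_zero_or_pos n with h0 | h0
    · rw [h0] at h2
      simp at h2
      nlinarith
    · have h0' : (0 : ℝ) < n := by exact_mod_cast h0
      have h3 : Real.log n ≤ σ * Real.log x := by
        rw [← Real.log_rpow (by linarith)]
        exact Real.log_le_log h0' hn
      linarith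
  rw [h1, zero_div]

theorem BB_zero {σ : ℝ} {g : ℝ → ℝ} (hg : IsWtS σ g) {x : ℝ} (hx : 3 ≤ x) (hσ : 0 < σ)
    (a b : ℕ → ℂ) {M N : ℕ} (hMN : 4 * ((M : ℝ) * N) ≤ x ^ σ)
    (y : Σ q : ℕ, DirichletCharacter ℂ q) : BB g x a b M N y = 0 := by
  unfold BB
  refine Finset.sum_eq_zero (fun d hd => Finset.sum_eq_zero (fun e he => ?_))
  rw [Finset.mem_Ioc] at hd he
  have h1 : d * e ≤ (M + M) * (N + N) := Nat.mul_le_mul hd.2 he.2
  have h2 : ((d * e : ℕ) : ℝ) ≤ x ^ σ := by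
    have h3 : ((d * e : ℕ) : ℝ) ≤ (((M + M) * (N + N) : ℕ) : ℝ) := by exact_mod_cast h1
    push_cast at h3 ⊢
    nlinarith
  rw [wt_zero hg hx h2 hσ]
  simp

theorem term_bd {σ x : ℝ} (hx : 3 ≤ x) {M N U V Q : ℕ} (hQ : 1 ≤ Q) (hU : 1 ≤ U)
    (hV : 1 ≤ V) (hM : U ≤ M) (hN : V ≤ N) (hMN : x ^ σ < 4 * ((M : ℝ) * N)) :
    (1 / (Q : ℝ)) * ((1 + 2 * Q / Real.sqrt M) * (1 + 2 * Q / Real.sqrt N)) ≤
      8 * (1 / (Q : ℝ) + 1 / Real.sqrt U + 1 / Real.sqrt V + Q * x ^ (-σ / 2)) := by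
  have hQ0 : (0 : ℝ) < Q := by exact_mod_cast hQ
  have hU0 : (0 : ℝ) < U := by exact_mod_cast hU
  have hV0 : (0 : ℝ) < V := by exact_mod_cast hV
  have hM0 : (0 : ℝ) < M := lt_of_lt_of_le hU0 (by exact_mod_cast hM)
  have hN0 : (0 : ℝ) < N := lt_of_lt_of_le hV0 (by exact_mod_cast hN)
  have hsU : 0 < Real.sqrt U := Real.sqrt_pos.2 hU0
  have hsV : 0 < Real.sqrt V := Real.sqrt_pos.2 hV0
  have hsM : 0 < Real.sqrt M := Real.sqrt_pos.2 hM0
  have hsN : 0 < Real.sqrt N := Real.sqrt_pos.2 hN0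
  have h1 : 1 / Real.sqrt M ≤ 1 / Real.sqrt U :=
    one_div_le_one_div_of_le hsU (Real.sqrt_le_sqrt (by exact_mod_cast hM))
  have h2 : 1 / Real.sqrt N ≤ 1 / Real.sqrt V :=
    one_div_le_one_div_of_le hsV (Real.sqrt_le_sqrt (by exact_mod_cast hN))
  have hx0 : (0 : ℝ) < x := by linarith
  have h3 : 1 / (Real.sqrt M * Real.sqrt N) ≤ 2 * x ^ (-σ / 2) := by
    have h4 : x ^ (σ / 2) ≤ 2 * (Real.sqrt M * Real.sqrt N) := by
      have h5 : x ^ (σ / 2) = Real.sqrt (x ^ σ) := by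
        rw [Real.sqrt_eq_rpow, ← Real.rpow_mul hx0.le]
        congr 1
        ring
      have h6 : 2 * (Real.sqrt M * Real.sqrt N) = Real.sqrt (4 * ((M : ℝ) * N)) := by
        rw [Real.sqrt_mul (by norm_num), Real.sqrt_mul hM0.le]
        congr 1
        rw [show (4 : ℝ) = 2 ^ 2 by norm_num]
        exact (Real.sqrt_sq (by norm_num)).symm
      rw [h5, h6]
      exact Real.sqrt_le_sqrt hMN.le
    have h7 : x ^ (-σ / 2) = 1 / x ^ (σ / 2) := by
      rw [neg_div, Real.rpow_neg hx0.le, one_div]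
    rw [h7]
    have h8 : 0 < x ^ (σ / 2) := Real.rpow_pos_of_pos hx0 _
    rw [mul_one_div, div_le_div_iff₀ (by positivity) h8]
    linarith
  have h9 : (1 / (Q : ℝ)) * ((1 + 2 * Q / Real.sqrt M) * (1 + 2 * Q / Real.sqrt N)) =
      1 / Q + 2 * (1 / Real.sqrt M) + 2 * (1 / Real.sqrt N) +
        4 * Q * (1 / (Real.sqrt M * Real.sqrt N)) := by
    field_simp
    ring
  rw [h9]
  have h10 : 4 * (Q : ℝ) * (1 / (Real.sqrt M * Real.sqrt N)) ≤ 4 * Q * (2 * x ^ (-σ / 2)) :=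
    mul_le_mul_of_nonneg_left h3 (by positivity)
  have h11 : 0 < 1 / (Q : ℝ) := by positivity
  have h12 : 0 < 1 / Real.sqrt U := by positivity
  have h13 : 0 < 1 / Real.sqrt V := by positivity
  linarith

end TypeTwoSAux

open Pool.Agent.Helper96.BV TypeTwoSAux in
theorem typeTwoS (h1 : MLS) (h2 : FourierRep) : TypeTwoS := by
  classical
  intro σ hσ hσ1 g hg
  have hgw : IsWt g := hg.isWt hσ
  have hcs : HasCompactSupport g :=
    IsCompact.of_isClosed_subset isCompact_Icc (isClosed_tsupport _)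
      (hg.supp.trans Set.Ioo_subset_Icc_self)
  obtain ⟨C, hC, hmls⟩ := h1
  obtain ⟨h, hc, hint, hrep⟩ := h2 g hg.smooth hcs
  have hint0 : MeasureTheory.Integrable (fun t : ℝ => ‖h t‖) := by
    have := hint 0
    simpa using this
  have hinth : MeasureTheory.Integrable h := by
    rwa [MeasureTheory.integrable_norm_iff hc.aestronglyMeasurable] at hint0
  set H : ℝ := ∫ t, ‖h t‖ with hH
  have hH0 : 0 ≤ H := MeasureTheory.integral_nonneg (fun t => norm_nonneg _)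
  refine ⟨72 * (H * C) + 1, by positivity, ?_⟩
  intro x hx Q U V hQ hU hV a b ha hb ha1 hb1
  set N := ⌊x⌋₊ with hN
  set l := Real.log x with hl
  have hl1 : 1 ≤ l := by
    rw [hl, Real.le_log_iff_exp_le (by linarith)]
    have := Real.exp_one_lt_d9
    linarith
  have hN3 : 3 ≤ N := Nat.le_floor (by simpa using hx)
  have hNx : (N : ℝ) ≤ x := Nat.floor_le (by linarith)
  -- the number of blocks
  set K := Nat.log 2 N + 1 with hK
  have hKN : N < 2 ^ K := Nat.lt_pow_succ_log_self (by norm_num) N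
  have hKl : (K : ℝ) ≤ 3 * l := by
    have h3 : (2 : ℝ) ^ (Nat.log 2 N) ≤ N := by
      exact_mod_cast Nat.pow_log_le_self 2 (by omega)
    have h4 : (Nat.log 2 N : ℝ) * Real.log 2 ≤ l := by
      rw [← Real.log_pow]
      exact Real.log_le_log (by positivity) (h3.trans hNx)
    have h5 := Real.log_two_gt_d9
    have h6 : (Nat.log 2 N : ℝ) ≤ 2 * l := by
      have h7 : (0 : ℝ) ≤ (Nat.log 2 N : ℝ) := Nat.cast_nonneg _
      nlinarith
    rw [hK]
    push_cast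
    linarith
  have hUN : N ≤ 2 ^ K * U := hKN.le.trans (Nat.le_mul_of_pos_right _ hU)
  have hVN : N ≤ 2 ^ K * V := hKN.le.trans (Nat.le_mul_of_pos_right _ hV)
  set a' := cut N a with ha'
  set b' := cut N b with hb'
  have ha'1 : ∀ n, ‖a' n‖ ≤ 1 := by
    intro n
    rw [ha']
    unfold cut
    split_ifs
    · exact ha1 n
    · simp
  have hb'1 : ∀ n, ‖b' n‖ ≤ l := by
    intro n
    rw [hb']
    unfold cut
    split_ifs with h
    · apply hb1 n
      have : (n : ℝ) ≤ N := by exact_mod_cast h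
      linarith
    · rw [norm_zero]
      linarith
  set X : Finset (Σ q : ℕ, DirichletCharacter ℂ q) :=
    (Ioc Q (2 * Q)).sigma (fun q => prim q) with hX
  -- the decomposition
  have hSS : ∀ y : (Σ q : ℕ, DirichletCharacter ℂ q), SS (a * b : ArithmeticFunction ℂ) g x y.2 =
      ∑ i ∈ range K, ∑ j ∈ range K, BB g x a' b' (2 ^ i * U) (2 ^ j * V) y := by
    intro y
    rw [SS_mul hgw hx]
    have e1 : ∀ d : ℕ, ∑ e ∈ Icc 1 N, a d * b e *
        (y.2 (d : ZMod y.1) * y.2 (e : ZMod y.1)) * (wt g x (d * e) : ℂ) =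
        a d * ∑ e ∈ Icc 1 N, b e *
          ((y.2 (d : ZMod y.1) * y.2 (e : ZMod y.1)) * (wt g x (d * e) : ℂ)) := by
      intro d
      rw [Finset.mul_sum]
      refine Finset.sum_congr rfl (fun e _ => ?_)
      ring
    rw [Finset.sum_congr rfl (fun d _ => e1 d)]
    rw [sum_cut U K N hUN a ha (fun d => ∑ e ∈ Icc 1 N, b e *
          ((y.2 (d : ZMod y.1) * y.2 (e : ZMod y.1)) * (wt g x (d * e) : ℂ)))]
    refine Finset.sum_congr rfl (fun i _ => ?_)
    unfold BB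
    rw [Finset.sum_comm]
    refine Finset.sum_congr rfl (fun d _ => ?_)
    rw [sum_cut V K N hVN b hb (fun e =>
          ((y.2 (d : ZMod y.1) * y.2 (e : ZMod y.1)) * (wt g x (d * e) : ℂ)))]
    rw [Finset.mul_sum]
    refine Finset.sum_congr rfl (fun j _ => ?_)
    rw [Finset.mul_sum]
    refine Finset.sum_congr rfl (fun e _ => ?_)
    rw [ha', hb']
    ring
  have hS : ∑ q ∈ Ioc Q (2 * Q), (1 / (q.totient : ℝ)) *
        ∑ χ ∈ prim q, ‖SS (a * b : ArithmeticFunction ℂ) g x χ‖ =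
      ∑ y ∈ X, (1 / (y.1.totient : ℝ)) * ‖SS (a * b : ArithmeticFunction ℂ) g x y.2‖ := by
    rw [hX, Finset.sum_sigma]
    refine Finset.sum_congr rfl (fun q _ => ?_)
    rw [Finset.mul_sum]
  rw [hS]
  set T : ℝ := 1 / (Q : ℝ) + 1 / Real.sqrt U + 1 / Real.sqrt V + Q * x ^ (-σ / 2) with hT
  have hx0 : (0 : ℝ) < x := by linarith
  have hT0 : 0 ≤ T := by
    have := Real.rpow_pos_of_pos hx0 (-σ / 2)
    positivity
  have hblock : ∀ i j : ℕ, ∑ y ∈ X, (1 / (y.1.totient : ℝ)) *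
      ‖BB g x a' b' (2 ^ i * U) (2 ^ j * V) y‖ ≤ H * (C * l * (8 * T)) := by
    intro i j
    have hMU : U ≤ 2 ^ i * U := Nat.le_mul_of_pos_left U (by positivity)
    have hNV : V ≤ 2 ^ j * V := Nat.le_mul_of_pos_left V (by positivity)
    by_cases hMN : 4 * (((2 ^ i * U : ℕ) : ℝ) * ((2 ^ j * V : ℕ) : ℝ)) ≤ x ^ σ
    · have : ∑ y ∈ X, (1 / (y.1.totient : ℝ)) *
          ‖BB g x a' b' (2 ^ i * U) (2 ^ j * V) y‖ = 0 := by
        refine Finset.sum_eq_zero (fun y _ => ?_)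
        rw [BB_zero hg hx (by linarith) a' b' hMN y]
        simp
      rw [this]
      positivity
    · refine (block_main hC hmls hc hinth hrep x hQ (hU.trans hMU) (hV.trans hNV) a' b' l
        (by linarith) ha'1 hb'1).trans ?_
      apply mul_le_mul_of_nonneg_left _ hH0
      have h5 := term_bd (σ := σ) hx hQ hU hV hMU hNV (not_le.1 hMN)
      have h6 : 0 ≤ C * l := by positivity
      calc _ = C * l * ((1 / (Q : ℝ)) * ((1 + 2 * Q / Real.sqrt ((2 ^ i * U : ℕ) : ℝ)) *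
            (1 + 2 * Q / Real.sqrt ((2 ^ j * V : ℕ) : ℝ)))) := by ring
        _ ≤ _ := mul_le_mul_of_nonneg_left h5 h6
  calc ∑ y ∈ X, (1 / (y.1.totient : ℝ)) * ‖SS (a * b : ArithmeticFunction ℂ) g x y.2‖
      ≤ ∑ y ∈ X, ∑ i ∈ range K, ∑ j ∈ range K, (1 / (y.1.totient : ℝ)) *
        ‖BB g x a' b' (2 ^ i * U) (2 ^ j * V) y‖ := by
        refine Finset.sum_le_sum (fun y _ => ?_)
        rw [hSS y]
        simp_rw [← Finset.mul_sum]
        apply mul_le_mul_of_nonneg_left _ (by positivity)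
        exact (norm_sum_le _ _).trans (Finset.sum_le_sum (fun i _ => norm_sum_le _ _))
    _ = ∑ i ∈ range K, ∑ j ∈ range K, ∑ y ∈ X, (1 / (y.1.totient : ℝ)) *
        ‖BB g x a' b' (2 ^ i * U) (2 ^ j * V) y‖ := by
        rw [Finset.sum_comm]
        refine Finset.sum_congr rfl (fun i _ => ?_)
        rw [Finset.sum_comm]
    _ ≤ ∑ i ∈ range K, ∑ j ∈ range K, H * (C * l * (8 * T)) :=
        Finset.sum_le_sum (fun i _ => Finset.sum_le_sum (fun j _ => hblock i j))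
    _ = (K : ℝ) * ((K : ℝ) * (H * (C * l * (8 * T)))) := by
        simp [Finset.sum_const, nsmul_eq_mul]
    _ ≤ (3 * l) * ((3 * l) * (H * (C * l * (8 * T)))) := by
        have hE : 0 ≤ H * (C * l * (8 * T)) := by positivity
        apply mul_le_mul hKl _ (by positivity) (by positivity)
        exact mul_le_mul_of_nonneg_right hKl hE
    _ = 72 * (H * C) * l ^ 3 * T := by ring
    _ ≤ (72 * (H * C) + 1) * l ^ 4 * T := by
        apply mul_le_mul_of_nonneg_right _ hT0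
        have h7 : l ^ 3 ≤ l ^ 4 := pow_le_pow_right₀ hl1 (by norm_num)
        have h8 : 0 ≤ l ^ 4 := by positivity
        have h9 : 0 ≤ 72 * (H * C) := by positivity
        nlinarith [mul_le_mul_of_nonneg_left h7 h9]

end Pool.Agent.Helper34.CA
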